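import Pool.Agent.H327R4.Pure.Stubs3

/-!
# Toms-Winter: strict comparison, nuclearity and uniform property Gamma: definitions
-/

set_option autoImplicit false

namespace Pool.Agent.H667R5.TW

open Pool.Agent.H327R4.Pure
open scoped CStarAlgebra ComplexOrder Matrix

universe u v

section

variable {A : Type u} [CStarAlgebra A] [PartialOrder A] [StarOrderedRing A]

/-- real part of the trace -/
noncomputable def tr (T : TS A) (x : A) : ℝ := (T.1.f x).re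

/-- the square of the 2-norm: `‖x‖_{2,T}^2 = T(x^*x)` -/
noncomputable def n2 (T : TS A) (x : A) : ℝ := (T.1.f (star x * x)).re

/-- `P i j = φ(e_ij)` for a completely positive map `φ : M_n → A`. -/
def IsCP {n : ℕ} (P : Fin n → Fin n → A) : Prop :=
  ∃ (R : ℕ) (w : Fin R → Fin n → A), ∀ i j, P i j = ∑ r, w r i * star (w r j)

/-- `φ(1) = ∑ φ(e_ii)` -/
def dsum {n : ℕ} (P : Fin n → Fin n → A) : A := ∑ i, P i i

/-- the multiplicativity defect `∑_{ij} τ(φ(e_ji e_ij) - φ(e_ij)^*φ(e_ij))` -/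
noncomputable def defect {n : ℕ} (T : TS A) (P : Fin n → Fin n → A) : ℝ :=
  n * tr T (dsum P) - ∑ i, ∑ j, n2 T (P i j)

end

/-- nuclear C*-algebra, as the completely positive approximation property: the identity is a
point-norm limit of completely positive contractions factoring through matrix algebras. -/
def NuclearC (A : Type u) [CStarAlgebra A] [PartialOrder A] [StarOrderedRing A] : Prop :=
  ∀ (F : Finset A) (ε : ℝ), 0 < ε → ∃ (k : ℕ) (ψ : A →CP CStarMatrix (Fin k) (Fin k) ℂ)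
    (φ : CStarMatrix (Fin k) (Fin k) ℂ →CP A),
    (∀ x, ‖ψ x‖ ≤ ‖x‖) ∧ (∀ y, ‖φ y‖ ≤ ‖y‖) ∧ ∀ x ∈ F, ‖φ (ψ x) - x‖ ≤ ε

/-- uniform McDuff property for `M_n`: there are completely positive maps `φ : M_n → A`
(`P i j = φ(e_ij)`) which are approximately unital, multiplicative and central in the 2-norm,
uniformly over all tracial states. -/
def UMcD (A : Type u) [CStarAlgebra A] [PartialOrder A] [StarOrderedRing A] (n : ℕ) : Prop :=
  ∀ (X : Finset A) (ε : ℝ), 0 < ε → ∃ P : Fin n → Fin n → A, IsCP P ∧ dsum P ≤ 1 ∧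
    ∀ T : TS A, tr T (1 - dsum P) ≤ ε ∧ defect T P ≤ ε ∧
      ∀ x ∈ X, ∀ i j, n2 T (x * P i j - P i j * x) ≤ ε

/-- uniform property Gamma: central partitions of unity into `n` projections of trace `1/n`
in the uniform tracial ultrapower (local form). -/
def UGamma (A : Type u) [CStarAlgebra A] [PartialOrder A] [StarOrderedRing A] : Prop :=
  ∀ (n : ℕ), 1 ≤ n → ∀ (X : Finset A) (ε : ℝ), 0 < ε → ∃ p : Fin n → A,
    (∀ i, 0 ≤ p i) ∧ ∑ i, p i ≤ 1 ∧ ∀ T : TS A,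
      tr T (1 - ∑ i, p i) ≤ ε ∧ (∀ i, tr T (p i - p i * p i) ≤ ε) ∧
      (∀ i j, i ≠ j → n2 T (p i * p j) ≤ ε) ∧
      ∀ x ∈ X, ∀ i, n2 T (x * p i - p i * x) ≤ ε ∧ ‖T.1.f (x * p i) - T.1.f x / n‖ ≤ ε

/-- the Rørdam-Winter relations: for every `n` the dimension drop algebra `Z_{n,n+1}` maps
unitally into the central sequence algebra of `A` (local form). For separable unital `A` this is
equivalent to `A ≅ A ⊗ Z`. -/
def RWZ (A : Type u) [CStarAlgebra A] [PartialOrder A] [StarOrderedRing A] : Prop :=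
  ∀ (n : ℕ) (X : Finset A) (ε : ℝ), 0 < ε → ∃ (c : Fin (n + 1) → A) (s : A),
    0 ≤ c 0 ∧ (∀ i j, ‖c i * star (c j) - (if i = j then c 0 * c 0 else 0)‖ ≤ ε) ∧
    ‖∑ i, star (c i) * c i + star s * s - 1‖ ≤ ε ∧ ‖c 0 * s - s‖ ≤ ε ∧
    ∀ x ∈ X, ‖s * x - x * s‖ ≤ ε ∧ ∀ i, ‖c i * x - x * c i‖ ≤ ε

/-! ### blocks -/

/-- a block: `b_1, ..., b_N` and matrices `y^x` with (approximately) `b_k^* b_l = δ_kl` and
`x b_l = ∑_k y^x_kl b_k` -/
structure Blk (A : Type u) where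
  /-- the size -/
  N : ℕ
  /-- the vectors -/
  b : Fin N → A
  /-- the matrices -/
  y : A → Matrix (Fin N) (Fin N) ℂ

section

variable {A : Type u} [CStarAlgebra A] [PartialOrder A] [StarOrderedRing A]

/-- `b_k^* b_l - δ_kl` -/
noncomputable def Blk.g (β : Blk A) (k l : Fin β.N) : A :=
  star (β.b k) * β.b l - (if k = l then 1 else 0)

/-- `x b_l - ∑_k y^x_kl b_k` -/
noncomputable def Blk.e (β : Blk A) (x : A) (l : Fin β.N) : A :=
  x * β.b l - ∑ k, β.y x k l • β.b k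

/-- validity of a block over `X` -/
def Blk.Valid (X : Finset A) (β : Blk A) : Prop :=
  0 < β.N ∧ ∀ x ∈ X, β.y (star x) = (β.y x)ᴴ ∧ (1 - β.y x * (β.y x)ᴴ).PosSemidef

/-- the defect operator of a block -/
noncomputable def Blk.R (W : ℝ) (X : Finset A) (β : Blk A) : A :=
  W • (((β.N : ℝ) ^ 2) • (∑ k, ∑ l, star (β.g k l) * β.g k l) +
    (1 / (β.N : ℝ)) • (∑ x ∈ X, ∑ l, star (β.e x l) * β.e x l))

/-- `(1 - S)_+` -/
noncomputable def cc (S : A) : A := cfc (fun t : ℝ => max (1 - t) 0) S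

/-- `∑_l b_l^* V b_l` -/
noncomputable def Blk.pen (β : Blk A) (V : A) : A := ∑ l, star (β.b l) * V * β.b l

/-- the mass `N τ((1-R)_+)` of a block -/
noncomputable def Blk.mass (W : ℝ) (X : Finset A) (β : Blk A) (T : TS A) : ℝ :=
  β.N * tr T (cc (β.R W X))

/-- the element `∑_l b_l z b_l^*` -/
noncomputable def Blk.amp (β : Blk A) (z : A) : A := ∑ l, β.b l * z * star (β.b l)

/-- `s_ij = ∑_l b_l u_i u_j^* b_l^*` -/
noncomputable def Blk.s0 (β : Blk A) {n : ℕ} (u : Fin n → A) (i j : Fin n) : A :=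
  β.amp (u i * star (u j))

/-- local matrix units `u_i` under the defect operator `S`: `u_i^*u_j = δ_ij e`,
`u_i^* S u_i ≤ e`. -/
structure IsLoc {n : ℕ} (S : A) (u : Fin n → A) (e : A) : Prop where
  e0 : 0 ≤ e
  e1 : e ≤ 1
  orth : ∀ i j, star (u i) * u j = if i = j then e else 0
  le : ∀ i, star (u i) * S * u i ≤ e

/-- `∑_ij ‖[x, P_ij]‖_2^2` -/
noncomputable def comm {n : ℕ} (T : TS A) (P : Fin n → Fin n → A) (x : A) : ℝ :=
  ∑ i, ∑ j, n2 T (x * P i j - P i j * x)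

end

/-- tiny approximately central systems of matrix units -/
def Tiny (A : Type u) [CStarAlgebra A] [PartialOrder A] [StarOrderedRing A] (n : ℕ) : Prop :=
  ∀ ε : ℝ, 0 < ε → ∃ m0 : ℝ, 0 < m0 ∧ ∀ m : ℝ, 0 < m → m ≤ m0 → ∀ X : Finset A,
    (∀ x ∈ X, ‖x‖ ≤ 1) → ∃ Q : Fin n → Fin n → A, IsCP Q ∧ dsum Q ≤ 1 ∧ ∀ T : TS A,
      (∀ x ∈ X, ∀ i j,
        ‖T.1.f (x * Q i j) - (if i = j then ((m / n : ℝ) : ℂ) * T.1.f x else 0)‖ ≤ ε * m ∧
        n2 T (x * Q i j - Q i j * x) ≤ ε * m) ∧ defect T Q ≤ ε * m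

/-- block data for `A`, uniform over all traces -/
def HasData (A : Type u) [CStarAlgebra A] [PartialOrder A] [StarOrderedRing A] : Prop :=
  ∀ (X : Finset A) (W κ : ℝ), (∀ x ∈ X, ‖x‖ ≤ 1 ∧ star x ∈ X) → 1 ≤ W → 0 < κ →
    ∃ (M : ℕ) (w : Fin M → ℝ) (β : Fin M → Blk A),
      (∀ s, 0 ≤ w s ∧ w s ≤ 1 ∧ (β s).Valid X) ∧ ∑ s, w s • (β s).amp 1 ≤ 1 ∧
      ∀ T : TS A, 1 - κ ≤ ∑ s, w s * (β s).mass W X T

/-- the constant in the block estimates -/
noncomputable def Cn (n : ℕ) : ℝ := 1000 * ((n : ℝ) + 1) ^ 3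

end Pool.Agent.H667R5.TW
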