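import Pool.Agent.H667R5.TW.Defs

set_option autoImplicit false

namespace Pool.Agent.H667R5.TW

open Pool.Agent.H327R4.Pure
open scoped CStarAlgebra ComplexOrder Matrix

universe u v

/-! ## basics -/

/-- BAS: basic facts on tracial states -/
def StBAS : Prop := ∀ (A : Type u) [CStarAlgebra A] [PartialOrder A] [StarOrderedRing A] (T : TS A),
  (∀ x y : A, x ≤ y → tr T x ≤ tr T y) ∧
  (∀ x y : A, ‖T.1.f (star x * y)‖ ^ 2 ≤ n2 T x * n2 T y) ∧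
  (∀ x y : A, n2 T (x * y) ≤ ‖x‖ ^ 2 * n2 T y ∧ n2 T (x * y) ≤ ‖y‖ ^ 2 * n2 T x) ∧
  (∀ x : A, n2 T (star x) = n2 T x ∧ 0 ≤ n2 T x ∧ n2 T x ≤ ‖x‖ ^ 2 ∧ ‖T.1.f x‖ ≤ ‖x‖) ∧
  (∀ x y : A, √(n2 T (x + y)) ≤ √(n2 T x) + √(n2 T y)) ∧
  (∀ x y : A, 0 ≤ x → 0 ≤ y → 0 ≤ tr T (x * y)) ∧
  (∀ x y z : A, x ≤ y → tr T (star z * x * z) ≤ tr T (star z * y * z)) ∧
  (∀ x : A, T.1.f (star x) = star (T.1.f x)) ∧
  (∀ x : A, IsSelfAdjoint x → T.1.f x = ((tr T x : ℝ) : ℂ))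

/-- CPB: basic facts on `IsCP` -/
def StCPB : Prop := ∀ (A : Type u) [CStarAlgebra A] [PartialOrder A] [StarOrderedRing A] (n : ℕ),
  (∀ F G : Fin n → Fin n → A, IsCP F → IsCP G → IsCP (fun i j => F i j + G i j)) ∧
  (∀ (F : Fin n → Fin n → A) (z : A), IsCP F → IsCP (fun i j => z * F i j * star z)) ∧
  (∀ (F : Fin n → Fin n → A) (r : ℝ), 0 ≤ r → IsCP F → IsCP (fun i j => r • F i j)) ∧
  IsCP (fun _ _ : Fin n => (0 : A)) ∧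
  (∀ (β : Blk A) (u : Fin n → A), IsCP (β.s0 u)) ∧
  (∀ P : Fin n → Fin n → A, IsCP P → (∀ i j, star (P i j) = P j i) ∧ (∀ i, 0 ≤ P i i) ∧
    0 ≤ dsum P ∧ (dsum P ≤ 1 → ∀ i j, star (P i j) * P i j ≤ P j j))

/-- CSM: module Cauchy-Schwarz inequality -/
def StCSM : Prop := ∀ (A : Type u) [CStarAlgebra A] [PartialOrder A] [StarOrderedRing A] (m : ℕ)
  (a w : Fin m → A) (K : ℝ), 0 < K → ∑ l, w l * star (w l) ≤ K • 1 →
    (∑ l, a l * star (w l)) * star (∑ l, a l * star (w l)) ≤ K • ∑ l, a l * star (a l)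

/-- GN: norm of an almost orthogonal sum -/
def StGN : Prop := ∀ (A : Type u) [CStarAlgebra A] [PartialOrder A] [StarOrderedRing A] (m : ℕ)
  (b : Fin m → A) (e : Fin m → A) (E : Fin m → Fin m → A) (ρ : ℝ), 0 ≤ ρ →
    (∀ a, 0 ≤ e a ∧ e a ≤ 1) →
    (∀ a a', star (b a) * b a' = (if a = a' then e a else 0) + E a a') →
    (∀ a, ∑ a', ‖E a a'‖ ≤ ρ) → ∑ a, b a * star (b a) ≤ (1 + ρ) • 1

/-- LN: contractive scalar matrices act contractively for the 2-norm -/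
def StLN : Prop := ∀ (A : Type u) [CStarAlgebra A] [PartialOrder A] [StarOrderedRing A] (T : TS A)
  (N : ℕ) (y : Matrix (Fin N) (Fin N) ℂ) (w : Fin N → A), (1 - y * yᴴ).PosSemidef →
    ∑ l, n2 T (∑ k, y k l • w k) ≤ ∑ k, n2 T (w k)

/-! ## strict comparison -/

/-- CUT: the cut-off `(1-S)_+` -/
def StCUT : Prop := ∀ (A : Type u) [CStarAlgebra A] [PartialOrder A] [StarOrderedRing A] (S Q : A),
  0 ≤ S → 0 ≤ Q → 0 ≤ cc S ∧ cc S ≤ 1 ∧ 1 - S ≤ cc S ∧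
    CFC.sqrt (cc S) * S * CFC.sqrt (cc S) ≤ cc S ∧
    ∀ T : TS A, tr T (cc (S + Q)) ≤ tr T (cc S) ∧ tr T (cc S) - tr T (cc (S + Q)) ≤ tr T Q ∧
      ∀ q : A, 0 ≤ q → q ≤ 1 → tr T q - tr T (q * S) ≤ tr T (cc S)

/-- TH1: traces of positive elements are traces of almost projections of controlled rank -/
def StTH1 : Prop := ∀ (A : Type u) [CStarAlgebra A] [PartialOrder A] [StarOrderedRing A],
  SimpleC A → ¬ FiniteDimensional ℂ A → ∀ (h : A) (δ : ℝ), 0 ≤ h → 0 < δ →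
    ∃ (K : ℕ) (a : Fin K → A), (∀ j, 0 ≤ a j ∧ a j ≤ 1) ∧ ∀ T : TS A,
      |∑ j, tr T (a j) - tr T h| ≤ δ ∧ ∑ j, (tr T (a j) - tr T (a j * a j)) ≤ δ ∧
      ∑ j, rk T.1 (a j) ≤ tr T h

/-- RW: strict comparison gives orthogonal rows below `c` -/
def StRW : Prop := ∀ (A : Type u) [CStarAlgebra A] [PartialOrder A] [StarOrderedRing A],
  SC A → ∀ (n K : ℕ) (a : Fin K → A) (c : A) (ε : ℝ), (∀ j, 0 ≤ a j) → 0 ≤ c → c ≠ 0 → 0 < ε →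
    (∀ T : TS A, (n : ℝ) * ∑ j, rk T.1 (a j) < rk T.1 c) →
    ∃ v z : Fin n → Fin K → A, (∀ i k, v i k = CFC.sqrt c * z i k) ∧
      ∀ i k j l, star (v i k) * v j l = if i = j ∧ k = l then cut ε (a k) else 0

/-- LOC: small matrix units in hereditary subalgebras -/
def StLOC : Prop := ∀ (A : Type u) [CStarAlgebra A] [PartialOrder A] [StarOrderedRing A],
  SimpleC A → ¬ FiniteDimensional ℂ A → SC A → ∀ (n : ℕ) (c : A) (μ δ : ℝ), 1 ≤ n → 0 ≤ c →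
    c ≤ 1 → 0 < μ → μ ≤ 1 / 2 → 0 < δ → ∃ (u z : Fin n → A) (e : A), 0 ≤ e ∧ e ≤ 1 ∧
      (∀ i j, star (u i) * u j = if i = j then e else 0) ∧ (∀ i, u i = CFC.sqrt c * z i) ∧
      ∀ T : TS A, |n * tr T e - μ * tr T c| ≤ δ ∧ tr T e - tr T (e * e) ≤ δ

/-! ## one block -/

/-- S0: norm and trace of the amplification -/
def StS0 : Prop := ∀ (A : Type u) [CStarAlgebra A] [PartialOrder A] [StarOrderedRing A] (n : ℕ)
  (X : Finset A) (W : ℝ) (β : Blk A) (u : Fin n → A) (e : A), 1 ≤ W → (n : ℝ) ^ 2 ≤ W →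
    0 < β.N → IsLoc (β.R W X) u e →
    dsum (β.s0 u) ≤ (1 + n / √W) • 1 ∧ (∀ i, β.s0 u i i ≤ (2 : ℝ) • 1) ∧
    (∀ k l i, ‖β.g k l * u i‖ ≤ 1 / (√W * β.N)) ∧
    (∀ i, ∑ k, ∑ l, star (β.g k l * u i) * (β.g k l * u i) ≤ (1 / (W * (β.N : ℝ) ^ 2)) • e) ∧
    (∀ x ∈ X, ∀ i, ∑ l, star (β.e x l * u i) * (β.e x l * u i) ≤ ((β.N : ℝ) / W) • e) ∧
    ∀ (T : TS A) (i : Fin n), |tr T (β.s0 u i i) - β.N * tr T e| ≤ 1 / √W * (β.N * tr T e) ∧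
      ∑ l, n2 T (β.b l * u i) = tr T (β.s0 u i i) ∧ ∑ l, n2 T (β.b l * u i) ≤ 2 * (β.N * tr T e)

/-- S1: traces of the amplification -/
def StS1 : Prop := ∀ (A : Type u) [CStarAlgebra A] [PartialOrder A] [StarOrderedRing A] (n : ℕ)
  (X : Finset A) (W : ℝ) (β : Blk A) (u : Fin n → A) (e : A), 1 ≤ W → (n : ℝ) ^ 2 ≤ W →
    β.Valid X → IsLoc (β.R W X) u e → ∀ (T : TS A), ∀ x ∈ X, ∀ i j,
      ‖T.1.f (x * β.s0 u i j) - (if i = j then (β.y x).trace * ((tr T e : ℝ) : ℂ) else 0)‖ ≤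
        4 / √W * (β.N * tr T e)

/-- S2: commutators with the amplification -/
def StS2 : Prop := ∀ (A : Type u) [CStarAlgebra A] [PartialOrder A] [StarOrderedRing A] (n : ℕ)
  (X : Finset A) (W : ℝ) (β : Blk A) (u : Fin n → A) (e : A), 1 ≤ W → (n : ℝ) ^ 2 ≤ W →
    β.Valid X → IsLoc (β.R W X) u e → ∀ (T : TS A), ∀ x ∈ X, star x ∈ X → ∀ i j,
      n2 T (x * β.s0 u i j - β.s0 u i j * x) ≤ 8 / W * (β.N * tr T e)

/-- S3: the amplification is almost orthogonal to the penalised element `V` -/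
def StS3 : Prop := ∀ (A : Type u) [CStarAlgebra A] [PartialOrder A] [StarOrderedRing A] (n : ℕ)
  (X : Finset A) (W lam : ℝ) (β : Blk A) (u : Fin n → A) (e V : A), 1 ≤ W → (n : ℝ) ^ 2 ≤ W →
    0 < β.N → IsLoc (β.R W X) u e → 0 ≤ V → V ≤ 1 → 0 < lam → lam ≤ 1 →
    (∀ i, ∑ l, star (β.b l * u i) * V * (β.b l * u i) ≤ (lam * β.N) • e) →
    ∀ (T : TS A) (i j : Fin n), n2 T (V * β.s0 u i j) ≤ 2 * lam * (β.N * tr T e) ∧
      n2 T (β.s0 u i j * V) ≤ 2 * lam * (β.N * tr T e) ∧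
      n2 T (β.s0 u i j) ≤ 4 * (β.N * tr T e) ∧
      ∀ x : A, ‖x‖ ≤ 1 → ‖T.1.f (x * ((1 - V) * β.s0 u i j * (1 - V))) - T.1.f (x * β.s0 u i j)‖ ≤
        4 * √lam * (β.N * tr T e)

/-- S4: cross terms -/
def StS4 : Prop := ∀ (A : Type u) [CStarAlgebra A] [PartialOrder A] [StarOrderedRing A] (n : ℕ)
  (X : Finset A) (W lam : ℝ) (β : Blk A) (u : Fin n → A) (e V : A), 1 ≤ W → (n : ℝ) ^ 2 ≤ W →
    β.Valid X → IsLoc (β.R W X) u e → 0 ≤ V → V ≤ 1 → 0 < lam → lam ≤ 1 →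
    (∀ i, ∑ l, star (β.b l * u i) * V * (β.b l * u i) ≤ (lam * β.N) • e) →
    ∀ (T : TS A) (G z1 : A), star G * G ≤ V → ‖z1‖ ≤ 1 → ∀ z ∈ X, ‖z‖ ≤ 1 → ∀ i j,
      ‖T.1.f (z1 * G * z * ((1 - V) * β.s0 u i j * (1 - V)))‖ ≤
        4 * (√lam + 1 / √W) * (β.N * tr T e)

/-- S5: the amplification is almost multiplicative -/
def StS5 : Prop := ∀ (A : Type u) [CStarAlgebra A] [PartialOrder A] [StarOrderedRing A] (n : ℕ)
  (X : Finset A) (W : ℝ) (β : Blk A) (u : Fin n → A) (e : A), 1 ≤ W → (n : ℝ) ^ 2 ≤ W →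
    0 < β.N → IsLoc (β.R W X) u e → ∀ (T : TS A) (i j : Fin n),
      β.N * tr T (e * e) - 3 / √W * (β.N * tr T e) ≤ n2 T (β.s0 u i j)

/-- BSTEP: adding one block -/
def StBSTEP : Prop := ∀ (A : Type u) [CStarAlgebra A] [PartialOrder A] [StarOrderedRing A],
  SimpleC A → ¬ FiniteDimensional ℂ A → SC A → ∀ (n : ℕ) (X X' : Finset A) (W lam μ δ : ℝ)
    (β : Blk A) (F : Fin n → Fin n → A), 1 ≤ n → (∀ x ∈ X', ‖x‖ ≤ 1 ∧ star x ∈ X') → 1 ∈ X' →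
    (∀ x ∈ X, x ∈ X' ∧ star x * x ∈ X' ∧ x * star x ∈ X') → 1 ≤ W → (n : ℝ) ^ 2 ≤ W →
    0 < lam → lam ≤ 1 → 0 < μ → μ ≤ 1 / 2 → 0 < δ → β.Valid X' → IsCP F → dsum F ≤ 1 →
    ∃ s : Fin n → Fin n → A, IsCP s ∧ dsum F + dsum s ≤ 1 ∧ ∀ T : TS A,
      (∀ x ∈ X', ∀ i j, ‖T.1.f (x * s i j) - (if i = j then
          ((μ / n : ℝ) : ℂ) * ((β.y x).trace * ((tr T (cc (β.R W X')) : ℝ) : ℂ)) else 0)‖ ≤
        Cn n * (√lam + 1 / √W) * (μ * β.mass W X' T) + μ / lam * tr T (β.pen (dsum F)) + δ) ∧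
      (∀ x ∈ X, ∀ i j, n2 T (x * (F i j + s i j) - (F i j + s i j) * x) ≤
        n2 T (x * F i j - F i j * x) + Cn n * (√lam + 1 / √W) * (μ * β.mass W X' T) + δ) ∧
      defect T (fun i j => F i j + s i j) ≤
        defect T F + Cn n * (√lam + 1 / √W) * (μ * β.mass W X' T) + δ ∧
      tr T (dsum s) ≤ 2 * (μ * β.mass W X' T) + δ

/-- MULTI: all blocks -/
def StMULTI : Prop := ∀ (A : Type u) [CStarAlgebra A] [PartialOrder A] [StarOrderedRing A],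
  SimpleC A → ¬ FiniteDimensional ℂ A → SC A → ∀ (n : ℕ) (X X' : Finset A) (W lam m δ : ℝ)
    (M : ℕ) (w : Fin M → ℝ) (β : Fin M → Blk A), 1 ≤ n → (∀ x ∈ X', ‖x‖ ≤ 1 ∧ star x ∈ X') →
    1 ∈ X' → (∀ x ∈ X, x ∈ X' ∧ star x * x ∈ X' ∧ x * star x ∈ X') → 1 ≤ W →
    (n : ℝ) ^ 2 ≤ W → 0 < lam → lam ≤ 1 → 0 < m → m ≤ 1 / 2 → 0 < δ →
    (∀ s, 0 ≤ w s ∧ w s ≤ 1 ∧ (β s).Valid X') →
    ∃ F : Fin n → Fin n → A, IsCP F ∧ dsum F ≤ 1 ∧ ∀ T : TS A,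
      (∀ x ∈ X', ∀ i j, ‖T.1.f (x * F i j) - (if i = j then ((m / n : ℝ) : ℂ) *
          ∑ s, ((w s : ℝ) : ℂ) * (((β s).y x).trace * ((tr T (cc ((β s).R W X')) : ℝ) : ℂ))
          else 0)‖ ≤ Cn n * (√lam + 1 / √W) * (m * ∑ s, w s * (β s).mass W X' T) +
            m / lam * ∑ s, w s * tr T ((β s).pen (dsum F)) + δ) ∧
      (∀ x ∈ X, ∀ i j, n2 T (x * F i j - F i j * x) ≤
        Cn n * (√lam + 1 / √W) * (m * ∑ s, w s * (β s).mass W X' T) + δ) ∧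
      defect T F ≤ Cn n * (√lam + 1 / √W) * (m * ∑ s, w s * (β s).mass W X' T) + δ ∧
      tr T (dsum F) ≤ 2 * (m * ∑ s, w s * (β s).mass W X' T) + δ

/-- DTR: the trace formula for block data -/
def StDTR : Prop := ∀ (A : Type u) [CStarAlgebra A] [PartialOrder A] [StarOrderedRing A]
  (X : Finset A) (W κ : ℝ) (M : ℕ) (w : Fin M → ℝ) (β : Fin M → Blk A),
    (∀ x ∈ X, ‖x‖ ≤ 1) → 4 ≤ W → 0 < κ → (∀ s, 0 ≤ w s ∧ (β s).Valid X) →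
    ∑ s, w s • (β s).amp 1 ≤ 1 → ∀ T : TS A, 1 - κ ≤ ∑ s, w s * (β s).mass W X T →
      ∑ s, w s * (β s).mass W X T ≤ 2 ∧ ∀ x ∈ X,
        ‖T.1.f x - ∑ s, ((w s : ℝ) : ℂ) * (((β s).y x).trace *
          ((tr T (cc ((β s).R W X)) : ℝ) : ℂ))‖ ≤ κ + 10 / √W

/-- TINY -/
def StTINY : Prop := ∀ (A : Type u) [CStarAlgebra A] [PartialOrder A] [StarOrderedRing A],
  SimpleC A → ¬ FiniteDimensional ℂ A → SC A → HasData A → ∀ n : ℕ, 1 ≤ n → Tiny A n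

/-! ## iteration -/

/-- STEP1: one step of the iteration -/
def StSTEP1 : Prop := ∀ (A : Type u) [CStarAlgebra A] [PartialOrder A] [StarOrderedRing A]
  (n : ℕ), 1 ≤ n → Tiny A n → ∀ ε : ℝ, 0 < ε → ε ≤ 1 → ∃ m0 : ℝ, 0 < m0 ∧ ∀ m : ℝ, 0 < m →
    m ≤ m0 → ∀ X : Finset A, (∀ x ∈ X, ‖x‖ ≤ 1) → ∀ P : Fin n → Fin n → A, IsCP P →
    dsum P ≤ 1 → ∃ P' : Fin n → Fin n → A, IsCP P' ∧ dsum P' ≤ 1 ∧ ∀ T : TS A,
      tr T (1 - dsum P') ≤ (1 - m) * tr T (1 - dsum P) + m * defect T P + ε * m ∧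
      defect T P' ≤ (1 + 2 * n * m) * defect T P + ε * m ∧
      ∀ x ∈ X, comm T P' x ≤ (1 + 10 * (n : ℝ) ^ 2 * m) * comm T P x + ε * m

/-- IT: the iteration -/
def StIT : Prop := ∀ (A : Type u) [CStarAlgebra A] [PartialOrder A] [StarOrderedRing A]
  (n : ℕ), 1 ≤ n → Tiny A n → UMcD A n

/-- UG: uniform McDuff implies uniform property Gamma -/
def StUG : Prop := ∀ (A : Type u) [CStarAlgebra A] [PartialOrder A] [StarOrderedRing A],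
  (∀ n : ℕ, 1 ≤ n → UMcD A n) → UGamma A

/-! ## nuclearity: block data -/

/-- FAM: the family coming from a completely positive factorisation -/
def StFAM : Prop := ∀ (A : Type u) [CStarAlgebra A] [PartialOrder A] [StarOrderedRing A],
  NuclearC A → ∀ (X : Finset A) (ε : ℝ), (∀ x ∈ X, ‖x‖ ≤ 1 ∧ star x ∈ X) → 0 < ε →
    ∃ (p : ℕ) (b : Fin p → A) (Y : A → Matrix (Fin p) (Fin p) ℂ),
      ∑ a, b a * star (b a) ≤ 1 ∧ (∀ x ∈ X, Y (star x) = (Y x)ᴴ ∧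
        (1 - Y x * (Y x)ᴴ).PosSemidef) ∧
      ∀ T : TS A, 1 - ε ≤ tr T (∑ a, b a * star (b a)) ∧
        ∀ x ∈ X, ∑ a, n2 T (x * b a - ∑ g, Y x g a • b g) ≤ ε

/-- REF: spectral refinement of a piece -/
def StREF : Prop := ∀ ϑ : ℝ, 0 < ϑ → ∃ (C : ℝ) (J : ℕ), 0 ≤ C ∧ ∀ (A : Type u) [CStarAlgebra A]
  [PartialOrder A] [StarOrderedRing A] (T : TS A) (a z : A), ‖a‖ ≤ 1 → IsSelfAdjoint z →
    ‖z‖ ≤ 1 → ∃ (f : Fin J → A) (r : Fin J → ℝ), (∀ m, 0 ≤ f m ∧ f m ≤ 1 ∧ |r m| ≤ 1) ∧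
      ∑ m, f m * f m ≤ 1 ∧
      tr T (star a * a) - ∑ m, tr T (star (a * f m) * (a * f m)) ≤ ϑ * tr T (star a * a) +
        C * (tr T (star a * a) - tr T (star a * a * (star a * a))) ∧
      ∑ m, (tr T (star (a * f m) * (a * f m)) - tr T (star (a * f m) * (a * f m) *
          (star (a * f m) * (a * f m)))) ≤ ϑ * tr T (star a * a) +
        C * (tr T (star a * a) - tr T (star a * a * (star a * a))) ∧
      ∑ m, n2 T (star (a * f m) * z * (a * f m) - r m • (star (a * f m) * (a * f m))) ≤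
        ϑ * tr T (star a * a) + C * (tr T (star a * a) - tr T (star a * a * (star a * a)))

/-- EXC: excision of a trace on finitely many elements by a partition of unity -/
def StEXC : Prop := ∀ (A : Type u) [CStarAlgebra A] [PartialOrder A] [StarOrderedRing A]
  (T : TS A) (p : ℕ) (z : Fin p → A) (η : ℝ), (∀ i, IsSelfAdjoint (z i) ∧ ‖z i‖ ≤ 1) → 0 < η →
    ∃ (K : ℕ) (a : Fin K → A) (ρ : Fin K → Fin p → ℝ), (∀ k i, |ρ k i| ≤ 1) ∧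
      ∑ k, a k * star (a k) ≤ 1 ∧ 1 - η ≤ ∑ k, tr T (star (a k) * a k) ∧
      ∑ k, (tr T (star (a k) * a k) - tr T (star (a k) * a k * (star (a k) * a k))) ≤ η ∧
      ∀ i, ∑ k, n2 T (star (a k) * z i * a k - ρ k i • (star (a k) * a k)) ≤ η

/-- RQ: from the 2-norm to the trace -/
def StRQ : Prop := ∀ (A : Type u) [CStarAlgebra A] [PartialOrder A] [StarOrderedRing A]
  (T : TS A) (a y : A) (c : ℂ) (θ t : ℝ), ‖a‖ ≤ 1 → ‖y‖ ≤ 1 → ‖c‖ ≤ 2 → 0 ≤ θ →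
    t = tr T (star a * a) → n2 T (star a * y * a - c • (star a * a)) ≤ θ * t →
    t - tr T (star a * a * (star a * a)) ≤ θ * t →
    ‖T.1.f (star a * y * a) - c * ((t : ℝ) : ℂ)‖ ≤ 4 * √θ * t

/-- LAY: layer cake for a finite sequence -/
def StLAY : Prop := ∀ (p : ℕ) (c : Fin p → ℝ) (σ : ℝ), ∃ (M : ℕ) (w : Fin M → ℝ)
  (E : Fin M → Finset (Fin p)), (∀ s, 0 ≤ w s ∧ (E s).Nonempty ∧ ∀ l ∈ E s, σ < c l) ∧
    (∀ l, ∑ s, (if l ∈ E s then w s else 0) = max (c l - σ) 0) ∧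
    ∀ l l', ∑ s, (if l ∈ E s ∧ l' ∉ E s then w s else 0) =
      max (max (c l - σ) 0 - max (c l' - σ) 0) 0

/-- ERR: the averaged error of the spectral cuts -/
def StERR : Prop := ∀ (p : ℕ) (σ η : ℝ), 0 < σ → 0 < η → η ≤ 1 → ∃ C : ℝ, 0 ≤ C ∧
  ∀ (A : Type u) [CStarAlgebra A] [PartialOrder A] [StarOrderedRing A] (T : TS A) (x : A)
    (v : Fin p → A) (Y : Matrix (Fin p) (Fin p) ℂ) (c : Fin p → ℝ) (t θ ε : ℝ) (M : ℕ)
    (w : Fin M → ℝ) (E : Fin M → Finset (Fin p)),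
    (∀ s, 0 ≤ w s ∧ (E s).Nonempty ∧ ∀ l ∈ E s, σ < c l) →
    (∀ l, ∑ s, (if l ∈ E s then w s else 0) = max (c l - σ) 0) →
    (∀ l l', ∑ s, (if l ∈ E s ∧ l' ∉ E s then w s else 0) =
      max (max (c l - σ) 0 - max (c l' - σ) 0) 0) →
    (1 - Y * Yᴴ).PosSemidef → (1 - Yᴴ * Y).PosSemidef → (∀ l, |c l| ≤ 2 * p) → 0 ≤ t → 0 ≤ θ → θ ≤ 1 → 0 ≤ ε →
    (∀ k l, ‖T.1.f (star (v k) * v l) - (if k = l then ((c l * t : ℝ) : ℂ) else 0)‖ ≤ θ * t) →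
    ∑ l, n2 T (x * v l - ∑ k, Y k l • v k) ≤ ε * t →
    ∑ l, n2 T (star x * v l - ∑ k, (Yᴴ) k l • v k) ≤ ε * t →
    ∑ s, w s * ∑ l ∈ E s, n2 T ((1 / √(c l)) • (x * v l) -
        ∑ k ∈ E s, Y k l • ((1 / √(c k)) • v k)) ≤
      (12 * η * ∑ l, c l + 15 / η * ε + C * θ) * t

/-- PIECE: block data from one excised piece -/
def StPIECE : Prop := ∀ (A : Type u) [CStarAlgebra A] [PartialOrder A] [StarOrderedRing A]
  (p : ℕ) (X : Finset A) (W σ η : ℝ), (∀ x ∈ X, ‖x‖ ≤ 1 ∧ star x ∈ X) → 1 ≤ W → 0 < σ →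
    0 < η → η ≤ 1 → ∃ C : ℝ, 0 ≤ C ∧ ∀ (T : TS A) (b : Fin p → A)
    (Y : A → Matrix (Fin p) (Fin p) ℂ) (a : A) (c : Matrix (Fin p) (Fin p) ℂ) (θ ε t : ℝ),
    ∑ g, b g * star (b g) ≤ 1 →
    (∀ x ∈ X, Y (star x) = (Y x)ᴴ ∧ (1 - Y x * (Y x)ᴴ).PosSemidef) → ‖a‖ ≤ 1 →
    c.IsHermitian → (∀ g h, ‖c g h‖ ≤ 2) → 0 ≤ θ → 0 ≤ ε → t = tr T (star a * a) →
    (∀ g h, n2 T (star a * (star (b g) * b h) * a - c g h • (star a * a)) ≤ θ * t) →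
    t - tr T (star a * a * (star a * a)) ≤ θ * t →
    (∀ x ∈ X, ∑ g, n2 T ((x * b g - ∑ h, Y x h g • b h) * a) ≤ ε * t) →
    ∃ (M : ℕ) (w : Fin M → ℝ) (β : Fin M → Blk A), (∀ s, 0 ≤ w s ∧ (β s).Valid X) ∧
      ∑ s, w s • (β s).amp 1 ≤ ∑ g, b g * (a * star a) * star (b g) ∧
      ((1 - 12 * W * X.card * η) * c.trace.re - p * σ - W * X.card * (15 / η) * ε - C * √θ) * t ≤
        ∑ s, w s * (β s).mass W X T

/-- HT: block data for one trace -/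
def StHT : Prop := ∀ (A : Type u) [CStarAlgebra A] [PartialOrder A] [StarOrderedRing A],
  NuclearC A → ∀ (X : Finset A) (W κ : ℝ), (∀ x ∈ X, ‖x‖ ≤ 1 ∧ star x ∈ X) → 1 ≤ W → 0 < κ →
    ∀ T : TS A, ∃ (M : ℕ) (w : Fin M → ℝ) (β : Fin M → Blk A),
      (∀ s, 0 ≤ w s ∧ (β s).Valid X) ∧ ∑ s, w s • (β s).amp 1 ≤ 1 ∧
      1 - κ ≤ ∑ s, w s * (β s).mass W X T

/-- SPLIT: weights can be made at most one -/
def StSPLIT : Prop := ∀ (M : ℕ) (w : Fin M → ℝ), (∀ s, 0 ≤ w s) → ∃ (M' : ℕ)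
  (f : Fin M' → Fin M) (w' : Fin M' → ℝ), (∀ s, 0 ≤ w' s ∧ w' s ≤ 1) ∧
    ∀ (E : Type u) [AddCommGroup E] [Module ℝ E] (g : Fin M → E),
      ∑ s, w' s • g (f s) = ∑ s, w s • g s

/-- MIN: minimax over the tracial state space -/
def StMIN : Prop := ∀ (A : Type u) [CStarAlgebra A] [PartialOrder A] [StarOrderedRing A]
  (N : Set A) (κ : ℝ), Convex ℝ N → (∀ T : TS A, ∃ g ∈ N, κ < tr T g) →
    (N.Nonempty) → ∃ g ∈ N, ∀ T : TS A, κ < tr T g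

/-- DATA -/
def StDATA : Prop := ∀ (A : Type u) [CStarAlgebra A] [PartialOrder A] [StarOrderedRing A],
  NuclearC A → HasData A

/-- UM: the uniform McDuff property with one nilpotent -/
def StUM : Prop := ∀ (A : Type u) [CStarAlgebra A] [PartialOrder A] [StarOrderedRing A],
  UMcD A 2 → ∀ (X : Finset A) (ε : ℝ), 0 < ε → ∃ v : A, ‖v‖ ≤ 1 ∧ ∀ T : TS A,
    (∀ x ∈ X, n2 T (v * x - x * v) ≤ ε) ∧ n2 T (v * v) ≤ ε ∧
    n2 T (1 - star v * v - v * star v) ≤ ε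

end Pool.Agent.H667R5.TW
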