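import Pool.Agent.H667R5.TW.Stubs

/-!
# BSTEP: adding one block
-/

set_option autoImplicit false
set_option linter.unusedSectionVars false

namespace Pool.Agent.H667R5.TW

open Pool.Agent.H327R4.Pure
open scoped CStarAlgebra ComplexOrder Matrix

universe u v

namespace BSTEPx

section

variable {A : Type u} [CStarAlgebra A] [PartialOrder A] [StarOrderedRing A]

theorem f_smul (T : TS A) (r : ℝ) (x : A) : T.1.f (r • x) = (r : ℂ) * T.1.f x := by
  rw [← Complex.coe_smul r x, map_smul, smul_eq_mul]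

theorem tr_add (T : TS A) (x y : A) : tr T (x + y) = tr T x + tr T y := by
  simp [tr]

theorem tr_sub (T : TS A) (x y : A) : tr T (x - y) = tr T x - tr T y := by
  simp [tr]

theorem tr_smul (T : TS A) (r : ℝ) (x : A) : tr T (r • x) = r * tr T x := by
  unfold tr
  rw [f_smul, Complex.re_ofReal_mul]

theorem tr_sum (T : TS A) {ι : Type} (s : Finset ι) (f : ι → A) :
    tr T (∑ i ∈ s, f i) = ∑ i ∈ s, tr T (f i) := by
  simp [tr]

theorem n2_add (h : StBAS.{u}) (T : TS A) (x y : A) :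
    n2 T (x + y) = n2 T x + n2 T y + 2 * (T.1.f (star x * y)).re := by
  obtain ⟨b1, b2, b3, b4, b5, b6, b7, b8, b9⟩ := h A T
  have e : star (x + y) * (x + y) =
      star x * x + star y * y + (star x * y + star (star x * y)) := by
    simp only [star_add, star_mul, star_star, add_mul, mul_add]; abel
  unfold n2
  rw [e, map_add, map_add, map_add, b8]
  simp only [Complex.add_re, Complex.star_def, Complex.conj_re]
  ring

theorem n2_neg (T : TS A) (x : A) : n2 T (-x) = n2 T x := by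
  simp [n2]

theorem n2_smul (T : TS A) (r : ℝ) (x : A) : n2 T (r • x) = r ^ 2 * n2 T x := by
  unfold n2
  rw [star_smul, star_trivial, smul_mul_smul_comm, f_smul, Complex.re_ofReal_mul, sq]

theorem n2_sub (h : StBAS.{u}) (T : TS A) (x y : A) :
    n2 T (x - y) = n2 T x + n2 T y - 2 * (T.1.f (star x * y)).re := by
  rw [sub_eq_add_neg, n2_add h, n2_neg, mul_neg, map_neg, Complex.neg_re]
  ring

theorem n2_nonneg (T : TS A) (x : A) : 0 ≤ n2 T x := (T.1.pos x).1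

theorem n2_add_le (h : StBAS.{u}) (T : TS A) (x y : A) :
    n2 T (x + y) ≤ 2 * n2 T x + 2 * n2 T y := by
  have h1 := n2_nonneg T (x - y)
  rw [n2_sub h] at h1
  rw [n2_add h]
  linarith

theorem n2_sub_le (h : StBAS.{u}) (T : TS A) (x y : A) :
    n2 T (x - y) ≤ 2 * n2 T x + 2 * n2 T y := by
  rw [sub_eq_add_neg]
  have h1 := n2_add_le h T x (-y)
  rwa [n2_neg] at h1

theorem norm_le_one {V : A} (h0 : 0 ≤ V) (h1 : V ≤ 1) : ‖V‖ ≤ 1 :=
  (CStarAlgebra.norm_le_one_iff_of_nonneg V h0).2 h1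

theorem sq_le_self {V : A} (h0 : 0 ≤ V) (h1 : V ≤ 1) : V * V ≤ V := by
  obtain ⟨r, hr⟩ : ∃ r : A, star r = r ∧ r * r = V := by
    refine ⟨CFC.sqrt V, (CFC.sqrt_nonneg V).isSelfAdjoint.star_eq, CFC.sqrt_mul_sqrt_self V h0⟩
  obtain ⟨hr1, hr2⟩ := hr
  have h2 : 0 ≤ star r * (1 - V) * r := star_left_conjugate_nonneg (sub_nonneg.2 h1) r
  have h3 : star r * (1 - V) * r = V - V * V := by
    rw [hr1, ← hr2]
    noncomm_ring
  rw [h3] at h2
  exact sub_nonneg.1 h2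

theorem trace_norm_le {N : ℕ} (y : Matrix (Fin N) (Fin N) ℂ) (hy : (1 - y * yᴴ).PosSemidef) :
    ‖y.trace‖ ≤ N := by
  have h1 : ∀ l, ‖y l l‖ ≤ 1 := by
    intro l
    have h2 := hy.diag_nonneg (i := l)
    rw [Matrix.sub_apply, Matrix.one_apply_eq, Matrix.mul_apply] at h2
    have h3 : (∑ j, y l j * (yᴴ) j l) = ((∑ j, ‖y l j‖ ^ 2 : ℝ) : ℂ) := by
      push_cast
      refine Finset.sum_congr rfl fun j _ => ?_
      rw [Matrix.conjTranspose_apply, Complex.star_def, Complex.mul_conj, Complex.normSq_eq_norm_sq]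
      push_cast
      rfl
    rw [h3] at h2
    have h4 : (0:ℝ) ≤ 1 - ∑ j, ‖y l j‖ ^ 2 := by
      have h4' : (0:ℂ) ≤ ((1 - ∑ j, ‖y l j‖ ^ 2 : ℝ) : ℂ) := by
        push_cast
        push_cast at h2
        exact h2
      exact Complex.zero_le_real.1 h4'
    have h5 : ‖y l l‖ ^ 2 ≤ ∑ j, ‖y l j‖ ^ 2 :=
      Finset.single_le_sum (f := fun j => ‖y l j‖ ^ 2) (fun j _ => sq_nonneg _) (Finset.mem_univ l)
    nlinarith [norm_nonneg (y l l)]
  calc ‖y.trace‖ = ‖∑ l, y l l‖ := rfl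
    _ ≤ ∑ l, ‖y l l‖ := norm_sum_le _ _
    _ ≤ ∑ _l : Fin N, (1:ℝ) := Finset.sum_le_sum fun l _ => h1 l
    _ = N := by simp

theorem n2_mul_left (h : StBAS.{u}) (T : TS A) (x y : A) (hx : ‖x‖ ≤ 1) :
    n2 T (x * y) ≤ n2 T y := by
  have h1 := ((h A T).2.2.1 x y).1
  have h2 : ‖x‖ ^ 2 ≤ 1 := by nlinarith [norm_nonneg x]
  nlinarith [n2_nonneg T y]

theorem n2_mul_right (h : StBAS.{u}) (T : TS A) (x y : A) (hx : ‖x‖ ≤ 1) :
    n2 T (y * x) ≤ n2 T y := by
  have h1 := ((h A T).2.2.1 y x).2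
  have h2 : ‖x‖ ^ 2 ≤ 1 := by nlinarith [norm_nonneg x]
  nlinarith [n2_nonneg T y]

theorem n2_comm_le (h : StBAS.{u}) (T : TS A) (x d : A) (hx : ‖x‖ ≤ 1) :
    n2 T (x * d - d * x) ≤ 4 * n2 T d := by
  have h1 := n2_sub_le h T (x * d) (d * x)
  have h2 := n2_mul_left h T x d hx
  have h3 := n2_mul_right h T x d hx
  linarith

/-- the difference between `s` and `(1-V) s (1-V)` -/
theorem n2_diff (h : StBAS.{u}) (T : TS A) (V s : A) (hV : ‖V‖ ≤ 1) (c : ℝ)
    (h1 : n2 T (V * s) ≤ c) (h2 : n2 T (s * V) ≤ c) :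
    n2 T (s - (1 - V) * s * (1 - V)) ≤ 10 * c := by
  have e : s - (1 - V) * s * (1 - V) = (V * s + s * V) - V * s * V := by noncomm_ring
  rw [e]
  have h3 := n2_sub_le h T (V * s + s * V) (V * s * V)
  have h4 := n2_add_le h T (V * s) (s * V)
  have h5 := n2_mul_right h T V (V * s) hV
  linarith

/-- commutators of `(1-V) s (1-V)` -/
theorem n2_comm_s (h : StBAS.{u}) (T : TS A) (x V s : A) (hx : ‖x‖ ≤ 1) (hV : ‖V‖ ≤ 1)
    (c b κ : ℝ) (hκ0 : 0 ≤ κ) (hκ1 : κ ≤ 1)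
    (h1 : n2 T (V * s) ≤ c) (h2 : n2 T (s * V) ≤ c) (h3 : n2 T (x * s - s * x) ≤ b) :
    n2 T (x * (κ • ((1 - V) * s * (1 - V))) - κ • ((1 - V) * s * (1 - V)) * x) ≤
      2 * b + 80 * c := by
  set s' := (1 - V) * s * (1 - V) with hs'
  have e : x * (κ • s') - κ • s' * x = κ • ((x * s - s * x) - (x * (s - s') - (s - s') * x)) := by
    rw [mul_smul_comm, smul_mul_assoc, ← smul_sub]
    congr 1
    noncomm_ring
  rw [e, n2_smul]
  have h4 := n2_sub_le h T (x * s - s * x) (x * (s - s') - (s - s') * x)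
  have h5 := n2_comm_le h T x (s - s') hx
  have h6 := n2_diff h T V s hV c h1 h2
  rw [← hs'] at h6
  have h7 : n2 T ((x * s - s * x) - (x * (s - s') - (s - s') * x)) ≤ 2 * b + 80 * c := by
    linarith
  have h8 := n2_nonneg T ((x * s - s * x) - (x * (s - s') - (s - s') * x))
  have h9 : κ ^ 2 ≤ 1 := by nlinarith
  nlinarith

/-- the cross term of two commutators -/
theorem cross_comm (h : StBAS.{u}) (T : TS A) (x F G s : A) (hG : G = star F) (κ c : ℝ)
    (hκ0 : 0 ≤ κ) (hκ1 : κ ≤ 1)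
    (h1 : ‖T.1.f (1 * G * (star x * x) * s)‖ ≤ c) (h2 : ‖T.1.f (x * G * star x * s)‖ ≤ c)
    (h3 : ‖T.1.f (star x * G * x * s)‖ ≤ c) (h4 : ‖T.1.f (x * star x * G * 1 * s)‖ ≤ c) :
    2 * (T.1.f (star (x * F - F * x) * (x * (κ • s) - κ • s * x))).re ≤ 8 * c := by
  have e : star (x * F - F * x) * (x * (κ • s) - κ • s * x) =
      κ • (1 * G * (star x * x) * s - G * star x * s * x - star x * G * x * s
        + star x * G * s * x) := by
    rw [mul_smul_comm, smul_mul_assoc, ← smul_sub, mul_smul_comm, hG]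
    congr 1
    rw [star_sub, star_mul, star_mul]
    noncomm_ring
  have e2 : T.1.f (G * star x * s * x) = T.1.f (x * G * star x * s) := by
    rw [T.1.tr (G * star x * s) x]
    congr 1
    noncomm_ring
  have e3 : T.1.f (star x * G * s * x) = T.1.f (x * star x * G * 1 * s) := by
    rw [T.1.tr (star x * G * s) x]
    congr 1
    noncomm_ring
  rw [e, f_smul, map_add, map_sub, map_sub, e2, e3, Complex.re_ofReal_mul]
  set t1 := T.1.f (1 * G * (star x * x) * s)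
  set t2 := T.1.f (x * G * star x * s)
  set t3 := T.1.f (star x * G * x * s)
  set t4 := T.1.f (x * star x * G * 1 * s)
  have h5 : (t1 - t2 - t3 + t4).re ≤ 4 * c := by
    have a1 := Complex.re_le_norm t1
    have a2 := Complex.abs_re_le_norm t2
    have a3 := Complex.abs_re_le_norm t3
    have a4 := Complex.re_le_norm t4
    have a2' := neg_le_abs t2.re
    have a3' := neg_le_abs t3.re
    simp only [Complex.add_re, Complex.sub_re]
    linarith
  have hc : 0 ≤ c := (norm_nonneg _).trans h1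
  by_cases h6 : 0 ≤ (t1 - t2 - t3 + t4).re
  · nlinarith
  · push Not at h6
    nlinarith

/-- the lower bound for the 2-norm of `s'` -/
theorem n2_lower (h : StBAS.{u}) (T : TS A) (V s : A) (hV : ‖V‖ ≤ 1) (hV' : ‖1 - V‖ ≤ 1)
    (lam α κ nd ω N : ℝ) (hα : 0 ≤ α) (hlam : 0 ≤ lam) (hκ0 : 0 ≤ κ) (hκ1 : κ ≤ 1)
    (hκ : 1 - κ ≤ N * ω) (hN : 0 ≤ N * ω)
    (h1 : n2 T (V * s) ≤ 2 * lam * α) (h2 : n2 T (s * V) ≤ 2 * lam * α)
    (h3 : n2 T s ≤ 4 * α) (h4 : α - nd - 3 * ω * α ≤ n2 T s) :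
    α - nd - 3 * ω * α - 18 * √lam * α - 8 * N * ω * α ≤
      n2 T (κ • ((1 - V) * s * (1 - V))) := by
  set s' := (1 - V) * s * (1 - V) with hs'
  have e1 : n2 T s' = n2 T s + n2 T (s - s') - 2 * (T.1.f (star s * (s - s'))).re := by
    have := n2_sub h T s (s - s')
    rwa [sub_sub_cancel] at this
  have h5 := n2_diff h T V s hV _ h1 h2
  rw [← hs'] at h5
  have h6 := (h A T).2.1 s (s - s')
  have h7 : ‖T.1.f (star s * (s - s'))‖ ≤ 9 * √lam * α := by
    have hs : √lam ^ 2 = lam := Real.sq_sqrt hlam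
    have h8 : ‖T.1.f (star s * (s - s'))‖ ^ 2 ≤ (9 * √lam * α) ^ 2 := by
      calc ‖T.1.f (star s * (s - s'))‖ ^ 2 ≤ n2 T s * n2 T (s - s') := h6
        _ ≤ (4 * α) * (10 * (2 * lam * α)) := by
            apply mul_le_mul h3 h5 (n2_nonneg T _) (by positivity)
        _ ≤ (9 * √lam * α) ^ 2 := by
            have : (9 * √lam * α) ^ 2 = 81 * lam * α ^ 2 := by
              rw [mul_pow, mul_pow, hs]; ring
            rw [this]
            nlinarith [mul_nonneg hlam (sq_nonneg α)]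
    exact le_of_sq_le_sq h8 (by positivity)
  have h9 : n2 T s - 18 * √lam * α ≤ n2 T s' := by
    have a1 := Complex.re_le_norm (T.1.f (star s * (s - s')))
    have a2 := n2_nonneg T (s - s')
    linarith
  have h10 : n2 T s' ≤ 4 * α := by
    have a1 : n2 T s' ≤ n2 T ((1 - V) * s) := n2_mul_right h T (1 - V) ((1 - V) * s) hV'
    have a2 : n2 T ((1 - V) * s) ≤ n2 T s := n2_mul_left h T (1 - V) s hV'
    linarith
  rw [n2_smul]
  have h11 := n2_nonneg T s'
  have h12 : 1 - κ ^ 2 ≤ 2 * (N * ω) := by nlinarith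
  have h13 : (1 - κ ^ 2) * n2 T s' ≤ 2 * (N * ω) * (4 * α) := by
    apply mul_le_mul h12 h10 h11 (by positivity)
  nlinarith

/-- trace estimate -/
theorem part1 (T : TS A) (x V s : A) (D D' : ℂ) (κ lam ω α q N : ℝ) (hκ0 : 0 ≤ κ) (hκ1 : κ ≤ 1)
    (hκ : 1 - κ ≤ N * ω)
    (h1 : ‖T.1.f (x * ((1 - V) * s * (1 - V))) - T.1.f (x * s)‖ ≤ 4 * √lam * α)
    (h2 : ‖T.1.f (x * s) - D‖ ≤ 4 * ω * α) (h3 : ‖D‖ ≤ α) (h4 : ‖D - D'‖ ≤ q) :
    ‖T.1.f (x * (κ • ((1 - V) * s * (1 - V)))) - D'‖ ≤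
      4 * √lam * α + 4 * ω * α + N * ω * α + q := by
  set s' := (1 - V) * s * (1 - V) with hs'
  have e : T.1.f (x * (κ • s')) - D' = (κ : ℂ) * (T.1.f (x * s') - T.1.f (x * s)) +
      (κ : ℂ) * (T.1.f (x * s) - D) + (-((1 - κ : ℝ) : ℂ) * D) + (D - D') := by
    rw [mul_smul_comm, f_smul]
    push_cast
    ring
  have hk : ‖(κ : ℂ)‖ = κ := by rw [Complex.norm_real, Real.norm_of_nonneg hκ0]
  have hk' : ‖-((1 - κ : ℝ) : ℂ)‖ = 1 - κ := by
    rw [norm_neg, Complex.norm_real, Real.norm_of_nonneg (by linarith)]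
  have a1 : ‖(κ : ℂ) * (T.1.f (x * s') - T.1.f (x * s))‖ ≤ 4 * √lam * α := by
    rw [norm_mul, hk]
    nlinarith [norm_nonneg (T.1.f (x * s') - T.1.f (x * s))]
  have a2 : ‖(κ : ℂ) * (T.1.f (x * s) - D)‖ ≤ 4 * ω * α := by
    rw [norm_mul, hk]
    nlinarith [norm_nonneg (T.1.f (x * s) - D)]
  have a3 : ‖-((1 - κ : ℝ) : ℂ) * D‖ ≤ N * ω * α := by
    rw [norm_mul, hk']
    exact mul_le_mul hκ h3 (norm_nonneg _) (by linarith)
  rw [e]
  refine (norm_add_le _ _).trans ?_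
  refine add_le_add ((norm_add_le _ _).trans (add_le_add ((norm_add_le _ _).trans
    (add_le_add a1 a2)) a3)) h4

/-- the trace of the compression of a positive element -/
theorem tr_compress (h : StBAS.{u}) (T : TS A) (V s : A) (hV0 : 0 ≤ V) (hV1 : V ≤ 1)
    (hs : 0 ≤ s) : tr T ((1 - V) * s * (1 - V)) ≤ tr T s := by
  have hb := (h A T).2.2.2.2.2.1
  have h1 : 0 ≤ 1 - (1 - V) * (1 - V) := by
    have e : 1 - (1 - V) * (1 - V) = V + (V - V * V) := by noncomm_ring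
    rw [e]
    exact add_nonneg hV0 (sub_nonneg.2 (sq_le_self hV0 hV1))
  have h2 := hb s (1 - (1 - V) * (1 - V)) hs h1
  have h3 : tr T ((1 - V) * s * (1 - V)) = tr T (s * ((1 - V) * (1 - V))) := by
    unfold tr
    rw [mul_assoc (1 - V) s (1 - V), T.1.tr (1 - V) (s * (1 - V)), mul_assoc]
  rw [mul_sub, mul_one, tr_sub] at h2
  linarith

/-- numbers -/
theorem num (n : ℕ) (hn : 1 ≤ n) (K σ α M nd : ℝ) (hσ0 : 0 ≤ σ) (hσ2 : σ ≤ 2)
    (hM : 0 ≤ M) (hnd : 0 ≤ nd) (hα : (n : ℝ) * α ≤ M + nd) (hα0 : 0 ≤ α) (hK0 : 0 ≤ K)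
    (hK : K ≤ Cn n) :
    K * σ * α ≤ Cn n * σ * M + 2 * K * nd := by
  have hn' : (1:ℝ) ≤ n := by exact_mod_cast hn
  have h1 : α ≤ M + nd := by nlinarith
  have h2 : K * σ * α ≤ K * σ * (M + nd) := by
    apply mul_le_mul_of_nonneg_left h1 (by positivity)
  have h3 : K * σ * M ≤ Cn n * σ * M := by gcongr
  have h4 : K * σ * nd ≤ 2 * K * nd := by
    have : K * nd * σ ≤ K * nd * 2 := by gcongr
    linarith
  nlinarith

end

theorem cn1 (n : ℕ) : 4 + (n:ℝ) ≤ Cn n ∧ 2 * (4 + (n:ℝ)) + 1 ≤ Cn n ∧ 208 ≤ Cn n ∧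
    2 * 208 ≤ Cn n ∧ (n:ℝ) ^ 2 * (8 * n + 30) ≤ Cn n ∧
    2 * ((n:ℝ) ^ 2 * (8 * n + 30)) + (n:ℝ) ^ 2 ≤ Cn n ∧ 2 ≤ Cn n := by
  unfold Cn
  have h0 : (0:ℝ) ≤ n := by positivity
  generalize (n:ℝ) = x at h0
  have h2 : 0 ≤ x ^ 2 := by positivity
  have h3 : 0 ≤ x ^ 3 := by positivity
  have e : 1000 * (x + 1) ^ 3 = 1000 * x ^ 3 + 3000 * x ^ 2 + 3000 * x + 1000 := by ring
  rw [e]
  refine ⟨by linarith, by linarith, by linarith, by linarith, ?_, ?_, by linarith⟩
  · have : x ^ 2 * (8 * x + 30) = 8 * x ^ 3 + 30 * x ^ 2 := by ring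
    rw [this]; linarith
  · have : x ^ 2 * (8 * x + 30) = 8 * x ^ 3 + 30 * x ^ 2 := by ring
    rw [this]; linarith

theorem nm1 (l ω α n : ℝ) (hl : 0 ≤ l) (hω : 0 ≤ ω) (hα : 0 ≤ α) (hn : 0 ≤ n) :
    4 * l * α + 4 * ω * α + n * ω * α ≤ (4 + n) * (l + ω) * α := by
  have : 0 ≤ n * l * α := by positivity
  have e : (4 + n) * (l + ω) * α = 4 * l * α + 4 * ω * α + n * ω * α + n * l * α := by ring
  rw [e]; linarith

theorem nm2 (l ω α : ℝ) (hl : 0 ≤ l) (hω : 0 ≤ ω) (hα : 0 ≤ α) :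
    8 * (4 * (l + ω) * α) + 16 * ω * α + 160 * l * α ≤ 208 * (l + ω) * α := by
  have h1 : 0 ≤ l * α := by positivity
  have h2 : 0 ≤ ω * α := by positivity
  have e : 208 * (l + ω) * α - (8 * (4 * (l + ω) * α) + 16 * ω * α + 160 * l * α) =
    16 * (l * α) + 160 * (ω * α) := by ring
  linarith

theorem nm3 (l ω α n nd : ℝ) (hl : 0 ≤ l) (hω : 0 ≤ ω) (hα : 0 ≤ α) (hn : 0 ≤ n) :
    n * (n * ((1 + ω) * α)) -
      n * (n * (α - nd - (3 * ω + 18 * l + 8 * n * ω + 8 * (l + ω)) * α)) ≤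
        n ^ 2 * (8 * n + 30) * (l + ω) * α + n ^ 2 * nd := by
  have h1 : 0 ≤ n ^ 2 * (n * l * α) := by positivity
  have h2 : 0 ≤ n ^ 2 * (l * α) := by positivity
  have h3 : 0 ≤ n ^ 2 * (ω * α) := by positivity
  have e : n ^ 2 * (8 * n + 30) * (l + ω) * α + n ^ 2 * nd - (n * (n * ((1 + ω) * α)) -
      n * (n * (α - nd - (3 * ω + 18 * l + 8 * n * ω + 8 * (l + ω)) * α))) =
      8 * (n ^ 2 * (n * l * α)) + 4 * (n ^ 2 * (l * α)) + 18 * (n ^ 2 * (ω * α)) := by ring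
  linarith

theorem nm4 {lam : ℝ} (h0 : 0 < lam) (h1 : lam ≤ 1) : lam ≤ √lam := by
  have h2 := Real.sq_sqrt h0.le
  have h3 : √lam ≤ 1 := by rw [Real.sqrt_le_one]; exact h1
  have h4 : 0 ≤ √lam := Real.sqrt_nonneg _
  nlinarith

theorem nm5 {k a b : ℝ} (h0 : 0 ≤ k) (h1 : k ≤ 1) (ha : 0 ≤ a) (hab : a ≤ b) : k * a ≤ b := by
  nlinarith

theorem nm6 {k a b : ℝ} (h0 : 0 ≤ k) (h1 : k ≤ 1) (hb : 0 ≤ b) (hab : -b ≤ a) :
    -b ≤ k * a := by
  by_cases h : 0 ≤ a
  · have := mul_nonneg h0 h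
    linarith
  · push Not at h
    nlinarith

theorem nm7 (W α : ℝ) (hW : 1 ≤ W) (hα : 0 ≤ α) :
    2 * (8 / W * α) ≤ 16 * (1 / √W) * α := by
  have hs : 1 ≤ √W := Real.one_le_sqrt.2 hW
  have h1 : 8 / W = 8 * (1 / √W) ^ 2 := by
    rw [div_pow, Real.sq_sqrt (by linarith)]
    ring
  have h2 : 1 / √W ≤ 1 := by
    rw [div_le_one (by positivity)]
    exact hs
  have h0 : 0 ≤ 1 / √W := by positivity
  have h3 : (1 / √W) ^ 2 ≤ 1 / √W := by nlinarith
  rw [h1]
  have h4 := mul_le_mul_of_nonneg_right h3 hα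
  linarith

theorem nm8 (lam α : ℝ) (h0 : 0 < lam) (h1 : lam ≤ 1) (hα : 0 ≤ α) :
    80 * (2 * lam * α) ≤ 160 * √lam * α := by
  have h2 := mul_le_mul_of_nonneg_right (nm4 h0 h1) hα
  linarith

theorem nm9 (a α nd ω l n σ t : ℝ) (h7 : α - nd - 3 * ω * α - 18 * l * α - 8 * n * ω * α ≤ a)
    (h9 : -(4 * σ * α) ≤ t) :
    α - nd - (3 * ω + 18 * l + 8 * n * ω + 8 * σ) * α ≤ a + 2 * t := by
  have e : (3 * ω + 18 * l + 8 * n * ω + 8 * σ) * α =
    3 * ω * α + 18 * l * α + 8 * n * ω * α + 8 * σ * α := by ring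
  rw [e]
  linarith

theorem nm10 (κ t : ℝ) (hκ0 : 0 ≤ κ) (hκ1 : κ ≤ 1) (ht : 0 ≤ t) (h : κ * (1 + t) = 1) :
    1 - κ ≤ t := by
  nlinarith

theorem nm11 (x N Cc δ : ℝ) (hx : x = δ * (N / (N + 1))) (hN : 0 < N) (hδ : 0 < δ) : x ≤ δ := by
  rw [hx]
  have h2 : N / (N + 1) ≤ 1 := by
    rw [div_le_one (by positivity)]
    linarith
  calc δ * (N / (N + 1)) ≤ δ * 1 := by gcongr
    _ = δ := mul_one _

end BSTEPx

open BSTEPx

theorem thm_BSTEPb (hLOC : StLOC.{u}) (hCUT : StCUT.{u}) (hCPB : StCPB.{u}) (hS0 : StS0.{u})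
    (hS1 : StS1.{u}) (hS2 : StS2.{u}) (hS3 : StS3.{u}) (hS4 : StS4.{u}) (hS5 : StS5.{u})
    (hBAS : StBAS.{u}) : StBSTEP.{u} := by
  intro A _ _ _ hsimple hfin hsc n X X' W lam μ δ β F hn hX' h1X' hX hW hnW hlam hlam1 hμ hμ2
    hδ hβ hF hF1
  obtain ⟨cpAdd, cpConj, cpSmul, cpZero, cpS0, cpFacts⟩ := hCPB A n
  obtain ⟨Fstar, Fdiag, Fsum0, Fle⟩ := cpFacts F hF
  have Fle' := Fle hF1
  set V := dsum F with hV
  have hV0 : 0 ≤ V := Fsum0
  have hV1 : V ≤ 1 := hF1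
  have hVn : ‖V‖ ≤ 1 := norm_le_one hV0 hV1
  have hVn' : ‖1 - V‖ ≤ 1 := norm_le_one (sub_nonneg.2 hV1) (sub_le_self _ hV0)
  have hVs : star (1 - V) = 1 - V := (sub_nonneg.2 hV1).isSelfAdjoint.star_eq
  have hN : 0 < β.N := hβ.1
  have hNr : (0:ℝ) < β.N := by exact_mod_cast hN
  have hn' : (1:ℝ) ≤ n := by exact_mod_cast hn
  set R := β.R W X' with hR
  have hR0 : 0 ≤ R := by
    rw [hR]
    unfold Blk.R
    apply smul_nonneg (by linarith)
    apply add_nonneg
    · apply smul_nonneg (by positivity)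
      exact Finset.sum_nonneg fun k _ => Finset.sum_nonneg fun l _ => star_mul_self_nonneg _
    · apply smul_nonneg (by positivity)
      exact Finset.sum_nonneg fun x _ => Finset.sum_nonneg fun l _ => star_mul_self_nonneg _
  have hpen0 : 0 ≤ β.pen V := by
    unfold Blk.pen
    exact Finset.sum_nonneg fun l _ => star_left_conjugate_nonneg hV0 _
  set Q := (1 / (lam * β.N)) • β.pen V with hQ
  have hQ0 : 0 ≤ Q := smul_nonneg (by positivity) hpen0
  set c := cc (R + Q) with hc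
  obtain ⟨c0, c1, c2, c3, _⟩ := hCUT A (R + Q) 0 (add_nonneg hR0 hQ0) le_rfl
  obtain ⟨_, _, _, _, cT⟩ := hCUT A R Q hR0 hQ0
  have hCn : 0 < Cn n := by unfold Cn; positivity
  set D := Cn n * (β.N + 1) with hD
  have hD0 : 0 < D := by positivity
  set δ' := δ / D with hδ'
  have hδ'0 : 0 < δ' := by positivity
  obtain ⟨u, z, e, e0, e1, uu, uz, hT⟩ :=
    hLOC A hsimple hfin hsc n c μ δ' hn c0 c1 hμ hμ2 hδ'0
  have hsq : star (CFC.sqrt c) = CFC.sqrt c := (CFC.sqrt_nonneg c).isSelfAdjoint.star_eq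
  have key : ∀ i, star (u i) * (R + Q) * u i ≤ e := by
    intro i
    have h1 : star (u i) * (R + Q) * u i =
        star (z i) * (CFC.sqrt c * (R + Q) * CFC.sqrt c) * z i := by
      rw [uz i, star_mul, hsq]
      noncomm_ring
    have h2 : star (z i) * (CFC.sqrt c * (R + Q) * CFC.sqrt c) * z i ≤ star (z i) * c * z i :=
      star_left_conjugate_le_conjugate c3 (z i)
    have h3 : star (z i) * c * z i = e := by
      have h4 := uu i i
      rw [if_pos rfl, uz i, star_mul, hsq] at h4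
      rw [← h4]
      have h5 : c = CFC.sqrt c * CFC.sqrt c := (CFC.sqrt_mul_sqrt_self c c0).symm
      calc star (z i) * c * z i = star (z i) * (CFC.sqrt c * CFC.sqrt c) * z i := by rw [← h5]
        _ = star (z i) * CFC.sqrt c * (CFC.sqrt c * z i) := by noncomm_ring
    rw [h1]
    rw [h3] at h2
    exact h2
  have hle : ∀ i, star (u i) * R * u i ≤ e := fun i =>
    (star_left_conjugate_le_conjugate (le_add_of_nonneg_right hQ0) (u i)).trans (key i)
  have hloc : IsLoc (β.R W X') u e := ⟨e0, e1, uu, hle⟩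
  have hpen : ∀ i, ∑ l, star (β.b l * u i) * V * (β.b l * u i) ≤ (lam * β.N) • e := by
    intro i
    have h1 : ∑ l, star (β.b l * u i) * V * (β.b l * u i) = star (u i) * β.pen V * u i := by
      unfold Blk.pen
      rw [Finset.mul_sum, Finset.sum_mul]
      refine Finset.sum_congr rfl fun l _ => ?_
      rw [star_mul]
      noncomm_ring
    have h2 : β.pen V = (lam * β.N) • Q := by
      rw [hQ, smul_smul]
      rw [mul_one_div_cancel (by positivity), one_smul]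
    have h3 : star (u i) * Q * u i ≤ e :=
      (star_left_conjugate_le_conjugate (le_add_of_nonneg_left hR0) (u i)).trans (key i)
    rw [h1, h2, mul_smul_comm, smul_mul_assoc]
    exact smul_le_smul_of_nonneg_left h3 (by positivity)
  obtain ⟨s0a, s0b, s0c, s0d, s0e, s0T⟩ := hS0 A n X' W β u e hW hnW hN hloc
  set ω := 1 / √W with hω
  have hsW : 1 ≤ √W := Real.one_le_sqrt.2 hW
  have hω0 : 0 < ω := by positivity
  have hω1 : ω ≤ 1 := by
    rw [hω, div_le_one (by positivity)]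
    exact hsW
  set κ := (1 + n * ω)⁻¹ with hκd
  have hk1 : 0 < 1 + n * ω := by positivity
  have hκ0 : 0 ≤ κ := by positivity
  have hnω : 0 ≤ n * ω := by positivity
  have hκ1 : κ ≤ 1 := inv_le_one_of_one_le₀ (by linarith)
  have hκκ : κ * (1 + n * ω) = 1 := inv_mul_cancel₀ (by positivity)
  have hκ : 1 - κ ≤ n * ω := nm10 κ _ hκ0 hκ1 hnω hκκ
  have hS0p : ∀ i, 0 ≤ β.s0 u i i := (cpFacts _ (cpS0 β u)).2.1
  refine ⟨fun i j => κ • ((1 - V) * β.s0 u i j * (1 - V)), ?_, ?_, ?_⟩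
  · apply cpSmul _ κ hκ0
    have h1 := cpConj _ (1 - V) (cpS0 β u)
    rwa [hVs] at h1
  · have h1 : dsum (fun i j => κ • ((1 - V) * β.s0 u i j * (1 - V))) =
        κ • ((1 - V) * dsum (β.s0 u) * (1 - V)) := by
      unfold dsum
      rw [Finset.mul_sum, Finset.sum_mul, Finset.smul_sum]
    have h2 : (1 - V) * dsum (β.s0 u) * (1 - V) ≤ (1 - V) * ((1 + n / √W) • 1) * (1 - V) := by
      have := star_left_conjugate_le_conjugate s0a (1 - V)
      rwa [hVs] at this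
    have h3 : (1 - V) * ((1 + (n:ℝ) / √W) • (1 : A)) * (1 - V) =
        (1 + n * ω) • ((1 - V) * (1 - V)) := by
      rw [mul_smul_comm, smul_mul_assoc, mul_one, hω]
      congr 1
      ring
    rw [h3] at h2
    have h4 : κ • ((1 - V) * dsum (β.s0 u) * (1 - V)) ≤ (1 - V) * (1 - V) := by
      calc κ • ((1 - V) * dsum (β.s0 u) * (1 - V)) ≤ κ • ((1 + n * ω) • ((1 - V) * (1 - V))) :=
            smul_le_smul_of_nonneg_left h2 hκ0
        _ = (1 - V) * (1 - V) := by rw [smul_smul, hκκ, one_smul]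
    rw [h1]
    calc V + κ • ((1 - V) * dsum (β.s0 u) * (1 - V)) ≤ V + (1 - V) * (1 - V) := by gcongr
      _ = 1 - (V - V * V) := by noncomm_ring
      _ ≤ 1 := sub_le_self _ (sub_nonneg.2 (sq_le_self hV0 hV1))
  intro T
  obtain ⟨b1, b2, b3, b4, b5, b6, b7, b8, b9⟩ := hBAS A T
  have tr0 : tr T 0 = 0 := by simp [tr]
  have he0 : 0 ≤ tr T e := by
    have := b1 0 e e0
    rwa [tr0] at this
  have hpenT : 0 ≤ tr T (β.pen V) := by
    have := b1 0 _ hpen0
    rwa [tr0] at this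
  obtain ⟨cT1, cT2, _⟩ := cT T
  obtain ⟨hT1, hT2⟩ := hT T
  set ccR := tr T (cc R) with hccR
  have hcT0 : 0 ≤ tr T c := by
    have := b1 0 _ c0
    rwa [tr0] at this
  have hccR0 : 0 ≤ ccR := hcT0.trans cT1
  set α := β.N * tr T e with hα
  have hα0 : 0 ≤ α := by positivity
  have hmass : β.mass W X' T = β.N * ccR := rfl
  set M := μ * β.mass W X' T with hM
  have hM0 : 0 ≤ M := by rw [hM, hmass]; positivity
  set nd := β.N * δ' with hnd
  have hnd0 : 0 ≤ nd := by positivity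
  have hαM : n * α ≤ M + nd := by
    have h1 := (abs_le.1 hT1).2
    have h1' := mul_le_mul_of_nonneg_left cT1 hμ.le
    have h2 : n * tr T e ≤ μ * ccR + δ' := by linarith
    calc n * α = β.N * (n * tr T e) := by rw [hα]; ring
      _ ≤ β.N * (μ * ccR + δ') := by gcongr
      _ = M + nd := by rw [hM, hmass, hnd]; ring
  have hCnd : Cn n * nd ≤ δ := by
    rw [hnd, hδ', hD]
    have : Cn n * (β.N * (δ / (Cn n * (β.N + 1)))) = δ * (β.N / (β.N + 1)) := by
      field_simp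
    exact nm11 _ _ (Cn n) δ this hNr hδ
  set σ := √lam + ω with hσ
  have hsl0 : 0 ≤ √lam := Real.sqrt_nonneg _
  have hsl1 : √lam ≤ 1 := by rw [Real.sqrt_le_one]; exact hlam1
  have hll : lam ≤ √lam := nm4 hlam hlam1
  obtain ⟨cn1, cn2, cn3, cn4, cn5, cn6, cn7⟩ := cn1 n
  have hσ0 : 0 ≤ σ := by positivity
  have hσ2 : σ ≤ 2 := by linarith
  have hCnn : Cn n = 1000 * ((n : ℝ) + 1) ^ 3 := rfl
  have hNum : ∀ K : ℝ, 0 ≤ K → K ≤ Cn n → K * σ * α ≤ Cn n * σ * M + 2 * K * nd :=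
    fun K hK0 hK => num n hn K σ α M nd hσ0 hσ2 hM0 hnd0 hαM hα0 hK0 hK
  have hS3' := fun i j => hS3 A n X' W lam β u e V hW hnW hN hloc hV0 hV1 hlam hlam1 hpen T i j
  have hS4' := fun (G z1 : A) (hG : star G * G ≤ V) (hz : ‖z1‖ ≤ 1) (z : A) (hzX : z ∈ X') =>
    hS4 A n X' W lam β u e V hW hnW hβ hloc hV0 hV1 hlam hlam1 hpen T G z1 hG hz z hzX
      (hX' z hzX).1
  have hGle : ∀ i j, star (F j i) * F j i ≤ V := fun i j =>
    (Fle' j i).trans (Finset.single_le_sum (f := fun i => F i i) (fun k _ => Fdiag k)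
      (Finset.mem_univ i))
  refine ⟨?_, ?_, ?_, ?_⟩
  · -- traces
    intro x hx i j
    have hy := trace_norm_le (β.y x) (hβ.2 x hx).2
    have h3 := (hS3' i j).2.2.2 x (hX' x hx).1
    have h1 := hS1 A n X' W β u e hW hnW hβ hloc T x hx i j
    have h1' : ‖T.1.f (x * β.s0 u i j) -
        (if i = j then (β.y x).trace * ((tr T e : ℝ) : ℂ) else 0)‖ ≤ 4 * ω * α := by
      have : 4 / √W = 4 * ω := by rw [hω]; ring
      rw [this] at h1
      exact h1
    have hD1 : ‖(if i = j then (β.y x).trace * ((tr T e : ℝ) : ℂ) else 0)‖ ≤ α := by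
      by_cases hij : i = j
      · rw [if_pos hij, norm_mul, Complex.norm_real, Real.norm_of_nonneg he0]
        exact mul_le_mul_of_nonneg_right hy he0
      · rw [if_neg hij, norm_zero]
        exact hα0
    have hD2 : ‖(if i = j then (β.y x).trace * ((tr T e : ℝ) : ℂ) else 0) -
        (if i = j then ((μ / n : ℝ) : ℂ) * ((β.y x).trace * ((tr T (cc (β.R W X')) : ℝ) : ℂ))
          else 0)‖ ≤ nd + μ / lam * tr T (β.pen V) := by
      by_cases hij : i = j
      · rw [if_pos hij, if_pos hij]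
        have e3 : (β.y x).trace * ((tr T e : ℝ) : ℂ) -
            ((μ / n : ℝ) : ℂ) * ((β.y x).trace * ((tr T (cc (β.R W X')) : ℝ) : ℂ)) =
            (β.y x).trace * ((tr T e - μ / n * ccR : ℝ) : ℂ) := by
          push_cast
          ring
        rw [e3, norm_mul, Complex.norm_real, Real.norm_eq_abs]
        have h5 : |tr T e - μ / n * ccR| ≤ δ' + μ * tr T Q := by
          have h6 : tr T e - μ / n * ccR = (1 / n) * ((n * tr T e - μ * tr T c) +
              (-(μ * (ccR - tr T c)))) := by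
            field_simp
            ring
          rw [h6, abs_mul, abs_of_nonneg (by positivity : (0:ℝ) ≤ 1 / n)]
          have h7 : |(n * tr T e - μ * tr T c) + (-(μ * (ccR - tr T c)))| ≤ δ' + μ * tr T Q := by
            refine (abs_add_le _ _).trans (add_le_add hT1 ?_)
            rw [abs_neg, abs_mul, abs_of_pos hμ, abs_of_nonneg (sub_nonneg.2 cT1)]
            exact mul_le_mul_of_nonneg_left cT2 hμ.le
          have h8 : (1:ℝ) / n ≤ 1 := by
            rw [div_le_one (by positivity)]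
            exact hn'
          exact nm5 (by positivity) h8 (abs_nonneg _) h7
        have h10 : tr T Q = 1 / (lam * β.N) * tr T (β.pen V) := by rw [hQ, tr_smul]
        calc ‖(β.y x).trace‖ * |tr T e - μ / n * ccR| ≤ β.N * (δ' + μ * tr T Q) :=
              mul_le_mul hy h5 (abs_nonneg _) (by positivity)
          _ = nd + μ / lam * tr T (β.pen V) := by
              rw [h10, hnd]
              field_simp
      · rw [if_neg hij, if_neg hij, sub_zero, norm_zero]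
        positivity
    have hp := part1 T x V (β.s0 u i j) _ _ κ lam ω α _ n hκ0 hκ1 hκ h3 h1' hD1 hD2
    refine hp.trans ?_
    have hK := hNum (4 + n) (by positivity) cn1
    have h11 : 4 * √lam * α + 4 * ω * α + n * ω * α ≤ (4 + n) * σ * α :=
      nm1 _ _ _ _ hsl0 hω0.le hα0 (by positivity)
    have h12 : (2 * (4 + (n:ℝ)) + 1) * nd ≤ Cn n * nd :=
      mul_le_mul_of_nonneg_right cn2 hnd0
    clear_value σ α M nd
    linarith
  · -- commutators
    intro x hx i j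
    obtain ⟨hx1, hx2, hx3⟩ := hX x hx
    have hxn := (hX' x hx1).1
    have hxs := (hX' x hx1).2
    have hxsn := (hX' _ hxs).1
    set G := F j i with hG
    have hGF : G = star (F i j) := (Fstar i j).symm
    have hGV : star G * G ≤ V := hGle i j
    set S := (1 - V) * β.s0 u i j * (1 - V) with hS
    have k1 : ‖T.1.f (1 * G * (star x * x) * S)‖ ≤ 4 * σ * α :=
      hS4' G 1 hGV (norm_le_one zero_le_one le_rfl) _ hx2 i j
    have k2 : ‖T.1.f (x * G * star x * S)‖ ≤ 4 * σ * α := hS4' G x hGV hxn _ hxs i j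
    have k3 : ‖T.1.f (star x * G * x * S)‖ ≤ 4 * σ * α := hS4' G (star x) hGV hxsn _ hx1 i j
    have k4 : ‖T.1.f (x * star x * G * 1 * S)‖ ≤ 4 * σ * α :=
      hS4' G (x * star x) hGV (hX' _ hx3).1 _ h1X' i j
    have hcr := cross_comm hBAS T x (F i j) G S hGF κ _ hκ0 hκ1 k1 k2 k3 k4
    have h2 := hS2 A n X' W β u e hW hnW hβ hloc T x hx1 hxs i j
    obtain ⟨q1, q2, q3, _⟩ := hS3' i j
    have hcs := n2_comm_s hBAS T x V (β.s0 u i j) hxn hVn _ _ κ hκ0 hκ1 q1 q2 h2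
    have e4 : x * (F i j + κ • S) - (F i j + κ • S) * x =
        (x * F i j - F i j * x) + (x * (κ • S) - κ • S * x) := by noncomm_ring
    rw [e4, n2_add hBAS]
    have hK := hNum 208 (by norm_num) cn3
    have h9 : 2 * (8 / W * (β.N * tr T e)) ≤ 16 * ω * α := nm7 W α hW hα0
    have h10 : 80 * (2 * lam * (β.N * tr T e)) ≤ 160 * √lam * α := nm8 lam α hlam hlam1 hα0
    have h11 : (2 * 208 : ℝ) * nd ≤ Cn n * nd := mul_le_mul_of_nonneg_right cn4 hnd0
    have h12 : 8 * (4 * σ * α) + 16 * ω * α + 160 * √lam * α ≤ 208 * σ * α :=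
      nm2 _ _ _ hsl0 hω0.le hα0
    linarith
  · -- defect
    have hdec : defect T (fun i j => F i j + κ • ((1 - V) * β.s0 u i j * (1 - V))) =
        defect T F + (n * ∑ i, tr T (κ • ((1 - V) * β.s0 u i i * (1 - V))) -
        ∑ i, ∑ j, (n2 T (κ • ((1 - V) * β.s0 u i j * (1 - V))) +
          2 * (T.1.f (star (F i j) * (κ • ((1 - V) * β.s0 u i j * (1 - V))))).re)) := by
      unfold defect dsum
      rw [tr_sum, tr_sum]
      simp only [tr_add, n2_add hBAS, Finset.sum_add_distrib, mul_add]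
      ring
    rw [hdec]
    have h1 : ∀ i, tr T (κ • ((1 - V) * β.s0 u i i * (1 - V))) ≤ (1 + ω) * α := by
      intro i
      rw [tr_smul]
      have a1 := tr_compress hBAS T V (β.s0 u i i) hV0 hV1 (hS0p i)
      have a2 := (abs_le.1 (s0T T i).1).2
      have a3 : 0 ≤ tr T ((1 - V) * β.s0 u i i * (1 - V)) := by
        have h5 := star_left_conjugate_nonneg (hS0p i) (1 - V)
        rw [hVs] at h5
        have := b1 0 _ h5
        rwa [tr0] at this
      have a4 : tr T (β.s0 u i i) ≤ (1 + ω) * α := by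
        rw [hα]
        linarith
      exact nm5 hκ0 hκ1 a3 (a1.trans a4)
    have h2 : ∀ i j, α - nd - (3 * ω + 18 * √lam + 8 * n * ω + 8 * σ) * α ≤
        n2 T (κ • ((1 - V) * β.s0 u i j * (1 - V))) +
          2 * (T.1.f (star (F i j) * (κ • ((1 - V) * β.s0 u i j * (1 - V))))).re := by
      intro i j
      obtain ⟨q1, q2, q3, _⟩ := hS3' i j
      have h5 := hS5 A n X' W β u e hW hnW hN hloc T i j
      have h6 : α - nd - 3 * ω * α ≤ n2 T (β.s0 u i j) := by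
        have a1 : 3 / √W = 3 * ω := by rw [hω]; ring
        rw [a1] at h5
        have a2 : α - nd ≤ β.N * tr T (e * e) := by
          rw [hα, hnd, ← mul_sub]
          apply mul_le_mul_of_nonneg_left _ hNr.le
          linarith
        rw [← hα] at h5
        linarith
      have h7 := n2_lower hBAS T V (β.s0 u i j) hVn hVn' lam α κ nd ω n hα0 hlam.le hκ0 hκ1 hκ
        (by positivity) (by rw [hα]; exact q1) (by rw [hα]; exact q2) (by rw [hα]; exact q3) h6
      have h8 : ‖T.1.f (1 * F j i * 1 * ((1 - V) * β.s0 u i j * (1 - V)))‖ ≤ 4 * σ * α :=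
        hS4' (F j i) 1 (hGle i j) (norm_le_one zero_le_one le_rfl) _ h1X' i j
      have h9 : (T.1.f (star (F i j) * (κ • ((1 - V) * β.s0 u i j * (1 - V))))).re ≥
          - (4 * σ * α) := by
        rw [mul_smul_comm, f_smul, Complex.re_ofReal_mul, Fstar i j]
        rw [one_mul, mul_one] at h8
        have a1 := Complex.abs_re_le_norm (T.1.f (F j i * ((1 - V) * β.s0 u i j * (1 - V))))
        have a2 := neg_abs_le (T.1.f (F j i * ((1 - V) * β.s0 u i j * (1 - V)))).re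
        have a3 : 0 ≤ 4 * σ * α := by positivity
        exact nm6 hκ0 hκ1 a3 (by linarith)
      exact nm9 _ _ _ _ _ _ _ _ h7 h9
    have h3 : ∑ i, tr T (κ • ((1 - V) * β.s0 u i i * (1 - V))) ≤ n * ((1 + ω) * α) := by
      calc ∑ i, tr T (κ • ((1 - V) * β.s0 u i i * (1 - V))) ≤ ∑ _i : Fin n, (1 + ω) * α :=
            Finset.sum_le_sum fun i _ => h1 i
        _ = n * ((1 + ω) * α) := by simp
    have h4 : (n:ℝ) * (n * (α - nd - (3 * ω + 18 * √lam + 8 * n * ω + 8 * σ) * α)) ≤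
        ∑ i, ∑ j, (n2 T (κ • ((1 - V) * β.s0 u i j * (1 - V))) +
          2 * (T.1.f (star (F i j) * (κ • ((1 - V) * β.s0 u i j * (1 - V))))).re) := by
      calc (n:ℝ) * (n * (α - nd - (3 * ω + 18 * √lam + 8 * n * ω + 8 * σ) * α))
          = ∑ _i : Fin n, ∑ _j : Fin n,
              (α - nd - (3 * ω + 18 * √lam + 8 * n * ω + 8 * σ) * α) := by
                rw [Finset.sum_const, Finset.sum_const, Finset.card_univ, Fintype.card_fin,
                  nsmul_eq_mul, nsmul_eq_mul]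
        _ ≤ _ := Finset.sum_le_sum fun i _ => Finset.sum_le_sum fun j _ => h2 i j
    have h5 : n * ∑ i, tr T (κ • ((1 - V) * β.s0 u i i * (1 - V))) ≤
        n * (n * ((1 + ω) * α)) := by gcongr
    have hnn : (0:ℝ) ≤ n := by positivity
    have hK := hNum ((n:ℝ) ^ 2 * (8 * n + 30)) (by positivity) cn5
    have h11 : (2 * ((n:ℝ) ^ 2 * (8 * n + 30)) + (n:ℝ) ^ 2) * nd ≤ Cn n * nd :=
      mul_le_mul_of_nonneg_right cn6 hnd0
    have h12 : (n:ℝ) * (n * ((1 + ω) * α)) -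
        (n:ℝ) * (n * (α - nd - (3 * ω + 18 * √lam + 8 * n * ω + 8 * σ) * α)) ≤
        (n:ℝ) ^ 2 * (8 * n + 30) * σ * α + (n:ℝ) ^ 2 * nd :=
      nm3 _ _ _ _ _ hsl0 hω0.le hα0 hnn
    have h13 : (2 * ((n:ℝ) ^ 2 * (8 * n + 30)) + (n:ℝ) ^ 2) * nd =
      2 * ((n:ℝ) ^ 2 * (8 * n + 30)) * nd + (n:ℝ) ^ 2 * nd := by ring
    rw [h13] at h11
    linarith
  · -- trace of the sum
    have h1 : tr T (dsum (fun i j => κ • ((1 - V) * β.s0 u i j * (1 - V)))) ≤
        ∑ _i : Fin n, (1 + ω) * α := by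
      unfold dsum
      rw [tr_sum]
      refine Finset.sum_le_sum fun i _ => ?_
      rw [tr_smul]
      have a1 := tr_compress hBAS T V (β.s0 u i i) hV0 hV1 (hS0p i)
      have a2 := (abs_le.1 (s0T T i).1).2
      have a3 : 0 ≤ tr T ((1 - V) * β.s0 u i i * (1 - V)) := by
        have h5 := star_left_conjugate_nonneg (hS0p i) (1 - V)
        rw [hVs] at h5
        have := b1 0 _ h5
        rwa [tr0] at this
      have a4 : tr T (β.s0 u i i) ≤ (1 + ω) * α := by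
        rw [hα]
        linarith
      exact nm5 hκ0 hκ1 a3 (a1.trans a4)
    have h2 : ∑ _i : Fin n, (1 + ω) * α = (1 + ω) * (n * α) := by
      rw [Finset.sum_const, Finset.card_univ, Fintype.card_fin, nsmul_eq_mul]
      ring
    rw [h2] at h1
    have h3 : (1 + ω) * (n * α) ≤ 2 * (n * α) := by
      apply mul_le_mul_of_nonneg_right (by linarith) (by positivity)
    have h4 : 2 * nd ≤ Cn n * nd := mul_le_mul_of_nonneg_right cn7 hnd0
    linarith

end Pool.Agent.H667R5.TW
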