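import Pool.Agent.H667R5.TW.Stubs
import Pool.Agent.H327R4.Pure.TDIAG

set_option autoImplicit false

/-! # RW: strict comparison gives orthogonal rows below `c` -/

namespace Pool.Agent.H667R5.TW

open Pool.Agent.H327R4.Pure
open scoped CStarAlgebra ComplexOrder Matrix

universe u v

theorem rw_cut_hom {B : Type u} {C : Type v} [NonUnitalCStarAlgebra B] [NonUnitalCStarAlgebra C]
    (φ : B →⋆ₙₐ[ℂ] C) (hcont : Continuous φ) (ε : ℝ) (hε : 0 ≤ ε) (a : B)
    (ha : IsSelfAdjoint a) : φ (cut ε a) = cut ε (φ a) := by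
  have hc : Continuous (fun x : ℝ => max (x - ε) 0) := by fun_prop
  have h0 : max ((0 : ℝ) - ε) 0 = 0 := by simp [hε]
  exact NonUnitalStarAlgHomClass.map_cfcₙ (S := ℂ) φ _ a hc.continuousOn h0 hcont ha (ha.map φ)

section

variable {A : Type u} [CStarAlgebra A] [PartialOrder A] [StarOrderedRing A]

theorem rw_cut_dg {K : ℕ} (a : Fin K → A) (ha : ∀ j, 0 ≤ a j) (ε : ℝ) (hε : 0 ≤ ε) :
    cut ε (dg a) = dg (fun j => cut ε (a j)) := by
  have hsa : IsSelfAdjoint a := by
    funext j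
    exact IsSelfAdjoint.of_nonneg (ha j)
  have e2 : cut ε a = fun j => cut ε (a j) := by
    funext j
    exact rw_cut_hom (Pi.evalNonUnitalStarAlgHom ℂ (fun _ : Fin K => A) j)
      (continuous_apply j) ε hε a hsa
  rw [← e2, ← dgHom_apply, ← dgHom_apply]
  exact (rw_cut_hom (dgHom A K) (map_continuous (dgHom A K)) ε hε a hsa).symm

theorem rw_root (c : A) (hc : 0 ≤ c) (δ : ℝ) (hδ : 0 < δ) :
    ∃ g : A, star (CFC.sqrt c * g) * (CFC.sqrt c * g) = cut δ c := by
  set f : ℝ → ℝ := fun t => √(max (t - δ) 0) / √(max t δ) with hf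
  have hfc : Continuous f := by
    refine Continuous.div (by fun_prop) (by fun_prop) ?_
    intro t
    exact (Real.sqrt_pos.2 (lt_max_of_lt_right hδ)).ne'
  have hsa : IsSelfAdjoint c := IsSelfAdjoint.of_nonneg hc
  have hsq : CFC.sqrt c = cfc (fun t : ℝ => √t) c := by
    rw [CFC.sqrt_eq_real_sqrt c hc, cfcₙ_eq_cfc]
  have hw : CFC.sqrt c * cfc f c = cfc (fun t : ℝ => √(max (t - δ) 0)) c := by
    rw [hsq, ← cfc_mul (fun t : ℝ => √t) f c (by fun_prop) hfc.continuousOn]
    apply cfc_congr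
    intro t ht
    have ht0 : 0 ≤ t := spectrum_nonneg_of_nonneg hc ht
    show √t * (√(max (t - δ) 0) / √(max t δ)) = √(max (t - δ) 0)
    by_cases h : t ≤ δ
    · have : max (t - δ) 0 = 0 := max_eq_right (by linarith)
      rw [this]
      simp
    · push Not at h
      rw [max_eq_left h.le]
      have : √t ≠ 0 := (Real.sqrt_pos.2 (hδ.trans h)).ne'
      field_simp
  refine ⟨cfc f c, ?_⟩
  rw [hw]
  have hs : star (cfc (fun t : ℝ => √(max (t - δ) 0)) c) =
      cfc (fun t : ℝ => √(max (t - δ) 0)) c := cfc_predicate (fun t : ℝ => √(max (t - δ) 0)) c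
  rw [hs, ← cfc_mul (fun t : ℝ => √(max (t - δ) 0)) (fun t : ℝ => √(max (t - δ) 0)) c
    (by fun_prop) (by fun_prop)]
  unfold cut
  rw [cfcₙ_eq_cfc (hf0 := by simp [hδ.le])]
  apply cfc_congr
  intro t _
  exact Real.mul_self_sqrt (le_max_right _ _)

theorem rw_rk_zero (T : Tr A) : rk T (0 : A) = 0 := by
  unfold rk phi
  simp

end

theorem thm_RW (hdiag : StDIAG.{u}) (hexa : StEXA.{u}) (hrk : StRK.{u}) : StRW.{u} := by
  intro A _ _ _ hsc n K a c ε ha hc hc0 hε hT
  -- the two diagonal matrices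
  set fa : Fin (n * K + 1) → A :=
    Fin.snoc (α := fun _ => A) (fun p : Fin (n * K) => a (finProdFinEquiv.symm p).2) 0 with hfa
  set fb : Fin (n * K + 1) → A :=
    Fin.snoc (α := fun _ => A) (fun _ : Fin (n * K) => (0 : A)) c with hfb
  have fa1 : ∀ p : Fin (n * K), fa (Fin.castSucc p) = a (finProdFinEquiv.symm p).2 := by
    intro p; rw [hfa, Fin.snoc_castSucc]
  have fa2 : fa (Fin.last _) = 0 := by rw [hfa, Fin.snoc_last]
  have fb1 : ∀ p : Fin (n * K), fb (Fin.castSucc p) = 0 := by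
    intro p; rw [hfb, Fin.snoc_castSucc]
  have fb2 : fb (Fin.last _) = c := by rw [hfb, Fin.snoc_last]
  have fa0 : ∀ p, 0 ≤ fa p := by
    intro p
    refine Fin.lastCases ?_ (fun q => ?_) p
    · rw [fa2]
    · rw [fa1]; exact ha _
  have fb0 : ∀ p, 0 ≤ fb p := by
    intro p
    refine Fin.lastCases ?_ (fun q => ?_) p
    · rw [fb2]; exact hc
    · rw [fb1]
  obtain ⟨da, ra⟩ := hdiag A _ fa fa0
  obtain ⟨db, rb⟩ := hdiag A _ fb fb0
  have hne : (dg fb : MM (n * K + 1) A) ≠ 0 := by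
    intro h
    apply hc0
    have h1 : (dg fb : MM (n * K + 1) A) (Fin.last _) (Fin.last _) = 0 := by rw [h]; rfl
    rw [dg_apply, if_pos rfl, fb2] at h1
    exact h1
  have hcz : Cz (dg fa) (dg fb) := by
    apply hsc _ _ _ da db hne
    intro T h1
    refine ⟨_, _, (hrk _ (trM T _) (dg fa) da).2.2.1, (hrk _ (trM T _) (dg fb) db).2.2.1, ?_⟩
    rw [ra T, rb T, Fin.sum_univ_castSucc, Fin.sum_univ_castSucc, fa2, fb2]
    simp only [fa1, fb1, rw_rk_zero, add_zero, Finset.sum_const_zero, zero_add]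
    have h2 := hT ⟨T, h1⟩
    rw [Equiv.sum_comp finProdFinEquiv.symm (fun q : Fin n × Fin K => rk T (a q.2)),
      Fintype.sum_prod_type]
    simpa using h2
  obtain ⟨δ, x, hδ, hx⟩ := hexa _ (dg fa) (dg fb) ε da db hcz hε
  rw [rw_cut_dg fa fa0 ε hε.le, rw_cut_dg fb fb0 δ hδ.le] at hx
  have hent : ∀ p q, (if p = q then cut ε (fa p) else 0) =
      x p (Fin.last _) * cut δ c * star (x q (Fin.last _)) := by
    intro p q
    have h1 : (dg (fun j => cut ε (fa j)) : MM (n * K + 1) A) p q =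
      (x * dg (fun j => cut δ (fb j)) * star x) p q := by rw [hx]
    rw [dg_apply] at h1
    rw [h1, CStarMatrix.mul_apply]
    have hz : cut δ (0 : A) = 0 := by
      unfold cut
      simp
    have h3 : ∀ r, (x * dg (fun j => cut δ (fb j))) p r = x p r * cut δ (fb r) := by
      intro r
      rw [CStarMatrix.mul_apply, Finset.sum_eq_single r]
      · rw [dg_apply, if_pos rfl]
      · intro s _ hs
        rw [dg_apply, if_neg hs, mul_zero]
      · simp
    rw [Finset.sum_eq_single (Fin.last _)]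
    · rw [h3, fb2, CStarMatrix.star_apply]
    · intro r _ hr
      obtain ⟨r', rfl⟩ : ∃ r', r = Fin.castSucc r' := by
        refine ⟨r.castPred hr, ?_⟩
        simp
      rw [h3, fb1, hz, mul_zero, zero_mul]
    · simp
  obtain ⟨g, hg⟩ := rw_root c hc δ hδ
  refine ⟨fun i k => CFC.sqrt c * (g * star (x (Fin.castSucc (finProdFinEquiv (i, k)))
    (Fin.last _))), fun i k => g * star (x (Fin.castSucc (finProdFinEquiv (i, k)))
    (Fin.last _)), fun i k => rfl, ?_⟩
  intro i k j l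
  set X := x (Fin.castSucc (finProdFinEquiv (i, k))) (Fin.last _) with hX
  set Y := x (Fin.castSucc (finProdFinEquiv (j, l))) (Fin.last _) with hY
  have h1 : star (CFC.sqrt c * (g * star X)) * (CFC.sqrt c * (g * star Y)) =
      X * (star (CFC.sqrt c * g) * (CFC.sqrt c * g)) * star Y := by
    simp only [star_mul, star_star, mul_assoc]
  rw [h1, hg, hX, hY, ← hent]
  have h2 : (Fin.castSucc (finProdFinEquiv (i, k)) = Fin.castSucc (finProdFinEquiv (j, l))) ↔
      (i = j ∧ k = l) := by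
    rw [Fin.castSucc_inj, finProdFinEquiv.apply_eq_iff_eq, Prod.mk.injEq]
  by_cases h : i = j ∧ k = l
  · rw [if_pos (h2.2 h), if_pos h, fa1, Equiv.symm_apply_apply]
  · rw [if_neg (fun h' => h (h2.1 h')), if_neg h]

end Pool.Agent.H667R5.TW
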