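import Pool.Agent.H667R5.TW.Stubs

set_option autoImplicit false
set_option linter.unusedSectionVars false

namespace Pool.Agent.H667R5.TW

open Pool.Agent.H327R4.Pure
open scoped CStarAlgebra ComplexOrder Matrix

universe u v

namespace STEP1x

section

variable {A : Type u} [CStarAlgebra A] [PartialOrder A] [StarOrderedRing A]

theorem tr_add (T : TS A) (x y : A) : tr T (x + y) = tr T x + tr T y := by
  unfold tr
  rw [map_add, Complex.add_re]

theorem tr_sub (T : TS A) (x y : A) : tr T (x - y) = tr T x - tr T y := by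
  unfold tr
  rw [map_sub, Complex.sub_re]

theorem tr_neg (T : TS A) (x : A) : tr T (-x) = - tr T x := by
  unfold tr
  rw [map_neg, Complex.neg_re]

theorem tr_zero (T : TS A) : tr T (0 : A) = 0 := by
  unfold tr
  rw [map_zero, Complex.zero_re]

theorem tr_sum (T : TS A) {ι : Type} (s : Finset ι) (f : ι → A) :
    tr T (∑ i ∈ s, f i) = ∑ i ∈ s, tr T (f i) := by
  unfold tr
  rw [map_sum, Complex.re_sum]

theorem tr_comm (T : TS A) (x y : A) : tr T (x * y) = tr T (y * x) := by
  unfold tr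
  rw [T.1.tr]

theorem tr_smul (T : TS A) (r : ℝ) (x : A) : tr T (r • x) = r * tr T x := by
  unfold tr
  have h : r • x = (r : ℂ) • x := by simp
  rw [h, map_smul, smul_eq_mul, Complex.re_ofReal_mul]

theorem n2_eq (T : TS A) (x : A) : n2 T x = tr T (star x * x) := rfl

theorem tr_star (hB : StBAS.{u}) (T : TS A) (x : A) : tr T (star x) = tr T x := by
  unfold tr
  rw [(hB A T).2.2.2.2.2.2.2.1 x, Complex.star_def, Complex.conj_re]

theorem n2_add (hB : StBAS.{u}) (T : TS A) (x y : A) :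
    n2 T (x + y) = n2 T x + 2 * tr T (star x * y) + n2 T y := by
  have h : tr T (star y * x) = tr T (star x * y) := by
    rw [← tr_star hB T (star x * y), star_mul, star_star]
  rw [n2_eq, n2_eq, n2_eq, star_add, add_mul, mul_add, mul_add, tr_add, tr_add, tr_add, h]
  ring

theorem n2_nn (hB : StBAS.{u}) (T : TS A) (x : A) : 0 ≤ n2 T x :=
  ((hB A T).2.2.2.1 x).2.1

/-- Cauchy-Schwarz -/
theorem cs (hB : StBAS.{u}) (T : TS A) (x y : A) :
    |tr T (star x * y)| ≤ √(n2 T x) * √(n2 T y) := by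
  have h := (hB A T).2.1 x y
  have h1 : |tr T (star x * y)| ≤ ‖T.1.f (star x * y)‖ := Complex.abs_re_le_norm _
  refine h1.trans ?_
  rw [← Real.sqrt_mul (n2_nn hB T x)]
  exact Real.le_sqrt_of_sq_le h

theorem tri (hB : StBAS.{u}) (T : TS A) (x y : A) :
    √(n2 T (x + y)) ≤ √(n2 T x) + √(n2 T y) :=
  (hB A T).2.2.2.2.1 x y

theorem tri3 (hB : StBAS.{u}) (T : TS A) (x y z : A) :
    n2 T (x + y + z) ≤ 3 * (n2 T x + n2 T y + n2 T z) := by
  have h1 := tri hB T (x + y) z
  have h2 := tri hB T x y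
  have e0 := Real.sq_sqrt (n2_nn hB T (x + y + z))
  have e1 := Real.sq_sqrt (n2_nn hB T x)
  have e2 := Real.sq_sqrt (n2_nn hB T y)
  have e3 := Real.sq_sqrt (n2_nn hB T z)
  have p0 := Real.sqrt_nonneg (n2 T (x + y + z))
  have h3 : √(n2 T (x + y + z)) ≤ √(n2 T x) + √(n2 T y) + √(n2 T z) := by linarith
  rw [← e0, ← e1, ← e2, ← e3]
  nlinarith [sq_nonneg (√(n2 T x) - √(n2 T y)), sq_nonneg (√(n2 T x) - √(n2 T z)),
    sq_nonneg (√(n2 T y) - √(n2 T z)), pow_le_pow_left₀ p0 h3 2]

theorem n2_neg (T : TS A) (x : A) : n2 T (-x) = n2 T x := by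
  rw [n2_eq, n2_eq, star_neg, neg_mul_neg]

theorem n2_zero (T : TS A) : n2 T (0 : A) = 0 := by
  rw [n2_eq, mul_zero, tr_zero]

theorem tri_sum (hB : StBAS.{u}) (T : TS A) {ι : Type} (s : Finset ι) (f : ι → A) :
    √(n2 T (∑ i ∈ s, f i)) ≤ ∑ i ∈ s, √(n2 T (f i)) := by
  classical
  induction s using Finset.induction_on with
  | empty => simp [n2_zero]
  | insert a s ha ih =>
    rw [Finset.sum_insert ha, Finset.sum_insert ha]
    exact (tri hB T _ _).trans (by linarith)

theorem n2_mul_right (hB : StBAS.{u}) (T : TS A) (x y : A) (hy : ‖y‖ ≤ 1) :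
    n2 T (x * y) ≤ n2 T x := by
  have h := ((hB A T).2.2.1 x y).2
  have h1 : ‖y‖ ^ 2 ≤ 1 := pow_le_one₀ (norm_nonneg _) hy
  exact h.trans (mul_le_of_le_one_left (n2_nn hB T x) h1)

theorem n2_mul_left (hB : StBAS.{u}) (T : TS A) (x y : A) (hx : ‖x‖ ≤ 1) :
    n2 T (x * y) ≤ n2 T y := by
  have h := ((hB A T).2.2.1 x y).1
  have h1 : ‖x‖ ^ 2 ≤ 1 := pow_le_one₀ (norm_nonneg _) hx
  exact h.trans (mul_le_of_le_one_left (n2_nn hB T y) h1)

/-- facts on a completely positive family with `dsum P ≤ 1` -/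
theorem cp_le (hC : StCPB.{u}) {n : ℕ} {P : Fin n → Fin n → A} (hP : IsCP P)
    (h1 : dsum P ≤ 1) (i j : Fin n) : star (P i j) * P i j ≤ P j j :=
  (((hC A n).2.2.2.2.2 P hP).2.2.2) h1 i j

theorem cp_star (hC : StCPB.{u}) {n : ℕ} {P : Fin n → Fin n → A} (hP : IsCP P)
    (i j : Fin n) : star (P i j) = P j i :=
  ((hC A n).2.2.2.2.2 P hP).1 i j

theorem cp_nn (hC : StCPB.{u}) {n : ℕ} {P : Fin n → Fin n → A} (hP : IsCP P)
    (i : Fin n) : 0 ≤ P i i :=
  ((hC A n).2.2.2.2.2 P hP).2.1 i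

theorem cp_dsum_nn (hC : StCPB.{u}) {n : ℕ} {P : Fin n → Fin n → A} (hP : IsCP P) :
    0 ≤ dsum P :=
  ((hC A n).2.2.2.2.2 P hP).2.2.1

theorem defect_eq {n : ℕ} (T : TS A) (P : Fin n → Fin n → A) :
    defect T P = ∑ i, ∑ j, (tr T (P j j) - n2 T (P i j)) := by
  unfold defect dsum
  rw [tr_sum]
  simp only [Finset.sum_sub_distrib]
  rw [Finset.sum_const, Finset.card_univ, Fintype.card_fin, nsmul_eq_mul]

theorem term_nn (hB : StBAS.{u}) (hC : StCPB.{u}) {n : ℕ} (T : TS A) {P : Fin n → Fin n → A}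
    (hP : IsCP P) (h1 : dsum P ≤ 1) (i j : Fin n) : 0 ≤ tr T (P j j) - n2 T (P i j) := by
  have := (hB A T).1 _ _ (cp_le hC hP h1 i j)
  rw [n2_eq]
  linarith

theorem lemA (hB : StBAS.{u}) (hC : StCPB.{u}) {n : ℕ} (T : TS A) {P : Fin n → Fin n → A}
    (hP : IsCP P) (h1 : dsum P ≤ 1) : tr T (dsum P - dsum P * dsum P) ≤ defect T P := by
  rw [defect_eq, tr_sub]
  have e1 : tr T (dsum P * dsum P) = ∑ i, ∑ j, tr T (P i i * P j j) := by
    unfold dsum
    rw [Finset.sum_mul, tr_sum]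
    refine Finset.sum_congr rfl fun i _ => ?_
    rw [Finset.mul_sum, tr_sum]
  have e2 : ∑ i, tr T (P i i * P i i) ≤ ∑ i, ∑ j, tr T (P i i * P j j) := by
    refine Finset.sum_le_sum fun i _ => ?_
    exact Finset.single_le_sum (f := fun j => tr T (P i i * P j j))
      (fun j _ => (hB A T).2.2.2.2.2.1 _ _ (cp_nn hC hP i) (cp_nn hC hP j)) (Finset.mem_univ i)
  have e3 : tr T (dsum P) = ∑ i, tr T (P i i) := by
    unfold dsum
    rw [tr_sum]
  have e4 : ∑ i, (tr T (P i i) - tr T (P i i * P i i)) ≤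
      ∑ i, ∑ j, (tr T (P j j) - n2 T (P i j)) := by
    refine Finset.sum_le_sum fun i _ => ?_
    have h2 : tr T (P i i) - tr T (P i i * P i i) = tr T (P i i) - n2 T (P i i) := by
      rw [n2_eq, cp_star hC hP i i]
    rw [h2]
    exact Finset.single_le_sum (f := fun j => tr T (P j j) - n2 T (P i j))
      (fun j _ => term_nn hB hC T hP h1 i j) (Finset.mem_univ i)
  rw [Finset.sum_sub_distrib] at e4
  rw [e1, e3]
  linarith

/-- real part form of the trace estimate -/
theorem good_re {n : ℕ} (T : TS A) {Q : Fin n → Fin n → A} {m δ : ℝ} {y : A}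
    (h : ∀ i j, ‖T.1.f (y * Q i j) - (if i = j then ((m / n : ℝ) : ℂ) * T.1.f y else 0)‖ ≤ δ)
    (i j : Fin n) : |tr T (y * Q i j) - (if i = j then m / n * tr T y else 0)| ≤ δ := by
  have h1 := h i j
  have h2 : tr T (y * Q i j) - (if i = j then m / n * tr T y else 0) =
      (T.1.f (y * Q i j) - (if i = j then ((m / n : ℝ) : ℂ) * T.1.f y else 0)).re := by
    unfold tr
    split_ifs
    · rw [Complex.sub_re, Complex.re_ofReal_mul]
    · simp
  rw [h2]
  exact (Complex.abs_re_le_norm _).trans h1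

theorem good4 {n : ℕ} (T : TS A) {Q : Fin n → Fin n → A} {m δ : ℝ} {z : A}
    (h : ∀ i j, |tr T ((1 / 4 : ℝ) • z * Q i j) -
      (if i = j then m / n * tr T ((1 / 4 : ℝ) • z) else 0)| ≤ δ)
    (i j : Fin n) : |tr T (z * Q i j) - (if i = j then m / n * tr T z else 0)| ≤ 4 * δ := by
  have h1 := h i j
  rw [smul_mul_assoc, tr_smul, tr_smul] at h1
  have h2 : tr T (z * Q i j) - (if i = j then m / n * tr T z else 0) =
      4 * (1 / 4 * tr T (z * Q i j) - (if i = j then m / n * (1 / 4 * tr T z) else 0)) := by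
    split_ifs <;> ring
  rw [h2, abs_mul, abs_of_pos (by norm_num : (0 : ℝ) < 4)]
  linarith

theorem sum_diag {n : ℕ} (hn : 1 ≤ n) (a : ℝ) (m : ℝ) :
    ∑ _i : Fin n, m / n * a = m * a := by
  rw [Finset.sum_const, Finset.card_univ, Fintype.card_fin, nsmul_eq_mul]
  have : (n : ℝ) ≠ 0 := by
    have : 0 < n := hn
    positivity
  field_simp

theorem dsum_conj {n : ℕ} (P Q : Fin n → Fin n → A) (h : A) :
    dsum (fun i j => P i j + h * Q i j * h) = dsum P + h * dsum Q * h := by
  unfold dsum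
  rw [Finset.sum_add_distrib, Finset.mul_sum, Finset.sum_mul]

theorem tr_hqh {n : ℕ} (T : TS A) (Q : Fin n → Fin n → A) (h : A) :
    tr T (h * dsum Q * h) = ∑ i, tr T (h * h * Q i i) := by
  rw [tr_comm, ← mul_assoc]
  unfold dsum
  rw [Finset.mul_sum, tr_sum]

theorem lema (hB : StBAS.{u}) (hC : StCPB.{u}) {n : ℕ} (hn : 1 ≤ n) (T : TS A)
    {P Q : Fin n → Fin n → A} (hP : IsCP P) (h1 : dsum P ≤ 1) {m δ : ℝ} (hm : 0 < m) {h : A}
    (hh : h = 1 - dsum P)
    (g2 : ∀ i j, |tr T (h * h * Q i j) - (if i = j then m / n * tr T (h * h) else 0)| ≤ δ) :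
    tr T (1 - dsum (fun i j => P i j + h * Q i j * h)) ≤
      (1 - m) * tr T (1 - dsum P) + m * defect T P + n * δ := by
  have e1 : tr T (1 - dsum (fun i j => P i j + h * Q i j * h)) =
      tr T h - ∑ i, tr T (h * h * Q i i) := by
    rw [dsum_conj, ← tr_hqh, ← tr_sub]
    congr 1
    rw [hh]
    abel
  have e2 : m * tr T (h * h) - n * δ ≤ ∑ i, tr T (h * h * Q i i) := by
    have : ∑ i : Fin n, (m / n * tr T (h * h) - δ) ≤ ∑ i, tr T (h * h * Q i i) := by
      refine Finset.sum_le_sum fun i _ => ?_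
      have := g2 i i
      rw [if_pos rfl] at this
      have := (abs_le.1 this).1
      linarith
    rw [Finset.sum_sub_distrib, sum_diag hn, Finset.sum_const, Finset.card_univ,
      Fintype.card_fin, nsmul_eq_mul] at this
    exact this
  have e3 : tr T h - tr T (h * h) ≤ defect T P := by
    have := lemA hB hC T hP h1
    have e : dsum P - dsum P * dsum P = h - h * h := by
      rw [hh]
      noncomm_ring
    rw [e, tr_sub] at this
    exact this
  rw [e1, ← hh]
  nlinarith

/-- lower bound for the norm of `h Q_ij h` -/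
theorem nb (hB : StBAS.{u}) (hC : StCPB.{u}) {n : ℕ} (T : TS A)
    {Q : Fin n → Fin n → A} (hQ : IsCP Q) (hQ1 : dsum Q ≤ 1) {m s : ℝ} (hm : 0 < m)
    (hs : 0 ≤ s) {h : A} (hh : star h = h) (hle : h * h * (h * h) ≤ 1) (hnm : ‖h * h‖ ≤ 1)
    (i j : Fin n) (g1 : tr T (Q j j) ≤ 2 * m)
    (k2 : n2 T (h * h * Q i j - Q i j * (h * h)) ≤ s ^ 2 * m) :
    tr T (h * h * (h * h) * Q j j) - (tr T (Q j j) - n2 T (Q i j)) - 2 * s * m ≤
      n2 T (h * Q i j * h) := by
  set k : A := h * h with hk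
  set q : A := Q i j with hq
  set D : A := k * q - q * k with hD
  have hks : star k = k := by rw [hk, star_mul, hh]
  have e1 : n2 T (h * q * h) = tr T (k * star q * q * k) + tr T (star (q * k) * D) := by
    rw [n2_eq]
    have a1 : star (h * q * h) * (h * q * h) = h * (star q * k * q * h) := by
      rw [star_mul, star_mul, hh, hk]
      noncomm_ring
    have a2 : star q * k * q * h * h = star q * k * q * k := by
      rw [hk]
      noncomm_ring
    rw [a1, tr_comm, a2, tr_comm, ← tr_add]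
    congr 1
    rw [star_mul, hks, hD]
    noncomm_ring
  have e2 : |tr T (star (q * k) * D)| ≤ 2 * s * m := by
    have c1 := cs hB T (q * k) D
    have c2 : n2 T (q * k) ≤ 2 * m := by
      have := n2_mul_right hB T q k hnm
      have := term_nn hB hC T hQ hQ1 i j
      linarith
    refine c1.trans ?_
    rw [← Real.sqrt_mul (n2_nn hB T _)]
    refine Real.sqrt_le_iff.2 ⟨by positivity, ?_⟩
    have c3 := n2_nn hB T (q * k)
    have c4 := n2_nn hB T D
    calc n2 T (q * k) * n2 T D ≤ (2 * m) * (s ^ 2 * m) :=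
          mul_le_mul c2 k2 c4 (by positivity)
      _ ≤ (2 * s * m) ^ 2 := by
          have : 0 ≤ s ^ 2 * m ^ 2 := by positivity
          nlinarith
  have e3 : tr T (k * k * Q j j) - (tr T (Q j j) - n2 T q) ≤ tr T (k * star q * q * k) := by
    have d1 : 0 ≤ Q j j - star q * q := sub_nonneg.2 (cp_le hC hQ hQ1 i j)
    have d2 : 0 ≤ 1 - k * k := sub_nonneg.2 hle
    have d3 := (hB A T).2.2.2.2.2.1 _ _ d2 d1
    have d4 : (1 - k * k) * (Q j j - star q * q) =
        Q j j - star q * q - k * k * Q j j + k * (k * star q * q) := by noncomm_ring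
    rw [d4, tr_add, tr_sub, tr_sub, tr_comm T k] at d3
    rw [n2_eq]
    linarith
  have := (abs_le.1 e2).1
  rw [e1]
  linarith

theorem lemb (hB : StBAS.{u}) (hC : StCPB.{u}) {n : ℕ} (hn : 1 ≤ n) (T : TS A)
    {P Q : Fin n → Fin n → A} (hP : IsCP P) (h1 : dsum P ≤ 1) (hQ : IsCP Q) (hQ1 : dsum Q ≤ 1)
    {m s : ℝ} (hm : 0 < m) (hs : 0 ≤ s) {h : A}
    (hh : h = 1 - dsum P) (hhs : star h = h) (hle : h * h * (h * h) ≤ 1) (hnm : ‖h * h‖ ≤ 1)
    (hh1 : h ≤ 1) (hhh : h * h ≤ h)
    (g1 : ∀ j, tr T (Q j j) ≤ 2 * m)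
    (g2 : ∀ i j, |tr T (h * h * Q i j) - (if i = j then m / n * tr T (h * h) else 0)| ≤ s ^ 2 * m)
    (g4 : ∀ i j, |tr T (h * h * (h * h) * Q i j) -
      (if i = j then m / n * tr T (h * h * (h * h)) else 0)| ≤ s ^ 2 * m)
    (gP : ∀ i j, |tr T (h * star (P i j) * h * Q i j) -
      (if i = j then m / n * tr T (h * star (P i j) * h) else 0)| ≤ s ^ 2 * m)
    (k2 : ∀ i j, n2 T (h * h * Q i j - Q i j * (h * h)) ≤ s ^ 2 * m)
    (hd : defect T Q ≤ s ^ 2 * m) :
    defect T (fun i j => P i j + h * Q i j * h) ≤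
      (1 + 2 * n * m) * defect T P + (5 * n ^ 2 * s ^ 2 + 2 * n ^ 2 * s) * m := by
  have hn' : (1 : ℝ) ≤ n := by exact_mod_cast hn
  -- the first term
  have f1 : (n : ℝ) * tr T (dsum (fun i j => P i j + h * Q i j * h)) ≤
      n * tr T (dsum P) + (n * m * tr T (h * h) + n ^ 2 * (s ^ 2 * m)) := by
    rw [dsum_conj, tr_add, tr_hqh]
    have : ∑ i, tr T (h * h * Q i i) ≤ m * tr T (h * h) + n * (s ^ 2 * m) := by
      have : ∑ i, tr T (h * h * Q i i) ≤ ∑ i : Fin n, (m / n * tr T (h * h) + s ^ 2 * m) := by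
        refine Finset.sum_le_sum fun i _ => ?_
        have := g2 i i
        rw [if_pos rfl] at this
        have := (abs_le.1 this).2
        linarith
      rw [Finset.sum_add_distrib, sum_diag hn, Finset.sum_const, Finset.card_univ,
        Fintype.card_fin, nsmul_eq_mul] at this
      exact this
    have h3 := mul_le_mul_of_nonneg_left this (by linarith : (0 : ℝ) ≤ n)
    linarith
  -- the cross terms
  have f2 : ∀ i j, - (s ^ 2 * m) ≤ tr T (star (P i j) * (h * Q i j * h)) := by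
    intro i j
    have e : tr T (star (P i j) * (h * Q i j * h)) = tr T (h * star (P i j) * h * Q i j) := by
      rw [← mul_assoc, tr_comm]
      congr 1
      noncomm_ring
    have b := (abs_le.1 (gP i j)).1
    rw [e]
    have c : 0 ≤ (if i = j then m / n * tr T (h * star (P i j) * h) else 0) := by
      split_ifs with hij
      · subst hij
        have d := (hB A T).2.2.2.2.2.2.1 0 (P i i) h (cp_nn hC hP i)
        rw [mul_zero, zero_mul, tr_zero, hhs] at d
        rw [cp_star hC hP i i]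
        exact mul_nonneg (div_nonneg hm.le (by linarith)) d
      · exact le_refl _
    linarith
  -- the square terms
  have f3 := fun i j => nb hB hC T hQ hQ1 hm hs hhs hle hnm i j (g1 j) (k2 i j)
  have f4 : n * m * tr T (h * h * (h * h)) - n ^ 2 * (s ^ 2 * m) - s ^ 2 * m -
      n ^ 2 * (2 * s * m) ≤ ∑ i, ∑ j, n2 T (h * Q i j * h) := by
    have a1 : ∑ i : Fin n, ∑ j : Fin n, (tr T (h * h * (h * h) * Q j j) -
        (tr T (Q j j) - n2 T (Q i j)) - 2 * s * m) ≤ ∑ i, ∑ j, n2 T (h * Q i j * h) :=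
      Finset.sum_le_sum fun i _ => Finset.sum_le_sum fun j _ => f3 i j
    have a2 : ∑ i : Fin n, ∑ j : Fin n, (tr T (h * h * (h * h) * Q j j) -
        (tr T (Q j j) - n2 T (Q i j)) - 2 * s * m) =
        n * ∑ j, tr T (h * h * (h * h) * Q j j) - defect T Q - n ^ 2 * (2 * s * m) := by
      rw [defect_eq]
      simp only [Finset.sum_sub_distrib, Finset.sum_const, Finset.card_univ, Fintype.card_fin,
        nsmul_eq_mul]
      ring
    have a3 : m * tr T (h * h * (h * h)) - n * (s ^ 2 * m) ≤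
        ∑ j, tr T (h * h * (h * h) * Q j j) := by
      have : ∑ i : Fin n, (m / n * tr T (h * h * (h * h)) - s ^ 2 * m) ≤
          ∑ j, tr T (h * h * (h * h) * Q j j) := by
        refine Finset.sum_le_sum fun i _ => ?_
        have := g4 i i
        rw [if_pos rfl] at this
        have := (abs_le.1 this).1
        linarith
      rw [Finset.sum_sub_distrib, sum_diag hn, Finset.sum_const, Finset.card_univ,
        Fintype.card_fin, nsmul_eq_mul] at this
      exact this
    have a4 := mul_le_mul_of_nonneg_left a3 (by linarith : (0 : ℝ) ≤ n)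
    rw [a2] at a1
    linarith
  -- expansion
  have f5 : ∑ i, ∑ j, n2 T (P i j + h * Q i j * h) =
      ∑ i, ∑ j, n2 T (P i j) + 2 * ∑ i, ∑ j, tr T (star (P i j) * (h * Q i j * h)) +
      ∑ i, ∑ j, n2 T (h * Q i j * h) := by
    simp only [n2_add hB T, Finset.sum_add_distrib, Finset.mul_sum]
  have f6 : - (n ^ 2 * (s ^ 2 * m)) ≤
      ∑ i, ∑ j, tr T (star (P i j) * (h * Q i j * h)) := by
    have : ∑ i : Fin n, ∑ j : Fin n, (-(s ^ 2 * m)) ≤
        ∑ i, ∑ j, tr T (star (P i j) * (h * Q i j * h)) :=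
      Finset.sum_le_sum fun i _ => Finset.sum_le_sum fun j _ => f2 i j
    simp only [Finset.sum_const, Finset.card_univ, Fintype.card_fin, nsmul_eq_mul] at this
    linarith
  have f7 : tr T (h * h) - tr T (h * h * (h * h)) ≤ 2 * defect T P := by
    have a1 : 0 ≤ h - h * h := sub_nonneg.2 hhh
    have a2 : 0 ≤ (1 - h) + (1 - h * h) :=
      add_nonneg (sub_nonneg.2 hh1) (sub_nonneg.2 (hhh.trans hh1))
    have a3 := (hB A T).2.2.2.2.2.1 _ _ a2 a1
    have a4 : ((1 - h) + (1 - h * h)) * (h - h * h) =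
        (h - h * h) + (h - h * h) - (h * h - h * h * (h * h)) := by noncomm_ring
    rw [a4, tr_sub, tr_add, tr_sub T (h * h)] at a3
    have a5 := lemA hB hC T hP h1
    have e : dsum P - dsum P * dsum P = h - h * h := by
      rw [hh]
      noncomm_ring
    rw [e] at a5
    linarith
  have f8 := mul_le_mul_of_nonneg_left f7 (by positivity : (0 : ℝ) ≤ n * m)
  have f9 : defect T (fun i j => P i j + h * Q i j * h) =
      n * tr T (dsum (fun i j => P i j + h * Q i j * h)) -
        ∑ i, ∑ j, n2 T (P i j + h * Q i j * h) := rfl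
  have f10 : defect T P = n * tr T (dsum P) - ∑ i, ∑ j, n2 T (P i j) := rfl
  have f11 : s ^ 2 * m ≤ n ^ 2 * (s ^ 2 * m) := by
    have : (1 : ℝ) ≤ n ^ 2 := one_le_pow₀ hn'
    have h3 : 0 ≤ s ^ 2 * m := by positivity
    nlinarith
  rw [f9, f5]
  have f12 : (n : ℝ) * m * (tr T (h * h) - tr T (h * h * (h * h))) =
      n * m * tr T (h * h) - n * m * tr T (h * h * (h * h)) := by ring
  rw [f12] at f8
  have f13 : (1 + 2 * n * m) * defect T P + (5 * n ^ 2 * s ^ 2 + 2 * n ^ 2 * s) * m =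
      defect T P + n * m * (2 * defect T P) + 5 * (n ^ 2 * (s ^ 2 * m)) + n ^ 2 * (2 * s * m) := by
    ring
  rw [f13]
  linarith

theorem lemc (hB : StBAS.{u}) (hC : StCPB.{u}) {n : ℕ} (hn : 1 ≤ n) (T : TS A)
    {P Q : Fin n → Fin n → A} (hQ : IsCP Q) (hQ1 : dsum Q ≤ 1)
    {m δ : ℝ} (hm : 0 < m) {h : A}
    (hh : h = 1 - dsum P) (hhn : ‖h‖ ≤ 1) (x : A)
    (gG : ∀ i j, |tr T (h * (star (x * P i j - P i j * x) * x -
        x * star (x * P i j - P i j * x)) * h * Q i j) -
      (if i = j then m / n * tr T (h * (star (x * P i j - P i j * x) * x -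
        x * star (x * P i j - P i j * x)) * h) else 0)| ≤ 4 * δ)
    (gc : ∀ i j, |tr T (star (x * h - h * x) * (x * h - h * x) * Q i j) -
      (if i = j then m / n * tr T (star (x * h - h * x) * (x * h - h * x)) else 0)| ≤ 4 * δ)
    (gc' : ∀ i j, |tr T ((x * h - h * x) * star (x * h - h * x) * Q i j) -
      (if i = j then m / n * tr T ((x * h - h * x) * star (x * h - h * x)) else 0)| ≤ 4 * δ)
    (kx : ∀ i j, n2 T (x * Q i j - Q i j * x) ≤ δ) :
    comm T (fun i j => P i j + h * Q i j * h) x ≤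
      (1 + 10 * (n : ℝ) ^ 2 * m) * comm T P x + 35 * n ^ 2 * δ := by
  have hn' : (1 : ℝ) ≤ n := by exact_mod_cast hn
  set c : A := x * h - h * x with hc
  set S : ℝ := ∑ i, √(n2 T (x * P i i - P i i * x)) with hS
  have hS0 : 0 ≤ S := Finset.sum_nonneg fun i _ => Real.sqrt_nonneg _
  have hnn : ∀ i j, 0 ≤ n2 T (x * P i j - P i j * x) := fun i j => n2_nn hB T _
  have hdiag : ∑ i, n2 T (x * P i i - P i i * x) ≤ comm T P x := by
    unfold comm
    exact Finset.sum_le_sum fun i _ => Finset.single_le_sum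
      (f := fun j => n2 T (x * P i j - P i j * x)) (fun j _ => hnn i j) (Finset.mem_univ i)
  have hS2 : S ^ 2 ≤ n * comm T P x := by
    have a1 := sq_sum_le_card_mul_sum_sq (s := (Finset.univ : Finset (Fin n)))
      (f := fun i => √(n2 T (x * P i i - P i i * x)))
    rw [Finset.card_univ, Fintype.card_fin] at a1
    have a2 : ∑ i : Fin n, √(n2 T (x * P i i - P i i * x)) ^ 2 =
        ∑ i, n2 T (x * P i i - P i i * x) :=
      Finset.sum_congr rfl fun i _ => Real.sq_sqrt (hnn i i)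
    rw [a2] at a1
    exact a1.trans (mul_le_mul_of_nonneg_left hdiag (by linarith))
  have hcS : √(n2 T c) ≤ S := by
    have e : c = - ∑ i, (x * P i i - P i i * x) := by
      rw [hc, hh, Finset.sum_sub_distrib, ← Finset.mul_sum, ← Finset.sum_mul]
      show x * (1 - ∑ i, P i i) - (1 - ∑ i, P i i) * x = _
      noncomm_ring
    rw [e, n2_neg]
    exact tri_sum hB T _ _
  have hcn : n2 T c ≤ S ^ 2 := by
    rw [← Real.sq_sqrt (n2_nn hB T c)]
    exact pow_le_pow_left₀ (Real.sqrt_nonneg _) hcS 2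
  have hδ : 0 ≤ δ := (n2_nn hB T _).trans (kx ⟨0, hn⟩ ⟨0, hn⟩)
  -- the square terms
  have sq1 : ∀ i j, n2 T (x * (h * Q i j * h) - (h * Q i j * h) * x) ≤
      3 * (2 * (m / n * n2 T c) + 9 * δ) := by
    intro i j
    have e : x * (h * Q i j * h) - (h * Q i j * h) * x =
        c * Q i j * h + h * (x * Q i j - Q i j * x) * h + h * (Q i j * c) := by
      rw [hc]
      noncomm_ring
    rw [e]
    have b := tri3 hB T (c * Q i j * h) (h * (x * Q i j - Q i j * x) * h) (h * (Q i j * c))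
    have b1 : n2 T (c * Q i j * h) ≤ m / n * n2 T c + 4 * δ := by
      refine (n2_mul_right hB T _ _ hhn).trans ?_
      have a1 : star (Q j i) = Q i j := cp_star hC hQ j i
      have a2 : Q i j * star (Q i j) ≤ Q i i := by
        have := cp_le hC hQ hQ1 j i
        rw [a1] at this
        rwa [cp_star hC hQ i j]
      have a3 := (hB A T).2.2.2.2.2.2.1 _ _ (star c) a2
      rw [star_star] at a3
      have a4 : n2 T (c * Q i j) = tr T (c * (Q i j * star (Q i j)) * star c) := by
        rw [n2_eq, tr_comm]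
        congr 1
        rw [star_mul]
        noncomm_ring
      have a5 : tr T (c * Q i i * star c) = tr T (star c * c * Q i i) := by
        rw [tr_comm, ← mul_assoc]
      have a6 := gc i i
      rw [if_pos rfl] at a6
      have a7 := (abs_le.1 a6).2
      rw [a4]
      rw [n2_eq]
      linarith
    have b2 : n2 T (h * (x * Q i j - Q i j * x) * h) ≤ δ :=
      ((n2_mul_right hB T _ _ hhn).trans (n2_mul_left hB T _ _ hhn)).trans (kx i j)
    have b3 : n2 T (h * (Q i j * c)) ≤ m / n * n2 T c + 4 * δ := by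
      refine (n2_mul_left hB T _ _ hhn).trans ?_
      have a2 := cp_le hC hQ hQ1 i j
      have a3 := (hB A T).2.2.2.2.2.2.1 _ _ c a2
      have a4 : n2 T (Q i j * c) = tr T (star c * (star (Q i j) * Q i j) * c) := by
        rw [n2_eq]
        congr 1
        rw [star_mul]
        noncomm_ring
      have a5 : tr T (star c * Q j j * c) = tr T (c * star c * Q j j) := by
        rw [tr_comm, ← mul_assoc]
      have a6 := gc' j j
      rw [if_pos rfl] at a6
      have a7 := (abs_le.1 a6).2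
      have a8 : tr T (c * star c) = n2 T c := by
        rw [n2_eq, tr_comm]
      rw [a8] at a7
      rw [a4]
      linarith
    linarith
  -- the cross terms
  have cr : ∀ i j, tr T (star (x * P i j - P i j * x) *
      (x * (h * Q i j * h) - (h * Q i j * h) * x)) ≤
      (if i = j then m / n * (2 * √(n2 T (x * P i i - P i i * x)) * S) else 0) + 4 * δ := by
    intro i j
    set G : A := star (x * P i j - P i j * x) with hG
    have e1 : tr T (G * (x * (h * Q i j * h) - (h * Q i j * h) * x)) =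
        tr T (h * (G * x - x * G) * h * Q i j) := by
      have a1 : G * (x * (h * Q i j * h) - (h * Q i j * h) * x) =
          (G * x * h * Q i j) * h - (G * h * Q i j * h) * x := by noncomm_ring
      have a2 : tr T ((G * h * Q i j * h) * x) = tr T ((x * G * h * Q i j) * h) := by
        rw [tr_comm]
        congr 1
        noncomm_ring
      rw [a1, tr_sub, a2, ← tr_sub, ← sub_mul, tr_comm]
      congr 1
      noncomm_ring
    have e2 := (abs_le.1 (gG i j)).2
    rw [e1]
    have e3 : (if i = j then m / n * tr T (h * (G * x - x * G) * h) else 0) ≤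
        (if i = j then m / n * (2 * √(n2 T (x * P i i - P i i * x)) * S) else 0) := by
      split_ifs with hij
      · refine mul_le_mul_of_nonneg_left ?_ (div_nonneg hm.le (by linarith))
        have a1 : tr T (h * (G * x - x * G) * h) = tr T (G * (c * h + h * c)) := by
          have b1 : h * (G * x - x * G) * h = (h * G * x) * h - (h * x) * (G * h) := by
            noncomm_ring
          have b2 : tr T ((h * G * x) * h) = tr T (G * (x * h * h)) := by
            rw [tr_comm, show h * (h * G * x) = (h * h) * (G * x) by noncomm_ring, tr_comm]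
            congr 1
            noncomm_ring
          have b3 : tr T ((h * x) * (G * h)) = tr T (G * (h * h * x)) := by
            rw [tr_comm]
            congr 1
            noncomm_ring
          rw [b1, tr_sub, b2, b3, ← tr_sub]
          congr 1
          rw [hc]
          noncomm_ring
        rw [a1]
        have a2 := cs hB T (x * P i j - P i j * x) (c * h + h * c)
        have a3 := (le_abs_self _).trans a2
        rw [← hG] at a3
        have a4 : √(n2 T (c * h + h * c)) ≤ 2 * S := by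
          have d1 := tri hB T (c * h) (h * c)
          have d2 : √(n2 T (c * h)) ≤ √(n2 T c) := Real.sqrt_le_sqrt (n2_mul_right hB T _ _ hhn)
          have d3 : √(n2 T (h * c)) ≤ √(n2 T c) := Real.sqrt_le_sqrt (n2_mul_left hB T _ _ hhn)
          linarith
        have a5 := mul_le_mul_of_nonneg_left a4
          (Real.sqrt_nonneg (n2 T (x * P i j - P i j * x)))
        subst hij
        linarith
      · exact le_refl _
    linarith
  have e1 : ∀ i j, n2 T (x * (P i j + h * Q i j * h) - (P i j + h * Q i j * h) * x) =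
      n2 T (x * P i j - P i j * x) + 2 * tr T (star (x * P i j - P i j * x) *
        (x * (h * Q i j * h) - (h * Q i j * h) * x)) +
        n2 T (x * (h * Q i j * h) - (h * Q i j * h) * x) := by
    intro i j
    rw [← n2_add hB T]
    congr 1
    noncomm_ring
  have e2 : comm T (fun i j => P i j + h * Q i j * h) x ≤ ∑ i : Fin n, ∑ j : Fin n,
      (n2 T (x * P i j - P i j * x) + 2 * ((if i = j then m / n *
        (2 * √(n2 T (x * P i i - P i i * x)) * S) else 0) + 4 * δ) +
        3 * (2 * (m / n * n2 T c) + 9 * δ)) := by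
    unfold comm
    refine Finset.sum_le_sum fun i _ => Finset.sum_le_sum fun j _ => ?_
    rw [e1 i j]
    have := cr i j
    have := sq1 i j
    linarith
  have e3 : ∑ i : Fin n, ∑ j : Fin n,
      (n2 T (x * P i j - P i j * x) + 2 * ((if i = j then m / n *
        (2 * √(n2 T (x * P i i - P i i * x)) * S) else 0) + 4 * δ) +
        3 * (2 * (m / n * n2 T c) + 9 * δ)) =
      comm T P x + 4 * (m / n) * S ^ 2 + n ^ 2 * (35 * δ) +
        n ^ 2 * (6 * (m / n * n2 T c)) := by
    simp only [Finset.sum_add_distrib, ← Finset.mul_sum, Finset.sum_const, Finset.card_univ,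
      Fintype.card_fin, nsmul_eq_mul, Finset.sum_ite_eq, Finset.mem_univ, if_true]
    rw [← Finset.sum_mul, ← Finset.mul_sum, ← hS]
    unfold comm
    ring
  have hnpos : (0 : ℝ) < n := by linarith
  have e4 : 4 * (m / n) * S ^ 2 ≤ 4 * m * comm T P x := by
    have := mul_le_mul_of_nonneg_left hS2 (by positivity : 0 ≤ 4 * (m / n))
    refine this.trans (le_of_eq ?_)
    field_simp
  have e5 : n ^ 2 * (6 * (m / n * n2 T c)) ≤ 6 * n ^ 2 * m * comm T P x := by
    have := mul_le_mul_of_nonneg_left (hcn.trans hS2) (by positivity : 0 ≤ (n : ℝ) ^ 2 * (6 * (m / n)))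
    have h2 : (n : ℝ) ^ 2 * (6 * (m / n)) * (n * comm T P x) = 6 * n ^ 2 * m * comm T P x := by
      field_simp
    rw [h2] at this
    linarith
  have e6 : 0 ≤ comm T P x := Finset.sum_nonneg fun i _ => Finset.sum_nonneg fun j _ => hnn i j
  have e7 : 4 * m * comm T P x ≤ 4 * n ^ 2 * m * comm T P x := by
    have : (1 : ℝ) ≤ n ^ 2 := one_le_pow₀ hn'
    have h3 : 0 ≤ m * comm T P x := by positivity
    nlinarith
  rw [e3] at e2
  nlinarith

theorem norm_le_one (a : A) (h0 : 0 ≤ a) (h1 : a ≤ 1) : ‖a‖ ≤ 1 :=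
  (CStarAlgebra.norm_le_one_iff_of_nonneg a h0).2 h1

theorem norm_P (hC : StCPB.{u}) {n : ℕ} {P : Fin n → Fin n → A} (hP : IsCP P)
    (h1 : dsum P ≤ 1) (i j : Fin n) : ‖P i j‖ ≤ 1 := by
  have a1 := cp_le hC hP h1 i j
  have a2 : P j j ≤ dsum P := by
    unfold dsum
    exact Finset.single_le_sum (f := fun i => P i i) (fun i _ => cp_nn hC hP i) (Finset.mem_univ j)
  have a3 : ‖star (P i j) * P i j‖ ≤ 1 :=
    norm_le_one _ (star_mul_self_nonneg _) (a1.trans (a2.trans h1))
  rw [CStarRing.norm_star_mul_self] at a3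
  nlinarith [norm_nonneg (P i j)]

theorem norm_comm_le {x y : A} {a b : ℝ} (hx : ‖x‖ ≤ a) (hy : ‖y‖ ≤ b) :
    ‖x * y - y * x‖ ≤ 2 * (a * b) := by
  have h1 : ‖x * y‖ ≤ a * b :=
    (norm_mul_le _ _).trans (mul_le_mul hx hy (norm_nonneg _) ((norm_nonneg _).trans hx))
  have h2 : ‖y * x‖ ≤ a * b := by
    rw [mul_comm a b]
    exact (norm_mul_le _ _).trans (mul_le_mul hy hx (norm_nonneg _) ((norm_nonneg _).trans hy))
  have h3 := norm_sub_le (x * y) (y * x)
  linarith

theorem norm_quarter {z : A} (h : ‖z‖ ≤ 4) : ‖(1 / 4 : ℝ) • z‖ ≤ 1 := by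
  rw [norm_smul, Real.norm_eq_abs, abs_of_pos (by norm_num : (0 : ℝ) < 1 / 4)]
  linarith

end

end STEP1x

open STEP1x

theorem thm_STEP1 (hB : StBAS.{u}) (hC : StCPB.{u}) : StSTEP1.{u} := by
  classical
  intro A _ _ _ n hn hTiny ε hε hε1
  have hn' : (1 : ℝ) ≤ n := by exact_mod_cast hn
  have hn2 : (1 : ℝ) ≤ n ^ 2 := one_le_pow₀ hn'
  set s : ℝ := ε / (100 * n ^ 2) with hs
  have hs0 : 0 < s := by positivity
  have hsn : n ^ 2 * s = ε / 100 := by
    rw [hs]
    field_simp
  have hs1 : s ≤ 1 / 100 := by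
    have : s ≤ n ^ 2 * s := le_mul_of_one_le_left hs0.le hn2
    linarith
  obtain ⟨m0, hm0, H⟩ := hTiny (s ^ 2) (by positivity)
  refine ⟨m0, hm0, ?_⟩
  intro m hm hmm X hX P hP hP1
  set h : A := 1 - dsum P with hh
  have h0 : 0 ≤ h := sub_nonneg.2 hP1
  have hh1 : h ≤ 1 := sub_le_self _ (cp_dsum_nn hC hP)
  have hsa : IsSelfAdjoint h := IsSelfAdjoint.of_nonneg h0
  have hhs : star h = h := hsa.star_eq
  have hanti := CStarAlgebra.pow_antitone h0 hh1
  have hhh : h * h ≤ h := by
    have := hanti (show 1 ≤ 2 by norm_num)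
    simp only [pow_one] at this
    rwa [sq] at this
  have hle : h * h * (h * h) ≤ 1 := by
    have := hanti (show 0 ≤ 4 by norm_num)
    simp only [pow_zero] at this
    rwa [show h ^ 4 = h * h * (h * h) by noncomm_ring] at this
  have hhn : ‖h‖ ≤ 1 := norm_le_one h h0 hh1
  have hkn : ‖h * h‖ ≤ 1 := (norm_mul_le _ _).trans (mul_le_one₀ hhn (norm_nonneg _) hhn)
  have hconj : ∀ z : A, ‖h * z * h‖ ≤ ‖z‖ := by
    intro z
    calc ‖h * z * h‖ ≤ ‖h * z‖ * ‖h‖ := norm_mul_le _ _
      _ ≤ (‖h‖ * ‖z‖) * ‖h‖ := by gcongr; exact norm_mul_le _ _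
      _ ≤ (1 * ‖z‖) * 1 := by gcongr
      _ = ‖z‖ := by ring
  have hPn := fun i j => norm_P hC hP hP1 i j
  let fP : Fin n × Fin n → A := fun q => h * star (P q.1 q.2) * h
  let fG : A × (Fin n × Fin n) → A := fun q => (1 / 4 : ℝ) •
    (h * (star (q.1 * P q.2.1 q.2.2 - P q.2.1 q.2.2 * q.1) * q.1 -
      q.1 * star (q.1 * P q.2.1 q.2.2 - P q.2.1 q.2.2 * q.1)) * h)
  let fc : A → A := fun x => (1 / 4 : ℝ) • (star (x * h - h * x) * (x * h - h * x))
  let fd : A → A := fun x => (1 / 4 : ℝ) • ((x * h - h * x) * star (x * h - h * x))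
  let Y : Finset A := {1, h * h, h * h * (h * h)} ∪ X ∪
    (Finset.univ : Finset (Fin n × Fin n)).image fP ∪
    (X ×ˢ (Finset.univ : Finset (Fin n × Fin n))).image fG ∪ X.image fc ∪ X.image fd
  have mY : ∀ y, y ∈ Y ↔ ((((y = 1 ∨ y = h * h ∨ y = h * h * (h * h)) ∨ y ∈ X) ∨
      (∃ q, fP q = y)) ∨ (∃ q : A × (Fin n × Fin n), q.1 ∈ X ∧ fG q = y)) ∨
      (∃ x ∈ X, fc x = y) ∨ (∃ x ∈ X, fd x = y) := by
    intro y
    simp only [Y, Finset.mem_union, Finset.mem_insert, Finset.mem_singleton, Finset.mem_image,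
      Finset.mem_univ, true_and, Finset.mem_product, and_true, or_assoc]
  have hY : ∀ y ∈ Y, ‖y‖ ≤ 1 := by
    intro y hy
    rw [mY] at hy
    rcases hy with ((((rfl | rfl | rfl) | hy) | ⟨q, rfl⟩) | ⟨q, hq, rfl⟩) | ⟨x, hx, rfl⟩ | ⟨x, hx, rfl⟩
    · exact norm_le_one 1 zero_le_one le_rfl
    · exact hkn
    · exact (norm_mul_le _ _).trans (mul_le_one₀ hkn (norm_nonneg _) hkn)
    · exact hX y hy
    · refine (hconj _).trans ?_
      rw [norm_star]
      exact hPn _ _
    · refine norm_quarter ((hconj _).trans ?_)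
      have a1 := norm_comm_le (hX _ hq) (hPn q.2.1 q.2.2)
      have a2 : ‖star (q.1 * P q.2.1 q.2.2 - P q.2.1 q.2.2 * q.1)‖ ≤ 2 := by
        rw [norm_star]
        linarith
      have a3 := norm_comm_le a2 (hX _ hq)
      linarith
    · refine norm_quarter ?_
      have a1 := norm_comm_le (hX _ hx) hhn
      rw [CStarRing.norm_star_mul_self]
      nlinarith [norm_nonneg (x * h - h * x)]
    · refine norm_quarter ?_
      have a1 := norm_comm_le (hX _ hx) hhn
      rw [CStarRing.norm_self_mul_star]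
      nlinarith [norm_nonneg (x * h - h * x)]
  obtain ⟨Q, hQ, hQ1, HT⟩ := H m hm hmm Y hY
  have hCP : IsCP (fun i j => P i j + h * Q i j * h) := by
    have a1 := (hC A n).2.1 Q h hQ
    rw [hhs] at a1
    exact (hC A n).1 P _ hP a1
  refine ⟨fun i j => P i j + h * Q i j * h, hCP, ?_, ?_⟩
  · rw [dsum_conj]
    have a1 : h * dsum Q * h ≤ h * 1 * h := IsSelfAdjoint.conjugate_le_conjugate hQ1 hsa
    rw [mul_one] at a1
    have a2 := add_le_add_right (a1.trans hhh) (dsum P)
    refine a2.trans (le_of_eq ?_)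
    rw [hh]
    abel
  intro T
  obtain ⟨HT1, HT2⟩ := HT T
  have good : ∀ y ∈ Y, ∀ i j, |tr T (y * Q i j) - (if i = j then m / n * tr T y else 0)| ≤
      s ^ 2 * m := fun y hy i j => good_re T (fun i j => (HT1 y hy i j).1) i j
  have m1 : (1 : A) ∈ Y := (mY _).2 (Or.inl (Or.inl (Or.inl (Or.inl (Or.inl rfl)))))
  have m2 : h * h ∈ Y := (mY _).2 (Or.inl (Or.inl (Or.inl (Or.inl (Or.inr (Or.inl rfl))))))
  have m4 : h * h * (h * h) ∈ Y :=
    (mY _).2 (Or.inl (Or.inl (Or.inl (Or.inl (Or.inr (Or.inr rfl))))))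
  have mX : ∀ x ∈ X, x ∈ Y := fun x hx => (mY _).2 (Or.inl (Or.inl (Or.inl (Or.inr hx))))
  have mP : ∀ i j, h * star (P i j) * h ∈ Y := fun i j =>
    (mY _).2 (Or.inl (Or.inl (Or.inr ⟨(i, j), rfl⟩)))
  have mG : ∀ x ∈ X, ∀ i j, (1 / 4 : ℝ) • (h * (star (x * P i j - P i j * x) * x -
      x * star (x * P i j - P i j * x)) * h) ∈ Y := fun x hx i j =>
    (mY _).2 (Or.inl (Or.inr ⟨(x, (i, j)), hx, rfl⟩))
  have mc : ∀ x ∈ X, (1 / 4 : ℝ) • (star (x * h - h * x) * (x * h - h * x)) ∈ Y :=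
    fun x hx => (mY _).2 (Or.inr (Or.inl ⟨x, hx, rfl⟩))
  have md : ∀ x ∈ X, (1 / 4 : ℝ) • ((x * h - h * x) * star (x * h - h * x)) ∈ Y :=
    fun x hx => (mY _).2 (Or.inr (Or.inr ⟨x, hx, rfl⟩))
  have hss : s ^ 2 ≤ s / 100 := by nlinarith
  have hnss : n ^ 2 * s ^ 2 ≤ ε / 10000 := by
    have := mul_le_mul_of_nonneg_left hss (by positivity : (0 : ℝ) ≤ n ^ 2)
    linarith
  refine ⟨?_, ?_, ?_⟩
  · have a := lema hB hC hn T hP hP1 hm hh (good _ m2)
    have b : n * (s ^ 2 * m) ≤ ε * m := by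
      have c : (n : ℝ) * s ^ 2 ≤ ε := by
        have : (n : ℝ) ≤ n ^ 2 := by nlinarith
        have := mul_le_mul_of_nonneg_right this (sq_nonneg s)
        linarith
      have := mul_le_mul_of_nonneg_right c hm.le
      linarith
    linarith
  · have g1 : ∀ j, tr T (Q j j) ≤ 2 * m := by
      intro j
      have a1 := good 1 m1 j j
      rw [if_pos rfl, one_mul] at a1
      have a2 := (abs_le.1 a1).2
      have a3 : tr T (1 : A) = 1 := by
        unfold tr
        rw [T.2, Complex.one_re]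
      rw [a3, mul_one] at a2
      have a4 : m / n ≤ m := div_le_self hm.le hn'
      have a5 : s ^ 2 * m ≤ 1 * m := mul_le_mul_of_nonneg_right (by nlinarith) hm.le
      linarith
    have a := lemb hB hC hn T hP hP1 hQ hQ1 hm hs0.le hh hhs hle hkn hh1 hhh g1 (good _ m2)
      (good _ m4) (fun i j => good _ (mP i j) i j) (fun i j => (HT1 _ m2 i j).2) HT2
    have b : (5 * n ^ 2 * s ^ 2 + 2 * n ^ 2 * s) * m ≤ ε * m := by
      refine mul_le_mul_of_nonneg_right ?_ hm.le
      nlinarith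
    linarith
  · intro x hx
    have a := lemc hB hC hn T hQ hQ1 hm hh hhn x
      (fun i j => good4 T (good _ (mG x hx i j)) i j)
      (good4 T (good _ (mc x hx))) (good4 T (good _ (md x hx)))
      (fun i j => (HT1 _ (mX x hx) i j).2)
    have b : 35 * (n : ℝ) ^ 2 * (s ^ 2 * m) ≤ ε * m := by
      have : 35 * (n : ℝ) ^ 2 * s ^ 2 ≤ ε := by nlinarith
      have := mul_le_mul_of_nonneg_right this hm.le
      linarith
    linarith

end Pool.Agent.H667R5.TW
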