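import Pool.Agent.H667R5.TW.Stubs

/-!
# Toms-Winter: traces of almost projections
-/

set_option autoImplicit false

namespace Pool.Agent.H667R5.TW

open Pool.Agent.H327R4.Pure
open scoped CStarAlgebra ComplexOrder Matrix

universe u v

section

variable {A : Type u} [CStarAlgebra A] [PartialOrder A] [StarOrderedRing A]

theorem TTH1_sub_cut (b : A) (hb : 0 ≤ b) : b - cut 1 b = phi 1 b := by
  have hsa : IsSelfAdjoint b := IsSelfAdjoint.of_nonneg hb
  have h1 : b = cfcₙ (fun x : ℝ => x) b := (cfcₙ_id' ℝ b hsa).symm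
  have h2 : b - cut 1 b = cfcₙ (fun x : ℝ => x - max (x - 1) 0) b := by
    unfold cut
    rw [cfcₙ_sub (fun x : ℝ => x) (fun x : ℝ => max (x - 1) 0) (a := b)
      (by fun_prop) (by simp) (by fun_prop) (by simp)]
    rw [← h1]
  rw [h2]
  unfold phi
  refine cfcₙ_congr fun x hx => ?_
  have hx0 : 0 ≤ x := quasispectrum_nonneg_of_nonneg b hb x hx
  show x - max (x - 1) 0 = min 1 (x / 1)
  rw [div_one]
  rcases le_total x 1 with h | h
  · rw [max_eq_right (by linarith), min_eq_right h, sub_zero]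
  · rw [max_eq_left (by linarith), min_eq_left h]
    ring

theorem TTH1_sq (hct : StCT.{u}) (b : A) (hb : 0 ≤ b) :
    phi 1 (cut 1 b) ≤ phi 1 b * phi 1 b := by
  obtain ⟨h1, h2, h3, h4, h5, h6, h7, h8, h9⟩ := hct A b hb
  rw [← TTH1_sub_cut (cut 1 b) (h1 1), h4 1 1 zero_le_one zero_le_one]
  have h10 : cut 1 b - cut (1 + 1) b =
      cfcₙ (fun x : ℝ => max (x - 1) 0 - max (x - (1 + 1)) 0) b := by
    unfold cut
    rw [cfcₙ_sub (fun x : ℝ => max (x - 1) 0) (fun x : ℝ => max (x - (1 + 1)) 0) (a := b)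
      (by fun_prop) (by simp) (by fun_prop) (by norm_num)]
  have h11 : phi 1 b * phi 1 b = cfcₙ (fun x : ℝ => min 1 (x / 1) * min 1 (x / 1)) b := by
    unfold phi
    rw [cfcₙ_mul (fun x : ℝ => min 1 (x / 1)) (fun x : ℝ => min 1 (x / 1)) b
      (by fun_prop) (by simp) (by fun_prop) (by simp)]
  rw [h10, h11]
  refine cfcₙ_mono (fun x hx => ?_) (by fun_prop) (by fun_prop)
  have hx0 : 0 ≤ x := quasispectrum_nonneg_of_nonneg b hb x hx
  show max (x - 1) 0 - max (x - (1 + 1)) 0 ≤ min 1 (x / 1) * min 1 (x / 1)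
  rw [div_one]
  rcases le_total x 1 with h | h
  · rw [max_eq_right (by linarith), max_eq_right (by linarith), min_eq_right h, sub_zero]
    positivity
  · rw [max_eq_left (by linarith), min_eq_left h, mul_one]
    have := le_max_left (x - (1 + 1)) 0
    linarith

end

theorem thm_TH1 (hmt : StMT.{u}) (hct : StCT.{u}) (hrk : StRK.{u}) (hmon : StMON.{u})
    (hsmall : StSMALL.{u}) (hfull : StFULL.{u}) (hcake : StCAKE.{u}) : StTH1.{u} := by
  intro A _ _ _ hs hfin h δ hh hδ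
  obtain ⟨N, hN⟩ := exists_nat_gt (1 / δ)
  have hN0 : (0 : ℝ) < N := lt_trans (by positivity) hN
  have hNε : 1 ≤ (N : ℝ) * δ := by
    have := (div_lt_iff₀ hδ).mp hN
    linarith
  obtain ⟨c, hc0, hcne, hcT⟩ := hsmall A hs hfin N
  obtain ⟨n, y, hy⟩ := hfull A hs c hc0 hcne
  have hs0 : 0 ≤ CFC.sqrt c := CFC.sqrt_nonneg c
  have hss : CFC.sqrt c * CFC.sqrt c = c := CFC.sqrt_mul_sqrt_self c hc0
  have hsstar : star (CFC.sqrt c) = CFC.sqrt c := (IsSelfAdjoint.of_nonneg hs0).star_eq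
  obtain ⟨s, hsdef⟩ : ∃ s, s = CFC.sqrt c := ⟨_, rfl⟩
  rw [← hsdef] at hs0 hss hsstar
  obtain ⟨Y, hY⟩ : ∃ Y : A, Y = ∑ i, y i * h * star (y i) := ⟨_, rfl⟩
  have hY0 : 0 ≤ Y := by
    rw [hY]
    apply Finset.sum_nonneg
    intro i _
    have := star_left_conjugate_nonneg hh (star (y i))
    rwa [star_star] at this
  obtain ⟨g, hg⟩ : ∃ g : A, g = s * Y * s := ⟨_, rfl⟩
  have hg0 : 0 ≤ g := by
    have := star_left_conjugate_nonneg hY0 s
    rw [hsstar] at this
    rwa [hg]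
  have hgT : ∀ T : Tr A, T.f g = T.f h := by
    intro T
    calc T.f g = T.f (s * (Y * s)) := by rw [hg, mul_assoc]
      _ = T.f (Y * s * s) := T.tr _ _
      _ = T.f (Y * c) := by rw [mul_assoc, hss]
      _ = ∑ i, T.f (y i * (h * star (y i) * c)) := by
          rw [hY, Finset.sum_mul, map_sum]
          refine Finset.sum_congr rfl (fun i _ => ?_)
          congr 1
          simp only [mul_assoc]
      _ = ∑ i, T.f (h * (star (y i) * c * y i)) := by
          refine Finset.sum_congr rfl (fun i _ => ?_)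
          rw [T.tr]
          congr 1
          simp only [mul_assoc]
      _ = T.f h := by
          rw [← map_sum, ← Finset.mul_sum, hy, mul_one]
  have hgle : g ≤ (‖Y‖ + 1) • c := by
    have h1 := CStarAlgebra.star_left_conjugate_le_norm_smul (a := s) (b := Y)
      (IsSelfAdjoint.of_nonneg hY0)
    rw [hsstar, hss] at h1
    rw [hg]
    refine h1.trans ?_
    rw [add_smul, one_smul]
    exact le_add_of_nonneg_right hc0
  have hgrk : ∀ T : TS A, rk T.1 g ≤ δ := by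
    intro T
    have h1 := hmon A T.1 g c (‖Y‖ + 1) hg0 hc0 (by positivity) hgle
    have h2 := hcT T.1
    rw [T.2] at h2
    have h4 : (N : ℝ) * rk T.1 g ≤ (N : ℝ) * δ := by
      calc (N : ℝ) * rk T.1 g ≤ (N : ℝ) * rk T.1 c := by
            apply mul_le_mul_of_nonneg_left h1 hN0.le
        _ ≤ (1 : ℂ).re := h2
        _ ≤ (N : ℝ) * δ := by
            rw [Complex.one_re]
            exact hNε
    exact le_of_mul_le_mul_left h4 hN0
  obtain ⟨K, hK⟩ : ∃ K : ℕ, K = ⌈‖g‖⌉₊ := ⟨_, rfl⟩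
  have hgK : ‖g‖ ≤ K := by rw [hK]; exact Nat.le_ceil _
  obtain ⟨b, hb⟩ : ∃ b : ℕ → A, b = fun j : ℕ => cut (j : ℝ) g := ⟨_, rfl⟩
  obtain ⟨c1, c2, c3, c4, c5, c6, c7, c8, c9⟩ := hct A g hg0
  have hb0 : ∀ j, 0 ≤ b j := fun j => by rw [hb]; exact c1 _
  have hb1 : ∀ j, cut 1 (b j) = b (j + 1) := by
    intro j
    rw [hb]
    show cut 1 (cut (j : ℝ) g) = cut ((j + 1 : ℕ) : ℝ) g
    rw [c4 1 j zero_le_one (Nat.cast_nonneg j)]
    push_cast
    rw [add_comm]
  have hb2 : b 0 = g := by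
    rw [hb]
    show cut ((0 : ℕ) : ℝ) g = g
    rw [Nat.cast_zero, c5]
  have hbK : b (K + 1) = 0 := by
    rw [hb]
    refine c7 _ (Nat.cast_nonneg _) ?_
    push_cast
    linarith
  have hphi : ∀ j, phi 1 (b j) = b j - b (j + 1) := by
    intro j
    rw [← TTH1_sub_cut (b j) (hb0 j), hb1]
  have hphi0 : ∀ j, 0 ≤ phi 1 (b j) := fun j => ((hct A (b j) (hb0 j)).2.2.2.2.2.2.2.1 1 one_pos).1
  have hphi1 : ∀ j, phi 1 (b j) ≤ 1 := by
    intro j
    have h1 := ((hct A (b j) (hb0 j)).2.2.2.2.2.2.2.1 1 one_pos).2.1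
    exact (CStarAlgebra.norm_le_one_iff_of_nonneg _ (hphi0 j)).1 h1
  have htr0 : ∀ (T : TS A) (x : A), 0 ≤ x → 0 ≤ tr T x := fun T x hx => ((hmt A T.1).2.1 x hx).1
  have htrm : ∀ (T : TS A) (x z : A), x ≤ z → tr T x ≤ tr T z := fun T x z hx => (hmt A T.1).1 x z hx
  have htrs : ∀ (T : TS A) (x z : A), tr T (x - z) = tr T x - tr T z := by
    intro T x z
    unfold tr
    rw [map_sub, Complex.sub_re]
  have htele : ∀ (T : TS A) (f : ℕ → A) (k : ℕ),
      ∑ j : Fin k, (tr T (f j) - tr T (f ((j : ℕ) + 1))) = tr T (f 0) - tr T (f k) := by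
    intro T f k
    rw [← Finset.sum_range (fun j : ℕ => tr T (f j) - tr T (f (j + 1)))]
    exact Finset.sum_range_sub' (fun j => tr T (f j)) k
  refine ⟨K, fun j => phi 1 (b ((j : ℕ) + 1)), fun j => ⟨hphi0 _, hphi1 _⟩, fun T => ⟨?_, ?_, ?_⟩⟩
  · have h1 : ∑ j : Fin K, tr T (phi 1 (b ((j : ℕ) + 1))) = tr T (b 1) := by
      have h2 : ∀ j : Fin K, tr T (phi 1 (b ((j : ℕ) + 1))) =
          tr T (b ((j : ℕ) + 1)) - tr T (b (((j : ℕ) + 1) + 1)) := by
        intro j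
        rw [hphi, htrs]
      rw [Finset.sum_congr rfl fun j _ => h2 j, htele T (fun j => b (j + 1)) K]
      show tr T (b (0 + 1)) - tr T (b (K + 1)) = _
      rw [hbK, zero_add]
      simp [tr]
    show |∑ j : Fin K, tr T (phi 1 (b ((j : ℕ) + 1))) - tr T h| ≤ δ
    rw [h1]
    have h3 : tr T h = tr T (b 1) + tr T (phi 1 g) := by
      have h4 : tr T h = tr T g := by
        unfold tr
        rw [hgT]
      have h5 := hphi 0
      rw [hb2, zero_add] at h5
      rw [h4, h5, htrs]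
      ring
    rw [h3]
    have h6 : tr T (phi 1 g) ≤ rk T.1 g := (hrk A T.1 g hg0).1 1 one_pos
    have h7 : 0 ≤ tr T (phi 1 g) := by
      have := htr0 T _ (hphi0 0)
      rwa [hb2] at this
    have h8 := hgrk T
    rw [abs_le]
    constructor <;> linarith
  · have h1 : ∀ j : Fin K, tr T (phi 1 (b ((j : ℕ) + 1))) -
        tr T (phi 1 (b ((j : ℕ) + 1)) * phi 1 (b ((j : ℕ) + 1))) ≤
        tr T (phi 1 (b ((j : ℕ) + 1))) - tr T (phi 1 (b (((j : ℕ) + 1) + 1))) := by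
      intro j
      have h2 := htrm T _ _ (TTH1_sq hct (b ((j : ℕ) + 1)) (hb0 _))
      rw [hb1] at h2
      linarith
    refine (Finset.sum_le_sum fun j _ => h1 j).trans ?_
    rw [htele T (fun j => phi 1 (b (j + 1))) K]
    have h3 : 0 ≤ tr T (phi 1 (b (K + 1))) := htr0 T _ (hphi0 _)
    have h4 : tr T (phi 1 (b (0 + 1))) ≤ rk T.1 (b 1) := (hrk A T.1 (b 1) (hb0 1)).1 1 one_pos
    have h5 : rk T.1 (b 1) ≤ rk T.1 g := by
      refine hmon A T.1 (b 1) g 1 (hb0 1) hg0 one_pos ?_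
      rw [one_smul, hb]
      exact c2 _ (Nat.cast_nonneg _)
    have h6 := hgrk T
    linarith
  · have h1 : ∀ j : Fin K, rk T.1 (phi 1 (b ((j : ℕ) + 1))) ≤ rk T.1 (cut (((j : ℕ) : ℝ) + 1) g) := by
      intro j
      refine hmon A T.1 _ _ 1 (hphi0 _) (c1 _) one_pos ?_
      rw [one_smul, hphi]
      have h2 : b ((j : ℕ) + 1) = cut (((j : ℕ) : ℝ) + 1) g := by
        rw [hb]
        show cut (((j : ℕ) + 1 : ℕ) : ℝ) g = _
        push_cast
        rfl
      rw [h2]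
      exact sub_le_self _ (hb0 _)
    refine (Finset.sum_le_sum fun j _ => h1 j).trans ?_
    have hk := (hcake A T.1 g K hg0 hgK).1
    rw [hgT T.1] at hk
    rw [← Finset.sum_range (fun j : ℕ => rk T.1 (cut ((j : ℝ) + 1) g))]
    exact hk

end Pool.Agent.H667R5.TW
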