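import Pool.Agent.H667R5.TW.Stubs2

/-!
# BR: the two forms of nuclearity (helper511)
-/

set_option autoImplicit false

namespace Pool.Agent.H667R5.TW

open Pool.Agent.H327R4.Pure
open scoped CStarAlgebra ComplexOrder Matrix

universe u v

namespace TBR

/-- Gram matrices are positive -/
theorem gram {B : Type v} [NonUnitalCStarAlgebra B] [PartialOrder B] [StarOrderedRing B] {k : ℕ}
    (x : Fin k → B) :
    (0 : CStarMatrix (Fin k) (Fin k) B) ≤ CStarMatrix.ofMatrix (fun p q => star (x p) * x q) := by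
  rcases Nat.eq_zero_or_pos k with rfl | hk
  · exact le_of_eq (CStarMatrix.ext fun p => p.elim0)
  · obtain ⟨C, hC⟩ : ∃ C : CStarMatrix (Fin k) (Fin k) B,
        ∀ r q, C r q = if r = ⟨0, hk⟩ then x q else 0 :=
      ⟨CStarMatrix.ofMatrix (fun r q => if r = ⟨0, hk⟩ then x q else 0), fun _ _ => rfl⟩
    have h : CStarMatrix.ofMatrix (fun p q => star (x p) * x q) = star C * C := by
      refine CStarMatrix.ext fun p q => ?_
      rw [CStarMatrix.mul_apply]
      have h2 : ∀ r, (star C) p r * C r q = if r = ⟨0, hk⟩ then star (x p) * x q else 0 := by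
        intro r
        rw [CStarMatrix.star_apply, hC, hC]
        split_ifs <;> simp
      simp only [h2, Finset.sum_ite_eq', Finset.mem_univ, if_true]
      rfl
    rw [h]
    exact star_mul_self_nonneg C

theorem fac {D : Type v} [NonUnitalCStarAlgebra D] [PartialOrder D] [StarOrderedRing D] (a : D)
    (h : 0 ≤ a) : ∃ b : D, a = star b * b := CStarAlgebra.nonneg_iff_eq_star_mul_self.1 h

/-- positive matrices are squares, entrywise -/
theorem factor {B : Type v} [NonUnitalCStarAlgebra B] [PartialOrder B] [StarOrderedRing B] {k : ℕ}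
    (P : CStarMatrix (Fin k) (Fin k) B) (hP : 0 ≤ P) :
    ∃ S : CStarMatrix (Fin k) (Fin k) B, ∀ p q, P p q = ∑ r, star (S r p) * S r q := by
  obtain ⟨S, hS⟩ := fac P hP
  refine ⟨S, fun p q => ?_⟩
  rw [hS, CStarMatrix.mul_apply]
  exact Finset.sum_congr rfl fun r _ => by rw [CStarMatrix.star_apply]

theorem entry {n : ℕ} {ι : Type} (s : Finset ι) (f : ι → CStarMatrix (Fin n) (Fin n) ℂ)
    (p q : Fin n) : (∑ r ∈ s, f r) p q = ∑ r ∈ s, f r p q := by
  classical
  induction s using Finset.induction_on with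
  | empty => simp
  | insert a s ha ih => rw [Finset.sum_insert ha, Finset.sum_insert ha, CStarMatrix.add_apply, ih]

end TBR

theorem thm_BR : StBR.{u} := by
  intro A _ _ _ hA m a ε hε
  classical
  obtain ⟨k, ψ, φ, -, -, h3⟩ := hA (Finset.univ.image a) ε hε
  refine ⟨k, (CStarMatrix.ofMatrixₗ (R := ℂ) (A := ℂ) (m := Fin k) (n := Fin k)).symm.toLinearMap.comp
    ψ.toLinearMap, φ.toLinearMap.comp
    (CStarMatrix.ofMatrixₗ (R := ℂ) (A := ℂ) (m := Fin k) (n := Fin k)).toLinearMap, ?_, ?_, ?_⟩
  · intro x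
    have h1 := ψ.map_cstarMatrix_nonneg' k _ (TBR.gram x)
    obtain ⟨S, hS⟩ := TBR.factor _ h1
    have h2 : ∀ p q : Fin k, (ψ (star (x p) * x q)) p q =
        ∑ r, ∑ j, star ((S r p) j p) * (S r q) j q := by
      intro p q
      have h4 : ψ (star (x p) * x q) = ∑ r, star (S r p) * S r q := hS p q
      rw [h4, TBR.entry]
      refine Finset.sum_congr rfl fun r _ => ?_
      rw [CStarMatrix.mul_apply]
      refine Finset.sum_congr rfl fun j _ => ?_
      rw [CStarMatrix.star_apply]
    have h5 : (∑ p, ∑ q, (ψ (star (x p) * x q)) p q) =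
        ((∑ r, ∑ j, Complex.normSq (∑ q, (S r q) j q) : ℝ) : ℂ) := by
      push_cast
      simp only [h2, Complex.normSq_eq_conj_mul_self, map_sum, Finset.sum_mul_sum]
      calc ∑ p, ∑ q, ∑ r, ∑ j, star ((S r p) j p) * (S r q) j q
          = ∑ p, ∑ r, ∑ q, ∑ j, star ((S r p) j p) * (S r q) j q :=
            Finset.sum_congr rfl fun p _ => Finset.sum_comm
        _ = ∑ r, ∑ p, ∑ q, ∑ j, star ((S r p) j p) * (S r q) j q := Finset.sum_comm
        _ = ∑ r, ∑ p, ∑ j, ∑ q, star ((S r p) j p) * (S r q) j q :=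
            Finset.sum_congr rfl fun r _ => Finset.sum_congr rfl fun p _ => Finset.sum_comm
        _ = ∑ r, ∑ j, ∑ p, ∑ q, star ((S r p) j p) * (S r q) j q :=
            Finset.sum_congr rfl fun r _ => Finset.sum_comm
        _ = _ := rfl
    have h6 : (∑ p, ∑ q, ((CStarMatrix.ofMatrixₗ (R := ℂ) (A := ℂ) (m := Fin k)
        (n := Fin k)).symm.toLinearMap.comp ψ.toLinearMap) (star (x p) * x q) p q) =
        ((∑ r, ∑ j, Complex.normSq (∑ q, (S r q) j q) : ℝ) : ℂ) := h5
    rw [h6]
    exact ⟨by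
      rw [Complex.ofReal_re]
      exact Finset.sum_nonneg fun r _ => Finset.sum_nonneg fun j _ => Complex.normSq_nonneg _,
      Complex.ofReal_im _⟩
  · intro l x b
    have h1 := φ.map_cstarMatrix_nonneg' l _ (TBR.gram (fun i => CStarMatrix.ofMatrix (x i)))
    obtain ⟨S, hS⟩ := TBR.factor _ h1
    have h2 : ∀ i j : Fin l, (φ.toLinearMap.comp
        (CStarMatrix.ofMatrixₗ (R := ℂ) (A := ℂ) (m := Fin k) (n := Fin k)).toLinearMap)
          (star (x i) * x j) = ∑ r, star (S r i) * S r j := fun i j => hS i j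
    have h7 : (∑ i, ∑ j, star (b i) * (φ.toLinearMap.comp
        (CStarMatrix.ofMatrixₗ (R := ℂ) (A := ℂ) (m := Fin k) (n := Fin k)).toLinearMap)
          (star (x i) * x j) * b j) =
        ∑ r, star (∑ i, S r i * b i) * (∑ j, S r j * b j) := by
      have h8 : ∀ r, star (∑ i, S r i * b i) * (∑ j, S r j * b j) =
          ∑ i, ∑ j, star (b i) * (star (S r i) * S r j) * b j := by
        intro r
        rw [star_sum, Finset.sum_mul_sum]
        refine Finset.sum_congr rfl fun i _ => Finset.sum_congr rfl fun j _ => ?_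
        rw [star_mul]
        simp only [mul_assoc]
      simp only [h8, h2, Finset.mul_sum, Finset.sum_mul]
      calc ∑ i, ∑ j, ∑ r, star (b i) * (star (S r i) * S r j) * b j
          = ∑ i, ∑ r, ∑ j, star (b i) * (star (S r i) * S r j) * b j :=
            Finset.sum_congr rfl fun i _ => Finset.sum_comm
        _ = ∑ r, ∑ i, ∑ j, star (b i) * (star (S r i) * S r j) * b j := Finset.sum_comm
    rw [h7]
    exact Finset.sum_nonneg fun r _ => star_mul_self_nonneg _
  · intro j
    exact h3 (a j) (Finset.mem_image_of_mem a (Finset.mem_univ j))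

end Pool.Agent.H667R5.TW
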