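import Pool.Agent.H667R5.TW.Stubs2

set_option autoImplicit false

namespace Pool.Agent.H667R5.TW

open Pool.Agent.H327R4.Pure
open scoped CStarAlgebra ComplexOrder Matrix

universe u v

theorem thm_BU (h : StUM.{u}) : StBU.{u} := by
  classical
  intro A _ _ _ hU m a ε hε
  obtain ⟨v, hv1, hv⟩ := h A hU (Finset.image a Finset.univ) ε hε
  refine ⟨v, hv1, fun T => ⟨fun j => ?_, ?_, ?_⟩⟩
  · exact (hv T).1 (a j) (Finset.mem_image_of_mem a (Finset.mem_univ j))
  · exact (hv T).2.1
  · have h3 := (hv T).2.2
    unfold n2 at h3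
    have hs : star (1 - star v * v - v * star v) = 1 - star v * v - v * star v := by
      simp [star_sub, star_mul]
    rw [hs] at h3
    exact h3

end Pool.Agent.H667R5.TW
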