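import Pool.Agent.H667R5.TW.Stubs

/-! Task UM of project TW: the uniform McDuff property with one nilpotent. -/

set_option autoImplicit false

namespace Pool.Agent.H667R5.TW

open Pool.Agent.H327R4.Pure
open scoped CStarAlgebra ComplexOrder Matrix

universe u v

section um

variable {A : Type u} [CStarAlgebra A] [PartialOrder A] [StarOrderedRing A]

omit [PartialOrder A] [StarOrderedRing A] in
theorem um_tr_sub (T : TS A) (x y : A) : tr T (x - y) = tr T x - tr T y := by
  unfold tr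
  rw [map_sub, Complex.sub_re]

omit [PartialOrder A] [StarOrderedRing A] in
theorem um_tr_add (T : TS A) (x y : A) : tr T (x + y) = tr T x + tr T y := by
  unfold tr
  rw [map_add, Complex.add_re]

omit [PartialOrder A] [StarOrderedRing A] in
theorem um_tr_comm (T : TS A) (x y : A) : tr T (x * y) = tr T (y * x) := by
  unfold tr
  rw [T.1.tr]

omit [PartialOrder A] [StarOrderedRing A] in
theorem um_n2_neg (T : TS A) (x y : A) : n2 T (x - y) = n2 T (y - x) := by
  unfold n2
  rw [← neg_sub y x, star_neg, neg_mul_neg]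

end um

theorem thm_UM (hB : StBAS.{u}) (hC : StCPB.{u}) : StUM.{u} := by
  intro A _ _ _ hM X ε hε
  obtain ⟨P, hP, hle, hT⟩ := hM X (ε / 3) (by positivity)
  obtain ⟨hst, hpos, -, hcs⟩ := (hC A 2).2.2.2.2.2 P hP
  replace hcs := hcs hle
  have hds : dsum P = P 0 0 + P 1 1 := by
    unfold dsum
    exact Fin.sum_univ_two _
  -- the four gaps
  have hd : ∀ i j, 0 ≤ P j j - star (P i j) * P i j := fun i j => sub_nonneg.2 (hcs i j)
  have hvv : star (P 0 1) * P 0 1 ≤ 1 := by
    refine (hcs 0 1).trans (le_trans ?_ hle)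
    rw [hds]
    exact le_add_of_nonneg_left (hpos 0)
  have hnorm : ‖P 0 1‖ ≤ 1 := by
    have h1 : ‖star (P 0 1) * P 0 1‖ ≤ 1 :=
      (CStarAlgebra.norm_le_one_iff_of_nonneg _ (star_mul_self_nonneg _)).2 hvv
    rw [CStarRing.norm_star_mul_self] at h1
    nlinarith [norm_nonneg (P 0 1)]
  refine ⟨P 0 1, hnorm, fun T => ?_⟩
  obtain ⟨h1, h2, h3⟩ := hT T
  obtain ⟨b1, -, -, b4, -, b6, -, -, -⟩ := hB A T
  have tr0 : tr T 0 = 0 := by
    unfold tr
    rw [map_zero, Complex.zero_re]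
  have htr : ∀ i j, 0 ≤ tr T (P j j - star (P i j) * P i j) := fun i j => by
    rw [← tr0]
    exact b1 _ _ (hd i j)
  have hn2 : ∀ x : A, n2 T x = tr T (star x * x) := fun x => rfl
  have hdef : defect T P = tr T (P 0 0 - star (P 0 0) * P 0 0) +
      tr T (P 1 1 - star (P 0 1) * P 0 1) + tr T (P 0 0 - star (P 1 0) * P 1 0) +
      tr T (P 1 1 - star (P 1 1) * P 1 1) := by
    unfold defect
    rw [hds]
    simp only [Fin.sum_univ_two, hn2, um_tr_sub, um_tr_add, Nat.cast_ofNat]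
    ring
  have e00 : tr T (P 0 0 - star (P 0 0) * P 0 0) ≤ ε / 3 := by
    linarith [htr 0 0, htr 0 1, htr 1 0, htr 1 1]
  have e01 : tr T (P 1 1 - star (P 0 1) * P 0 1) ≤ ε / 3 := by
    linarith [htr 0 0, htr 0 1, htr 1 0, htr 1 1]
  have e10 : tr T (P 0 0 - star (P 1 0) * P 1 0) ≤ ε / 3 := by
    linarith [htr 0 0, htr 0 1, htr 1 0, htr 1 1]
  have s10 : star (P 1 0) = P 0 1 := hst 1 0
  have s01 : P 1 0 = star (P 0 1) := (hst 0 1).symm
  have s00 : star (P 0 0) = P 0 0 := hst 0 0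
  have hq : P 0 1 * star (P 0 1) ≤ P 0 0 := by
    have := hcs 1 0
    rwa [s10, s01] at this
  refine ⟨fun x hx => ?_, ?_, ?_⟩
  · rw [um_n2_neg]
    exact (h3 x hx 0 1).trans (by linarith)
  · -- `n2 (v v)`
    have hp : 0 ≤ star (P 0 1) * P 0 1 := star_mul_self_nonneg _
    have a1 : n2 T (P 0 1 * P 0 1) =
        tr T ((star (P 0 1) * P 0 1) * (P 0 1 * star (P 0 1))) := by
      rw [hn2, star_mul]
      have : star (P 0 1) * star (P 0 1) * (P 0 1 * P 0 1) =
          star (P 0 1) * (star (P 0 1) * P 0 1 * P 0 1) := by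
        simp only [mul_assoc]
      rw [this, um_tr_comm, mul_assoc (star (P 0 1) * P 0 1)]
    have a2 := b6 (star (P 0 1) * P 0 1) (P 0 0 - P 0 1 * star (P 0 1)) hp (sub_nonneg.2 hq)
    have a3 := b6 (P 1 1 - star (P 0 1) * P 0 1) (P 0 0) (hd 0 1) (hpos 0)
    have a4 := b6 (1 - (P 0 0 + P 1 1)) (P 0 0) (sub_nonneg.2 (hds ▸ hle)) (hpos 0)
    rw [mul_sub, um_tr_sub] at a2
    rw [sub_mul, um_tr_sub] at a3
    rw [sub_mul, add_mul, one_mul, um_tr_sub, um_tr_add] at a4
    rw [um_tr_sub, s00] at e00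
    rw [a1]
    linarith
  · -- the unit
    have hy : 1 - star (P 0 1) * P 0 1 - P 0 1 * star (P 0 1) =
        (1 - dsum P) + (P 1 1 - star (P 0 1) * P 0 1) + (P 0 0 - star (P 1 0) * P 1 0) := by
      rw [hds, s10, s01]
      abel
    set y := 1 - star (P 0 1) * P 0 1 - P 0 1 * star (P 0 1) with hyd
    have hy0 : 0 ≤ y := by
      rw [hy]
      exact add_nonneg (add_nonneg (sub_nonneg.2 hle) (hd 0 1)) (hd 1 0)
    have hy1 : 0 ≤ 1 - y := by
      have : 1 - y = star (P 0 1) * P 0 1 + P 0 1 * star (P 0 1) := by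
        rw [hyd]
        abel
      rw [this]
      exact add_nonneg (star_mul_self_nonneg _) (mul_star_self_nonneg _)
    have a1 := b6 y (1 - y) hy0 hy1
    rw [mul_sub, mul_one, um_tr_sub] at a1
    have hsa : star y = y := (IsSelfAdjoint.of_nonneg hy0).star_eq
    rw [hn2, hsa]
    have a2 : tr T y = tr T (1 - dsum P) + tr T (P 1 1 - star (P 0 1) * P 0 1) +
        tr T (P 0 0 - star (P 1 0) * P 1 0) := by
      rw [hy, um_tr_add, um_tr_add]
    linarith

end Pool.Agent.H667R5.TW
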