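import Pool.Agent.H667R5.TW.Main
import Pool.Agent.H667R5.TW.TBU
import Pool.Agent.H667R5.TW.TBR
import Pool.Agent.H667R5.TW.TUM
import Pool.Agent.H327R4.SI.TFCOM
import Pool.Agent.H327R4.SI.TFIN
import Pool.Agent.H327R4.SI.TGL
import Pool.Agent.H327R4.SI.TLB
import Pool.Agent.H327R4.SI.TLIFT
import Pool.Agent.H327R4.SI.TNF
import Pool.Agent.H327R4.SI.TORT
import Pool.Agent.H327R4.SI.TQC
import Pool.Agent.H327R4.SI.TRIB
import Pool.Agent.H327R4.SI.TROWS
import Pool.Agent.H327R4.SI.TSI
import Pool.Agent.H327R4.SI.TSIR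
import Pool.Agent.H327R4.SI.TX1
import Pool.Agent.H327R4.SI.TX2
import Pool.Agent.H327R4.SI.TX3
import Pool.Agent.H327R4.SI.TX4
import Pool.Agent.H327R4.SI.TX5
import Pool.Agent.H327R4.SI.TX6
import Pool.Agent.H327R4.SI.TX7
import Pool.Agent.H327R4.SI.TX8

/-!
# Strict comparison and nuclearity imply the Z-stability relations (unital algebras)

Part I (uniformly McDuff): `Pool.Agent.H667R5.TW.Main`. Part II (property (SI) and lifting,
designed by helper327): the modules `Pool.Agent.H327R4.SI.T*` by helper59 (FCOM X2 X7),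
helper835 (FIN), helper254 (GL X3), helper141 (LB), helper40 (LIFT), helper50 (NF), helper898
(ORT), helper105 and helper703 (QC), helper720 (RIB), helper770 (ROWS), helper7 (SI),
helper333 (SIR), helper569 (X1), helper675 (X4), helper415 (X5 X6), helper396 (X8),
helper511 (BR), helper152 (UM).
-/

set_option autoImplicit false

namespace Pool.Agent.H667R5.TW

open Pool.Agent.H327R4.Pure Pool.Agent.H327R4.SI

universe u

theorem rib' : StRIB.{u} := t_RIB
theorem x1' : StX1.{u} := t_X1 rib'
theorem x2' : StX2.{u} := t_X2 rib' x1'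
theorem x3' : StX3.{u} := t_X3 rib' x1' x2'
theorem ort' : StORT.{u} := t_ORT rib'
theorem x4' : StX4.{u} := t_X4 rib' x2' ort'
theorem x5' : StX5.{u} := t_X5 rib' x4'
theorem x6' : StX6.{u} := t_X6 rib'
theorem x7' : StX7.{u} := t_X7 rib' x3' x5' x6'
theorem gl' : StGL.{u} := t_GL x7' t_X8
theorem rows' : StROWS.{u} := t_ROWS rib'
theorem sir' : StSIR.{u} := t_SIR rib' rows' t_LB
theorem si' : StSI.{u} := t_SI gl' sir'
theorem lift' : StLIFT.{u} := t_LIFT t_QC t_FCOM
theorem um' : StUM.{u} := thm_UM bas' cpb'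

/-- TOMS-WINTER, unital case: a simple unital infinite-dimensional nuclear C*-algebra with strict
comparison has, for every finite set, approximately central elements satisfying the
Rørdam-Winter relations of the dimension drop algebra `Z_{2,3}`. -/
theorem full (A : Type u) [CStarAlgebra A] [PartialOrder A] [StarOrderedRing A]
    (hs : SimpleC A) (hf : ¬ FiniteDimensional ℂ A) (hn : NuclearC A) (hc : SC A) : ZST A :=
  main_of t_NF lift' si' t_FIN A hs hf hc (thm_BR A hn)
    (thm_BU um' A (umcd A hs hf hn hc 2 (by norm_num)))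

end Pool.Agent.H667R5.TW
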