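import Pool.Agent.H667R5.TW.Stubs
import Pool.Agent.H327R4.Pure.TMT

set_option autoImplicit false

namespace Pool.Agent.H667R5.TW

open Pool.Agent.H327R4.Pure
open scoped CStarAlgebra ComplexOrder Matrix

universe u

section
variable {A : Type u} [CStarAlgebra A] [PartialOrder A] [StarOrderedRing A]

theorem BAS_mono (T : TS A) {x y : A} (h : x ≤ y) : tr T x ≤ tr T y :=
  (mt_holds.{u} A T.1).1 x y h

theorem BAS_sa (T : TS A) {x : A} (h : IsSelfAdjoint x) : (T.1.f x).im = 0 :=
  (mt_holds.{u} A T.1).2.2 x h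

theorem BAS_star (T : TS A) (x : A) : T.1.f (star x) = star (T.1.f x) := by
  have h1 : (T.1.f (x + star x)).im = 0 := BAS_sa T (IsSelfAdjoint.add_star_self x)
  have h2 : (T.1.f (Complex.I • (x - star x))).im = 0 := by
    apply BAS_sa
    rw [IsSelfAdjoint, star_smul, star_sub, star_star]
    rw [show star Complex.I = -Complex.I from Complex.conj_I, neg_smul, ← smul_neg, neg_sub]
  rw [map_add, Complex.add_im] at h1
  rw [map_smul, map_sub, smul_eq_mul, Complex.mul_im, Complex.I_re, Complex.I_im, zero_mul,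
    zero_add, one_mul, Complex.sub_re] at h2
  apply Complex.ext
  · change _ = ((starRingEnd ℂ) (T.1.f x)).re
    rw [Complex.conj_re]
    linarith
  · change _ = ((starRingEnd ℂ) (T.1.f x)).im
    rw [Complex.conj_im]
    linarith

theorem BAS_n2nn (T : TS A) (x : A) : 0 ≤ n2 T x := (T.1.pos x).1

theorem BAS_n2star (T : TS A) (x : A) : n2 T (star x) = n2 T x := by
  unfold n2
  rw [star_star, T.1.tr]

theorem BAS_expand (T : TS A) (x y : A) :
    n2 T (x + y) = n2 T x + 2 * (T.1.f (star x * y)).re + n2 T y := by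
  unfold n2
  have e : star (x + y) * (x + y) = star x * x + star x * y + star (star x * y) + star y * y := by
    rw [star_add, star_mul, star_star]
    noncomm_ring
  rw [e, map_add, map_add, map_add, BAS_star]
  simp only [Complex.add_re]
  change _ + _ + ((starRingEnd ℂ) (T.1.f (star x * y))).re + _ = _
  rw [Complex.conj_re]
  ring

theorem BAS_n2smul (T : TS A) (c : ℂ) (x : A) : n2 T (c • x) = ‖c‖ ^ 2 * n2 T x := by
  unfold n2
  rw [star_smul, smul_mul_smul_comm, map_smul]
  have : star c * c = ((‖c‖ ^ 2 : ℝ) : ℂ) := by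
    change (starRingEnd ℂ) c * c = _
    rw [Complex.conj_mul']
    push_cast
    rfl
  rw [this, smul_eq_mul, Complex.re_ofReal_mul]

theorem BAS_cs (T : TS A) (x y : A) : ‖T.1.f (star x * y)‖ ^ 2 ≤ n2 T x * n2 T y := by
  set s : ℝ := ‖T.1.f (star x * y)‖ ^ 2 with hs
  set a := n2 T x
  set b := n2 T y
  have hquad : ∀ t : ℝ, 0 ≤ (s * b) * (t * t) + (-(2 * s)) * t + a := by
    intro t
    have h := BAS_n2nn T (x + ((-(t : ℂ)) * star (T.1.f (star x * y))) • y)
    rw [BAS_expand, BAS_n2smul, mul_smul_comm, map_smul, smul_eq_mul] at h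
    have e1 : (-(t : ℂ)) * star (T.1.f (star x * y)) * T.1.f (star x * y) = ((-(t * s) : ℝ) : ℂ) := by
      change (-(t : ℂ)) * (starRingEnd ℂ) (T.1.f (star x * y)) * T.1.f (star x * y) = _
      rw [mul_assoc, Complex.conj_mul', hs]
      push_cast
      ring
    have e2 : ‖(-(t : ℂ)) * star (T.1.f (star x * y))‖ ^ 2 = t ^ 2 * s := by
      rw [norm_mul, norm_neg, norm_star, mul_pow, hs, Complex.norm_real, Real.norm_eq_abs, sq_abs]
    rw [e1, e2, Complex.ofReal_re] at h
    have : (s * b) * (t * t) + (-(2 * s)) * t + a = a + 2 * (-(t * s)) + t ^ 2 * s * b := by ring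
    rw [this]
    exact h
  have hd := discrim_le_zero hquad
  unfold discrim at hd
  have hs0 : 0 ≤ s := by positivity
  have ha : 0 ≤ a := BAS_n2nn T x
  have hb : 0 ≤ b := BAS_n2nn T y
  rcases hs0.eq_or_lt with h0 | h0
  · rw [← h0]; positivity
  · have h3 : s * s ≤ s * (a * b) := by nlinarith
    exact le_of_mul_le_mul_left h3 h0

theorem BAS_one (T : TS A) : n2 T (1 : A) = 1 := by
  unfold n2
  rw [star_one, one_mul, T.2, Complex.one_re]

theorem BAS_conj (T : TS A) {x y : A} (z : A) (h : x ≤ y) :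
    tr T (star z * x * z) ≤ tr T (star z * y * z) :=
  BAS_mono T (star_left_conjugate_le_conjugate h z)

theorem BAS_left (T : TS A) (x y : A) : n2 T (x * y) ≤ ‖x‖ ^ 2 * n2 T y := by
  have h := BAS_conj T y (CStarAlgebra.star_mul_le_algebraMap_norm_sq (a := x))
  have e1 : star y * (star x * x) * y = star (x * y) * (x * y) := by
    rw [star_mul]; noncomm_ring
  have e2 : star y * (algebraMap ℝ A (‖x‖ ^ 2)) * y = ((‖x‖ ^ 2 : ℝ) : ℂ) • (star y * y) := by
    rw [Algebra.algebraMap_eq_smul_one, mul_smul_comm, mul_one, smul_mul_assoc]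
    exact (Complex.coe_smul _ _).symm
  rw [e1, e2] at h
  unfold tr at h
  rw [map_smul, smul_eq_mul, Complex.re_ofReal_mul] at h
  exact h

theorem BAS_right (T : TS A) (x y : A) : n2 T (x * y) ≤ ‖y‖ ^ 2 * n2 T x := by
  rw [← BAS_n2star T (x * y), star_mul, ← BAS_n2star T x, ← norm_star y]
  exact BAS_left T (star y) (star x)

end

theorem thm_BAS : StBAS.{u} := by
  intro A _ _ _ T
  have hle : ∀ x : A, n2 T x ≤ ‖x‖ ^ 2 := by
    intro x
    have h := BAS_left T x 1
    rw [mul_one, BAS_one, mul_one] at h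
    exact h
  refine ⟨fun x y h => BAS_mono T h, BAS_cs T, fun x y => ⟨BAS_left T x y, BAS_right T x y⟩,
    fun x => ⟨BAS_n2star T x, BAS_n2nn T x, hle x, ?_⟩, ?_, ?_, fun x y z h => BAS_conj T z h,
    BAS_star T, ?_⟩
  · have h := BAS_cs T 1 x
    rw [star_one, one_mul, BAS_one, one_mul] at h
    exact le_of_sq_le_sq (h.trans (hle x)) (norm_nonneg x)
  · intro x y
    have ha := BAS_n2nn T x
    have hb := BAS_n2nn T y
    apply Real.sqrt_le_iff.mpr
    refine ⟨by positivity, ?_⟩
    have h1 : (T.1.f (star x * y)).re ≤ √(n2 T x) * √(n2 T y) := by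
      calc (T.1.f (star x * y)).re ≤ ‖T.1.f (star x * y)‖ := Complex.re_le_norm _
        _ ≤ √(n2 T x * n2 T y) := Real.le_sqrt_of_sq_le (BAS_cs T x y)
        _ = _ := Real.sqrt_mul ha _
    rw [BAS_expand, add_sq, Real.sq_sqrt ha, Real.sq_sqrt hb]
    linarith
  · intro x y hx hy
    obtain ⟨b, rfl⟩ := CStarAlgebra.nonneg_iff_eq_star_mul_self.1 hx
    have h := BAS_mono T (star_right_conjugate_nonneg hy b)
    unfold tr at h ⊢
    rw [map_zero, Complex.zero_re] at h
    rw [mul_assoc, T.1.tr]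
    exact h
  · intro x hx
    apply Complex.ext
    · rw [Complex.ofReal_re]; rfl
    · rw [Complex.ofReal_im]; exact BAS_sa T hx

end Pool.Agent.H667R5.TW
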