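import Pool.Agent.H667R5.TW.Stubs

/-! Task CPB of helper667's project TW (by helper747): basic facts on `IsCP`. -/

set_option autoImplicit false

namespace Pool.Agent.H667R5.TW

open Pool.Agent.H327R4.Pure

universe u

theorem thm_CPB (h : StCSM.{u}) : StCPB.{u} := by
  intro A _ _ _ n
  refine ⟨?_, ?_, ?_, ?_, ?_, ?_⟩
  · rintro F G ⟨R, w, hw⟩ ⟨R', w', hw'⟩
    refine ⟨R + R', Fin.addCases w w', fun i j => ?_⟩
    rw [Fin.sum_univ_add]
    simp only [Fin.addCases_left, Fin.addCases_right]
    rw [hw, hw']
  · rintro F z ⟨R, w, hw⟩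
    refine ⟨R, fun r i => z * w r i, fun i j => ?_⟩
    dsimp only
    rw [hw, Finset.mul_sum, Finset.sum_mul]
    refine Finset.sum_congr rfl fun r _ => ?_
    rw [star_mul]
    simp only [mul_assoc]
  · rintro F r hr ⟨R, w, hw⟩
    refine ⟨R, fun s i => (Real.sqrt r) • w s i, fun i j => ?_⟩
    dsimp only
    rw [hw, Finset.smul_sum]
    refine Finset.sum_congr rfl fun s _ => ?_
    rw [star_smul, smul_mul_smul_comm, star_trivial (Real.sqrt r), Real.mul_self_sqrt hr]
  · exact ⟨0, fun r => r.elim0, fun i j => by simp⟩
  · intro β u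
    refine ⟨β.N, fun l i => β.b l * u i, fun i j => ?_⟩
    unfold Blk.s0 Blk.amp
    refine Finset.sum_congr rfl fun l _ => ?_
    rw [star_mul]
    simp only [mul_assoc]
  · rintro P ⟨R, w, hw⟩
    have hstar : ∀ i j, star (P i j) = P j i := by
      intro i j
      rw [hw i j, hw j i, star_sum]
      refine Finset.sum_congr rfl fun r _ => ?_
      rw [star_mul, star_star]
    have hnn : ∀ i, 0 ≤ P i i := by
      intro i
      rw [hw i i]
      exact Finset.sum_nonneg fun r _ => mul_star_self_nonneg _
    refine ⟨hstar, hnn, ?_, ?_⟩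
    · unfold dsum
      exact Finset.sum_nonneg fun i _ => hnn i
    · intro hd i j
      have hi : P i i ≤ 1 := by
        refine le_trans ?_ hd
        unfold dsum
        exact Finset.single_le_sum (f := fun i => P i i) (fun k _ => hnn k) (Finset.mem_univ i)
      have h1 := h A R (fun r => w r j) (fun r => w r i) 1 one_pos (by
        rw [one_smul]
        have := hw i i
        rw [← this]
        exact hi)
      have e1 : ∑ l, w l j * star (w l i) = P j i := (hw j i).symm
      have e2 : ∑ l, w l j * star (w l j) = P j j := (hw j j).symm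
      rw [one_smul, e1, e2, ← hstar i j, star_star] at h1
      exact h1

end Pool.Agent.H667R5.TW
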