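import Pool.Agent.H667R5.TW.Stubs

set_option autoImplicit false

namespace Pool.Agent.H667R5.TW

open Pool.Agent.H327R4.Pure
open scoped CStarAlgebra ComplexOrder Matrix

universe u v

theorem thm_CSM : StCSM.{u} := by
  intro A _ _ _ m a w K hK hw
  set Z : A := ∑ l, a l * star (w l) with hZ
  have hZs : star Z = ∑ l, w l * star (a l) := by
    rw [hZ, star_sum]
    exact Finset.sum_congr rfl (fun l _ => by rw [star_mul, star_star])
  have hpos : 0 ≤ ∑ l, (a l - K⁻¹ • (Z * w l)) * star (a l - K⁻¹ • (Z * w l)) :=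
    Finset.sum_nonneg (fun l _ => mul_star_self_nonneg _)
  have hexp : ∑ l, (a l - K⁻¹ • (Z * w l)) * star (a l - K⁻¹ • (Z * w l)) =
      ∑ l, a l * star (a l) - K⁻¹ • (Z * star Z) - K⁻¹ • (Z * star Z) +
        (K⁻¹ * K⁻¹) • (Z * (∑ l, w l * star (w l)) * star Z) := by
    have h1 : ∀ l, (a l - K⁻¹ • (Z * w l)) * star (a l - K⁻¹ • (Z * w l)) =
        a l * star (a l) - K⁻¹ • ((a l * star (w l)) * star Z) - K⁻¹ • (Z * (w l * star (a l))) +
        (K⁻¹ * K⁻¹) • (Z * (w l * star (w l)) * star Z) := by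
      intro l
      rw [star_sub, star_smul, star_trivial (K⁻¹ : ℝ), star_mul]
      simp only [sub_mul, mul_sub, smul_mul_assoc, mul_smul_comm, smul_sub, smul_smul, mul_assoc]
      abel
    rw [Finset.sum_congr rfl (fun l _ => h1 l), Finset.sum_add_distrib, Finset.sum_sub_distrib,
      Finset.sum_sub_distrib, ← Finset.smul_sum, ← Finset.smul_sum, ← Finset.smul_sum,
      ← Finset.sum_mul, ← Finset.sum_mul, ← Finset.mul_sum, ← Finset.mul_sum, ← hZ, ← hZs]
  have hle : Z * (∑ l, w l * star (w l)) * star Z ≤ K • (Z * star Z) := by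
    have h2 := star_right_conjugate_le_conjugate hw Z
    rwa [mul_smul_comm, mul_one, smul_mul_assoc] at h2
  have hle2 : (K⁻¹ * K⁻¹) • (Z * (∑ l, w l * star (w l)) * star Z) ≤ K⁻¹ • (Z * star Z) := by
    have h3 := smul_le_smul_of_nonneg_left hle (show 0 ≤ K⁻¹ * K⁻¹ by positivity)
    rw [smul_smul, mul_assoc K⁻¹, inv_mul_cancel₀ hK.ne', mul_one] at h3
    exact h3
  rw [hexp] at hpos
  have h4 : K⁻¹ • (Z * star Z) ≤ ∑ l, a l * star (a l) := by
    have h5 := hpos.trans (add_le_add_right hle2 _)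
    have h6 : ∑ l, a l * star (a l) - K⁻¹ • (Z * star Z) - K⁻¹ • (Z * star Z) +
        K⁻¹ • (Z * star Z) = ∑ l, a l * star (a l) - K⁻¹ • (Z * star Z) := by abel
    rw [h6] at h5
    exact sub_nonneg.1 h5
  have h7 := smul_le_smul_of_nonneg_left h4 hK.le
  rw [smul_smul, mul_inv_cancel₀ hK.ne', one_smul] at h7
  exact h7

end Pool.Agent.H667R5.TW
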