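import Pool.Agent.H667R5.TW.Stubs

/-!
# CUT: the cut-off `(1 - S)_+`
-/

set_option autoImplicit false
set_option linter.unusedSectionVars false

namespace Pool.Agent.H667R5.TW

open Pool.Agent.H327R4.Pure
open scoped CStarAlgebra ComplexOrder Matrix

universe u v

section

variable {A : Type u} [CStarAlgebra A] [PartialOrder A] [StarOrderedRing A]

theorem CUT_tr_sub (T : TS A) (x y : A) : tr T (x - y) = tr T x - tr T y := by
  unfold tr
  rw [map_sub, Complex.sub_re]

theorem CUT_tr_one (T : TS A) : tr T (1 : A) = 1 := by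
  unfold tr
  rw [T.2, Complex.one_re]

theorem CUT_tr_alg (T : TS A) (r : ℝ) : tr T (algebraMap ℝ A r) = r := by
  unfold tr
  rw [Algebra.algebraMap_eq_smul_one, ← Complex.coe_smul, map_smul, T.2, smul_eq_mul, mul_one,
    Complex.ofReal_re]

theorem CUT_nonneg (S : A) : 0 ≤ cc S := cfc_nonneg fun x _ => le_max_right _ _

theorem CUT_cc (S : A) (hS : IsSelfAdjoint S) : 1 - S ≤ cc S := by
  have h1 : (1 : A) - S = cfc (fun t : ℝ => 1 - t) S := by
    rw [cfc_sub (fun _ : ℝ => (1:ℝ)) (fun t : ℝ => t) S (by fun_prop) (by fun_prop),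
      cfc_const_one ℝ S hS, cfc_id' ℝ S hS]
  rw [h1]
  unfold cc
  exact cfc_mono (fun t _ => le_max_left _ _) (by fun_prop) (by fun_prop)

/-- the last item -/
theorem CUT_last (hBAS : StBAS.{u}) (T : TS A) {S q : A} (hS : 0 ≤ S) (hS1 : cc S ≤ 1)
    (hq : 0 ≤ q) (hq1 : q ≤ 1) : tr T q - tr T (q * S) ≤ tr T (cc S) := by
  obtain ⟨-, -, -, -, -, hpos, -⟩ := hBAS A T
  have h1 := hpos q (cc S - (1 - S)) hq (sub_nonneg.2 (CUT_cc S (IsSelfAdjoint.of_nonneg hS)))
  have h2 := hpos (1 - q) (cc S) (sub_nonneg.2 hq1) (CUT_nonneg S)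
  rw [mul_sub, mul_sub, mul_one, CUT_tr_sub, CUT_tr_sub] at h1
  rw [sub_mul, one_mul, CUT_tr_sub] at h2
  linarith

theorem CUT_q (hBAS : StBAS.{u}) (T : TS A) {S : A} (hS : 0 ≤ S) {δ : ℝ} (hδ : 0 < δ) :
    ∃ q : A, 0 ≤ q ∧ q ≤ 1 ∧ tr T (cc S) - δ ≤ tr T q - tr T (q * S) := by
  obtain ⟨hmono, -⟩ := hBAS A T
  have hsa : IsSelfAdjoint S := IsSelfAdjoint.of_nonneg hS
  set f : ℝ → ℝ := fun t => min 1 (max (1 - t) 0 / δ) with hf
  have hfc : Continuous f := by
    rw [hf]
    fun_prop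
  refine ⟨cfc f S, ?_, ?_, ?_⟩
  · refine cfc_nonneg fun t _ => ?_
    exact le_min zero_le_one (div_nonneg (le_max_right _ _) hδ.le)
  · exact cfc_le_one f S fun t _ => min_le_left _ _
  · have h1 : cfc (fun t : ℝ => max (1 - t) 0 - δ) S ≤ cfc (fun t : ℝ => f t - f t * t) S := by
      refine cfc_mono ?_ (by fun_prop) (by fun_prop)
      intro t _
      have h2 : f t - f t * t = f t * (1 - t) := by ring
      rw [h2, hf]
      simp only
      rcases le_total (1 - t) 0 with h3 | h3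
      · rw [max_eq_right h3, zero_div, min_eq_right zero_le_one]
        linarith
      · rw [max_eq_left h3]
        rcases le_total δ (1 - t) with h4 | h4
        · rw [min_eq_left ((one_le_div hδ).2 h4)]
          linarith
        · have h5 : 0 ≤ min 1 ((1 - t) / δ) * (1 - t) :=
            mul_nonneg (le_min zero_le_one (div_nonneg h3 hδ.le)) h3
          linarith
    have h3 := hmono _ _ h1
    rw [cfc_sub (fun t : ℝ => max (1 - t) 0) (fun _ : ℝ => δ) S (by fun_prop) (by fun_prop),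
      cfc_const δ S hsa, cfc_sub f (fun t : ℝ => f t * t) S (by fun_prop) (by fun_prop),
      cfc_mul f (fun t : ℝ => t) S (by fun_prop) (by fun_prop), cfc_id' ℝ S hsa, CUT_tr_sub,
      CUT_tr_sub, CUT_tr_alg] at h3
    exact h3

end

theorem thm_CUT (hBAS : StBAS.{u}) : StCUT.{u} := by
  intro A _ _ _ S Q hS hQ
  have hle1 : ∀ S : A, 0 ≤ S → cc S ≤ 1 := by
    intro S hS
    refine cfc_le_one _ S fun t ht => ?_
    have : 0 ≤ t := spectrum_nonneg_of_nonneg hS ht
    exact max_le (by linarith) zero_le_one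
  refine ⟨CUT_nonneg S, hle1 S hS, CUT_cc S (IsSelfAdjoint.of_nonneg hS), ?_, fun T => ?_⟩
  · have hsa : IsSelfAdjoint S := IsSelfAdjoint.of_nonneg hS
    have h1 : CFC.sqrt (cc S) = cfc (fun t : ℝ => √(max (1 - t) 0)) S := by
      rw [CFC.sqrt_eq_real_sqrt (cc S) (CUT_nonneg S), cfcₙ_eq_cfc]
      unfold cc
      exact (cfc_comp' Real.sqrt (fun t : ℝ => max (1 - t) 0) S
        (Real.continuous_sqrt.continuousOn) (by fun_prop) hsa).symm
    have h2 : CFC.sqrt (cc S) * S * CFC.sqrt (cc S) =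
        cfc (fun t : ℝ => √(max (1 - t) 0) * t * √(max (1 - t) 0)) S := by
      rw [cfc_mul (fun t : ℝ => √(max (1 - t) 0) * t) (fun t : ℝ => √(max (1 - t) 0)) S
        (by fun_prop) (by fun_prop), cfc_mul (fun t : ℝ => √(max (1 - t) 0)) (fun t : ℝ => t) S
        (by fun_prop) (by fun_prop), cfc_id' ℝ S hsa, h1]
    rw [h2]
    unfold cc
    refine cfc_mono ?_ (by fun_prop) (by fun_prop)
    intro t ht
    have ht0 : 0 ≤ t := spectrum_nonneg_of_nonneg hS ht
    have h3 : √(max (1 - t) 0) * t * √(max (1 - t) 0) = t * max (1 - t) 0 := by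
      rw [mul_comm _ t, mul_assoc, Real.mul_self_sqrt (le_max_right _ _)]
    rw [h3]
    rcases le_total (1 - t) 0 with h4 | h4
    · rw [max_eq_right h4]
      simp
    · rw [max_eq_left h4]
      nlinarith
  · obtain ⟨hmono, -, -, -, -, hpos, -⟩ := hBAS A T
    have hSQ : 0 ≤ S + Q := add_nonneg hS hQ
    refine ⟨?_, ?_, fun q hq hq1 => CUT_last hBAS T hS (hle1 S hS) hq hq1⟩
    · refine le_of_forall_pos_le_add fun δ hδ => ?_
      obtain ⟨q, hq, hq1, h⟩ := CUT_q hBAS T hSQ hδ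
      have h2 := CUT_last hBAS T hS (hle1 S hS) hq hq1
      have h3 := hpos q Q hq hQ
      have h4 : tr T (q * (S + Q)) = tr T (q * S) + tr T (q * Q) := by
        unfold tr
        rw [mul_add, map_add, Complex.add_re]
      rw [h4] at h
      linarith
    · have key : tr T (cc S) ≤ tr T (cc (S + Q)) + tr T Q := by
        refine le_of_forall_pos_le_add fun δ hδ => ?_
        obtain ⟨q, hq, hq1, h⟩ := CUT_q hBAS T hS hδ
        have h2 := CUT_last hBAS T hSQ (hle1 _ hSQ) hq hq1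
        have h3 := hpos (1 - q) Q (sub_nonneg.2 hq1) hQ
        rw [sub_mul, one_mul, CUT_tr_sub] at h3
        have h4 : tr T (q * (S + Q)) = tr T (q * S) + tr T (q * Q) := by
          unfold tr
          rw [mul_add, map_add, Complex.add_re]
        rw [h4] at h2
        linarith
      linarith

end Pool.Agent.H667R5.TW
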