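import Pool.Agent.H667R5.TW.Stubs

set_option autoImplicit false
set_option linter.unusedSectionVars false

namespace Pool.Agent.H667R5.TW

open Pool.Agent.H327R4.Pure
open scoped CStarAlgebra ComplexOrder Matrix

universe u

namespace DATAx

variable {A : Type u} [CStarAlgebra A] [PartialOrder A] [StarOrderedRing A]

theorem tr_add (T : TS A) (x y : A) : tr T (x + y) = tr T x + tr T y := by
  simp [tr]

theorem tr_smul (T : TS A) (r : ℝ) (x : A) : tr T (r • x) = r * tr T x := by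
  have h : T.1.f (r • x) = (r : ℂ) * T.1.f x := by
    rw [← Complex.coe_smul r x, map_smul, smul_eq_mul]
  rw [tr, tr, h, Complex.re_ofReal_mul]

theorem tr_sum (T : TS A) {M : ℕ} (g : Fin M → A) : tr T (∑ s, g s) = ∑ s, tr T (g s) := by
  simp [tr]

/-- the mass elements -/
def NN (X : Finset A) (W : ℝ) : Set A :=
  {g | ∃ (M : ℕ) (w : Fin M → ℝ) (β : Fin M → Blk A),
    (∀ s, 0 ≤ w s ∧ (β s).Valid X) ∧ ∑ s, w s • (β s).amp 1 ≤ 1 ∧
      g = ∑ s, w s • (((β s).N : ℝ) • cc ((β s).R W X))}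

theorem convex_NN (X : Finset A) (W : ℝ) : Convex ℝ (NN X W) := by
  rintro g1 ⟨M1, w1, β1, h1, h1', rfl⟩ g2 ⟨M2, w2, β2, h2, h2', rfl⟩ a b ha hb hab
  refine ⟨M1 + M2, Fin.addCases (fun i => a * w1 i) (fun i => b * w2 i),
    Fin.addCases β1 β2, ?_, ?_, ?_⟩
  · intro s
    refine Fin.addCases (fun i => ?_) (fun i => ?_) s
    · simpa using ⟨mul_nonneg ha (h1 i).1, (h1 i).2⟩
    · simpa using ⟨mul_nonneg hb (h2 i).1, (h2 i).2⟩
  · rw [Fin.sum_univ_add]
    simp only [Fin.addCases_left, Fin.addCases_right, mul_smul]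
    rw [← Finset.smul_sum, ← Finset.smul_sum]
    calc a • ∑ i, w1 i • (β1 i).amp 1 + b • ∑ i, w2 i • (β2 i).amp 1
        ≤ a • (1 : A) + b • (1 : A) :=
          add_le_add (smul_le_smul_of_nonneg_left h1' ha) (smul_le_smul_of_nonneg_left h2' hb)
      _ = 1 := by rw [← add_smul, hab, one_smul]
  · rw [Fin.sum_univ_add]
    simp only [Fin.addCases_left, Fin.addCases_right, mul_smul]
    rw [← Finset.smul_sum, ← Finset.smul_sum]

end DATAx

open DATAx

/-- DATA: uniform block data -/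
theorem thm_DATA (hHT : StHT.{u}) (hMIN : StMIN.{u}) (hSPLIT : StSPLIT.{u}) : StDATA.{u} := by
  intro A _ _ _ hnuc X W κ hX hW hκ
  obtain ⟨g, ⟨M, w, β, hv, hamp, rfl⟩, hg⟩ := hMIN A (NN X W) (1 - κ) (convex_NN X W) (by
    intro T
    obtain ⟨M, w, β, hv, hamp, hm⟩ := hHT A hnuc X W (κ / 2) hX hW (by positivity) T
    refine ⟨_, ⟨M, w, β, hv, hamp, rfl⟩, ?_⟩
    rw [tr_sum]
    have : ∑ s, tr T (w s • (((β s).N : ℝ) • cc ((β s).R W X))) =
        ∑ s, w s * (β s).mass W X T := by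
      refine Finset.sum_congr rfl fun s _ => ?_
      rw [tr_smul, tr_smul, Blk.mass]
    rw [this]
    linarith) ⟨0, 0, Fin.elim0, Fin.elim0, fun s => s.elim0, by simp, by simp⟩
  obtain ⟨M', f, w', hw', hf⟩ := hSPLIT M w (fun s => (hv s).1)
  refine ⟨M', w', fun s => β (f s), fun s => ⟨(hw' s).1, (hw' s).2, (hv (f s)).2⟩, ?_, ?_⟩
  · rw [hf A (fun s => (β s).amp 1)]
    exact hamp
  · intro T
    have h1 := hg T
    rw [← hf A (fun s => ((β s).N : ℝ) • cc ((β s).R W X)), tr_sum] at h1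
    have : ∑ s, tr T (w' s • (((β (f s)).N : ℝ) • cc ((β (f s)).R W X))) =
        ∑ s, w' s * (β (f s)).mass W X T := by
      refine Finset.sum_congr rfl fun s _ => ?_
      rw [tr_smul, tr_smul, Blk.mass]
    rw [this] at h1
    exact h1.le

end Pool.Agent.H667R5.TW
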