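import Pool.Agent.H667R5.TW.Stubs

set_option autoImplicit false

namespace Pool.Agent.H667R5.TW

open Pool.Agent.H327R4.Pure
open scoped CStarAlgebra ComplexOrder Matrix

universe u v

section DTRaux

variable {A : Type u} [CStarAlgebra A] [PartialOrder A] [StarOrderedRing A]

theorem DTR_R_nonneg (β : Blk A) (W : ℝ) (hW : 0 ≤ W) (X : Finset A) : 0 ≤ β.R W X := by
  unfold Blk.R
  refine smul_nonneg hW (add_nonneg (smul_nonneg (by positivity) ?_) (smul_nonneg (by positivity) ?_))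
  · exact Finset.sum_nonneg (fun _ _ => Finset.sum_nonneg (fun _ _ => star_mul_self_nonneg _))
  · exact Finset.sum_nonneg (fun _ _ => Finset.sum_nonneg (fun _ _ => star_mul_self_nonneg _))

theorem DTR_isLoc (hCUT : StCUT.{u}) (β : Blk A) (W : ℝ) (hW : 0 ≤ W) (X : Finset A) :
    IsLoc (β.R W X) (fun _ : Fin 1 => CFC.sqrt (cc (β.R W X))) (cc (β.R W X)) := by
  obtain ⟨h0, h1, -, h3, -⟩ := hCUT A (β.R W X) 0 (DTR_R_nonneg β W hW X) le_rfl
  have hsa : star (CFC.sqrt (cc (β.R W X))) = CFC.sqrt (cc (β.R W X)) :=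
    (IsSelfAdjoint.of_nonneg (CFC.sqrt_nonneg _)).star_eq
  refine ⟨h0, h1, ?_, ?_⟩
  · intro i j
    have hij : i = j := Subsingleton.elim i j
    rw [if_pos hij, hsa, CFC.sqrt_mul_sqrt_self _ h0]
  · intro i
    rw [hsa]
    exact h3

theorem DTR_amp_mono (β : Blk A) {c d : A} (h : c ≤ d) : β.amp c ≤ β.amp d := by
  unfold Blk.amp
  exact Finset.sum_le_sum (fun l _ => star_right_conjugate_le_conjugate h _)

theorem DTR_s0 (β : Blk A) {c : A} (hc : 0 ≤ c) :
    β.s0 (fun _ : Fin 1 => CFC.sqrt c) 0 0 = β.amp c := by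
  unfold Blk.s0
  rw [(IsSelfAdjoint.of_nonneg (CFC.sqrt_nonneg c)).star_eq, CFC.sqrt_mul_sqrt_self c hc]

theorem DTR_tr_mul (hBAS : StBAS.{u}) (T : TS A) (x q : A) (hx : ‖x‖ ≤ 1) (hq : 0 ≤ q) :
    ‖T.1.f (x * q)‖ ≤ tr T q := by
  obtain ⟨hmono, hCS, hmul, hst, -⟩ := hBAS A T
  set h := CFC.sqrt q with hh
  have hsa : star h = h := (IsSelfAdjoint.of_nonneg (CFC.sqrt_nonneg q)).star_eq
  have hhh : h * h = q := CFC.sqrt_mul_sqrt_self q hq
  have h1 := hCS (h * star x) h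
  have h2 : star (h * star x) * h = x * q := by
    rw [star_mul, star_star, hsa, mul_assoc, hhh]
  rw [h2] at h1
  have h3 : n2 T h = tr T q := by
    unfold n2 tr
    rw [hsa, hhh]
  have h4 : n2 T (h * star x) ≤ tr T q := by
    have h5 := (hmul h (star x)).2
    rw [norm_star, h3] at h5
    have h6 : 0 ≤ tr T q := by
      rw [← h3]; exact (hst h).2.1
    calc n2 T (h * star x) ≤ ‖x‖ ^ 2 * tr T q := h5
      _ ≤ 1 * tr T q := by
          refine mul_le_mul_of_nonneg_right ?_ h6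
          exact pow_le_one₀ (norm_nonneg _) hx
      _ = tr T q := one_mul _
  have h6 : 0 ≤ tr T q := by
    rw [← h3]; exact (hst h).2.1
  rw [h3] at h1
  have h7 : ‖T.1.f (x * q)‖ ^ 2 ≤ tr T q ^ 2 := by
    calc ‖T.1.f (x * q)‖ ^ 2 ≤ n2 T (h * star x) * tr T q := h1
      _ ≤ tr T q * tr T q := mul_le_mul_of_nonneg_right h4 h6
      _ = tr T q ^ 2 := by ring
  exact (abs_le_of_sq_le_sq' h7 h6).2

theorem DTR_f_smul (T : TS A) (r : ℝ) (z : A) : T.1.f (r • z) = (r : ℂ) * T.1.f z := by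
  rw [← Complex.coe_smul r z, map_smul, smul_eq_mul]

end DTRaux

theorem thm_DTR (hBAS : StBAS.{u}) (hCUT : StCUT.{u}) (hS0 : StS0.{u}) (hS1 : StS1.{u}) :
    StDTR.{u} := by
  intro A _ _ _ X W κ M w β hX hW hκ hw hamp T hm
  have hW0 : 0 ≤ W := by linarith
  have hsq : 2 ≤ √W := by
    have h := Real.sqrt_le_sqrt hW
    have h4 : √(4 : ℝ) = 2 := by
      rw [show (4 : ℝ) = 2 ^ 2 by norm_num]
      exact Real.sqrt_sq (by norm_num)
    rwa [h4] at h
  obtain ⟨ω, hω⟩ : ∃ ω : ℝ, ω = 1 / √W := ⟨_, rfl⟩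
  have hω0 : 0 ≤ ω := by rw [hω]; positivity
  have hω1 : ω ≤ 1 / 2 := by
    rw [hω]
    exact one_div_le_one_div_of_le (by norm_num) hsq
  let c : Fin M → A := fun s => cc ((β s).R W X)
  have hcut := fun s => hCUT A ((β s).R W X) 0 (DTR_R_nonneg (β s) W hW0 X) le_rfl
  have hc0 : ∀ s, 0 ≤ c s := fun s => (hcut s).1
  have hc1 : ∀ s, c s ≤ 1 := fun s => (hcut s).2.1
  have htr0 : tr T (0 : A) = 0 := by unfold tr; simp
  have hmass0 : ∀ s, 0 ≤ (β s).mass W X T := by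
    intro s
    have h1 := (hBAS A T).1 0 (c s) (hc0 s)
    rw [htr0] at h1
    exact mul_nonneg (Nat.cast_nonneg _) h1
  have hloc := fun s => DTR_isLoc hCUT (β s) W hW0 X
  have hs0 : ∀ s, |tr T ((β s).amp (c s)) - (β s).mass W X T| ≤ ω * (β s).mass W X T := by
    intro s
    have h := (hS0 A 1 X W (β s) _ _ (by linarith) (by norm_num; linarith) (hw s).2.1
      (hloc s)).2.2.2.2.2 T 0
    have h' := h.1
    rw [DTR_s0 _ (hc0 s), ← hω] at h'
    exact h'
  have hs1 : ∀ s, ∀ x ∈ X, ‖T.1.f (x * (β s).amp (c s)) -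
      ((β s).y x).trace * ((tr T (c s) : ℝ) : ℂ)‖ ≤ 4 / √W * (β s).mass W X T := by
    intro s x hx
    have h := hS1 A 1 X W (β s) _ _ (by linarith) (by norm_num; linarith) (hw s).2
      (hloc s) T x hx 0 0
    rw [DTR_s0 _ (hc0 s), if_pos rfl] at h
    exact h
  obtain ⟨D, hD⟩ : ∃ D : A, D = ∑ s, w s • (β s).amp (c s) := ⟨_, rfl⟩
  have hD1 : D ≤ 1 := by
    rw [hD]
    refine (Finset.sum_le_sum (fun s _ => ?_)).trans hamp
    exact smul_le_smul_of_nonneg_left (DTR_amp_mono (β s) (hc1 s)) (hw s).1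
  have hTD : tr T D = ∑ s, w s * tr T ((β s).amp (c s)) := by
    unfold tr
    rw [hD, map_sum, Complex.re_sum]
    refine Finset.sum_congr rfl (fun s _ => ?_)
    rw [DTR_f_smul, Complex.re_ofReal_mul]
  obtain ⟨m, hmdef⟩ : ∃ m : ℝ, m = ∑ s, w s * (β s).mass W X T := ⟨_, rfl⟩
  rw [← hmdef] at hm ⊢
  have hm0 : 0 ≤ m := by
    rw [hmdef]
    exact Finset.sum_nonneg (fun s _ => mul_nonneg (hw s).1 (hmass0 s))
  have hDm : |tr T D - m| ≤ ω * m := by
    rw [hTD, hmdef, ← Finset.sum_sub_distrib, Finset.mul_sum]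
    refine (Finset.abs_sum_le_sum_abs _ _).trans (Finset.sum_le_sum (fun s _ => ?_))
    rw [← mul_sub, abs_mul, abs_of_nonneg (hw s).1]
    calc w s * |tr T ((β s).amp (c s)) - (β s).mass W X T|
        ≤ w s * (ω * (β s).mass W X T) := mul_le_mul_of_nonneg_left (hs0 s) (hw s).1
      _ = ω * (w s * (β s).mass W X T) := by ring
  have htr1 : tr T (1 : A) = 1 := by unfold tr; rw [T.2]; simp
  have hTD1 : tr T D ≤ 1 := by rw [← htr1]; exact (hBAS A T).1 _ _ hD1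
  have habs := abs_le.1 hDm
  have hm2 : m ≤ 2 := by nlinarith
  refine ⟨hm2, fun x hx => ?_⟩
  have h1 : ‖T.1.f (x * (1 - D))‖ ≤ tr T (1 - D) :=
    DTR_tr_mul hBAS T x (1 - D) (hX x hx) (sub_nonneg.2 hD1)
  have h2 : tr T (1 - D) = 1 - tr T D := by
    have : tr T (1 - D) = tr T 1 - tr T D := by
      unfold tr
      rw [map_sub, Complex.sub_re]
    rw [this, htr1]
  have h3 : 1 - tr T D ≤ κ + ω := by
    rcases le_or_gt 1 m with h | h
    · nlinarith
    · nlinarith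
  have h4 : T.1.f (x * D) = ∑ s, ((w s : ℝ) : ℂ) * T.1.f (x * (β s).amp (c s)) := by
    rw [hD, Finset.mul_sum, map_sum]
    refine Finset.sum_congr rfl (fun s _ => ?_)
    rw [mul_smul_comm, DTR_f_smul]
  have h5 : ‖T.1.f (x * D) - ∑ s, ((w s : ℝ) : ℂ) * (((β s).y x).trace *
      ((tr T (cc ((β s).R W X)) : ℝ) : ℂ))‖ ≤ 8 * ω := by
    rw [h4, ← Finset.sum_sub_distrib]
    refine (norm_sum_le _ _).trans ?_
    have h6 : ∀ s, ‖((w s : ℝ) : ℂ) * T.1.f (x * (β s).amp (c s)) - ((w s : ℝ) : ℂ) *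
        (((β s).y x).trace * ((tr T (cc ((β s).R W X)) : ℝ) : ℂ))‖ ≤
        4 * ω * (w s * (β s).mass W X T) := by
      intro s
      rw [← mul_sub, norm_mul, Complex.norm_real, Real.norm_eq_abs, abs_of_nonneg (hw s).1]
      have h7 := hs1 s x hx
      calc w s * _ ≤ w s * (4 / √W * (β s).mass W X T) := mul_le_mul_of_nonneg_left h7 (hw s).1
        _ = 4 * ω * (w s * (β s).mass W X T) := by rw [hω]; ring
    refine (Finset.sum_le_sum (fun s _ => h6 s)).trans ?_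
    rw [← Finset.mul_sum, ← hmdef]
    nlinarith
  have h6 : T.1.f x = T.1.f (x * (1 - D)) + T.1.f (x * D) := by
    rw [← map_add, ← mul_add, sub_add_cancel, mul_one]
  have h8 : 10 / √W = 10 * ω := by rw [hω]; ring
  rw [h8, h6, add_sub_assoc]
  refine (norm_add_le _ _).trans ?_
  linarith

end Pool.Agent.H667R5.TW
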