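import Pool.Agent.H667R5.TW.Stubs

set_option autoImplicit false

namespace Pool.Agent.H667R5.TW

open Pool.Agent.H327R4.Pure
open scoped CStarAlgebra ComplexOrder Matrix InnerProductSpace

universe u v

namespace ERRaux

section abs

variable {E : Type u} [SeminormedAddCommGroup E] [InnerProductSpace ℂ E]

/-- norm of a combination of almost orthogonal vectors -/
theorem G {p : ℕ} (v : Fin p → E) (c : Fin p → ℝ) (t θ : ℝ)
    (hv : ∀ k l, ‖⟪v k, v l⟫_ℂ - (if k = l then ((c l * t : ℝ) : ℂ) else 0)‖ ≤ θ * t)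
    (β : Fin p → ℂ) :
    ‖∑ k, β k • v k‖ ^ 2 ≤ t * ∑ k, ‖β k‖ ^ 2 * c k + θ * t * (∑ k, ‖β k‖) ^ 2 := by
  have h1 : ⟪∑ k, β k • v k, ∑ l, β l • v l⟫_ℂ
      = ∑ k, ∑ l, starRingEnd ℂ (β k) * β l * ⟪v k, v l⟫_ℂ := by
    rw [sum_inner]
    refine Finset.sum_congr rfl (fun k _ => ?_)
    rw [inner_sum]
    refine Finset.sum_congr rfl (fun l _ => ?_)
    rw [inner_smul_left, inner_smul_right]
    ring
  have h2 : ∑ k, ∑ l, starRingEnd ℂ (β k) * β l * ⟪v k, v l⟫_ℂ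
      = ((t * ∑ k, ‖β k‖ ^ 2 * c k : ℝ) : ℂ)
        + ∑ k, ∑ l, starRingEnd ℂ (β k) * β l *
          (⟪v k, v l⟫_ℂ - (if k = l then ((c l * t : ℝ) : ℂ) else 0)) := by
    have e1 : ∀ k : Fin p, ∑ l, starRingEnd ℂ (β k) * β l * ⟪v k, v l⟫_ℂ
        = ((t * (‖β k‖ ^ 2 * c k) : ℝ) : ℂ) + ∑ l, starRingEnd ℂ (β k) * β l *
          (⟪v k, v l⟫_ℂ - (if k = l then ((c l * t : ℝ) : ℂ) else 0)) := by
      intro k
      have e2 : ((t * (‖β k‖ ^ 2 * c k) : ℝ) : ℂ)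
          = ∑ l, starRingEnd ℂ (β k) * β l * (if k = l then ((c l * t : ℝ) : ℂ) else 0) := by
        simp only [mul_ite, mul_zero, Finset.sum_ite_eq, Finset.mem_univ, if_true]
        rw [mul_comm (starRingEnd ℂ (β k)) (β k), Complex.mul_conj]
        rw [Complex.normSq_eq_norm_sq]
        push_cast
        ring
      rw [e2, ← Finset.sum_add_distrib]
      refine Finset.sum_congr rfl (fun l _ => ?_)
      ring
    rw [Finset.sum_congr rfl (fun k _ => e1 k), Finset.sum_add_distrib]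
    congr 1
    rw [Finset.mul_sum]
    push_cast
    rfl
  have h3 : ‖∑ k, β k • v k‖ ^ 2 = (⟪∑ k, β k • v k, ∑ l, β l • v l⟫_ℂ).re := by
    rw [← inner_self_eq_norm_sq (𝕜 := ℂ)]
    rfl
  rw [h3, h1, h2, Complex.add_re, Complex.ofReal_re]
  refine add_le_add le_rfl ?_
  refine (Complex.re_le_norm _).trans ?_
  refine (norm_sum_le _ _).trans ?_
  have h4 : ∀ k ∈ (Finset.univ : Finset (Fin p)), ‖∑ l, starRingEnd ℂ (β k) * β l *
          (⟪v k, v l⟫_ℂ - (if k = l then ((c l * t : ℝ) : ℂ) else 0))‖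
      ≤ ∑ l, ‖β k‖ * ‖β l‖ * (θ * t) := by
    intro k _
    refine (norm_sum_le _ _).trans (Finset.sum_le_sum (fun l _ => ?_))
    rw [norm_mul, norm_mul, RCLike.norm_conj]
    exact mul_le_mul_of_nonneg_left (hv k l) (by positivity)
  refine (Finset.sum_le_sum h4).trans (le_of_eq ?_)
  rw [sq, Finset.sum_mul_sum, Finset.mul_sum]
  refine Finset.sum_congr rfl (fun k _ => ?_)
  rw [Finset.mul_sum]
  refine Finset.sum_congr rfl (fun l _ => ?_)
  ring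

theorem phase (z : ℂ) : ∃ om : ℂ, ‖om‖ = 1 ∧ om * z = ((‖z‖ : ℝ) : ℂ) := by
  by_cases hz : z = 0
  · exact ⟨1, by simp, by simp [hz]⟩
  · have hn : ‖z‖ ≠ 0 := norm_ne_zero_iff.mpr hz
    refine ⟨starRingEnd ℂ z / ((‖z‖ : ℝ) : ℂ), ?_, ?_⟩
    · rw [norm_div, RCLike.norm_conj, Complex.norm_real, Real.norm_eq_abs, abs_norm]
      exact div_self hn
    · have hc : ((‖z‖ : ℝ) : ℂ) ≠ 0 := by exact_mod_cast hn
      rw [div_mul_eq_mul_div, mul_comm, Complex.mul_conj, Complex.normSq_eq_norm_sq]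
      push_cast
      field_simp

theorem H {p : ℕ} (v : Fin p → E) (c : Fin p → ℝ) (t θ : ℝ)
    (hv : ∀ k l, ‖⟪v k, v l⟫_ℂ - (if k = l then ((c l * t : ℝ) : ℂ) else 0)‖ ≤ θ * t)
    (d : E) (y : Fin p → ℝ) (hy : ∀ l, 0 ≤ y l) (h : ℝ) (hh : 0 < h) :
    ∑ l, y l * ‖⟪d, v l⟫_ℂ‖ ≤ 1 / (2 * h) * ‖d‖ ^ 2
      + h / 2 * (t * ∑ l, (y l) ^ 2 * c l + θ * t * (∑ l, y l) ^ 2) := by
  choose om hom1 hom2 using phase
  set β : Fin p → ℂ := fun l => ((y l : ℝ) : ℂ) * om ⟪d, v l⟫_ℂ with hβ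
  have hβn : ∀ l, ‖β l‖ = y l := by
    intro l
    rw [hβ]
    simp only [norm_mul, hom1, mul_one, Complex.norm_real, Real.norm_eq_abs]
    exact abs_of_nonneg (hy l)
  have h1 : ⟪d, ∑ l, β l • v l⟫_ℂ = ((∑ l, y l * ‖⟪d, v l⟫_ℂ‖ : ℝ) : ℂ) := by
    rw [inner_sum]
    push_cast
    refine Finset.sum_congr rfl (fun l _ => ?_)
    rw [inner_smul_right, hβ]
    simp only
    rw [mul_assoc, hom2]
  have h2 : ∑ l, y l * ‖⟪d, v l⟫_ℂ‖ ≤ ‖d‖ * ‖∑ l, β l • v l‖ := by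
    have h3 := norm_inner_le_norm (𝕜 := ℂ) d (∑ l, β l • v l)
    rw [h1, Complex.norm_real] at h3
    exact (le_abs_self _).trans h3
  have h4 := G v c t θ hv β
  simp only [hβn] at h4
  refine h2.trans ?_
  have h5 : ‖d‖ * ‖∑ l, β l • v l‖ ≤ 1 / (2 * h) * ‖d‖ ^ 2 + h / 2 * ‖∑ l, β l • v l‖ ^ 2 := by
    have h6 : 1 / (2 * h) * ‖d‖ ^ 2 + h / 2 * ‖∑ l, β l • v l‖ ^ 2 - ‖d‖ * ‖∑ l, β l • v l‖
        = (‖d‖ - h * ‖∑ l, β l • v l‖) ^ 2 / (2 * h) := by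
      field_simp
      ring
    have h7 : 0 ≤ (‖d‖ - h * ‖∑ l, β l • v l‖) ^ 2 / (2 * h) := by positivity
    linarith
  refine h5.trans ?_
  have h8 : 0 ≤ h / 2 := by positivity
  linarith [mul_le_mul_of_nonneg_left h4 h8]

theorem row {p : ℕ} (Y : Matrix (Fin p) (Fin p) ℂ) (hY : (1 - Y * Yᴴ).PosSemidef) (k : Fin p) :
    ∑ l, ‖Y k l‖ ^ 2 ≤ 1 := by
  have h := hY.diag_nonneg (i := k)
  rw [Matrix.sub_apply, Matrix.one_apply_eq, Matrix.mul_apply] at h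
  have e : ∑ j, Y k j * Yᴴ j k = ((∑ l, ‖Y k l‖ ^ 2 : ℝ) : ℂ) := by
    push_cast
    refine Finset.sum_congr rfl (fun l _ => ?_)
    rw [Matrix.conjTranspose_apply, Complex.star_def, Complex.mul_conj,
      Complex.normSq_eq_norm_sq]
    push_cast
    rfl
  rw [e] at h
  have h2 : (0 : ℂ) ≤ ((1 - ∑ l, ‖Y k l‖ ^ 2 : ℝ) : ℂ) := by
    push_cast
    push_cast at h
    exact h
  have h3 : (0 : ℝ) ≤ 1 - ∑ l, ‖Y k l‖ ^ 2 := by exact_mod_cast h2
  linarith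

theorem ent {p : ℕ} (Y : Matrix (Fin p) (Fin p) ℂ) (hY : (1 - Y * Yᴴ).PosSemidef) (k l : Fin p) :
    ‖Y k l‖ ≤ 1 := by
  have h1 := row Y hY k
  have h2 : ‖Y k l‖ ^ 2 ≤ ∑ l, ‖Y k l‖ ^ 2 :=
    Finset.single_le_sum (f := fun l => ‖Y k l‖ ^ 2) (fun _ _ => by positivity)
      (Finset.mem_univ l)
  have h3 : ‖Y k l‖ ^ 2 ≤ 1 := h2.trans h1
  by_contra hc
  push Not at hc
  nlinarith [norm_nonneg (Y k l)]

theorem col {p : ℕ} (Y : Matrix (Fin p) (Fin p) ℂ) (hY : (1 - Yᴴ * Y).PosSemidef) (l : Fin p) :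
    ∑ k, ‖Y k l‖ ^ 2 ≤ 1 := by
  have hY2 : (1 - Yᴴ * Yᴴᴴ).PosSemidef := by
    rw [Matrix.conjTranspose_conjTranspose]
    exact hY
  have h := row Yᴴ hY2 l
  have e : ∀ k, ‖Yᴴ l k‖ = ‖Y k l‖ := by
    intro k
    rw [Matrix.conjTranspose_apply, norm_star]
  simpa [e] using h

theorem sumle {p : ℕ} (y : Fin p → ℝ) (hy1 : ∀ l, y l ≤ 1) (hy0 : ∀ l, 0 ≤ y l) :
    (∑ l, y l) ^ 2 ≤ (p : ℝ) ^ 2 := by
  have h1 : ∑ l, y l ≤ p := by
    calc ∑ l, y l ≤ ∑ _l : Fin p, (1 : ℝ) := Finset.sum_le_sum (fun l _ => hy1 l)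
      _ = p := by simp
  have h0 : 0 ≤ ∑ l, y l := Finset.sum_nonneg (fun l _ => hy0 l)
  exact pow_le_pow_left₀ h0 h1 2

/-- the mixed sums -/
theorem MIX {p : ℕ} (v : Fin p → E) (c : Fin p → ℝ) (t θ ε h : ℝ)
    (ht : 0 ≤ t) (hθ : 0 ≤ θ) (hh : 0 < h)
    (hv : ∀ k l, ‖⟪v k, v l⟫_ℂ - (if k = l then ((c l * t : ℝ) : ℂ) else 0)‖ ≤ θ * t)
    (y : Fin p → Fin p → ℝ) (hy0 : ∀ k l, 0 ≤ y k l) (hy1 : ∀ k l, y k l ≤ 1)
    (hcol : ∀ l, ∑ k, (y k l) ^ 2 ≤ 1)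
    (D : Fin p → E) (hD : ∑ k, ‖D k‖ ^ 2 ≤ ε * t) :
    ∑ k, ∑ l, y k l * ‖⟪D k, v l⟫_ℂ‖ ≤ 1 / (2 * h) * (ε * t)
      + h / 2 * (t * ∑ l, max (c l) 0 + θ * t * (p : ℝ) ^ 3) := by
  have h1 : ∀ k ∈ (Finset.univ : Finset (Fin p)), ∑ l, y k l * ‖⟪D k, v l⟫_ℂ‖
      ≤ 1 / (2 * h) * ‖D k‖ ^ 2 + h / 2 * (t * ∑ l, (y k l) ^ 2 * max (c l) 0
        + θ * t * (p : ℝ) ^ 2) := by
    intro k _
    refine (H v c t θ hv (D k) (y k) (hy0 k) h hh).trans ?_
    have e1 : t * ∑ l, (y k l) ^ 2 * c l ≤ t * ∑ l, (y k l) ^ 2 * max (c l) 0 :=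
      mul_le_mul_of_nonneg_left (Finset.sum_le_sum (fun l _ =>
        mul_le_mul_of_nonneg_left (le_max_left _ _) (by positivity))) ht
    have e2 : θ * t * (∑ l, y k l) ^ 2 ≤ θ * t * (p : ℝ) ^ 2 :=
      mul_le_mul_of_nonneg_left (sumle (y k) (hy1 k) (hy0 k)) (by positivity)
    have e3 : 0 ≤ h / 2 := by positivity
    have e4 := mul_le_mul_of_nonneg_left (add_le_add e1 e2) e3
    linarith
  refine (Finset.sum_le_sum h1).trans ?_
  rw [Finset.sum_add_distrib, ← Finset.mul_sum, ← Finset.mul_sum, Finset.sum_add_distrib,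
    ← Finset.mul_sum]
  have e5 : 0 ≤ 1 / (2 * h) := by positivity
  have e6 := mul_le_mul_of_nonneg_left hD e5
  have e7 : ∑ k, ∑ l, (y k l) ^ 2 * max (c l) 0 ≤ ∑ l, max (c l) 0 := by
    rw [Finset.sum_comm]
    refine Finset.sum_le_sum (fun l _ => ?_)
    rw [← Finset.sum_mul]
    have := mul_le_mul_of_nonneg_right (hcol l) (le_max_right (c l) 0)
    linarith
  have e8 : ∑ _k : Fin p, θ * t * (p : ℝ) ^ 2 = θ * t * (p : ℝ) ^ 3 := by
    rw [Finset.sum_const, Finset.card_univ, Fintype.card_fin, nsmul_eq_mul]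
    ring
  rw [e8]
  have e9 : 0 ≤ h / 2 := by positivity
  have e10 := mul_le_mul_of_nonneg_left (mul_le_mul_of_nonneg_left e7 ht) e9
  linarith

/-- the commutator estimate -/
theorem COMM {p : ℕ} (v xv xv' : Fin p → E) (Y : Matrix (Fin p) (Fin p) ℂ) (c : Fin p → ℝ)
    (t θ ε h : ℝ) (hY1 : (1 - Y * Yᴴ).PosSemidef) (hY2 : (1 - Yᴴ * Y).PosSemidef)
    (ht : 0 ≤ t) (hθ : 0 ≤ θ) (hh : 0 < h)
    (hv : ∀ k l, ‖⟪v k, v l⟫_ℂ - (if k = l then ((c l * t : ℝ) : ℂ) else 0)‖ ≤ θ * t)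
    (hadj : ∀ k l, ⟪v k, xv l⟫_ℂ = ⟪xv' k, v l⟫_ℂ)
    (hD : ∑ l, ‖xv l - ∑ k, Y k l • v k‖ ^ 2 ≤ ε * t)
    (hD' : ∑ l, ‖xv' l - ∑ k, Yᴴ k l • v k‖ ^ 2 ≤ ε * t) :
    t * ∑ k, ∑ l, ‖Y k l‖ ^ 2 * |c k - c l| ≤ 2 * (p : ℝ) ^ 3 * (θ * t) + 1 / h * (ε * t)
      + h * (t * ∑ l, max (c l) 0 + θ * t * (p : ℝ) ^ 3) := by
  set D : Fin p → E := fun l => xv l - ∑ k, Y k l • v k with hDdef
  set D' : Fin p → E := fun l => xv' l - ∑ k, Yᴴ k l • v k with hD'def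
  set r : Fin p → Fin p → ℂ := fun k l =>
    ⟪v k, v l⟫_ℂ - (if k = l then ((c l * t : ℝ) : ℂ) else 0) with hr
  have hθt : 0 ≤ θ * t := by positivity
  have hxv : ∀ l, xv l = D l + ∑ k, Y k l • v k := fun l => by simp [hDdef]
  have hxv' : ∀ l, xv' l = D' l + ∑ k, Yᴴ k l • v k := fun l => by simp [hD'def]
  have hvv : ∀ k l, ⟪v k, v l⟫_ℂ = r k l + (if k = l then ((c l * t : ℝ) : ℂ) else 0) :=
    fun k l => by simp [hr]
  have rel : ∀ k l, Y k l * ((c k * t : ℝ) : ℂ) - Y k l * ((c l * t : ℝ) : ℂ)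
      = (∑ m, Y k m * r m l - ∑ m, Y m l * r k m) + ⟪D' k, v l⟫_ℂ - ⟪v k, D l⟫_ℂ := by
    intro k l
    have e1 : ⟪v k, xv l⟫_ℂ = ⟪v k, D l⟫_ℂ + Y k l * ((c k * t : ℝ) : ℂ)
        + ∑ m, Y m l * r k m := by
      rw [hxv l, inner_add_right, inner_sum]
      have : ∑ m, ⟪v k, Y m l • v m⟫_ℂ = Y k l * ((c k * t : ℝ) : ℂ) + ∑ m, Y m l * r k m := by
        have e2 : ∀ m, ⟪v k, Y m l • v m⟫_ℂ
            = Y m l * (if k = m then ((c m * t : ℝ) : ℂ) else 0) + Y m l * r k m := by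
          intro m
          rw [inner_smul_right, hvv k m]
          ring
        rw [Finset.sum_congr rfl (fun m _ => e2 m), Finset.sum_add_distrib]
        congr 1
        simp
      rw [this]
      ring
    have e3 : ⟪xv' k, v l⟫_ℂ = ⟪D' k, v l⟫_ℂ + Y k l * ((c l * t : ℝ) : ℂ)
        + ∑ m, Y k m * r m l := by
      rw [hxv' k, inner_add_left, sum_inner]
      have : ∑ m, ⟪Yᴴ m k • v m, v l⟫_ℂ = Y k l * ((c l * t : ℝ) : ℂ) + ∑ m, Y k m * r m l := by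
        have e2 : ∀ m, ⟪Yᴴ m k • v m, v l⟫_ℂ
            = Y k m * (if m = l then ((c l * t : ℝ) : ℂ) else 0) + Y k m * r m l := by
          intro m
          rw [inner_smul_left, hvv m l, Matrix.conjTranspose_apply, Complex.star_def,
            Complex.conj_conj]
          ring
        rw [Finset.sum_congr rfl (fun m _ => e2 m), Finset.sum_add_distrib]
        congr 1
        simp
      rw [this]
      ring
    have e4 := hadj k l
    rw [e1, e3] at e4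
    linear_combination e4
  have key : ∀ k l, ‖Y k l‖ * |c k - c l| * t
      ≤ 2 * (p : ℝ) * (θ * t) + ‖⟪D' k, v l⟫_ℂ‖ + ‖⟪D l, v k⟫_ℂ‖ := by
    intro k l
    have e1 : ‖Y k l‖ * |c k - c l| * t
        = ‖Y k l * ((c k * t : ℝ) : ℂ) - Y k l * ((c l * t : ℝ) : ℂ)‖ := by
      rw [← mul_sub, ← Complex.ofReal_sub, norm_mul, Complex.norm_real, Real.norm_eq_abs,
        ← sub_mul, abs_mul, abs_of_nonneg ht]
      ring
    rw [e1, rel k l]
    have e2 : ‖∑ m, Y k m * r m l‖ ≤ (p : ℝ) * (θ * t) := by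
      refine (norm_sum_le _ _).trans ?_
      calc ∑ m, ‖Y k m * r m l‖ ≤ ∑ _m : Fin p, (θ * t) := by
            refine Finset.sum_le_sum (fun m _ => ?_)
            rw [norm_mul]
            calc ‖Y k m‖ * ‖r m l‖ ≤ 1 * (θ * t) :=
                  mul_le_mul (ent Y hY1 k m) (hv m l) (norm_nonneg _) zero_le_one
              _ = θ * t := one_mul _
        _ = (p : ℝ) * (θ * t) := by simp
    have e3 : ‖∑ m, Y m l * r k m‖ ≤ (p : ℝ) * (θ * t) := by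
      refine (norm_sum_le _ _).trans ?_
      calc ∑ m, ‖Y m l * r k m‖ ≤ ∑ _m : Fin p, (θ * t) := by
            refine Finset.sum_le_sum (fun m _ => ?_)
            rw [norm_mul]
            calc ‖Y m l‖ * ‖r k m‖ ≤ 1 * (θ * t) :=
                  mul_le_mul (ent Y hY1 m l) (hv k m) (norm_nonneg _) zero_le_one
              _ = θ * t := one_mul _
        _ = (p : ℝ) * (θ * t) := by simp
    have e4 : ‖⟪v k, D l⟫_ℂ‖ = ‖⟪D l, v k⟫_ℂ‖ := norm_inner_symm _ _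
    calc ‖(∑ m, Y k m * r m l - ∑ m, Y m l * r k m) + ⟪D' k, v l⟫_ℂ - ⟪v k, D l⟫_ℂ‖
        ≤ ‖(∑ m, Y k m * r m l - ∑ m, Y m l * r k m) + ⟪D' k, v l⟫_ℂ‖ + ‖⟪v k, D l⟫_ℂ‖ :=
          norm_sub_le _ _
      _ ≤ (‖∑ m, Y k m * r m l - ∑ m, Y m l * r k m‖ + ‖⟪D' k, v l⟫_ℂ‖)
          + ‖⟪v k, D l⟫_ℂ‖ := by gcongr; exact norm_add_le _ _
      _ ≤ ((‖∑ m, Y k m * r m l‖ + ‖∑ m, Y m l * r k m‖) + ‖⟪D' k, v l⟫_ℂ‖)
          + ‖⟪v k, D l⟫_ℂ‖ := by gcongr; exact norm_sub_le _ _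
      _ ≤ 2 * (p : ℝ) * (θ * t) + ‖⟪D' k, v l⟫_ℂ‖ + ‖⟪D l, v k⟫_ℂ‖ := by
          rw [e4]
          linarith
  have m1 := MIX v c t θ ε h ht hθ hh hv (fun k l => ‖Y k l‖) (fun k l => norm_nonneg _)
    (fun k l => ent Y hY1 k l) (fun l => col Y hY2 l) D' hD'
  have m2 := MIX v c t θ ε h ht hθ hh hv (fun l k => ‖Y k l‖) (fun k l => norm_nonneg _)
    (fun k l => ent Y hY1 l k) (fun k => row Y hY1 k) D hD
  have f1 : t * ∑ k, ∑ l, ‖Y k l‖ ^ 2 * |c k - c l|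
      = ∑ k, ∑ l, ‖Y k l‖ * (‖Y k l‖ * |c k - c l| * t) := by
    rw [Finset.mul_sum]
    refine Finset.sum_congr rfl (fun k _ => ?_)
    rw [Finset.mul_sum]
    refine Finset.sum_congr rfl (fun l _ => ?_)
    ring
  have f2 : ∑ k, ∑ l, ‖Y k l‖ * (‖Y k l‖ * |c k - c l| * t)
      ≤ ∑ k, ∑ l, (2 * (p : ℝ) * (θ * t) + ‖Y k l‖ * ‖⟪D' k, v l⟫_ℂ‖
        + ‖Y k l‖ * ‖⟪D l, v k⟫_ℂ‖) := by
    refine Finset.sum_le_sum (fun k _ => Finset.sum_le_sum (fun l _ => ?_))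
    have g1 := mul_le_mul_of_nonneg_left (key k l) (norm_nonneg (Y k l))
    have g2 : ‖Y k l‖ * (2 * (p : ℝ) * (θ * t)) ≤ 1 * (2 * (p : ℝ) * (θ * t)) :=
      mul_le_mul_of_nonneg_right (ent Y hY1 k l) (by positivity)
    linarith
  have f3 : ∑ k, ∑ l, (2 * (p : ℝ) * (θ * t) + ‖Y k l‖ * ‖⟪D' k, v l⟫_ℂ‖
        + ‖Y k l‖ * ‖⟪D l, v k⟫_ℂ‖)
      = 2 * (p : ℝ) ^ 3 * (θ * t) + ∑ k, ∑ l, ‖Y k l‖ * ‖⟪D' k, v l⟫_ℂ‖
        + ∑ l, ∑ k, ‖Y k l‖ * ‖⟪D l, v k⟫_ℂ‖ := by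
    simp only [Finset.sum_add_distrib]
    rw [Finset.sum_comm (f := fun k l => ‖Y k l‖ * ‖⟪D l, v k⟫_ℂ‖)]
    congr 2
    simp only [Finset.sum_const, Finset.card_univ, Fintype.card_fin, nsmul_eq_mul]
    ring
  have f4 : 1 / h = 1 / (2 * h) + 1 / (2 * h) := by
    field_simp
    ring
  rw [f1]
  refine f2.trans ?_
  rw [f3, f4]
  linarith

theorem sqrt_sub_sq {a b : ℝ} (ha : 0 ≤ a) (hb : 0 ≤ b) : (√a - √b) ^ 2 ≤ |a - b| := by
  have h1 : |√a - √b| ≤ √a + √b := by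
    rw [abs_le]
    constructor <;> linarith [Real.sqrt_nonneg a, Real.sqrt_nonneg b]
  have h2 : |a - b| = |√a - √b| * (√a + √b) := by
    have : a - b = (√a - √b) * (√a + √b) := by
      ring_nf
      rw [Real.sq_sqrt ha, Real.sq_sqrt hb]
    rw [this, abs_mul, abs_of_nonneg (a := √a + √b) (by positivity)]
  rw [h2, ← sq_abs, sq]
  exact mul_le_mul_of_nonneg_left h1 (abs_nonneg _)

/-- one spectral cut -/
theorem QL {p : ℕ} (v xv : Fin p → E) (Y : Matrix (Fin p) (Fin p) ℂ) (c : Fin p → ℝ)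
    (t θ σ : ℝ) (hY1 : (1 - Y * Yᴴ).PosSemidef)
    (ht : 0 ≤ t) (hθ : 0 ≤ θ) (hσ : 0 < σ) (hc : ∀ l, |c l| ≤ 2 * p)
    (hv : ∀ k l, ‖⟪v k, v l⟫_ℂ - (if k = l then ((c l * t : ℝ) : ℂ) else 0)‖ ≤ θ * t)
    (Es : Finset (Fin p)) (hEs : ∀ l ∈ Es, σ < c l) (l : Fin p) (hl : l ∈ Es) :
    ‖((1 / √(c l) : ℝ) : ℂ) • xv l - ∑ k ∈ Es, Y k l • (((1 / √(c k) : ℝ) : ℂ) • v k)‖ ^ 2
      ≤ 2 / c l * (‖xv l - ∑ k, Y k l • v k‖ ^ 2
        + t * ∑ k, ‖Y k l‖ ^ 2 * (|c k - c l| + if k ∈ Es then 0 else max (c k) 0)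
        + θ * t * ((p : ℝ) * (1 + √(2 * p) / √σ)) ^ 2) := by
  have hcl : 0 < c l := hσ.trans (hEs l hl)
  have hsl : √(c l) ≠ 0 := (Real.sqrt_pos.mpr hcl).ne'
  set δ : Fin p → ℂ := fun k =>
    if k ∈ Es then Y k l * ((1 - √(c l) / √(c k) : ℝ) : ℂ) else Y k l with hδ
  have hvec : ((1 / √(c l) : ℝ) : ℂ) • xv l - ∑ k ∈ Es, Y k l • (((1 / √(c k) : ℝ) : ℂ) • v k)
      = ((1 / √(c l) : ℝ) : ℂ) • ((xv l - ∑ k, Y k l • v k) + ∑ k, δ k • v k) := by
    have e1 : (xv l - ∑ k, Y k l • v k) + ∑ k, δ k • v k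
        = xv l - ∑ k, (Y k l - δ k) • v k := by
      simp only [sub_smul, Finset.sum_sub_distrib]
      abel
    rw [e1, smul_sub]
    congr 1
    rw [Finset.smul_sum, ← Finset.sum_filter_add_sum_filter_not Finset.univ (fun k => k ∈ Es)]
    have e2 : ∑ k ∈ Finset.univ.filter (fun k => ¬ k ∈ Es),
        ((1 / √(c l) : ℝ) : ℂ) • ((Y k l - δ k) • v k) = 0 := by
      refine Finset.sum_eq_zero (fun k hk => ?_)
      have hk2 : k ∉ Es := (Finset.mem_filter.mp hk).2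
      simp [hδ, hk2]
    rw [e2, add_zero]
    have e3 : Finset.univ.filter (fun k => k ∈ Es) = Es := by
      ext k
      simp
    rw [e3]
    refine Finset.sum_congr rfl (fun k hk => ?_)
    have hck : 0 < c k := hσ.trans (hEs k hk)
    have hsk : √(c k) ≠ 0 := (Real.sqrt_pos.mpr hck).ne'
    rw [smul_smul, smul_smul]
    congr 1
    simp only [hδ, hk, if_true]
    have e4 : ((1 / √(c l) : ℝ) : ℂ) * (Y k l - Y k l * ((1 - √(c l) / √(c k) : ℝ) : ℂ))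
        = Y k l * (((1 / √(c l)) * (√(c l) / √(c k)) : ℝ) : ℂ) := by
      push_cast
      ring
    rw [e4]
    congr 2
    field_simp
  have hB : (1 : ℝ) ≤ 1 + √(2 * p) / √σ := by
    have : 0 ≤ √(2 * p) / √σ := by positivity
    linarith
  have hδn : ∀ k, ‖δ k‖ ≤ 1 + √(2 * p) / √σ := by
    intro k
    by_cases hk : k ∈ Es
    · have hck : 0 < c k := hσ.trans (hEs k hk)
      simp only [hδ, hk, if_true]
      rw [norm_mul, Complex.norm_real, Real.norm_eq_abs]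
      have h1 : |1 - √(c l) / √(c k)| ≤ 1 + √(c l) / √(c k) := by
        have h0 : 0 ≤ √(c l) / √(c k) := by positivity
        rw [abs_le]
        constructor <;> linarith
      have h2 : √(c l) / √(c k) ≤ √(2 * p) / √σ := by
        have h3 : √(c l) ≤ √(2 * p) := Real.sqrt_le_sqrt ((le_abs_self _).trans (hc l))
        have h4 : √σ ≤ √(c k) := Real.sqrt_le_sqrt (hEs k hk).le
        have h5 : 0 < √σ := Real.sqrt_pos.mpr hσ
        exact div_le_div₀ (Real.sqrt_nonneg _) h3 h5 h4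
      calc ‖Y k l‖ * |1 - √(c l) / √(c k)| ≤ 1 * |1 - √(c l) / √(c k)| :=
            mul_le_mul_of_nonneg_right (ent Y hY1 k l) (abs_nonneg _)
        _ ≤ 1 + √(2 * p) / √σ := by linarith
    · simp only [hδ, hk, if_false]
      exact (ent Y hY1 k l).trans hB
  have hδc : ∀ k, ‖δ k‖ ^ 2 * c k
      ≤ ‖Y k l‖ ^ 2 * (|c k - c l| + if k ∈ Es then 0 else max (c k) 0) := by
    intro k
    by_cases hk : k ∈ Es
    · have hck : 0 < c k := hσ.trans (hEs k hk)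
      have hsk : √(c k) ≠ 0 := (Real.sqrt_pos.mpr hck).ne'
      simp only [hδ, hk, if_true, add_zero]
      rw [norm_mul, Complex.norm_real, Real.norm_eq_abs, mul_pow, sq_abs, mul_assoc]
      refine mul_le_mul_of_nonneg_left ?_ (by positivity)
      have h1 : (1 - √(c l) / √(c k)) ^ 2 * c k = (√(c k) - √(c l)) ^ 2 := by
        have h2 : c k = √(c k) ^ 2 := (Real.sq_sqrt hck.le).symm
        calc (1 - √(c l) / √(c k)) ^ 2 * c k = (1 - √(c l) / √(c k)) ^ 2 * √(c k) ^ 2 := by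
              rw [← h2]
          _ = ((1 - √(c l) / √(c k)) * √(c k)) ^ 2 := by ring
          _ = (√(c k) - √(c l)) ^ 2 := by
              congr 1
              field_simp
      rw [h1]
      exact sqrt_sub_sq hck.le hcl.le
    · simp only [hδ, hk, if_false]
      refine mul_le_mul_of_nonneg_left ?_ (by positivity)
      linarith [le_max_left (c k) 0, abs_nonneg (c k - c l)]
  have hG := G v c t θ hv δ
  have h1 : ∑ k, ‖δ k‖ ^ 2 * c k
      ≤ ∑ k, ‖Y k l‖ ^ 2 * (|c k - c l| + if k ∈ Es then 0 else max (c k) 0) :=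
    Finset.sum_le_sum (fun k _ => hδc k)
  have h2 : (∑ k, ‖δ k‖) ^ 2 ≤ ((p : ℝ) * (1 + √(2 * p) / √σ)) ^ 2 := by
    have h3 : ∑ k, ‖δ k‖ ≤ (p : ℝ) * (1 + √(2 * p) / √σ) := by
      calc ∑ k, ‖δ k‖ ≤ ∑ _k : Fin p, (1 + √(2 * p) / √σ) :=
            Finset.sum_le_sum (fun k _ => hδn k)
        _ = _ := by
            rw [Finset.sum_const, Finset.card_univ, Fintype.card_fin, nsmul_eq_mul]
    exact pow_le_pow_left₀ (Finset.sum_nonneg (fun _ _ => norm_nonneg _)) h3 2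
  have hG2 : ‖∑ k, δ k • v k‖ ^ 2
      ≤ t * ∑ k, ‖Y k l‖ ^ 2 * (|c k - c l| + if k ∈ Es then 0 else max (c k) 0)
        + θ * t * ((p : ℝ) * (1 + √(2 * p) / √σ)) ^ 2 := by
    refine hG.trans (add_le_add (mul_le_mul_of_nonneg_left h1 ht)
      (mul_le_mul_of_nonneg_left h2 (by positivity)))
  rw [hvec, norm_smul, mul_pow, Complex.norm_real, Real.norm_eq_abs, sq_abs]
  have h4 : (1 / √(c l)) ^ 2 = 1 / c l := by
    rw [div_pow, one_pow, Real.sq_sqrt hcl.le]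
  rw [h4]
  have h5 : ‖(xv l - ∑ k, Y k l • v k) + ∑ k, δ k • v k‖ ^ 2
      ≤ 2 * (‖xv l - ∑ k, Y k l • v k‖ ^ 2 + ‖∑ k, δ k • v k‖ ^ 2) := by
    have h6 := norm_add_le (xv l - ∑ k, Y k l • v k) (∑ k, δ k • v k)
    have h7 := pow_le_pow_left₀ (norm_nonneg _) h6 2
    nlinarith [sq_nonneg (‖xv l - ∑ k, Y k l • v k‖ - ‖∑ k, δ k • v k‖)]
  have h8 : 0 ≤ 1 / c l := by positivity
  have h9 := mul_le_mul_of_nonneg_left (h5.trans (mul_le_mul_of_nonneg_left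
    (add_le_add le_rfl hG2) zero_le_two)) h8
  refine h9.trans (le_of_eq ?_)
  ring

/-- the averaged estimate -/
theorem AVG {p M : ℕ} (v xv xv' : Fin p → E) (Y : Matrix (Fin p) (Fin p) ℂ) (c : Fin p → ℝ)
    (t θ ε σ η : ℝ) (w : Fin M → ℝ) (Es : Fin M → Finset (Fin p))
    (hσ : 0 < σ) (hη : 0 < η) (hη1 : η ≤ 1)
    (hw : ∀ s, 0 ≤ w s ∧ ∀ l ∈ Es s, σ < c l)
    (hw1 : ∀ l, ∑ s, (if l ∈ Es s then w s else 0) = max (c l - σ) 0)
    (hw2 : ∀ l l', ∑ s, (if l ∈ Es s ∧ l' ∉ Es s then w s else 0) =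
      max (max (c l - σ) 0 - max (c l' - σ) 0) 0)
    (hY1 : (1 - Y * Yᴴ).PosSemidef) (hY2 : (1 - Yᴴ * Y).PosSemidef)
    (hc : ∀ l, |c l| ≤ 2 * p) (ht : 0 ≤ t) (hθ : 0 ≤ θ) (hε : 0 ≤ ε)
    (hv : ∀ k l, ‖⟪v k, v l⟫_ℂ - (if k = l then ((c l * t : ℝ) : ℂ) else 0)‖ ≤ θ * t)
    (hadj : ∀ k l, ⟪v k, xv l⟫_ℂ = ⟪xv' k, v l⟫_ℂ)
    (hD : ∑ l, ‖xv l - ∑ k, Y k l • v k‖ ^ 2 ≤ ε * t)
    (hD' : ∑ l, ‖xv' l - ∑ k, Yᴴ k l • v k‖ ^ 2 ≤ ε * t) :
    ∑ s, w s * ∑ l ∈ Es s,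
      ‖((1 / √(c l) : ℝ) : ℂ) • xv l - ∑ k ∈ Es s, Y k l • (((1 / √(c k) : ℝ) : ℂ) • v k)‖ ^ 2
      ≤ (12 * η * ∑ l, c l + 15 / η * ε
        + (8 * (p : ℝ) ^ 3 + 12 * η * p ^ 3 + 12 * η * p
          + 2 * p * ((p : ℝ) * (1 + √(2 * p) / √σ)) ^ 2) * θ) * t := by
  set K : ℝ := ((p : ℝ) * (1 + √(2 * p) / √σ)) ^ 2 with hK
  have hK0 : 0 ≤ K := by positivity
  set A : Fin p → ℝ := fun l => ‖xv l - ∑ k, Y k l • v k‖ ^ 2 + θ * t * K with hA
  have hA0 : ∀ l, 0 ≤ A l := fun l => by positivity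
  -- step 1 : pointwise bound
  have s1 : ∀ s, w s * ∑ l ∈ Es s,
      ‖((1 / √(c l) : ℝ) : ℂ) • xv l - ∑ k ∈ Es s, Y k l • (((1 / √(c k) : ℝ) : ℂ) • v k)‖ ^ 2
      ≤ ∑ l, (if l ∈ Es s then w s else 0) * (2 / c l * (A l
        + t * ∑ k, ‖Y k l‖ ^ 2 * (|c k - c l| + if k ∈ Es s then 0 else max (c k) 0))) := by
    intro s
    have e1 : ∑ l, (if l ∈ Es s then w s else 0) * (2 / c l * (A l
        + t * ∑ k, ‖Y k l‖ ^ 2 * (|c k - c l| + if k ∈ Es s then 0 else max (c k) 0)))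
        = w s * ∑ l ∈ Es s, (2 / c l * (A l
        + t * ∑ k, ‖Y k l‖ ^ 2 * (|c k - c l| + if k ∈ Es s then 0 else max (c k) 0))) := by
      rw [Finset.mul_sum]
      simp only [ite_mul, zero_mul]
      rw [← Finset.sum_filter]
      have : Finset.univ.filter (fun l => l ∈ Es s) = Es s := by
        ext l
        simp
      rw [this]
    rw [e1]
    refine mul_le_mul_of_nonneg_left ?_ (hw s).1
    refine Finset.sum_le_sum (fun l hl => ?_)
    refine (QL v xv Y c t θ σ hY1 ht hθ hσ hc hv (Es s) (hw s).2 l hl).trans (le_of_eq ?_)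
    rw [hA]
    ring
  refine (Finset.sum_le_sum (fun s _ => s1 s)).trans ?_
  rw [Finset.sum_comm]
  -- step 2 : for each l
  have s2 : ∀ l ∈ (Finset.univ : Finset (Fin p)),
      ∑ s, (if l ∈ Es s then w s else 0) * (2 / c l * (A l
        + t * ∑ k, ‖Y k l‖ ^ 2 * (|c k - c l| + if k ∈ Es s then 0 else max (c k) 0)))
      ≤ 2 * A l + 4 * (t * ∑ k, ‖Y k l‖ ^ 2 * |c k - c l|) := by
    intro l _
    have e1 : ∑ s, (if l ∈ Es s then w s else 0) * (2 / c l * (A l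
        + t * ∑ k, ‖Y k l‖ ^ 2 * (|c k - c l| + if k ∈ Es s then 0 else max (c k) 0)))
        = 2 / c l * (max (c l - σ) 0) * A l
          + t * ∑ k, ‖Y k l‖ ^ 2 * ((2 / c l * max (c l - σ) 0) * |c k - c l|
            + 2 / c l * (max (max (c l - σ) 0 - max (c k - σ) 0) 0) * max (c k) 0) := by
      have e2 : ∀ s, (if l ∈ Es s then w s else 0) * (2 / c l * (A l
          + t * ∑ k, ‖Y k l‖ ^ 2 * (|c k - c l| + if k ∈ Es s then 0 else max (c k) 0)))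
          = (if l ∈ Es s then w s else 0) * (2 / c l * A l)
            + ∑ k, (t * ‖Y k l‖ ^ 2 * (2 / c l * |c k - c l|) * (if l ∈ Es s then w s else 0)
              + t * ‖Y k l‖ ^ 2 * (2 / c l * max (c k) 0)
                * (if l ∈ Es s ∧ k ∉ Es s then w s else 0)) := by
        intro s
        rw [mul_add, mul_add, Finset.mul_sum, Finset.mul_sum, Finset.mul_sum]
        congr 1
        refine Finset.sum_congr rfl (fun k _ => ?_)
        by_cases h1 : l ∈ Es s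
        · by_cases h2 : k ∈ Es s
          · simp [h1, h2]
            ring
          · simp [h1, h2]
            ring
        · simp [h1]
      rw [Finset.sum_congr rfl (fun s _ => e2 s), Finset.sum_add_distrib, ← Finset.sum_mul,
        hw1 l, Finset.sum_comm]
      have e3 : ∀ k, ∑ s, (t * ‖Y k l‖ ^ 2 * (2 / c l * |c k - c l|)
              * (if l ∈ Es s then w s else 0)
              + t * ‖Y k l‖ ^ 2 * (2 / c l * max (c k) 0)
                * (if l ∈ Es s ∧ k ∉ Es s then w s else 0))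
          = t * (‖Y k l‖ ^ 2 * ((2 / c l * max (c l - σ) 0) * |c k - c l|
            + 2 / c l * (max (max (c l - σ) 0 - max (c k - σ) 0) 0) * max (c k) 0)) := by
        intro k
        rw [Finset.sum_add_distrib, ← Finset.mul_sum, ← Finset.mul_sum, hw1 l, hw2 l k]
        ring
      rw [Finset.sum_congr rfl (fun k _ => e3 k), ← Finset.mul_sum]
      ring
    rw [e1]
    by_cases hcl : c l ≤ σ
    · have h0 : max (c l - σ) 0 = 0 := max_eq_right (by linarith)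
      have h00 : ∀ k, max (max (c l - σ) 0 - max (c k - σ) 0) 0 = 0 := by
        intro k
        rw [h0]
        exact max_eq_right (by linarith [le_max_right (c k - σ) 0])
      simp only [h00]
      simp only [h0]
      simp only [mul_zero, zero_mul, add_zero, Finset.sum_const_zero]
      have h1 := hA0 l
      have h2 : 0 ≤ t * ∑ k, ‖Y k l‖ ^ 2 * |c k - c l| := by positivity
      linarith
    · push Not at hcl
      have hcl0 : 0 < c l := hσ.trans hcl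
      have h0 : max (c l - σ) 0 = c l - σ := max_eq_left (by linarith)
      have h1 : 2 / c l * max (c l - σ) 0 ≤ 2 := by
        rw [h0, div_mul_eq_mul_div, div_le_iff₀ hcl0]
        linarith
      have h2 : ∀ k, 2 / c l * (max (max (c l - σ) 0 - max (c k - σ) 0) 0) * max (c k) 0
          ≤ 2 * |c k - c l| := by
        intro k
        rcases le_total (c k) (c l) with hkl | hkl
        · have h3 : max (max (c l - σ) 0 - max (c k - σ) 0) 0 ≤ |c k - c l| := by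
            rw [h0]
            refine max_le ?_ (abs_nonneg _)
            have : c k - σ ≤ max (c k - σ) 0 := le_max_left _ _
            have h4 : |c k - c l| = c l - c k := by
              rw [abs_of_nonpos (by linarith)]
              ring
            rw [h4]
            linarith
          have h5 : max (c k) 0 ≤ c l := max_le hkl hcl0.le
          have h6 : 0 ≤ 2 / c l := by positivity
          calc 2 / c l * (max (max (c l - σ) 0 - max (c k - σ) 0) 0) * max (c k) 0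
              ≤ 2 / c l * |c k - c l| * c l :=
                mul_le_mul (mul_le_mul_of_nonneg_left h3 h6) h5 (le_max_right _ _)
                  (by positivity)
            _ = 2 * |c k - c l| := by field_simp
        · have h3 : max (max (c l - σ) 0 - max (c k - σ) 0) 0 = 0 := by
            refine max_eq_right ?_
            have := max_le_max (sub_le_sub_right hkl σ) (le_refl (0:ℝ))
            linarith
          rw [h3]
          simp only [mul_zero, zero_mul]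
          positivity
      have h3 : 2 / c l * max (c l - σ) 0 * A l ≤ 2 * A l :=
        mul_le_mul_of_nonneg_right h1 (hA0 l)
      have h4 : ∑ k, ‖Y k l‖ ^ 2 * ((2 / c l * max (c l - σ) 0) * |c k - c l|
            + 2 / c l * (max (max (c l - σ) 0 - max (c k - σ) 0) 0) * max (c k) 0)
          ≤ ∑ k, ‖Y k l‖ ^ 2 * (4 * |c k - c l|) := by
        refine Finset.sum_le_sum (fun k _ => ?_)
        refine mul_le_mul_of_nonneg_left ?_ (by positivity)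
        have h5 := mul_le_mul_of_nonneg_right h1 (abs_nonneg (c k - c l))
        linarith [h2 k]
      have h6 : ∑ k, ‖Y k l‖ ^ 2 * (4 * |c k - c l|) = 4 * ∑ k, ‖Y k l‖ ^ 2 * |c k - c l| := by
        rw [Finset.mul_sum]
        refine Finset.sum_congr rfl (fun k _ => ?_)
        ring
      rw [h6] at h4
      have h7 := mul_le_mul_of_nonneg_left h4 ht
      linarith
  refine (Finset.sum_le_sum s2).trans ?_
  rw [Finset.sum_add_distrib, ← Finset.mul_sum, ← Finset.mul_sum]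
  have s3 : ∑ l, A l ≤ ε * t + p * (θ * t * K) := by
    rw [hA]
    simp only [Finset.sum_add_distrib, Finset.sum_const, Finset.card_univ, Fintype.card_fin,
      nsmul_eq_mul]
    linarith
  have s4 := COMM v xv xv' Y c t θ ε (3 * η) hY1 hY2 ht hθ (by positivity) hv hadj hD hD'
  have s5 : ∑ l, t * ∑ k, ‖Y k l‖ ^ 2 * |c k - c l|
      = t * ∑ k, ∑ l, ‖Y k l‖ ^ 2 * |c k - c l| := by
    rw [← Finset.mul_sum, Finset.sum_comm]
  rw [s5]
  have s6 : t * ∑ l, max (c l) 0 ≤ t * ∑ l, c l + p * (θ * t) := by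
    have e1 : ∀ l, t * max (c l) 0 ≤ t * c l + θ * t := by
      intro l
      have h1 := hv l l
      rw [if_pos rfl] at h1
      have h2 : ⟪v l, v l⟫_ℂ = ((‖v l‖ ^ 2 : ℝ) : ℂ) := by
        rw [inner_self_eq_norm_sq_to_K]
        push_cast
        rfl
      rw [h2, ← Complex.ofReal_sub, Complex.norm_real, Real.norm_eq_abs, abs_le] at h1
      have h3 : 0 ≤ ‖v l‖ ^ 2 := by positivity
      have h5 : 0 ≤ θ * t := by positivity
      rcases le_total (c l) 0 with h4 | h4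
      · rw [max_eq_right h4, mul_zero]
        linarith [h1.2]
      · rw [max_eq_left h4]
        linarith
    calc t * ∑ l, max (c l) 0 = ∑ l, t * max (c l) 0 := by rw [Finset.mul_sum]
      _ ≤ ∑ l, (t * c l + θ * t) := Finset.sum_le_sum (fun l _ => e1 l)
      _ = t * ∑ l, c l + p * (θ * t) := by
          rw [Finset.sum_add_distrib, ← Finset.mul_sum, Finset.sum_const, Finset.card_univ,
            Fintype.card_fin, nsmul_eq_mul]
  have hεt : 0 ≤ ε * t := by positivity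
  have s7 : 2 + 4 * (1 / (3 * η)) ≤ 15 / η := by
    have h1 : 2 ≤ 2 / η := by
      rw [le_div_iff₀ hη]
      linarith
    have h2 : 15 / η - (2 / η + 4 * (1 / (3 * η))) = (35 / 3) / η := by
      field_simp
      ring
    have h3 : 0 ≤ (35 / 3) / η := by positivity
    linarith
  have s8 := mul_le_mul_of_nonneg_right s7 hεt
  have s9 := mul_le_mul_of_nonneg_left s6 (show (0:ℝ) ≤ 12 * η by positivity)
  have e : (12 * η * ∑ l, c l + 15 / η * ε + (8 * (p : ℝ) ^ 3 + 12 * η * p ^ 3 + 12 * η * p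
          + 2 * p * K) * θ) * t
      = 12 * η * (t * ∑ l, c l) + 15 / η * (ε * t) + (8 * (p : ℝ) ^ 3 * (θ * t)
        + 12 * η * (p ^ 3 * (θ * t)) + 12 * η * (p * (θ * t)) + 2 * (p * (θ * t * K))) := by
    ring
  rw [e]
  nlinarith [s3, s4, s8, s9]

end abs

end ERRaux

section fin

variable {A : Type u} [CStarAlgebra A] [PartialOrder A] [StarOrderedRing A]

/-- the positive functional of a tracial state -/
noncomputable def ERR_pl (T : TS A) : A →ₚ[ℂ] ℂ :=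
  PositiveLinearMap.mk₀ (T.1.f : A →ₗ[ℂ] ℂ) (by
    intro a ha
    obtain ⟨b, rfl⟩ := CStarAlgebra.nonneg_iff_eq_star_mul_self.mp ha
    have h := T.1.pos b
    rw [Complex.nonneg_iff]
    exact ⟨h.1, h.2.symm⟩)

theorem ERR_pl_apply (T : TS A) (a : A) : ERR_pl T a = T.1.f a := rfl

theorem ERR_inner (T : TS A) (a b : A) :
    ⟪(ERR_pl T).toPreGNS a, (ERR_pl T).toPreGNS b⟫_ℂ = T.1.f (star a * b) := rfl

theorem ERR_norm (T : TS A) (a : A) : ‖(ERR_pl T).toPreGNS a‖ ^ 2 = n2 T a := by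
  rw [PositiveLinearMap.preGNS_norm_def, Real.sq_sqrt]
  · rfl
  · exact (T.1.pos a).1

end fin

/-- ERR -/
theorem thm_ERR : StERR.{u} := by
  intro p σ η hσ hη hη1
  refine ⟨8 * (p : ℝ) ^ 3 + 12 * η * p ^ 3 + 12 * η * p
          + 2 * p * ((p : ℝ) * (1 + √(2 * p) / √σ)) ^ 2, by positivity, ?_⟩
  intro A _ _ _ T x v Y c t θ ε M w Es hw hw1 hw2 hY1 hY2 hc ht hθ _hθ1 hε hv hD hD'
  have key := ERRaux.AVG (E := (ERR_pl T).PreGNS) (fun k => (ERR_pl T).toPreGNS (v k))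
    (fun k => (ERR_pl T).toPreGNS (x * v k)) (fun k => (ERR_pl T).toPreGNS (star x * v k))
    Y c t θ ε σ η w Es hσ hη hη1 (fun s => ⟨(hw s).1, (hw s).2.2⟩) hw1 hw2 hY1 hY2 hc ht hθ hε
    (fun k l => by
      rw [ERR_inner]
      exact hv k l)
    (fun k l => by
      rw [ERR_inner, ERR_inner, star_mul, star_star, mul_assoc])
    (by
      refine le_trans (le_of_eq ?_) hD
      refine Finset.sum_congr rfl (fun l _ => ?_)
      rw [← ERR_norm, map_sub, map_sum]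
      simp only [map_smul])
    (by
      refine le_trans (le_of_eq ?_) hD'
      refine Finset.sum_congr rfl (fun l _ => ?_)
      rw [← ERR_norm, map_sub, map_sum]
      simp only [map_smul])
  refine le_trans (le_of_eq ?_) key
  refine Finset.sum_congr rfl (fun s _ => ?_)
  congr 1
  refine Finset.sum_congr rfl (fun l _ => ?_)
  rw [← ERR_norm, map_sub, map_sum]
  congr 3

end Pool.Agent.H667R5.TW
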