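import Pool.Agent.H667R5.TW.Stubs

/-!
# EXC: excision of a trace on finitely many elements by a partition of unity
-/

set_option autoImplicit false

namespace Pool.Agent.H667R5.TW

open Pool.Agent.H327R4.Pure
open scoped CStarAlgebra ComplexOrder Matrix

universe u v

namespace EXCaux

variable {A : Type u} [CStarAlgebra A] [PartialOrder A] [StarOrderedRing A]

omit [PartialOrder A] [StarOrderedRing A] in
theorem tr_sum (T : TS A) {ι : Type*} (s : Finset ι) (x : ι → A) :
    tr T (∑ i ∈ s, x i) = ∑ i ∈ s, tr T (x i) := by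
  unfold tr; rw [map_sum, Complex.re_sum]

omit [PartialOrder A] [StarOrderedRing A] in
theorem tr_one (T : TS A) : tr T (1 : A) = 1 := by
  unfold tr
  rw [T.2, Complex.one_re]

omit [PartialOrder A] [StarOrderedRing A] in
theorem tr_comm (T : TS A) (x y : A) : tr T (x * y) = tr T (y * x) := by
  unfold tr
  rw [T.1.tr]

/-- `∑ ‖f y f‖_2^2 ≤ ‖y‖_2^2` -/
theorem sum_conj (hB : StBAS.{u}) (T : TS A) {J : ℕ} (f : Fin J → A) (hf : ∀ m, 0 ≤ f m)
    (hff : ∑ m, f m * f m ≤ 1) (y : A) : ∑ m, n2 T (f m * y * f m) ≤ n2 T y := by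
  obtain ⟨-, -, -, -, -, -, b7, -, -⟩ := hB A T
  have hsa : ∀ m, star (f m) = f m := fun m => (IsSelfAdjoint.of_nonneg (hf m)).star_eq
  have hnn : ∀ m, 0 ≤ f m * f m := fun m => by
    have := star_mul_self_nonneg (f m)
    rwa [hsa] at this
  have hle : ∀ m, f m * f m ≤ 1 := fun m =>
    (Finset.single_le_sum (fun i _ => hnn i) (Finset.mem_univ m)).trans hff
  have h1 : ∀ m, n2 T (f m * y * f m) ≤ tr T (star y * y * (f m * f m)) := by
    intro m
    have e1 : star (f m * y * f m) * (f m * y * f m) =
        star (y * f m) * (f m * f m) * (y * f m) := by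
      simp only [star_mul, hsa, mul_assoc]
    have e2 : n2 T (f m * y * f m) = tr T (star (y * f m) * (f m * f m) * (y * f m)) := by
      show tr T (star (f m * y * f m) * (f m * y * f m)) = _
      rw [e1]
    rw [e2]
    refine (b7 _ _ (y * f m) (hle m)).trans (le_of_eq ?_)
    rw [mul_one, star_mul, hsa, mul_assoc, tr_comm]
    simp only [mul_assoc]
  calc ∑ m, n2 T (f m * y * f m) ≤ ∑ m, tr T (star y * y * (f m * f m)) :=
        Finset.sum_le_sum fun m _ => h1 m
    _ = tr T (star y * y * ∑ m, f m * f m) := by rw [Finset.mul_sum, tr_sum]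
    _ = tr T (star (star y) * (∑ m, f m * f m) * star y) := by
        rw [star_star, mul_assoc, mul_assoc, tr_comm, mul_assoc]
    _ ≤ tr T (star (star y) * 1 * star y) := b7 _ _ _ hff
    _ = n2 T y := by
        rw [star_star, mul_one, tr_comm]
        rfl

theorem sum_fin {M : Type*} [AddCommMonoid M] {K J : ℕ} (G : Fin K × Fin J → M) :
    ∑ n : Fin (K * J), G (finProdFinEquiv.symm n) = ∑ k, ∑ m, G (k, m) := by
  rw [Equiv.sum_comp finProdFinEquiv.symm G, Fintype.sum_prod_type]

end EXCaux

open EXCaux

theorem thm_EXC (hB : StBAS.{u}) (hREF : StREF.{u}) : StEXC.{u} := by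
  intro A _ _ _ T p
  induction p with
  | zero =>
    intro z η _ hη
    refine ⟨1, fun _ => 1, fun _ _ => 0, fun _ i => i.elim0, ?_, ?_, ?_, fun i => i.elim0⟩
    · simp
    · simp only [star_one, mul_one, Finset.univ_unique, Finset.sum_const, Finset.card_singleton,
        one_smul, tr_one]
      linarith
    · simp only [star_one, mul_one, Finset.univ_unique, Finset.sum_const, Finset.card_singleton,
        one_smul, tr_one]
      linarith
  | succ p ih =>
    intro z η hz hη
    obtain ⟨C, J, hC0, hR⟩ := hREF (η / 4) (by positivity)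
    set η' : ℝ := min (η / (4 * (1 + C))) (η / 2) with hη'
    have hη'0 : 0 < η' := lt_min (by positivity) (by positivity)
    have hη'1 : (1 + C) * η' ≤ η / 4 := by
      have h := min_le_left (η / (4 * (1 + C))) (η / 2)
      rw [← hη'] at h
      rw [le_div_iff₀ (by positivity)] at h
      linarith
    have hη'2 : η' ≤ η / 2 := min_le_right _ _
    obtain ⟨K, a, ρ, h1, h2, h3, h4, h5⟩ := ih (fun i => z i.castSucc) η' (fun i => hz _) hη'0
    obtain ⟨b1, -, -, b4, -, -, -, -, -⟩ := hB A T
    have hnn : ∀ k, 0 ≤ a k * star (a k) := fun k => mul_star_self_nonneg (a k)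
    have hak : ∀ k, ‖a k‖ ≤ 1 := by
      intro k
      have h6 : a k * star (a k) ≤ 1 :=
        (Finset.single_le_sum (fun i _ => hnn i) (Finset.mem_univ k)).trans h2
      have h7 := (CStarAlgebra.norm_le_one_iff_of_nonneg _ (hnn k)).2 h6
      rw [CStarRing.norm_self_mul_star] at h7
      nlinarith [norm_nonneg (a k)]
    have hq1 : ∑ k, tr T (star (a k) * a k) ≤ 1 := by
      calc ∑ k, tr T (star (a k) * a k) = ∑ k, tr T (a k * star (a k)) :=
            Finset.sum_congr rfl fun k _ => tr_comm T _ _
        _ = tr T (∑ k, a k * star (a k)) := (tr_sum T _ _).symm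
        _ ≤ tr T 1 := b1 _ _ h2
        _ = 1 := tr_one T
    choose f r hf hff htr hd hn using fun k =>
      hR A T (a k) (z (Fin.last p)) (hak k) (hz _).1 (hz _).2
    have hsa : ∀ k m, star (f k m) = f k m := fun k m =>
      (IsSelfAdjoint.of_nonneg (hf k m).1).star_eq
    -- the common error bound
    have hbound : ∑ k, (η / 4 * tr T (star (a k) * a k) +
        C * (tr T (star (a k) * a k) - tr T (star (a k) * a k * (star (a k) * a k)))) ≤
        η / 4 + C * η' := by
      rw [Finset.sum_add_distrib, ← Finset.mul_sum, ← Finset.mul_sum]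
      have e1 : η / 4 * ∑ k, tr T (star (a k) * a k) ≤ η / 4 * 1 :=
        mul_le_mul_of_nonneg_left hq1 (by positivity)
      have e2 := mul_le_mul_of_nonneg_left h4 hC0
      linarith
    refine ⟨K * J, fun n => a (finProdFinEquiv.symm n).1 *
        f (finProdFinEquiv.symm n).1 (finProdFinEquiv.symm n).2,
      fun n i => Fin.lastCases (motive := fun _ => ℝ)
        (r (finProdFinEquiv.symm n).1 (finProdFinEquiv.symm n).2)
        (fun i => ρ (finProdFinEquiv.symm n).1 i) i, ?_, ?_, ?_, ?_, ?_⟩
    · intro n i
      refine Fin.lastCases ?_ (fun i => ?_) i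
      · simp only [Fin.lastCases_last]
        exact (hf _ _).2.2
      · simp only [Fin.lastCases_castSucc]
        exact h1 _ _
    · have e1 := sum_fin (fun x : Fin K × Fin J => a x.1 * f x.1 x.2 * star (a x.1 * f x.1 x.2))
      rw [e1]
      refine le_trans (Finset.sum_le_sum fun k _ => ?_) h2
      have e2 : ∑ m, a k * f k m * star (a k * f k m) = a k * (∑ m, f k m * f k m) * star (a k) := by
        rw [Finset.mul_sum, Finset.sum_mul]
        refine Finset.sum_congr rfl fun m _ => ?_
        rw [star_mul, hsa]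
        simp only [mul_assoc]
      rw [e2]
      have e3 := star_right_conjugate_le_conjugate (hff k) (a k)
      rwa [mul_one] at e3
    · have e1 := sum_fin (fun x : Fin K × Fin J =>
        tr T (star (a x.1 * f x.1 x.2) * (a x.1 * f x.1 x.2)))
      rw [e1]
      have e2 : ∑ k, (tr T (star (a k) * a k) -
          ∑ m, tr T (star (a k * f k m) * (a k * f k m))) ≤ η / 4 + C * η' :=
        (Finset.sum_le_sum fun k _ => htr k).trans hbound
      rw [Finset.sum_sub_distrib] at e2
      linarith
    · have e1 := sum_fin (fun x : Fin K × Fin J =>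
        (tr T (star (a x.1 * f x.1 x.2) * (a x.1 * f x.1 x.2)) -
          tr T (star (a x.1 * f x.1 x.2) * (a x.1 * f x.1 x.2) *
            (star (a x.1 * f x.1 x.2) * (a x.1 * f x.1 x.2)))))
      rw [e1]
      have e2 := (Finset.sum_le_sum fun k (_ : k ∈ Finset.univ) => hd k).trans hbound
      linarith
    · intro i
      refine Fin.lastCases ?_ (fun i => ?_) i
      · simp only [Fin.lastCases_last]
        have e1 := sum_fin (fun x : Fin K × Fin J =>
          n2 T (star (a x.1 * f x.1 x.2) * z (Fin.last p) * (a x.1 * f x.1 x.2) -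
            r x.1 x.2 • (star (a x.1 * f x.1 x.2) * (a x.1 * f x.1 x.2))))
        rw [e1]
        have e2 := (Finset.sum_le_sum fun k (_ : k ∈ Finset.univ) => hn k).trans hbound
        linarith
      · simp only [Fin.lastCases_castSucc]
        have e1 := sum_fin (fun x : Fin K × Fin J =>
          n2 T (star (a x.1 * f x.1 x.2) * z i.castSucc * (a x.1 * f x.1 x.2) -
            ρ x.1 i • (star (a x.1 * f x.1 x.2) * (a x.1 * f x.1 x.2))))
        rw [e1]
        have e2 : ∀ k, ∑ m, n2 T (star (a k * f k m) * z i.castSucc * (a k * f k m) -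
            ρ k i • (star (a k * f k m) * (a k * f k m))) ≤
            n2 T (star (a k) * z i.castSucc * a k - ρ k i • (star (a k) * a k)) := by
          intro k
          refine le_trans (le_of_eq ?_) (sum_conj hB T (f k) (fun m => (hf k m).1) (hff k) _)
          refine Finset.sum_congr rfl fun m _ => ?_
          congr 1
          rw [star_mul, hsa]
          simp only [mul_sub, sub_mul, mul_assoc, smul_mul_assoc, mul_smul_comm]
        have e3 := (Finset.sum_le_sum fun k (_ : k ∈ Finset.univ) => e2 k).trans (h5 i)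
        linarith

end Pool.Agent.H667R5.TW
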