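import Pool.Agent.H667R5.TW.Stubs

set_option autoImplicit false

namespace Pool.Agent.H667R5.TW

open Pool.Agent.H327R4.Pure
open scoped CStarAlgebra ComplexOrder Matrix

universe u v

namespace FAMaux

section general

variable {A : Type u} [CStarAlgebra A] [PartialOrder A] [StarOrderedRing A]
variable {B : Type v} [CStarAlgebra B] [PartialOrder B] [StarOrderedRing B]

set_option backward.isDefEq.respectTransparency false in
/-- entries of a positive matrix -/
lemma exists_factor {n : ℕ} (M : CStarMatrix (Fin n) (Fin n) A) (hM : 0 ≤ M) :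
    ∃ C : Fin n → Fin n → A, ∀ i j, M i j = ∑ r, star (C r i) * C r j := by
  obtain ⟨C, hC⟩ := CStarAlgebra.nonneg_iff_eq_star_mul_self.1 hM
  refine ⟨fun r i => C r i, fun i j => ?_⟩
  rw [hC, CStarMatrix.mul_apply]
  rfl

lemma nonneg_of_factor {n : ℕ} (C : Fin n → Fin n → A) (M : CStarMatrix (Fin n) (Fin n) A)
    (h : ∀ i j, M i j = ∑ r, star (C r i) * C r j) : 0 ≤ M := by
  have h1 : M = star (CStarMatrix.ofMatrix (Matrix.of C)) * CStarMatrix.ofMatrix (Matrix.of C) := by
    ext i j
    rw [h, CStarMatrix.mul_apply]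
    rfl
  rw [h1]
  exact star_mul_self_nonneg _

omit [PartialOrder B] [StarOrderedRing B] in
lemma norm_one_le : ‖(1 : B)‖ ≤ 1 := by
  rcases subsingleton_or_nontrivial B with h | h
  · rw [Subsingleton.elim (1 : B) 0, norm_zero]
    exact zero_le_one
  · exact (CStarRing.norm_one).le

lemma two_pos (ψ : A →CP B) (hψ : ψ 1 ≤ 1) (x : A) :
    ψ (star x) = star (ψ x) ∧ ψ x * star (ψ x) ≤ ψ (x * star x) := by
  let C : Fin 2 → Fin 2 → A := fun r i => if r = 0 then (if i = 0 then star x else 1) else 0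
  let M : CStarMatrix (Fin 2) (Fin 2) A :=
    CStarMatrix.ofMatrix (Matrix.of fun i j => ∑ r, star (C r i) * C r j)
  have hM : 0 ≤ M := nonneg_of_factor C M (fun i j => rfl)
  have h2 := ψ.map_cstarMatrix_nonneg M hM
  obtain ⟨D, hD⟩ := exists_factor _ h2
  have m00 : M 0 0 = x * star x := by
    change ∑ r, star (C r 0) * C r 0 = _
    simp [C]
  have m01 : M 0 1 = x := by
    change ∑ r, star (C r 0) * C r 1 = _
    simp [C]
  have m10 : M 1 0 = star x := by
    change ∑ r, star (C r 1) * C r 0 = _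
    simp [C]
  have m11 : M 1 1 = 1 := by
    change ∑ r, star (C r 1) * C r 1 = _
    simp [C]
  have d00 : ψ (x * star x) = ∑ r, star (D r 0) * D r 0 := by rw [← m00]; exact hD 0 0
  have d01 : ψ x = ∑ r, star (D r 0) * D r 1 := by rw [← hD 0 1, CStarMatrix.map_apply, m01]
  have d10 : ψ (star x) = ∑ r, star (D r 1) * D r 0 := by rw [← m10]; exact hD 1 0
  have d11 : ψ 1 = ∑ r, star (D r 1) * D r 1 := by rw [← m11]; exact hD 1 1
  have hstar : ψ (star x) = star (ψ x) := by
    rw [d10, d01, star_sum]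
    simp
  refine ⟨hstar, ?_⟩
  set a := ψ x with ha
  have hpos : 0 ≤ ∑ r, (star (D r 0) - a * star (D r 1)) * star (star (D r 0) - a * star (D r 1)) :=
    Finset.sum_nonneg fun r _ => mul_star_self_nonneg _
  have hexp : ∑ r, (star (D r 0) - a * star (D r 1)) * star (star (D r 0) - a * star (D r 1)) =
      ψ (x * star x) - a * star a - a * star a + a * ψ 1 * star a := by
    have e1 : ∀ r, (star (D r 0) - a * star (D r 1)) * star (star (D r 0) - a * star (D r 1)) =
        star (D r 0) * D r 0 - star (D r 0) * D r 1 * star a - a * (star (D r 1) * D r 0) +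
          a * (star (D r 1) * D r 1) * star a := by
      intro r
      simp only [star_sub, star_mul, star_star]
      noncomm_ring
    simp only [e1, Finset.sum_add_distrib, Finset.sum_sub_distrib, ← Finset.sum_mul,
      ← Finset.mul_sum]
    rw [← d00, ← d01, ← d10, ← d11, hstar]
  rw [hexp] at hpos
  have h3 : a * ψ 1 * star a ≤ a * star a := by
    have := star_right_conjugate_le_conjugate hψ a
    rwa [mul_one] at this
  have h4 : 0 ≤ ψ (x * star x) - a * star a := by
    calc (0 : B) ≤ ψ (x * star x) - a * star a - a * star a + a * ψ 1 * star a := hpos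
      _ ≤ ψ (x * star x) - a * star a - a * star a + a * star a := by gcongr
      _ = _ := by abel
  exact sub_nonneg.1 h4

lemma mul_star_le_one (y : B) (hy : ‖y‖ ≤ 1) : y * star y ≤ 1 := by
  rw [← CStarAlgebra.norm_le_one_iff_of_nonneg _ (mul_star_self_nonneg y)]
  calc ‖y * star y‖ ≤ ‖y‖ * ‖star y‖ := norm_mul_le _ _
    _ = ‖y‖ * ‖y‖ := by rw [norm_star]
    _ ≤ 1 * 1 := mul_le_mul hy hy (norm_nonneg _) zero_le_one
    _ = 1 := one_mul 1

lemma map_one_le (φ : B →CP A) (hφ : ∀ y, ‖φ y‖ ≤ ‖y‖) : 0 ≤ φ 1 ∧ φ 1 ≤ 1 := by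
  have h0 : 0 ≤ φ 1 := by
    have h1 := OrderHomClass.mono φ (zero_le_one (α := B))
    rwa [map_zero] at h1
  refine ⟨h0, ?_⟩
  rw [← CStarAlgebra.norm_le_one_iff_of_nonneg _ h0]
  exact (hφ 1).trans norm_one_le

end general

section mat

variable {A : Type u} [CStarAlgebra A] [PartialOrder A] [StarOrderedRing A]

/-- the matrix unit -/
noncomputable def sg {k : ℕ} (i j : Fin k) : CStarMatrix (Fin k) (Fin k) ℂ :=
  CStarMatrix.ofMatrix (Matrix.single i j 1)

lemma star_sg {k : ℕ} (i j : Fin k) : star (sg i j) = sg j i := by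
  ext a b
  rw [CStarMatrix.star_apply]
  change star (Matrix.single i j (1 : ℂ) b a) = Matrix.single j i (1 : ℂ) a b
  simp only [Matrix.single_apply]
  by_cases h1 : i = b <;> by_cases h2 : j = a <;> simp [h1, h2]

lemma sg_mul_sg {k : ℕ} (i r j : Fin k) : sg i r * sg r j = sg i j := by
  ext a b
  change (Matrix.single i r (1 : ℂ) * Matrix.single r j (1 : ℂ) : Matrix (Fin k) (Fin k) ℂ) a b =
    Matrix.single i j (1 : ℂ) a b
  rw [Matrix.single_mul_single_same, one_mul]

lemma eq_sum_sg {k : ℕ} (y : CStarMatrix (Fin k) (Fin k) ℂ) :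
    y = ∑ i, ∑ j, y i j • sg i j := by
  ext a b
  change y a b = (∑ i, ∑ j, y i j • Matrix.single i j (1 : ℂ) : Matrix (Fin k) (Fin k) ℂ) a b
  simp [Matrix.sum_apply, Matrix.single_apply, ite_and]

lemma family {k : ℕ} (φ : CStarMatrix (Fin k) (Fin k) ℂ →CP A) :
    ∃ b : Fin k → Fin k → A, ∀ y : CStarMatrix (Fin k) (Fin k) ℂ,
      φ y = ∑ i, ∑ j, y i j • ∑ r, b r i * star (b r j) := by
  let M : CStarMatrix (Fin k) (Fin k) (CStarMatrix (Fin k) (Fin k) ℂ) :=
    CStarMatrix.ofMatrix (Matrix.of fun i j => sg i j)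
  have hM : 0 ≤ M := by
    apply nonneg_of_factor (fun r i => ((1 / Real.sqrt k : ℝ) : ℂ) • sg r i)
    intro i j
    change sg i j = _
    have hk : 0 < k := i.pos
    have e1 : ∀ r : Fin k, star (((1 / Real.sqrt k : ℝ) : ℂ) • sg r i) *
        (((1 / Real.sqrt k : ℝ) : ℂ) • sg r j) = ((1 / k : ℝ) : ℂ) • sg i j := by
      intro r
      rw [star_smul, star_sg, smul_mul_smul_comm, sg_mul_sg]
      congr 1
      have : (1 / Real.sqrt k) * (1 / Real.sqrt k) = 1 / (k : ℝ) := by
        rw [div_mul_div_comm, Real.mul_self_sqrt (by positivity), one_mul]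
      rw [← this]
      simp
    simp only [e1, Finset.sum_const, Finset.card_univ, Fintype.card_fin]
    rw [← Nat.cast_smul_eq_nsmul ℂ, smul_smul]
    have : (k : ℂ) ≠ 0 := by exact_mod_cast hk.ne'
    push_cast
    rw [mul_one_div_cancel this, one_smul]
  obtain ⟨C, hC⟩ := exists_factor _ (φ.map_cstarMatrix_nonneg M hM)
  refine ⟨fun r i => star (C r i), fun y => ?_⟩
  have h1 : ∀ i j, φ (sg i j) = ∑ r, star (C r i) * C r j := fun i j => hC i j
  conv_lhs => rw [eq_sum_sg y]
  rw [map_sum]
  refine Finset.sum_congr rfl fun i _ => ?_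
  rw [map_sum]
  refine Finset.sum_congr rfl fun j _ => ?_
  rw [map_smul, h1]
  simp only [star_star]

/-- the sum of the squares of the defects -/
lemma key {k : ℕ} (φ : CStarMatrix (Fin k) (Fin k) ℂ →CP A) (b : Fin k → Fin k → A)
    (hb : ∀ y : CStarMatrix (Fin k) (Fin k) ℂ, φ y = ∑ i, ∑ j, y i j • ∑ r, b r i * star (b r j))
    (z : A) (y : CStarMatrix (Fin k) (Fin k) ℂ) :
    ∑ r, ∑ i, (z * b r i - ∑ g, y g i • b r g) * star (z * b r i - ∑ g, y g i • b r g) =
      z * φ 1 * star z - z * φ (star y) - φ y * star z + φ (y * star y) := by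
  have e1 : ∀ r i, (z * b r i - ∑ g, y g i • b r g) * star (z * b r i - ∑ g, y g i • b r g) =
      z * (b r i * star (b r i)) * star z - z * (b r i * star (∑ g, y g i • b r g)) -
        (∑ g, y g i • b r g) * star (b r i) * star z +
        (∑ g, y g i • b r g) * star (∑ g, y g i • b r g) := by
    intro r i
    simp only [star_sub, star_mul]
    noncomm_ring
  simp only [e1, Finset.sum_add_distrib, Finset.sum_sub_distrib, ← Finset.sum_mul,
    ← Finset.mul_sum]
  have f1 : φ 1 = ∑ r, ∑ i, b r i * star (b r i) := by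
    rw [hb, Finset.sum_comm]
    conv_rhs => rw [Finset.sum_comm]
    rw [Finset.sum_comm]
    refine Finset.sum_congr rfl fun i _ => ?_
    rw [Finset.sum_eq_single i]
    · rw [CStarMatrix.one_apply_eq, one_smul]
    · intro j _ hj
      rw [CStarMatrix.one_apply_ne (Ne.symm hj), zero_smul]
    · intro h
      exact absurd (Finset.mem_univ i) h
  have f2 : φ (star y) = ∑ r, ∑ i, b r i * star (∑ g, y g i • b r g) := by
    rw [hb]
    simp only [star_sum, star_smul, Finset.mul_sum, mul_smul_comm, Finset.smul_sum,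
      CStarMatrix.star_apply]
    calc _ = ∑ i, ∑ r, ∑ j, star (y j i) • (b r i * star (b r j)) :=
          Finset.sum_congr rfl fun i _ => Finset.sum_comm
      _ = _ := Finset.sum_comm
  have f3 : φ y = ∑ r, ∑ i, (∑ g, y g i • b r g) * star (b r i) := by
    rw [hb]
    simp only [Finset.sum_mul, smul_mul_assoc, Finset.smul_sum]
    calc _ = ∑ i, ∑ r, ∑ j, y i j • (b r i * star (b r j)) :=
          Finset.sum_congr rfl fun i _ => Finset.sum_comm
      _ = ∑ r, ∑ i, ∑ j, y i j • (b r i * star (b r j)) := Finset.sum_comm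
      _ = _ := Finset.sum_congr rfl fun r _ => Finset.sum_comm
  have f4 : φ (y * star y) = ∑ r, ∑ i, (∑ g, y g i • b r g) * star (∑ g, y g i • b r g) := by
    rw [hb]
    simp only [CStarMatrix.mul_apply, CStarMatrix.star_apply, star_sum, star_smul,
      Finset.sum_mul, Finset.mul_sum, smul_mul_smul_comm, Finset.smul_sum, Finset.sum_smul]
    calc _ = ∑ g, ∑ r, ∑ j, ∑ i, (y g i * star (y j i)) • (b r g * star (b r j)) := ?_
      _ = ∑ r, ∑ g, ∑ j, ∑ i, (y g i * star (y j i)) • (b r g * star (b r j)) :=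
          Finset.sum_comm
      _ = _ := ?_
    · exact Finset.sum_congr rfl fun g _ => Finset.sum_comm
    · refine Finset.sum_congr rfl fun r _ => ?_
      calc _ = ∑ g, ∑ i, ∑ j, (y g i * star (y j i)) • (b r g * star (b r j)) :=
            Finset.sum_congr rfl fun g _ => Finset.sum_comm
        _ = ∑ i, ∑ g, ∑ j, (y g i * star (y j i)) • (b r g * star (b r j)) := Finset.sum_comm
        _ = _ := Finset.sum_congr rfl fun i _ => Finset.sum_comm
  rw [← f1, ← f2, ← f3, ← f4]

lemma kron_sub {k : ℕ} (M : Matrix (Fin k) (Fin k) ℂ) :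
    1 - Matrix.kroneckerMap (· * ·) (1 : Matrix (Fin k) (Fin k) ℂ) M =
      Matrix.kroneckerMap (· * ·) (1 : Matrix (Fin k) (Fin k) ℂ) (1 - M) := by
  have h := Matrix.kronecker_add (1 : Matrix (Fin k) (Fin k) ℂ) (1 - M) M
  rw [sub_add_cancel, Matrix.one_kronecker_one] at h
  exact sub_eq_of_eq_add h

/-- contractions give positive semidefinite defects -/
lemma posSemidef_of_norm {k : ℕ} (y : CStarMatrix (Fin k) (Fin k) ℂ) (hy : ‖y‖ ≤ 1) :
    (1 - (CStarMatrix.ofMatrix.symm y) * (CStarMatrix.ofMatrix.symm y)ᴴ).PosSemidef := by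
  have h1 : y * star y ≤ 1 := mul_star_le_one y hy
  obtain ⟨C, hC⟩ := exists_factor _ (sub_nonneg.2 h1)
  have h2 : (1 - (CStarMatrix.ofMatrix.symm y) * (CStarMatrix.ofMatrix.symm y)ᴴ) =
      (Matrix.of C)ᴴ * Matrix.of C := by
    ext i j
    have := hC i j
    rw [Matrix.mul_apply]
    exact this
  rw [h2]
  exact Matrix.posSemidef_conjTranspose_mul_self _

end mat

end FAMaux

open FAMaux in
theorem thm_FAM (hBAS : StBAS.{u}) : StFAM.{u} := by
  classical
  intro A _ _ _ hnuc X ε hX hε
  obtain ⟨k, ψ, φ, hψ, hφ, happ⟩ := hnuc (X ∪ X.image (fun x => x * star x) ∪ {1}) (ε / 10)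
    (by positivity)
  have hφ1 := map_one_le φ hφ
  have hψ1 := map_one_le ψ hψ
  obtain ⟨b, hb⟩ := family φ
  set e : Fin k × Fin k ≃ Fin (k * k) := finProdFinEquiv with he
  let b' : Fin (k * k) → A := fun a => b (e.symm a).1 (e.symm a).2
  let Y0 : A → Matrix (Fin k × Fin k) (Fin k × Fin k) ℂ := fun x =>
    Matrix.kroneckerMap (· * ·) (1 : Matrix (Fin k) (Fin k) ℂ) (CStarMatrix.ofMatrix.symm (ψ x))
  have hsum : ∑ a, b' a * star (b' a) = φ 1 := by
    have f1 : φ 1 = ∑ r, ∑ i, b r i * star (b r i) := by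
      rw [hb, Finset.sum_comm]
      conv_rhs => rw [Finset.sum_comm]
      rw [Finset.sum_comm]
      refine Finset.sum_congr rfl fun i _ => ?_
      rw [Finset.sum_eq_single i]
      · rw [CStarMatrix.one_apply_eq, one_smul]
      · intro j _ hj
        rw [CStarMatrix.one_apply_ne (Ne.symm hj), zero_smul]
      · intro h
        exact absurd (Finset.mem_univ i) h
    rw [f1, ← Fintype.sum_prod_type', ← e.symm.sum_comp]
  have hYe : ∀ x r i, ∑ g, Y0 x g (r, i) • b g.1 g.2 = ∑ g, (ψ x) g i • b r g := by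
    intro x r i
    rw [Fintype.sum_prod_type]
    rw [Finset.sum_eq_single r]
    · refine Finset.sum_congr rfl fun g _ => ?_
      simp [Y0, Matrix.kroneckerMap_apply]
    · intro r' _ hr
      refine Finset.sum_eq_zero fun g _ => ?_
      simp [Y0, Matrix.kroneckerMap_apply, Matrix.one_apply_ne hr]
    · intro h
      exact absurd (Finset.mem_univ r) h
  refine ⟨k * k, b', fun x => (Y0 x).submatrix e.symm e.symm, ?_, ?_, ?_⟩
  · rw [hsum]
    exact hφ1.2
  · intro x hx
    have hs := (two_pos ψ hψ1.2 x).1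
    have hY0s : Y0 (star x) = (Y0 x)ᴴ := by
      change Matrix.kroneckerMap (· * ·) (1 : Matrix (Fin k) (Fin k) ℂ)
        (CStarMatrix.ofMatrix.symm (ψ (star x))) = _
      rw [hs]
      have h1 := Matrix.conjTranspose_kronecker (1 : Matrix (Fin k) (Fin k) ℂ)
        (CStarMatrix.ofMatrix.symm (ψ x))
      rw [Matrix.conjTranspose_one] at h1
      exact h1.symm
    constructor
    · change (Y0 (star x)).submatrix e.symm e.symm = ((Y0 x).submatrix e.symm e.symm)ᴴ
      rw [hY0s, Matrix.conjTranspose_submatrix]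
    · have h1 : (1 : Matrix (Fin (k * k)) (Fin (k * k)) ℂ) -
          (Y0 x).submatrix e.symm e.symm * ((Y0 x).submatrix e.symm e.symm)ᴴ =
          (1 - Y0 x * (Y0 x)ᴴ).submatrix e.symm e.symm := by
        rw [Matrix.conjTranspose_submatrix, Matrix.submatrix_mul_equiv, Matrix.submatrix_sub]
        simp
      have h2 : 1 - Y0 x * (Y0 x)ᴴ = Matrix.kroneckerMap (· * ·)
          (1 : Matrix (Fin k) (Fin k) ℂ) (1 - (CStarMatrix.ofMatrix.symm (ψ x)) *
            (CStarMatrix.ofMatrix.symm (ψ x))ᴴ) := by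
        have h3 : (Y0 x)ᴴ = Matrix.kroneckerMap (· * ·) (1 : Matrix (Fin k) (Fin k) ℂ)
            (CStarMatrix.ofMatrix.symm (ψ x))ᴴ := by
          have h1 := Matrix.conjTranspose_kronecker (1 : Matrix (Fin k) (Fin k) ℂ)
            (CStarMatrix.ofMatrix.symm (ψ x))
          rw [Matrix.conjTranspose_one] at h1
          exact h1
        rw [h3]
        change 1 - Matrix.kroneckerMap (· * ·) (1 : Matrix (Fin k) (Fin k) ℂ)
          (CStarMatrix.ofMatrix.symm (ψ x)) * _ = _
        rw [← Matrix.mul_kronecker_mul, one_mul, kron_sub]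
      change ((1 : Matrix (Fin (k * k)) (Fin (k * k)) ℂ) -
          (Y0 x).submatrix e.symm e.symm * ((Y0 x).submatrix e.symm e.symm)ᴴ).PosSemidef
      rw [h1, h2]
      refine Matrix.PosSemidef.submatrix ?_ _
      exact Matrix.PosSemidef.kronecker Matrix.PosSemidef.one
        (posSemidef_of_norm (ψ x) ((hψ x).trans (hX x hx).1))
  · intro T
    obtain ⟨bmono, bcs, bmul, bst, btri, bpos, bconj, bstar, bsa⟩ := hBAS A T
    constructor
    · rw [hsum]
      have h1 : tr T (φ (ψ 1)) ≤ tr T (φ 1) := bmono _ _ (OrderHomClass.mono φ hψ1.2)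
      have h2 : ‖T.1.f (φ (ψ 1) - 1)‖ ≤ ε / 10 :=
        ((bst _).2.2.2).trans (happ 1 (by simp))
      have h3 : tr T (φ (ψ 1)) - 1 = (T.1.f (φ (ψ 1) - 1)).re := by
        rw [map_sub, T.2]
        simp [tr]
      have h4 := (abs_le.1 ((Complex.abs_re_le_norm _).trans h2)).1
      rw [← h3] at h4
      linarith
    · intro x hx
      have hxn := (hX x hx).1
      have hin : ∀ a, x * b' a - ∑ g, (Y0 x).submatrix e.symm e.symm g a • b' g =
          x * b (e.symm a).1 (e.symm a).2 - ∑ g, (ψ x) g (e.symm a).2 • b (e.symm a).1 g := by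
        intro a
        rw [← hYe x (e.symm a).1 (e.symm a).2]
        congr 1
        exact e.symm.sum_comp (fun g => Y0 x g (e.symm a) • b g.1 g.2)
      have hn2 : ∀ w : A, n2 T w = tr T (w * star w) := by
        intro w
        unfold n2 tr
        rw [T.1.tr]
      have h1 : ∑ a, n2 T (x * b' a - ∑ g, (Y0 x).submatrix e.symm e.symm g a • b' g) =
          tr T (x * φ 1 * star x - x * φ (star (ψ x)) - φ (ψ x) * star x +
            φ (ψ x * star (ψ x))) := by
        rw [← key φ b hb x (ψ x)]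
        unfold tr
        rw [map_sum, Complex.re_sum]
        simp only [hin, hn2]
        rw [e.symm.sum_comp (fun a : Fin k × Fin k => tr T ((x * b a.1 a.2 -
          ∑ g, (ψ x) g a.2 • b a.1 g) * star (x * b a.1 a.2 - ∑ g, (ψ x) g a.2 • b a.1 g))),
          Fintype.sum_prod_type]
        refine Finset.sum_congr rfl fun r _ => ?_
        rw [map_sum, Complex.re_sum]
        rfl
      change ∑ a, n2 T (x * b' a - ∑ g, (Y0 x).submatrix e.symm e.symm g a • b' g) ≤ ε
      rw [h1]
      have hs := two_pos ψ hψ1.2 x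
      have h2 : x * φ 1 * star x - x * φ (star (ψ x)) - φ (ψ x) * star x + φ (ψ x * star (ψ x)) ≤
          x * (star x - φ (ψ (star x))) + (x - φ (ψ x)) * star x +
            (φ (ψ (x * star x)) - x * star x) := by
        have g1 : x * φ 1 * star x ≤ x * star x := by
          have := star_right_conjugate_le_conjugate hφ1.2 x
          rwa [mul_one] at this
        have g2 : φ (ψ x * star (ψ x)) ≤ φ (ψ (x * star x)) := OrderHomClass.mono φ hs.2
        calc x * φ 1 * star x - x * φ (star (ψ x)) - φ (ψ x) * star x + φ (ψ x * star (ψ x))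
            ≤ x * star x - x * φ (star (ψ x)) - φ (ψ x) * star x + φ (ψ (x * star x)) := by
              gcongr
          _ = _ := by
              rw [hs.1]
              noncomm_ring
      refine (bmono _ _ h2).trans ?_
      have hx1 : ‖φ (ψ x) - x‖ ≤ ε / 10 := happ x (by simp [hx])
      have hx2 : ‖φ (ψ (star x)) - star x‖ ≤ ε / 10 := happ _ (by simp [(hX x hx).2])
      have hx3 : ‖φ (ψ (x * star x)) - x * star x‖ ≤ ε / 10 := by
        apply happ
        simp only [Finset.mem_union, Finset.mem_image, Finset.mem_singleton]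
        exact Or.inl (Or.inr ⟨x, hx, rfl⟩)
      have h3 : ‖x * (star x - φ (ψ (star x))) + (x - φ (ψ x)) * star x +
            (φ (ψ (x * star x)) - x * star x)‖ ≤ 3 * (ε / 10) := by
        have n1 : ‖x * (star x - φ (ψ (star x)))‖ ≤ ε / 10 := by
          refine (norm_mul_le _ _).trans ?_
          rw [norm_sub_rev]
          calc ‖x‖ * ‖φ (ψ (star x)) - star x‖ ≤ 1 * (ε / 10) :=
                mul_le_mul hxn hx2 (norm_nonneg _) zero_le_one
            _ = ε / 10 := one_mul _
        have n2 : ‖(x - φ (ψ x)) * star x‖ ≤ ε / 10 := by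
          refine (norm_mul_le _ _).trans ?_
          rw [norm_sub_rev, norm_star]
          calc ‖φ (ψ x) - x‖ * ‖x‖ ≤ (ε / 10) * 1 :=
                mul_le_mul hx1 hxn (norm_nonneg _) (by positivity)
            _ = ε / 10 := mul_one _
        have := norm_add₃_le (a := x * (star x - φ (ψ (star x)))) (b := (x - φ (ψ x)) * star x)
          (c := φ (ψ (x * star x)) - x * star x)
        linarith
      have h4 := (Complex.re_le_norm (T.1.f (x * (star x - φ (ψ (star x))) +
        (x - φ (ψ x)) * star x + (φ (ψ (x * star x)) - x * star x)))).trans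
        (((bst _).2.2.2).trans h3)
      unfold tr
      linarith

end Pool.Agent.H667R5.TW
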