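import Pool.Agent.H667R5.TW.Stubs

/-!
# GN: norm of an almost orthogonal sum
-/

set_option autoImplicit false

namespace Pool.Agent.H667R5.TW

open Pool.Agent.H327R4.Pure
open scoped CStarAlgebra ComplexOrder Matrix

universe u v

/-- StGN with the necessary hypothesis `0 ≤ ρ` -/
def StGN' : Prop := ∀ (A : Type u) [CStarAlgebra A] [PartialOrder A] [StarOrderedRing A] (m : ℕ)
  (b : Fin m → A) (e : Fin m → A) (E : Fin m → Fin m → A) (ρ : ℝ), 0 ≤ ρ →
    (∀ a, 0 ≤ e a ∧ e a ≤ 1) →
    (∀ a a', star (b a) * b a' = (if a = a' then e a else 0) + E a a') →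
    (∀ a, ∑ a', ‖E a a'‖ ≤ ρ) → ∑ a, b a * star (b a) ≤ (1 + ρ) • 1

section

variable {A : Type u} [CStarAlgebra A] [PartialOrder A] [StarOrderedRing A]

theorem GN_pair (x y E : A) : x * E * star y + y * star E * star x ≤
    ‖E‖ • (x * star x + y * star y) := by
  rcases eq_or_ne E 0 with rfl | hE
  · simp
  have ht : 0 < ‖E‖ := norm_pos_iff.2 hE
  set t : ℝ := ‖E‖ with htdef
  have h1 : 0 ≤ (x * E - t • y) * star (x * E - t • y) := mul_star_self_nonneg _
  have h2 : (x * E - t • y) * star (x * E - t • y) =
      x * (E * star E) * star x - t • (x * E * star y + y * star E * star x) +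
        (t * t) • (y * star y) := by
    simp only [star_sub, star_mul, star_smul, star_trivial, sub_mul, mul_sub, smul_mul_assoc,
      mul_smul_comm, smul_add, smul_sub, mul_assoc, smul_smul]
    abel
  have h3 : E * star E ≤ algebraMap ℝ A (t ^ 2) := CStarAlgebra.mul_star_le_algebraMap_norm_sq
  have h4 : x * (E * star E) * star x ≤ (t * t) • (x * star x) := by
    have := star_right_conjugate_le_conjugate h3 x
    refine this.trans (le_of_eq ?_)
    rw [Algebra.algebraMap_eq_smul_one, mul_smul_comm, mul_one, smul_mul_assoc, pow_two]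
  rw [h2] at h1
  have h5 : t • (x * E * star y + y * star E * star x) ≤
      (t * t) • (x * star x + y * star y) := by
    rw [smul_add (t * t)]
    have h6 : 0 ≤ (t * t) • (x * star x) - t • (x * E * star y + y * star E * star x) +
        (t * t) • (y * star y) := h1.trans (by gcongr)
    have h7 : (t * t) • (x * star x) - t • (x * E * star y + y * star E * star x) +
        (t * t) • (y * star y) = ((t * t) • (x * star x) + (t * t) • (y * star y)) -
          t • (x * E * star y + y * star E * star x) := by abel
    rw [h7] at h6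
    exact sub_nonneg.1 h6
  have h8 := smul_le_smul_of_nonneg_left h5 (inv_nonneg.2 ht.le)
  rw [smul_smul, smul_smul, inv_mul_cancel₀ ht.ne', one_smul, ← mul_assoc,
    inv_mul_cancel₀ ht.ne', one_mul] at h8
  exact h8

theorem GN_sq {G : A} {c : ℝ} (hc : 0 ≤ c) (hG : 0 ≤ G) (h : G * G ≤ c • G) : G ≤ c • 1 := by
  have hsa : IsSelfAdjoint G := IsSelfAdjoint.of_nonneg hG
  have h1 : ‖G‖ * ‖G‖ ≤ c * ‖G‖ := by
    have h2 : ‖G * G‖ ≤ ‖c • G‖ := by
      refine CStarAlgebra.norm_le_norm_of_nonneg_of_le ?_ h
      have := star_mul_self_nonneg G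
      rwa [hsa.star_eq] at this
    have h3 : ‖G * G‖ = ‖G‖ * ‖G‖ := by
      have := CStarRing.norm_star_mul_self (x := G)
      rwa [hsa.star_eq] at this
    rw [h3, norm_smul, Real.norm_of_nonneg hc] at h2
    exact h2
  have h4 : ‖G‖ ≤ c := by
    rcases (norm_nonneg G).eq_or_lt with h0 | h0
    · rw [← h0]; exact hc
    · exact le_of_mul_le_mul_right h1 h0
  have h5 : G ≤ algebraMap ℝ A ‖G‖ := hsa.le_algebraMap_norm_self
  refine h5.trans ?_
  rw [← Algebra.algebraMap_eq_smul_one]
  exact algebraMap_mono A h4

end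

theorem thm_GN : StGN'.{u} := by
  intro A _ _ _ m b e E ρ hρ he hb hE
  set G : A := ∑ a, b a * star (b a) with hGdef
  have hG0 : 0 ≤ G := Finset.sum_nonneg fun a _ => mul_star_self_nonneg _
  have hEs : ∀ a a', star (E a a') = E a' a := by
    intro a a'
    have h1 := congrArg star (hb a a')
    rw [star_mul, star_star, hb a' a, star_add] at h1
    have h2 : (if a' = a then e a' else 0) = star (if a = a' then e a else 0) := by
      by_cases h : a = a'
      · subst h
        simp [(IsSelfAdjoint.of_nonneg (he a).1).star_eq]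
      · simp [h, Ne.symm h]
    rw [h2] at h1
    exact (add_left_cancel h1).symm
  have hGG : G * G = ∑ a, b a * e a * star (b a) + ∑ a, ∑ a', b a * E a a' * star (b a') := by
    rw [hGdef, Finset.sum_mul_sum, ← Finset.sum_add_distrib]
    refine Finset.sum_congr rfl fun a _ => ?_
    have h1 : ∀ a', b a * star (b a) * (b a' * star (b a')) =
        b a * (if a = a' then e a else 0) * star (b a') + b a * E a a' * star (b a') := by
      intro a'
      have : b a * star (b a) * (b a' * star (b a')) = b a * (star (b a) * b a') * star (b a') := by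
        simp only [mul_assoc]
      rw [this, hb, mul_add, add_mul]
    rw [Finset.sum_congr rfl fun a' _ => h1 a', Finset.sum_add_distrib]
    congr 1
    rw [Finset.sum_eq_single a]
    · simp
    · intro a' _ hne
      simp [Ne.symm hne]
    · intro h
      exact absurd (Finset.mem_univ a) h
  set S : A := ∑ a, ∑ a', b a * E a a' * star (b a') with hS
  have hSS : S + S ≤ (ρ + ρ) • G := by
    have h1 : S + S = ∑ a, ∑ a', (b a * E a a' * star (b a') + b a' * star (E a a') * star (b a)) := by
      simp only [Finset.sum_add_distrib]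
      rw [hS]
      congr 1
      rw [Finset.sum_comm]
      refine Finset.sum_congr rfl fun a _ => Finset.sum_congr rfl fun a' _ => ?_
      rw [hEs]
    have h2 : S + S ≤ ∑ a, ∑ a', ‖E a a'‖ • (b a * star (b a) + b a' * star (b a')) := by
      rw [h1]
      exact Finset.sum_le_sum fun a _ => Finset.sum_le_sum fun a' _ => GN_pair _ _ _
    refine h2.trans ?_
    simp only [smul_add, Finset.sum_add_distrib]
    rw [add_smul]
    have h3 : ∑ a, ∑ a', ‖E a a'‖ • (b a * star (b a)) ≤ ρ • G := by
      rw [hGdef, Finset.smul_sum]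
      refine Finset.sum_le_sum fun a _ => ?_
      rw [← Finset.sum_smul]
      exact smul_le_smul_of_nonneg_right (hE a) (mul_star_self_nonneg _)
    have h4 : ∑ a, ∑ a', ‖E a a'‖ • (b a' * star (b a')) ≤ ρ • G := by
      rw [Finset.sum_comm]
      refine le_trans (le_of_eq ?_) h3
      refine Finset.sum_congr rfl fun a _ => Finset.sum_congr rfl fun a' _ => ?_
      rw [← hEs a a', norm_star]
    exact add_le_add h3 h4
  have hS1 : S ≤ ρ • G := by
    have h1 := smul_le_smul_of_nonneg_left hSS (show (0:ℝ) ≤ 1 / 2 by norm_num)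
    rw [smul_add, ← add_smul, smul_smul] at h1
    norm_num at h1
    have h2 : (1 / 2 * (ρ + ρ)) = ρ := by ring
    rw [h2] at h1
    exact h1
  have hd : ∑ a, b a * e a * star (b a) ≤ G := by
    refine Finset.sum_le_sum fun a _ => ?_
    have := star_right_conjugate_le_conjugate (he a).2 (b a)
    rwa [mul_one] at this
  refine GN_sq (by linarith) hG0 ?_
  rw [hGG, add_smul, one_smul]
  exact add_le_add hd hS1

end Pool.Agent.H667R5.TW
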