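import Pool.Agent.H667R5.TW.Stubs

set_option autoImplicit false
set_option linter.unusedSectionVars false

namespace Pool.Agent.H667R5.TW

open Pool.Agent.H327R4.Pure
open scoped CStarAlgebra ComplexOrder Matrix ComplexStarModule

universe u v

namespace HTaux

section

variable {A : Type u} [CStarAlgebra A] [PartialOrder A] [StarOrderedRing A]

lemma tr_add (T : TS A) (x y : A) : tr T (x + y) = tr T x + tr T y := by
  unfold tr; rw [map_add, Complex.add_re]

lemma tr_sub (T : TS A) (x y : A) : tr T (x - y) = tr T x - tr T y := by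
  unfold tr; rw [map_sub, Complex.sub_re]

lemma tr_sum (T : TS A) {ι : Type*} (s : Finset ι) (f : ι → A) :
    tr T (∑ i ∈ s, f i) = ∑ i ∈ s, tr T (f i) := by
  unfold tr; rw [map_sum, Complex.re_sum]

lemma tr_one (T : TS A) : tr T 1 = 1 := by
  unfold tr; rw [T.2, Complex.one_re]

lemma tr_comm (T : TS A) (x y : A) : tr T (x * y) = tr T (y * x) := by
  unfold tr; rw [T.1.tr]

lemma n2_def (T : TS A) (x : A) : n2 T x = tr T (star x * x) := rfl

lemma n2_def' (T : TS A) (x : A) : n2 T x = tr T (x * star x) := by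
  rw [n2_def, tr_comm]

lemma n2_smul (T : TS A) (c : ℂ) (x : A) : n2 T (c • x) = ‖c‖ ^ 2 * n2 T x := by
  unfold n2
  have h : star (c • x) * (c • x) = (star c * c) • (star x * x) := by
    rw [star_smul, smul_mul_smul_comm]
  have h2 : star c * c = (((‖c‖ ^ 2 : ℝ)) : ℂ) := by
    rw [Complex.star_def, ← Complex.normSq_eq_conj_mul_self, Complex.normSq_eq_norm_sq]
  rw [h, h2, map_smul, smul_eq_mul, Complex.re_ofReal_mul]

lemma n2_add (hB : StBAS.{u}) (T : TS A) (x y : A) :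
    n2 T (x + y) ≤ 2 * n2 T x + 2 * n2 T y := by
  obtain ⟨-, -, -, h4, h5, -⟩ := hB A T
  have h := h5 x y
  have a0 := (h4 x).2.1
  have b0 := (h4 y).2.1
  have c0 := (h4 (x + y)).2.1
  have ha := Real.sq_sqrt a0
  have hb := Real.sq_sqrt b0
  have hc := Real.sq_sqrt c0
  have h1 : √(n2 T (x + y)) ^ 2 ≤ (√(n2 T x) + √(n2 T y)) ^ 2 :=
    pow_le_pow_left₀ (Real.sqrt_nonneg _) h 2
  nlinarith [sq_nonneg (√(n2 T x) - √(n2 T y))]

/-- half sums -/
lemma n2_half (hB : StBAS.{u}) (T : TS A) (x y : A) :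
    n2 T ((1 / 2 : ℂ) • x + (1 / 2 : ℂ) • y) ≤ (n2 T x + n2 T y) / 2 := by
  refine (n2_add hB T _ _).trans ?_
  rw [n2_smul, n2_smul]
  have : ‖(1 / 2 : ℂ)‖ = 1 / 2 := by norm_num
  rw [this]
  apply le_of_eq; ring

lemma sum_conj_le (hB : StBAS.{u}) (T : TS A) {K : ℕ} (a : Fin K → A)
    (ha : ∑ k, a k * star (a k) ≤ 1) (y : A) : ∑ k, n2 T (y * a k) ≤ n2 T y := by
  obtain ⟨-, -, -, h4, -, -, h7, -, -⟩ := hB A T
  have e : ∑ k, n2 T (y * a k) = tr T (star (star y) * (∑ k, a k * star (a k)) * star y) := by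
    rw [star_star, Finset.mul_sum, Finset.sum_mul, tr_sum]
    refine Finset.sum_congr rfl fun k _ => ?_
    rw [n2_def', star_mul]
    congr 1
    simp only [mul_assoc]
  rw [e]
  refine (h7 _ _ (star y) ha).trans (le_of_eq ?_)
  rw [mul_one, star_star, ← n2_def']

lemma conj_tr_le (hB : StBAS.{u}) (T : TS A) (b D : A) (hD : 0 ≤ D) (hb : ‖b‖ ≤ 1) :
    tr T (b * D * star b) ≤ tr T D := by
  obtain ⟨-, -, h3, h4, -⟩ := hB A T
  obtain ⟨s, rfl⟩ := CStarAlgebra.nonneg_iff_eq_star_mul_self.mp hD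
  have e : b * (star s * s) * star b = star (s * star b) * (s * star b) := by
    rw [star_mul, star_star]; simp only [mul_assoc]
  rw [e]
  change n2 T (s * star b) ≤ n2 T s
  refine ((h3 s (star b)).2).trans ?_
  rw [norm_star]
  have h0 := (h4 s).2.1
  have h1 : ‖b‖ ^ 2 ≤ 1 := by
    have := norm_nonneg b
    nlinarith
  nlinarith

lemma norm_le_one_of_sum {ι : Type*} (s : Finset ι) (a : ι → A) (h : ∑ k ∈ s, a k * star (a k) ≤ 1)
    (k : ι) (hk : k ∈ s) : ‖a k‖ ≤ 1 := by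
  have h1 : a k * star (a k) ≤ 1 := by
    refine le_trans ?_ h
    exact Finset.single_le_sum (f := fun k => a k * star (a k))
      (fun i _ => mul_star_self_nonneg (a i)) hk
  have h2 : ‖a k * star (a k)‖ ≤ 1 := by
    rcases subsingleton_or_nontrivial A with hs | hn
    · rw [Subsingleton.elim (a k * star (a k)) 0, norm_zero]; exact zero_le_one
    · have := CStarAlgebra.norm_le_norm_of_nonneg_of_le (mul_star_self_nonneg (a k)) h1
      rwa [CStarRing.norm_one] at this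
  rw [CStarRing.norm_self_mul_star] at h2
  by_contra hc
  push Not at hc
  nlinarith

/-- `tr q - tr q² ≥ 0` for `q = a* a`, `‖a‖ ≤ 1` -/
lemma qq_nonneg (hB : StBAS.{u}) (T : TS A) (a : A) (ha : ‖a‖ ≤ 1) :
    0 ≤ tr T (star a * a) - tr T (star a * a * (star a * a)) := by
  obtain ⟨-, -, h3, h4, -⟩ := hB A T
  have e : tr T (star a * a * (star a * a)) = n2 T (star a * a) := by
    rw [n2_def, star_mul, star_star]
  rw [e]
  have h := (h3 (star a) a).1
  rw [norm_star] at h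
  have h0 := (h4 a).2.1
  have h1 : ‖a‖ ^ 2 ≤ 1 := by
    have := norm_nonneg a
    nlinarith
  have h2 : n2 T a = tr T (star a * a) := rfl
  rw [← h2]
  nlinarith

/-- the error of the symmetrised matrix -/
lemma err_sym (hB : StBAS.{u}) (T : TS A) (a y : A) (r r' s s' : ℝ) :
    n2 T (star a * y * a -
      (((((r + r') / 2 : ℝ)) : ℂ) + Complex.I * (((s - s') / 2 : ℝ))) • (star a * a)) ≤
      n2 T (star a * (ℜ y : A) * a - r • (star a * a)) +
      n2 T (star a * (ℜ (star y) : A) * a - r' • (star a * a)) +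
      n2 T (star a * (ℑ y : A) * a - s • (star a * a)) +
      n2 T (star a * (ℑ (star y) : A) * a - s' • (star a * a)) := by
  have hre : (ℜ (star y) : A) = (ℜ y : A) := by
    rw [realPart_apply_coe, realPart_apply_coe, star_star, add_comm]
  have him : (ℑ (star y) : A) = -(ℑ y : A) := by
    rw [imaginaryPart_apply_coe, imaginaryPart_apply_coe, star_star, ← smul_neg, ← smul_neg,
      neg_sub]
  have hy : (ℜ y : A) + Complex.I • (ℑ y : A) = y := realPart_add_I_smul_imaginaryPart y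
  set R : A := (ℜ y : A) with hR
  set J : A := (ℑ y : A) with hJ
  rw [hre, him]
  set q : A := star a * a with hq
  have e : star a * y * a -
      (((((r + r') / 2 : ℝ)) : ℂ) + Complex.I * (((s - s') / 2 : ℝ))) • q =
      ((1 / 2 : ℂ) • (star a * R * a - r • q) + (1 / 2 : ℂ) • (star a * R * a - r' • q)) +
      Complex.I • ((1 / 2 : ℂ) • (star a * J * a - s • q) +
        (1 / 2 : ℂ) • (-(star a * -J * a - s' • q))) := by
    rw [← hy]
    have f1 : (r : ℝ) • q = (r : ℂ) • q := (Complex.coe_smul r q).symm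
    have f2 : (r' : ℝ) • q = (r' : ℂ) • q := (Complex.coe_smul r' q).symm
    have f3 : (s : ℝ) • q = (s : ℂ) • q := (Complex.coe_smul s q).symm
    have f4 : (s' : ℝ) • q = (s' : ℂ) • q := (Complex.coe_smul s' q).symm
    rw [f1, f2, f3, f4, mul_add, add_mul, mul_smul_comm, smul_mul_assoc, mul_neg, neg_mul]
    push_cast
    module
  rw [e]
  refine (n2_add hB T _ _).trans ?_
  rw [n2_smul, Complex.norm_I]
  have h1 := n2_half hB T (star a * R * a - r • q) (star a * R * a - r' • q)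
  have h2 := n2_half hB T (star a * J * a - s • q) (-(star a * -J * a - s' • q))
  have h3 : n2 T (-(star a * -J * a - s' • q)) = n2 T (star a * -J * a - s' • q) := by
    unfold n2; rw [star_neg, neg_mul_neg]
  rw [h3] at h2
  linarith

end

/-- one piece -/
lemma piece (hBAS : StBAS.{u}) (A : Type u) [CStarAlgebra A] [PartialOrder A] [StarOrderedRing A]
    (p : ℕ) (X : Finset A) (W σ η C : ℝ)
    (hC : ∀ (T : TS A) (b : Fin p → A)
    (Y : A → Matrix (Fin p) (Fin p) ℂ) (a : A) (c : Matrix (Fin p) (Fin p) ℂ) (θ ε t : ℝ),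
    ∑ g, b g * star (b g) ≤ 1 →
    (∀ x ∈ X, Y (star x) = (Y x)ᴴ ∧ (1 - Y x * (Y x)ᴴ).PosSemidef) → ‖a‖ ≤ 1 →
    c.IsHermitian → (∀ g h, ‖c g h‖ ≤ 2) → 0 ≤ θ → 0 ≤ ε → t = tr T (star a * a) →
    (∀ g h, n2 T (star a * (star (b g) * b h) * a - c g h • (star a * a)) ≤ θ * t) →
    t - tr T (star a * a * (star a * a)) ≤ θ * t →
    (∀ x ∈ X, ∑ g, n2 T ((x * b g - ∑ h, Y x h g • b h) * a) ≤ ε * t) →
    ∃ (M : ℕ) (w : Fin M → ℝ) (β : Fin M → Blk A), (∀ s, 0 ≤ w s ∧ (β s).Valid X) ∧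
      ∑ s, w s • (β s).amp 1 ≤ ∑ g, b g * (a * star a) * star (b g) ∧
      ((1 - 12 * W * X.card * η) * c.trace.re - p * σ - W * X.card * (15 / η) * ε - C * √θ) * t ≤
        ∑ s, w s * (β s).mass W X T)
    (T : TS A) (b : Fin p → A) (Y : A → Matrix (Fin p) (Fin p) ℂ)
    (hb : ∑ g, b g * star (b g) ≤ 1)
    (hY : ∀ x ∈ X, Y (star x) = (Y x)ᴴ ∧ (1 - Y x * (Y x)ᴴ).PosSemidef)
    (a : A) (ha : ‖a‖ ≤ 1) (c : Matrix (Fin p) (Fin p) ℂ) (hc : c.IsHermitian)
    (hc2 : ∀ g h, ‖c g h‖ ≤ 2) (t S Z : ℝ) (ht : t = tr T (star a * a))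
    (hW : 1 ≤ W) (hη : 0 < η) (hS0 : 0 ≤ S) (hZ0 : 0 ≤ Z)
    (hE : ∀ g h, n2 T (star a * (star (b g) * b h) * a - c g h • (star a * a)) ≤ S)
    (hq : t - tr T (star a * a * (star a * a)) ≤ S)
    (hZ : ∀ x ∈ X, ∑ g, n2 T ((x * b g - ∑ h, Y x h g • b h) * a) ≤ Z) :
    ∃ (M : ℕ) (w : Fin M → ℝ) (β : Fin M → Blk A), (∀ s, 0 ≤ w s ∧ (β s).Valid X) ∧
      ∑ s, w s • (β s).amp 1 ≤ ∑ g, b g * (a * star a) * star (b g) ∧
      (1 - 12 * W * X.card * η) * (c.trace.re * t) - p * σ * t - W * X.card * (15 / η) * Z -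
        C * √(S * t) ≤ ∑ s, w s * (β s).mass W X T := by
  have ht0 : 0 ≤ t := by rw [ht]; exact ((hBAS A T).2.2.2.1 a).2.1
  rcases ht0.eq_or_lt with h0 | hpos
  · refine ⟨0, Fin.elim0, Fin.elim0, fun s => s.elim0, ?_, ?_⟩
    · rw [Finset.univ_eq_empty, Finset.sum_empty]
      refine Finset.sum_nonneg fun g _ => ?_
      exact star_right_conjugate_nonneg (mul_star_self_nonneg a) (b g)
    · rw [Finset.univ_eq_empty, Finset.sum_empty, ← h0]
      have h1 : 0 ≤ W * X.card * (15 / η) * Z := by positivity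
      simp only [mul_zero, Real.sqrt_zero]
      linarith
  · have e1 : S / t * t = S := div_mul_cancel₀ _ hpos.ne'
    have e2 : Z / t * t = Z := div_mul_cancel₀ _ hpos.ne'
    obtain ⟨M, w, β, r1, r2, r3⟩ := hC T b Y a c (S / t) (Z / t) t hb hY ha hc hc2
      (by positivity) (by positivity) ht (by rw [e1]; exact hE) (by rw [e1]; exact hq)
      (by rw [e2]; exact hZ)
    refine ⟨M, w, β, r1, r2, le_trans (le_of_eq ?_) r3⟩
    have e3 : √(S / t) * t = √(S * t) := by
      have h1 : S * t = S / t * t ^ 2 := by field_simp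
      rw [h1, Real.sqrt_mul (by positivity), Real.sqrt_sq hpos.le]
    have e4 : W * X.card * (15 / η) * (Z / t) * t = W * X.card * (15 / η) * Z := by
      rw [mul_assoc _ (Z / t) t, e2]
    have e5 : C * √(S / t) * t = C * √(S * t) := by rw [mul_assoc, e3]
    rw [sub_mul, sub_mul, sub_mul, e4, e5]
    ring

/-- sum of square roots -/
lemma sum_sqrt_le {K : ℕ} (S t : Fin K → ℝ) (hS : ∀ k, 0 ≤ S k) (ht : ∀ k, 0 ≤ t k)
    (h1 : ∑ k, t k ≤ 1) (B : ℝ) (hB : ∑ k, S k ≤ B) : ∑ k, √(S k * t k) ≤ √B := by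
  have h := Finset.sum_mul_sq_le_sq_mul_sq (Finset.univ) (fun k => √(S k)) (fun k => √(t k))
  have e1 : ∑ k, √(S k) ^ 2 = ∑ k, S k := Finset.sum_congr rfl fun k _ => Real.sq_sqrt (hS k)
  have e2 : ∑ k, √(t k) ^ 2 = ∑ k, t k := Finset.sum_congr rfl fun k _ => Real.sq_sqrt (ht k)
  have e3 : ∑ k, √(S k) * √(t k) = ∑ k, √(S k * t k) :=
    Finset.sum_congr rfl fun k _ => (Real.sqrt_mul (hS k) _).symm
  rw [e1, e2, e3] at h
  apply Real.le_sqrt_of_sq_le
  have hS' : 0 ≤ ∑ k, S k := Finset.sum_nonneg fun k _ => hS k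
  calc (∑ k, √(S k * t k)) ^ 2 ≤ (∑ k, S k) * ∑ k, t k := h
    _ ≤ (∑ k, S k) * 1 := mul_le_mul_of_nonneg_left h1 hS'
    _ ≤ B := by rw [mul_one]; exact hB

end HTaux

open HTaux in
theorem thm_HT (hFAM : StFAM.{u}) (hEXC : StEXC.{u}) (hPIECE : StPIECE.{u}) (hRQ : StRQ.{u})
    (hBAS : StBAS.{u}) : StHT.{u} := by
  intro A _ _ _ hnuc X W κ hX hW hκ T
  obtain ⟨hb1, hb2, hb3, hb4, hb5, hb6, hb7, hb8, hb9⟩ := hBAS A T
  -- the constants
  obtain ⟨N, hN⟩ : ∃ N : ℝ, N = X.card := ⟨_, rfl⟩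
  have hN0 : 0 ≤ N := by rw [hN]; positivity
  have hW0 : 0 < W := by linarith
  obtain ⟨η, hη0, hη1, hη2, hη3⟩ : ∃ η : ℝ, 0 < η ∧ η ≤ 1 ∧ 12 * W * N * η ≤ κ / 8 ∧
      12 * W * N * η ≤ 1 / 2 := by
    refine ⟨min 1 (min (κ / (96 * W * (N + 1))) (1 / (24 * W * (N + 1)))), ?_, min_le_left _ _,
      ?_, ?_⟩
    · have h1 : 0 < κ / (96 * W * (N + 1)) := by positivity
      have h2 : 0 < 1 / (24 * W * (N + 1)) := by positivity
      exact lt_min one_pos (lt_min h1 h2)
    · have h1 : min 1 (min (κ / (96 * W * (N + 1))) (1 / (24 * W * (N + 1)))) ≤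
          κ / (96 * W * (N + 1)) := (min_le_right _ _).trans (min_le_left _ _)
      calc 12 * W * N * min 1 (min (κ / (96 * W * (N + 1))) (1 / (24 * W * (N + 1))))
          ≤ 12 * W * N * (κ / (96 * W * (N + 1))) := by gcongr
        _ = κ / 8 * (N / (N + 1)) := by field_simp; ring
        _ ≤ κ / 8 * 1 := by
            gcongr
            rw [div_le_one (by positivity)]; linarith
        _ = κ / 8 := mul_one _
    · have h1 : min 1 (min (κ / (96 * W * (N + 1))) (1 / (24 * W * (N + 1)))) ≤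
          1 / (24 * W * (N + 1)) := (min_le_right _ _).trans (min_le_right _ _)
      calc 12 * W * N * min 1 (min (κ / (96 * W * (N + 1))) (1 / (24 * W * (N + 1))))
          ≤ 12 * W * N * (1 / (24 * W * (N + 1))) := by gcongr
        _ = 1 / 2 * (N / (N + 1)) := by field_simp; ring
        _ ≤ 1 / 2 * 1 := by
            gcongr
            rw [div_le_one (by positivity)]; linarith
        _ = 1 / 2 := mul_one _
  obtain ⟨ε, hε0, hε1, hε2⟩ : ∃ ε : ℝ, 0 < ε ∧ ε ≤ κ / 8 ∧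
      W * N * (15 / η) * (N * ε) ≤ κ / 8 := by
    obtain ⟨B, hB⟩ : ∃ B : ℝ, B = W * N * (15 / η) * N + 1 := ⟨_, rfl⟩
    have hB0 : 0 ≤ W * N * (15 / η) * N := by positivity
    have hB1 : 0 < B := by rw [hB]; linarith
    refine ⟨min (κ / 8) (κ / (8 * B)), lt_min (by positivity) (by positivity),
      min_le_left _ _, ?_⟩
    calc W * N * (15 / η) * (N * min (κ / 8) (κ / (8 * B)))
        = (W * N * (15 / η) * N) * min (κ / 8) (κ / (8 * B)) := by ring
      _ ≤ B * (κ / (8 * B)) := by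
          apply mul_le_mul (by rw [hB]; linarith) (min_le_right _ _) _ hB1.le
          exact (lt_min (by positivity) (by positivity)).le
      _ = κ / 8 := by field_simp
  obtain ⟨p, b, Y, hbb, hY, hTb⟩ := hFAM A hnuc X ε hX hε0
  obtain ⟨hTb1, hTb2⟩ := hTb T
  obtain ⟨σ, hσ0, hσ1⟩ : ∃ σ : ℝ, 0 < σ ∧ p * σ ≤ κ / 8 := by
    refine ⟨κ / (8 * (p + 1)), by positivity, ?_⟩
    calc (p : ℝ) * (κ / (8 * (p + 1))) = κ / 8 * (p / (p + 1)) := by field_simp
      _ ≤ κ / 8 * 1 := by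
          gcongr
          rw [div_le_one (by positivity)]; linarith
      _ = κ / 8 := mul_one _
  obtain ⟨C, hC0, hC⟩ := hPIECE A p X W σ η hX hW hσ0 hη0 hη1
  obtain ⟨η', hη'0, hη'1, hη'2⟩ : ∃ η' : ℝ, 0 < η' ∧ p * η' ≤ κ / 8 ∧
      (4 * p + C) * √((4 * (p : ℝ) ^ 2 + 1) * η') ≤ κ / 8 := by
    obtain ⟨D, hD⟩ : ∃ D : ℝ, D = κ / (8 * (4 * p + C + 1)) := ⟨_, rfl⟩
    have hD0 : 0 < D := by rw [hD]; positivity
    refine ⟨min (κ / (8 * (p + 1))) (D ^ 2 / (4 * (p : ℝ) ^ 2 + 1)),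
      lt_min (by positivity) (by positivity), ?_, ?_⟩
    · calc (p : ℝ) * min (κ / (8 * (p + 1))) (D ^ 2 / (4 * (p : ℝ) ^ 2 + 1))
          ≤ p * (κ / (8 * (p + 1))) := by gcongr; exact min_le_left _ _
        _ = κ / 8 * (p / (p + 1)) := by field_simp
        _ ≤ κ / 8 * 1 := by
            gcongr
            rw [div_le_one (by positivity)]; linarith
        _ = κ / 8 := mul_one _
    · have h1 : (4 * (p : ℝ) ^ 2 + 1) * min (κ / (8 * (p + 1))) (D ^ 2 / (4 * (p : ℝ) ^ 2 + 1)) ≤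
          D ^ 2 := by
        calc _ ≤ (4 * (p : ℝ) ^ 2 + 1) * (D ^ 2 / (4 * (p : ℝ) ^ 2 + 1)) := by
              gcongr; exact min_le_right _ _
          _ = D ^ 2 := by field_simp
      have h2 : √((4 * (p : ℝ) ^ 2 + 1) *
          min (κ / (8 * (p + 1))) (D ^ 2 / (4 * (p : ℝ) ^ 2 + 1))) ≤ D :=
        (Real.sqrt_le_sqrt h1).trans (le_of_eq (Real.sqrt_sq hD0.le))
      calc _ ≤ (4 * p + C) * D := by gcongr
        _ ≤ (4 * p + C + 1) * D := mul_le_mul_of_nonneg_right (by linarith) hD0.le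
        _ = κ / 8 := by rw [hD]; field_simp
  -- excision
  obtain ⟨e⟩ : Nonempty (Fin p × Fin p × Bool ≃ Fin (Fintype.card (Fin p × Fin p × Bool))) :=
    ⟨Fintype.equivFin _⟩
  obtain ⟨yy, hyy⟩ : ∃ yy : Fin p → Fin p → A, ∀ g h, yy g h = star (b g) * b h := ⟨_, fun _ _ => rfl⟩
  have hbn : ∀ g, ‖b g‖ ≤ 1 := fun g => norm_le_one_of_sum Finset.univ b hbb g (Finset.mem_univ g)
  have hyn : ∀ g h, ‖yy g h‖ ≤ 1 := by
    intro g h
    rw [hyy]
    calc ‖star (b g) * b h‖ ≤ ‖star (b g)‖ * ‖b h‖ := norm_mul_le _ _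
      _ ≤ 1 * 1 := by
          rw [norm_star]
          exact mul_le_mul (hbn g) (hbn h) (norm_nonneg _) zero_le_one
      _ = 1 := one_mul 1
  obtain ⟨zz, hzz⟩ : ∃ zz : Fin p × Fin p × Bool → A, ∀ q, zz q =
      if q.2.2 then (ℜ (yy q.1 q.2.1) : A) else (ℑ (yy q.1 q.2.1) : A) := ⟨_, fun _ => rfl⟩
  have hzsa : ∀ q, IsSelfAdjoint (zz q) ∧ ‖zz q‖ ≤ 1 := by
    intro q
    rw [hzz]
    split_ifs
    · exact ⟨(ℜ (yy q.1 q.2.1)).2, (realPart.norm_le _).trans (hyn _ _)⟩
    · exact ⟨(ℑ (yy q.1 q.2.1)).2, (imaginaryPart.norm_le _).trans (hyn _ _)⟩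
  obtain ⟨K, a, ρ, hρ, haa, ha1, ha2, ha3⟩ := hEXC A T _ (fun i => zz (e.symm i)) η'
    (fun i => hzsa _) hη'0
  have han : ∀ k, ‖a k‖ ≤ 1 := fun k =>
    norm_le_one_of_sum Finset.univ a haa k (Finset.mem_univ k)
  obtain ⟨FF, hFF⟩ : ∃ FF : Fin K → Fin p → Fin p → Bool → ℝ, ∀ k g h bl, FF k g h bl =
      n2 T (star (a k) * zz (g, h, bl) * a k - ρ k (e (g, h, bl)) • (star (a k) * a k)) :=
    ⟨_, fun _ _ _ _ => rfl⟩
  have hFF0 : ∀ k g h bl, 0 ≤ FF k g h bl := fun k g h bl => by rw [hFF]; exact (hb4 _).2.1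
  have hFFs : ∀ g h bl, ∑ k, FF k g h bl ≤ η' := by
    intro g h bl
    have h1 := ha3 (e (g, h, bl))
    rw [Equiv.symm_apply_apply] at h1
    refine le_trans (le_of_eq ?_) h1
    exact Finset.sum_congr rfl fun k _ => hFF k g h bl
  obtain ⟨c, hc⟩ : ∃ c : Fin K → Matrix (Fin p) (Fin p) ℂ, ∀ k g h, c k g h =
      ((((ρ k (e (g, h, true)) + ρ k (e (h, g, true))) / 2 : ℝ)) : ℂ) +
        Complex.I * (((ρ k (e (g, h, false)) - ρ k (e (h, g, false))) / 2 : ℝ)) :=
    ⟨fun k => Matrix.of fun g h => _, fun _ _ _ => rfl⟩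
  have hcH : ∀ k, (c k).IsHermitian := by
    intro k
    apply Matrix.IsHermitian.ext
    intro g h
    rw [hc, hc]
    simp only [star_add, star_mul', Complex.star_def, Complex.conj_I, Complex.conj_ofReal]
    push_cast
    ring
  have hc2 : ∀ k g h, ‖c k g h‖ ≤ 2 := by
    intro k g h
    rw [hc]
    refine (norm_add_le _ _).trans ?_
    rw [norm_mul, Complex.norm_I, one_mul, Complex.norm_real, Complex.norm_real,
      Real.norm_eq_abs, Real.norm_eq_abs]
    have h1 := abs_le.mp (hρ k (e (g, h, true)))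
    have h2 := abs_le.mp (hρ k (e (h, g, true)))
    have h3 := abs_le.mp (hρ k (e (g, h, false)))
    have h4 := abs_le.mp (hρ k (e (h, g, false)))
    have h5 : |(ρ k (e (g, h, true)) + ρ k (e (h, g, true))) / 2| ≤ 1 := by
      rw [abs_le]; constructor <;> linarith
    have h6 : |(ρ k (e (g, h, false)) - ρ k (e (h, g, false))) / 2| ≤ 1 := by
      rw [abs_le]; constructor <;> linarith
    linarith
  obtain ⟨GG, hGG⟩ : ∃ GG : Fin K → Fin p → Fin p → ℝ, ∀ k g h, GG k g h =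
      FF k g h true + FF k h g true + FF k g h false + FF k h g false := ⟨_, fun _ _ _ => rfl⟩
  have hGG0 : ∀ k g h, 0 ≤ GG k g h := by
    intro k g h
    rw [hGG]
    have := hFF0 k g h true
    have := hFF0 k h g true
    have := hFF0 k g h false
    have := hFF0 k h g false
    linarith
  have hE : ∀ k g h, n2 T (star (a k) * (star (b g) * b h) * a k - c k g h • (star (a k) * a k)) ≤
      GG k g h := by
    intro k g h
    have h1 := err_sym hBAS T (a k) (yy g h) (ρ k (e (g, h, true))) (ρ k (e (h, g, true)))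
      (ρ k (e (g, h, false))) (ρ k (e (h, g, false)))
    have h2 : star (yy g h) = yy h g := by rw [hyy, hyy, star_mul, star_star]
    rw [h2] at h1
    rw [hc, ← hyy, hGG, hFF, hFF, hFF, hFF, hzz, hzz, hzz, hzz]
    exact h1
  obtain ⟨t, ht⟩ : ∃ t : Fin K → ℝ, ∀ k, t k = tr T (star (a k) * a k) := ⟨_, fun _ => rfl⟩
  have ht0 : ∀ k, 0 ≤ t k := fun k => by rw [ht]; exact (hb4 (a k)).2.1
  obtain ⟨V, hV⟩ : ∃ V : Fin K → ℝ, ∀ k, V k =
      tr T (star (a k) * a k) - tr T (star (a k) * a k * (star (a k) * a k)) := ⟨_, fun _ => rfl⟩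
  have hV0 : ∀ k, 0 ≤ V k := fun k => by rw [hV]; exact qq_nonneg hBAS T (a k) (han k)
  obtain ⟨S, hS⟩ : ∃ S : Fin K → ℝ, ∀ k, S k = (∑ g, ∑ h, GG k g h) + V k := ⟨_, fun _ => rfl⟩
  have hGS : ∀ k g h, GG k g h ≤ S k := by
    intro k g h
    rw [hS]
    have h1 : GG k g h ≤ ∑ h, GG k g h :=
      Finset.single_le_sum (f := fun h => GG k g h) (fun i _ => hGG0 k g i) (Finset.mem_univ h)
    have h2 : ∑ h, GG k g h ≤ ∑ g, ∑ h, GG k g h :=
      Finset.single_le_sum (f := fun g => ∑ h, GG k g h)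
        (fun i _ => Finset.sum_nonneg fun j _ => hGG0 k i j) (Finset.mem_univ g)
    have h3 := hV0 k
    linarith
  have hVS : ∀ k, V k ≤ S k := by
    intro k
    rw [hS]
    have : 0 ≤ ∑ g, ∑ h, GG k g h :=
      Finset.sum_nonneg fun i _ => Finset.sum_nonneg fun j _ => hGG0 k i j
    linarith
  have hS0 : ∀ k, 0 ≤ S k := fun k => (hV0 k).trans (hVS k)
  have hSs : ∑ k, S k ≤ (4 * (p : ℝ) ^ 2 + 1) * η' := by
    have h1 : ∑ k, S k = (∑ g, ∑ h, ∑ k, GG k g h) + ∑ k, V k := by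
      simp only [hS]
      rw [Finset.sum_add_distrib, Finset.sum_comm]
      congr 1
      exact Finset.sum_congr rfl fun g _ => Finset.sum_comm
    have h2 : ∀ g h, ∑ k, GG k g h ≤ 4 * η' := by
      intro g h
      simp only [hGG, Finset.sum_add_distrib]
      have := hFFs g h true
      have := hFFs h g true
      have := hFFs g h false
      have := hFFs h g false
      linarith
    have h3 : ∑ g : Fin p, ∑ h : Fin p, ∑ k, GG k g h ≤ ∑ g : Fin p, ∑ h : Fin p, 4 * η' :=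
      Finset.sum_le_sum fun g _ => Finset.sum_le_sum fun h _ => h2 g h
    have h4 : ∑ g : Fin p, ∑ h : Fin p, 4 * η' = 4 * (p : ℝ) ^ 2 * η' := by
      simp only [Finset.sum_const, Finset.card_univ, Fintype.card_fin, nsmul_eq_mul]
      ring
    have h5 : ∑ k, V k ≤ η' := by
      simp only [hV]; exact ha2
    rw [h1]
    linarith
  obtain ⟨Z, hZ⟩ : ∃ Z : Fin K → ℝ, ∀ k, Z k =
      ∑ x ∈ X, ∑ g, n2 T ((x * b g - ∑ h, Y x h g • b h) * a k) := ⟨_, fun _ => rfl⟩
  have hZ0 : ∀ k, 0 ≤ Z k := fun k => by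
    rw [hZ]
    exact Finset.sum_nonneg fun x _ => Finset.sum_nonneg fun g _ => (hb4 _).2.1
  have hZx : ∀ k, ∀ x ∈ X, ∑ g, n2 T ((x * b g - ∑ h, Y x h g • b h) * a k) ≤ Z k := by
    intro k x hx
    rw [hZ]
    exact Finset.single_le_sum
      (f := fun x => ∑ g, n2 T ((x * b g - ∑ h, Y x h g • b h) * a k))
      (fun x _ => Finset.sum_nonneg fun g _ => (hb4 _).2.1) hx
  have hZs : ∑ k, Z k ≤ N * ε := by
    simp only [hZ]
    rw [Finset.sum_comm]
    calc ∑ x ∈ X, ∑ k, ∑ g, n2 T ((x * b g - ∑ h, Y x h g • b h) * a k)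
        ≤ ∑ x ∈ X, ε := by
          refine Finset.sum_le_sum fun x hx => ?_
          rw [Finset.sum_comm]
          refine le_trans (Finset.sum_le_sum fun g _ => ?_) (hTb2 x hx)
          exact sum_conj_le hBAS T a haa _
      _ = N * ε := by rw [Finset.sum_const, nsmul_eq_mul, hN]
  have hts : ∑ k, t k = tr T (∑ k, a k * star (a k)) := by
    rw [tr_sum]
    exact Finset.sum_congr rfl fun k _ => by rw [ht, tr_comm]
  have hts1 : ∑ k, t k ≤ 1 := by
    rw [hts, ← tr_one T]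
    exact hb1 _ _ haa
  have hts2 : 1 - η' ≤ ∑ k, t k := by
    simp only [ht]; exact ha1
  -- the pieces
  have key : ∀ k, ∃ (M : ℕ) (w : Fin M → ℝ) (β : Fin M → Blk A),
      (∀ s, 0 ≤ w s ∧ (β s).Valid X) ∧
      ∑ s, w s • (β s).amp 1 ≤ ∑ g, b g * (a k * star (a k)) * star (b g) ∧
      (1 - 12 * W * X.card * η) * ((c k).trace.re * t k) - p * σ * t k -
        W * X.card * (15 / η) * Z k - C * √(S k * t k) ≤ ∑ s, w s * (β s).mass W X T := by
    intro k
    refine piece hBAS A p X W σ η C hC T b Y hbb hY (a k) (han k) (c k) (hcH k) (hc2 k) (t k)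
      (S k) (Z k) (ht k) hW hη0 (hS0 k) (hZ0 k) (fun g h => (hE k g h).trans (hGS k g h)) ?_
      (hZx k)
    have := hVS k
    rw [hV] at this
    rw [ht]
    exact this
  choose Mf wf βf q1 q2 q3 using key
  -- lower bound for the traces
  obtain ⟨s, hs⟩ : ∃ s : ℝ, s = ∑ k, √(S k * t k) := ⟨_, rfl⟩
  have hs0 : 0 ≤ s := by rw [hs]; exact Finset.sum_nonneg fun k _ => Real.sqrt_nonneg _
  have hs1 : s ≤ √((4 * (p : ℝ) ^ 2 + 1) * η') := by
    rw [hs]; exact sum_sqrt_le S t hS0 ht0 hts1 _ hSs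
  have hs2 : (4 * p + C) * s ≤ κ / 8 :=
    (mul_le_mul_of_nonneg_left hs1 (by positivity)).trans hη'2
  have hrq : ∀ k g, tr T (star (a k) * (star (b g) * b g) * a k) ≤
      (c k g g).re * t k + 4 * √(S k * t k) := by
    intro k g
    rcases (ht0 k).eq_or_lt with h0 | hpos
    · have h1 := hb2 (a k) ((star (b g) * b g) * a k)
      have h2 : n2 T (a k) = 0 := by
        have : n2 T (a k) = t k := (ht k).symm
        rw [this, ← h0]
      rw [h2, zero_mul] at h1
      have h3 : ‖T.1.f (star (a k) * ((star (b g) * b g) * a k))‖ = 0 := by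
        have := norm_nonneg (T.1.f (star (a k) * ((star (b g) * b g) * a k)))
        nlinarith
      have h4 : tr T (star (a k) * (star (b g) * b g) * a k) = 0 := by
        unfold tr
        rw [mul_assoc, norm_eq_zero.mp h3, Complex.zero_re]
      rw [h4, ← h0]
      simp
    · have e1 : S k / t k * t k = S k := div_mul_cancel₀ _ hpos.ne'
      have h1 := hRQ A T (a k) (star (b g) * b g) (c k g g) (S k / t k) (t k) (han k)
        (by rw [← hyy]; exact hyn g g) (hc2 k g g) (div_nonneg (hS0 k) hpos.le) (ht k)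
        (by rw [e1]; exact (hE k g g).trans (hGS k g g))
        (by
          rw [e1, ht]
          have := hVS k
          rw [hV] at this
          exact this)
      have e3 : √(S k / t k) * t k = √(S k * t k) := by
        have h1 : S k * t k = S k / t k * t k ^ 2 := by field_simp
        rw [h1, Real.sqrt_mul (div_nonneg (hS0 k) hpos.le), Real.sqrt_sq hpos.le]
      rw [mul_assoc (4 : ℝ), e3] at h1
      have h2 := (Complex.abs_re_le_norm _).trans h1
      rw [Complex.sub_re, Complex.re_mul_ofReal] at h2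
      have h3 := (abs_le.mp h2).2
      unfold tr
      linarith
  have hQ : 1 - ε - p * η' - 4 * p * s ≤ ∑ k, (c k).trace.re * t k := by
    have h1 : ∀ k, ∑ g, tr T (star (a k) * (star (b g) * b g) * a k) - 4 * p * √(S k * t k) ≤
        (c k).trace.re * t k := by
      intro k
      have h2 : (c k).trace.re * t k = ∑ g, (c k g g).re * t k := by
        rw [Matrix.trace, Complex.re_sum, Finset.sum_mul]
        rfl
      have h3 : ∑ g, tr T (star (a k) * (star (b g) * b g) * a k) ≤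
          ∑ g : Fin p, ((c k g g).re * t k + 4 * √(S k * t k)) :=
        Finset.sum_le_sum fun g _ => hrq k g
      rw [Finset.sum_add_distrib, Finset.sum_const, Finset.card_univ, Fintype.card_fin,
        nsmul_eq_mul] at h3
      rw [h2]
      linarith
    have h4 : ∑ k, (∑ g, tr T (star (a k) * (star (b g) * b g) * a k) - 4 * p * √(S k * t k)) ≤
        ∑ k, (c k).trace.re * t k := Finset.sum_le_sum fun k _ => h1 k
    rw [Finset.sum_sub_distrib, ← Finset.mul_sum, ← hs] at h4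
    have h5 : ∑ k, ∑ g, tr T (star (a k) * (star (b g) * b g) * a k) =
        ∑ g, tr T (b g * (∑ k, a k * star (a k)) * star (b g)) := by
      rw [Finset.sum_comm]
      refine Finset.sum_congr rfl fun g _ => ?_
      rw [Finset.mul_sum, Finset.sum_mul, tr_sum]
      refine Finset.sum_congr rfl fun k _ => ?_
      have e1 : star (a k) * (star (b g) * b g) * a k = star (b g * a k) * (b g * a k) := by
        rw [star_mul]; simp only [mul_assoc]
      have e2 : b g * (a k * star (a k)) * star (b g) = (b g * a k) * star (b g * a k) := by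
        rw [star_mul]; simp only [mul_assoc]
      rw [e1, e2, tr_comm]
    have h6 : ∀ g, tr T (b g * star (b g)) - η' ≤
        tr T (b g * (∑ k, a k * star (a k)) * star (b g)) := by
      intro g
      have h7 := conj_tr_le hBAS T (b g) (1 - ∑ k, a k * star (a k)) (sub_nonneg.mpr haa) (hbn g)
      rw [mul_sub, sub_mul, mul_one, tr_sub, tr_sub, tr_one, ← hts] at h7
      linarith
    have h8 : ∑ g : Fin p, (tr T (b g * star (b g)) - η') ≤
        ∑ g, tr T (b g * (∑ k, a k * star (a k)) * star (b g)) :=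
      Finset.sum_le_sum fun g _ => h6 g
    rw [Finset.sum_sub_distrib, Finset.sum_const, Finset.card_univ, Fintype.card_fin,
      nsmul_eq_mul, ← tr_sum] at h8
    rw [h5] at h4
    linarith
  have hfin : 1 - κ ≤ ∑ k, ∑ j, wf k j * (βf k j).mass W X T := by
    refine le_trans ?_ (Finset.sum_le_sum fun k _ => q3 k)
    have e1 : ∑ k, ((1 - 12 * W * X.card * η) * ((c k).trace.re * t k) - p * σ * t k -
        W * X.card * (15 / η) * Z k - C * √(S k * t k)) =
        (1 - 12 * W * N * η) * (∑ k, (c k).trace.re * t k) - p * σ * (∑ k, t k) -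
        W * N * (15 / η) * (∑ k, Z k) - C * s := by
      rw [Finset.sum_sub_distrib, Finset.sum_sub_distrib, Finset.sum_sub_distrib,
        ← Finset.mul_sum, ← Finset.mul_sum, ← Finset.mul_sum, ← Finset.mul_sum, ← hs, ← hN]
    rw [e1]
    have f1 : 0 ≤ 12 * W * N * η := by positivity
    have f2 := mul_le_mul_of_nonneg_left hQ (by linarith : 0 ≤ 1 - 12 * W * N * η)
    have f3 : 1 - ε - p * η' - 4 * p * s ≤ 1 := by
      have : 0 ≤ p * η' := by positivity
      have : 0 ≤ 4 * p * s := by positivity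
      linarith
    have f4 := mul_le_mul_of_nonneg_left f3 f1
    have f5 : p * σ * (∑ k, t k) ≤ p * σ * 1 := mul_le_mul_of_nonneg_left hts1 (by positivity)
    have f6 : W * N * (15 / η) * (∑ k, Z k) ≤ W * N * (15 / η) * (N * ε) :=
      mul_le_mul_of_nonneg_left hZs (by positivity)
    linarith
  -- concatenation
  obtain ⟨E⟩ : Nonempty ((Σ k : Fin K, Fin (Mf k)) ≃ Fin (∑ k, Mf k)) := ⟨finSigmaFinEquiv⟩
  refine ⟨∑ k, Mf k, fun i => wf (E.symm i).1 (E.symm i).2,
    fun i => βf (E.symm i).1 (E.symm i).2, fun i => q1 _ _, ?_, ?_⟩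
  · have e1 : ∑ i, wf (E.symm i).1 (E.symm i).2 • (βf (E.symm i).1 (E.symm i).2).amp 1 =
        ∑ k, ∑ j, wf k j • (βf k j).amp 1 := by
      rw [Equiv.sum_comp E.symm (fun q : (Σ k : Fin K, Fin (Mf k)) =>
        wf q.1 q.2 • (βf q.1 q.2).amp 1), Fintype.sum_sigma]
    rw [e1]
    calc ∑ k, ∑ j, wf k j • (βf k j).amp 1
        ≤ ∑ k, ∑ g, b g * (a k * star (a k)) * star (b g) :=
          Finset.sum_le_sum fun k _ => q2 k
      _ = ∑ g, b g * (∑ k, a k * star (a k)) * star (b g) := by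
          rw [Finset.sum_comm]
          refine Finset.sum_congr rfl fun g _ => ?_
          rw [Finset.mul_sum, Finset.sum_mul]
      _ ≤ ∑ g, b g * 1 * star (b g) := by
          refine Finset.sum_le_sum fun g _ => ?_
          exact star_right_conjugate_le_conjugate haa (b g)
      _ = ∑ g, b g * star (b g) := by simp only [mul_one]
      _ ≤ 1 := hbb
  · have e1 : ∑ i, wf (E.symm i).1 (E.symm i).2 * (βf (E.symm i).1 (E.symm i).2).mass W X T =
        ∑ k, ∑ j, wf k j * (βf k j).mass W X T := by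
      rw [Equiv.sum_comp E.symm (fun q : (Σ k : Fin K, Fin (Mf k)) =>
        wf q.1 q.2 * (βf q.1 q.2).mass W X T), Fintype.sum_sigma]
    rw [e1]
    exact hfin

end Pool.Agent.H667R5.TW
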