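import Pool.Agent.H667R5.TW.Stubs

/-!
# Toms-Winter: the iteration
-/

set_option autoImplicit false

namespace Pool.Agent.H667R5.TW

open Pool.Agent.H327R4.Pure
open scoped CStarAlgebra ComplexOrder Matrix

universe u v

section

variable {A : Type u} [CStarAlgebra A] [PartialOrder A] [StarOrderedRing A]

theorem TIT_n2_smul (T : TS A) (r : ℝ) (z : A) : n2 T (r • z) = r ^ 2 * n2 T z := by
  unfold n2
  have h1 : star (r • z) * (r • z) = (r ^ 2) • (star z * z) := by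
    rw [star_smul, smul_mul_smul_comm]
    simp [sq]
  have h2 : T.1.f ((r ^ 2) • (star z * z)) = ((r ^ 2 : ℝ) : ℂ) * T.1.f (star z * z) := by
    rw [← Complex.coe_smul, map_smul, smul_eq_mul]
  rw [h1, h2, Complex.re_ofReal_mul]

theorem TIT_n2_zero (T : TS A) : n2 T (0 : A) = 0 := by
  unfold n2
  simp

end

theorem thm_IT (hS : StSTEP1.{u}) (hC : StCPB.{u}) (hB : StBAS.{u}) : StIT.{u} := by
  intro A _ _ _ n hn hT X ε hε
  obtain ⟨K, hK1, hKX⟩ : ∃ K : ℝ, 1 ≤ K ∧ ∀ x ∈ X, ‖x‖ ≤ K := by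
    refine ⟨1 + ∑ x ∈ X, ‖x‖, ?_, fun x hx => ?_⟩
    · have : 0 ≤ ∑ x ∈ X, ‖x‖ := Finset.sum_nonneg fun x _ => norm_nonneg _
      linarith
    · have h1 : ‖x‖ ≤ ∑ x ∈ X, ‖x‖ :=
        Finset.single_le_sum (f := fun x => ‖x‖) (fun x _ => norm_nonneg _) hx
      linarith
  have hK0 : (0 : ℝ) < K := by linarith
  classical
  obtain ⟨Y, hY⟩ : ∃ Y : Finset A, Y = X.image (fun x => (K⁻¹ : ℝ) • x) := ⟨_, rfl⟩
  have hY1 : ∀ y ∈ Y, ‖y‖ ≤ 1 := by
    intro y hy
    rw [hY, Finset.mem_image] at hy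
    obtain ⟨x, hx, rfl⟩ := hy
    rw [norm_smul, Real.norm_eq_abs, abs_of_pos (inv_pos.2 hK0)]
    calc K⁻¹ * ‖x‖ ≤ K⁻¹ * K := mul_le_mul_of_nonneg_left (hKX x hx) (inv_pos.2 hK0).le
      _ = 1 := inv_mul_cancel₀ hK0.ne'
  obtain ⟨a, ha⟩ : ∃ a : ℝ, a = 10 * (n : ℝ) ^ 2 := ⟨_, rfl⟩
  have hn1 : (1 : ℝ) ≤ n := by exact_mod_cast hn
  have ha0 : 0 ≤ a := by rw [ha]; positivity
  have ha2 : 2 * (n : ℝ) ≤ a := by rw [ha]; nlinarith
  obtain ⟨L, hL⟩ := exists_nat_gt (max 1 (-Real.log (ε / 4)))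
  have hL1 : (1 : ℝ) < L := lt_of_le_of_lt (le_max_left _ _) hL
  have hL2 : Real.exp (-(L : ℝ)) ≤ ε / 4 := by
    have h1 : -Real.log (ε / 4) < L := lt_of_le_of_lt (le_max_right _ _) hL
    calc Real.exp (-(L : ℝ)) ≤ Real.exp (Real.log (ε / 4)) := Real.exp_le_exp.2 (by linarith)
      _ = ε / 4 := Real.exp_log (by positivity)
  obtain ⟨G, hG⟩ : ∃ G : ℝ, G = Real.exp (a * L) := ⟨_, rfl⟩
  have hG1 : 1 ≤ G := by
    rw [hG]
    exact Real.one_le_exp (by positivity)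
  have hG0 : 0 < G := by linarith
  have hL0 : (0 : ℝ) < L := by linarith
  have hLG : 0 < L * G := mul_pos hL0 hG0
  obtain ⟨ε1, hε1⟩ : ∃ ε1 : ℝ, ε1 = min 1 (ε / (4 * K ^ 2 * (L * G + 1))) := ⟨_, rfl⟩
  have he0 : 0 < ε1 := by
    rw [hε1]
    exact lt_min one_pos (by positivity)
  have he1 : ε1 ≤ 1 := by rw [hε1]; exact min_le_left _ _
  have he2 : ε1 * (K ^ 2 * (L * G + 1)) ≤ ε / 4 := by
    have h1 : ε1 ≤ ε / (4 * K ^ 2 * (L * G + 1)) := by rw [hε1]; exact min_le_right _ _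
    calc ε1 * (K ^ 2 * (L * G + 1)) ≤ ε / (4 * K ^ 2 * (L * G + 1)) * (K ^ 2 * (L * G + 1)) :=
          mul_le_mul_of_nonneg_right h1 (by positivity)
      _ = ε / 4 := by
          have : K ^ 2 * (L * G + 1) ≠ 0 := by positivity
          field_simp
  have hKK : (1 : ℝ) ≤ K ^ 2 := by nlinarith
  have he3 : ε1 * (L * G + 1) ≤ ε / 4 := by
    refine le_trans ?_ he2
    refine mul_le_mul_of_nonneg_left ?_ he0.le
    have : 0 < L * G + 1 := by linarith
    nlinarith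
  obtain ⟨m0, hm0, hstep⟩ := hS A n hn hT ε1 he0 he1
  obtain ⟨J, hJ⟩ := exists_nat_gt (L / min m0 1)
  have hmin : 0 < min m0 1 := lt_min hm0 one_pos
  have hJ0 : (0 : ℝ) < J := lt_of_le_of_lt (by positivity) hJ
  obtain ⟨m, hm⟩ : ∃ m : ℝ, m = L / J := ⟨_, rfl⟩
  have hmpos : 0 < m := by rw [hm]; positivity
  have hmle : m ≤ min m0 1 := by
    rw [hm, div_le_iff₀ hJ0]
    rw [div_lt_iff₀ hmin] at hJ
    linarith
  have hmm0 : m ≤ m0 := hmle.trans (min_le_left _ _)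
  have hm1 : m ≤ 1 := hmle.trans (min_le_right _ _)
  have hmJ : m * J = L := by
    rw [hm]
    field_simp
  obtain ⟨q, hq⟩ : ∃ q : ℝ, q = 1 + a * m := ⟨_, rfl⟩
  have hq1 : 1 ≤ q := by
    rw [hq]
    have := mul_nonneg ha0 hmpos.le
    linarith
  have hq0 : 0 < q := by linarith
  have hqJ : q ^ J ≤ G := by
    have h1 : q ≤ Real.exp (a * m) := by
      rw [hq]
      have := Real.add_one_le_exp (a * m)
      linarith
    calc q ^ J ≤ (Real.exp (a * m)) ^ J := pow_le_pow_left₀ hq0.le h1 J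
      _ = Real.exp (a * L) := by
          rw [← Real.exp_nat_mul, ← hmJ]
          congr 1
          ring
      _ = G := hG.symm
  have hdj : ∀ j : ℕ, j ≤ J → ε1 * m * j * q ^ j ≤ ε1 * (L * G) := by
    intro j hj
    have h1 : (j : ℝ) ≤ J := by exact_mod_cast hj
    have h2 : q ^ j ≤ G := (pow_le_pow_right₀ hq1 hj).trans hqJ
    calc ε1 * m * j * q ^ j ≤ ε1 * m * J * G := by
          apply mul_le_mul _ h2 (by positivity) (by positivity)
          exact mul_le_mul_of_nonneg_left h1 (by positivity)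
      _ = ε1 * (L * G) := by rw [← hmJ]; ring
  have hind : ∀ j : ℕ, j ≤ J → ∃ P : Fin n → Fin n → A, IsCP P ∧ dsum P ≤ 1 ∧ ∀ T : TS A,
      tr T (1 - dsum P) ≤ (1 - m) ^ j + (ε1 * (L * G) + ε1) ∧
      defect T P ≤ ε1 * m * j * q ^ j ∧ ∀ y ∈ Y, comm T P y ≤ ε1 * m * j * q ^ j := by
    intro j
    induction j with
    | zero =>
      intro _
      refine ⟨fun _ _ => 0, (hC A n).2.2.2.1, ?_, fun T => ⟨?_, ?_, ?_⟩⟩
      · have : dsum (fun _ _ : Fin n => (0 : A)) = 0 := by simp [dsum]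
        rw [this]
        exact zero_le_one' A
      · have : dsum (fun _ _ : Fin n => (0 : A)) = 0 := by simp [dsum]
        rw [this, sub_zero, tr, T.2]
        have h2 : 0 < ε1 * (L * G) := by positivity
        simp
        linarith
      · have : dsum (fun _ _ : Fin n => (0 : A)) = 0 := by simp [dsum]
        unfold defect
        rw [this]
        simp [TIT_n2_zero, tr]
      · intro y _
        unfold comm
        simp [TIT_n2_zero]
    | succ j ih =>
      intro hj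
      obtain ⟨P, hP1, hP2, hP3⟩ := ih (by omega)
      obtain ⟨P', hP'1, hP'2, hP'3⟩ := hstep m hmpos hmm0 Y hY1 P hP1 hP2
      have hd0 : 0 ≤ ε1 * m * j * q ^ j := by positivity
      have hdd := hdj j (by omega)
      have hpow : q * (ε1 * m * j * q ^ j) + ε1 * m ≤ ε1 * m * ((j + 1 : ℕ) : ℝ) * q ^ (j + 1) := by
        have h1 : 1 ≤ q ^ (j + 1) := one_le_pow₀ hq1
        have h2 : ε1 * m ≤ ε1 * m * q ^ (j + 1) := le_mul_of_one_le_right (by positivity) h1
        have h3 : ε1 * m * ((j + 1 : ℕ) : ℝ) * q ^ (j + 1) =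
            q * (ε1 * m * j * q ^ j) + ε1 * m * q ^ (j + 1) := by
          push_cast
          ring
        rw [h3]
        linarith
      refine ⟨P', hP'1, hP'2, fun T => ?_⟩
      obtain ⟨h1, h2, h3⟩ := hP3 T
      obtain ⟨h4, h5, h6⟩ := hP'3 T
      refine ⟨?_, ?_, fun y hy => ?_⟩
      · have h7 : (1 - m) * tr T (1 - dsum P) ≤
            (1 - m) * ((1 - m) ^ j + (ε1 * (L * G) + ε1)) :=
          mul_le_mul_of_nonneg_left h1 (by linarith)
        have h8 : m * defect T P ≤ m * (ε1 * (L * G)) :=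
          mul_le_mul_of_nonneg_left (h2.trans hdd) hmpos.le
        calc tr T (1 - dsum P') ≤ (1 - m) * tr T (1 - dsum P) + m * defect T P + ε1 * m := h4
          _ ≤ (1 - m) * ((1 - m) ^ j + (ε1 * (L * G) + ε1)) + m * (ε1 * (L * G)) + ε1 * m := by
              linarith
          _ = (1 - m) ^ (j + 1) + (ε1 * (L * G) + ε1) := by ring
      · refine le_trans ?_ hpow
        have h7 : (1 + 2 * (n : ℝ) * m) * defect T P ≤ (1 + 2 * (n : ℝ) * m) *
            (ε1 * m * j * q ^ j) := mul_le_mul_of_nonneg_left h2 (by positivity)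
        have h8 : (1 + 2 * (n : ℝ) * m) * (ε1 * m * j * q ^ j) ≤ q * (ε1 * m * j * q ^ j) := by
          refine mul_le_mul_of_nonneg_right ?_ hd0
          rw [hq]
          nlinarith
        linarith
      · refine le_trans ?_ hpow
        have h7 : (1 + 10 * (n : ℝ) ^ 2 * m) * comm T P y ≤ (1 + 10 * (n : ℝ) ^ 2 * m) *
            (ε1 * m * j * q ^ j) := mul_le_mul_of_nonneg_left (h3 y hy) (by positivity)
        have h8 : (1 + 10 * (n : ℝ) ^ 2 * m) = q := by rw [hq, ha]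
        have h9 := h6 y hy
        rw [h8] at h7 h9
        linarith
  obtain ⟨P, hP1, hP2, hP3⟩ := hind J le_rfl
  refine ⟨P, hP1, hP2, fun T => ?_⟩
  obtain ⟨h1, h2, h3⟩ := hP3 T
  have hJd := hdj J le_rfl
  refine ⟨?_, ?_, fun x hx i j => ?_⟩
  · have h4 : (1 - m) ^ J ≤ ε / 4 := by
      calc (1 - m) ^ J ≤ (Real.exp (-m)) ^ J :=
            pow_le_pow_left₀ (by linarith) (Real.one_sub_le_exp_neg m) J
        _ = Real.exp (-(L : ℝ)) := by
            rw [← Real.exp_nat_mul, ← hmJ]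
            congr 1
            ring
        _ ≤ ε / 4 := hL2
    have h5 : ε1 * (L * G) + ε1 = ε1 * (L * G + 1) := by ring
    rw [h5] at h1
    linarith
  · have h5 : ε1 * (L * G) ≤ ε1 * (L * G + 1) :=
      mul_le_mul_of_nonneg_left (by linarith) he0.le
    linarith
  · have hy : (K⁻¹ : ℝ) • x ∈ Y := by
      rw [hY]
      exact Finset.mem_image_of_mem _ hx
    have h4 := h3 _ hy
    have h5 : n2 T ((K⁻¹ : ℝ) • x * P i j - P i j * ((K⁻¹ : ℝ) • x)) ≤ comm T P ((K⁻¹ : ℝ) • x) := by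
      have h6 : ∀ z : A, 0 ≤ n2 T z := fun z => ((hB A T).2.2.2.1 z).2.1
      unfold comm
      refine le_trans ?_ (Finset.single_le_sum (f := fun i => ∑ j,
        n2 T ((K⁻¹ : ℝ) • x * P i j - P i j * ((K⁻¹ : ℝ) • x)))
        (fun i _ => Finset.sum_nonneg fun j _ => h6 _) (Finset.mem_univ i))
      exact Finset.single_le_sum (f := fun j =>
        n2 T ((K⁻¹ : ℝ) • x * P i j - P i j * ((K⁻¹ : ℝ) • x)))
        (fun j _ => h6 _) (Finset.mem_univ j)
    have h7 : x * P i j - P i j * x = K • ((K⁻¹ : ℝ) • x * P i j - P i j * ((K⁻¹ : ℝ) • x)) := by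
      rw [smul_sub, smul_mul_assoc, mul_smul_comm, smul_smul, smul_smul, mul_inv_cancel₀ hK0.ne',
        one_smul, one_smul]
    rw [h7, TIT_n2_smul]
    calc K ^ 2 * n2 T ((K⁻¹ : ℝ) • x * P i j - P i j * ((K⁻¹ : ℝ) • x))
        ≤ K ^ 2 * (ε1 * (L * G)) :=
          mul_le_mul_of_nonneg_left (h5.trans (h4.trans hJd)) (by positivity)
      _ ≤ ε1 * (K ^ 2 * (L * G + 1)) := by
          have : 0 ≤ ε1 * K ^ 2 := by positivity
          nlinarith
      _ ≤ ε := by linarith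

end Pool.Agent.H667R5.TW
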