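import Pool.Agent.H667R5.TW.Stubs

set_option autoImplicit false

namespace Pool.Agent.H667R5.TW

open Pool.Agent.H327R4.Pure
open scoped CStarAlgebra ComplexOrder Matrix

universe u v

section LNaux

variable {A : Type u} [CStarAlgebra A] [PartialOrder A] [StarOrderedRing A]

theorem LN_gen (T : TS A) {N M : ℕ} (y : Matrix (Fin N) (Fin M) ℂ) (w : Fin N → A) :
    ∑ l, n2 T (∑ k, y k l • w k) =
      (∑ k, ∑ k', (y * yᴴ) k' k * T.1.f (star (w k) * w k')).re := by
  have h1 : ∀ l, star (∑ k, y k l • w k) * (∑ k, y k l • w k) =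
      ∑ k, ∑ k', (y k' l * star (y k l)) • (star (w k) * w k') := by
    intro l
    rw [star_sum, Finset.sum_mul_sum]
    refine Finset.sum_congr rfl (fun k _ => Finset.sum_congr rfl (fun k' _ => ?_))
    rw [star_smul, smul_mul_smul_comm, mul_comm]
  unfold n2
  simp only [h1, map_sum, map_smul, smul_eq_mul]
  rw [← Complex.re_sum, Finset.sum_comm]
  congr 1
  refine Finset.sum_congr rfl (fun k _ => ?_)
  rw [Finset.sum_comm]
  refine Finset.sum_congr rfl (fun k' _ => ?_)
  rw [← Finset.sum_mul, Matrix.mul_apply]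
  rfl

end LNaux

open scoped MatrixOrder in
theorem thm_LN : StLN.{u} := by
  intro A _ _ _ T N y w hy
  obtain ⟨z, hz⟩ := CStarAlgebra.nonneg_iff_eq_star_mul_self.mp hy.nonneg
  have h1 := LN_gen T y w
  have h2 := LN_gen T (1 : Matrix (Fin N) (Fin N) ℂ) w
  have h3 := LN_gen T zᴴ w
  have h4 : ∑ l, n2 T (∑ k, (1 : Matrix (Fin N) (Fin N) ℂ) k l • w k) = ∑ k, n2 T (w k) := by
    refine Finset.sum_congr rfl (fun l _ => ?_)
    congr 1
    rw [Finset.sum_eq_single l]
    · simp
    · intro b _ hb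
      rw [Matrix.one_apply_ne hb, zero_smul]
    · intro h
      exact absurd (Finset.mem_univ l) h
  rw [h4, Matrix.conjTranspose_one, mul_one] at h2
  rw [Matrix.conjTranspose_conjTranspose] at h3
  have hz' : zᴴ * z = 1 - y * yᴴ := hz.symm
  rw [hz'] at h3
  have h5 : (∑ k, ∑ k', (1 - y * yᴴ) k' k * T.1.f (star (w k) * w k')).re =
      (∑ k, ∑ k', (1 : Matrix (Fin N) (Fin N) ℂ) k' k * T.1.f (star (w k) * w k')).re -
      (∑ k, ∑ k', (y * yᴴ) k' k * T.1.f (star (w k) * w k')).re := by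
    rw [← Complex.sub_re, ← Finset.sum_sub_distrib]
    congr 1
    refine Finset.sum_congr rfl (fun k _ => ?_)
    rw [← Finset.sum_sub_distrib]
    refine Finset.sum_congr rfl (fun k' _ => ?_)
    rw [Matrix.sub_apply, sub_mul]
  rw [h5, ← h1, ← h2] at h3
  have h6 : 0 ≤ ∑ l, n2 T (∑ k, zᴴ k l • w k) :=
    Finset.sum_nonneg (fun l _ => (T.1.pos _).1)
  linarith

end Pool.Agent.H667R5.TW
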