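import Pool.Agent.H667R5.TW.Stubs

set_option autoImplicit false
set_option linter.unusedSectionVars false

namespace Pool.Agent.H667R5.TW

open Pool.Agent.H327R4.Pure
open scoped CStarAlgebra ComplexOrder Matrix

universe u v

section loc

variable {A : Type u} [CStarAlgebra A] [PartialOrder A] [StarOrderedRing A]

private lemma loc_tr_add (T : TS A) (x y : A) : tr T (x + y) = tr T x + tr T y := by
  simp [tr]

private lemma loc_tr_sub (T : TS A) (x y : A) : tr T (x - y) = tr T x - tr T y := by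
  simp [tr]

private lemma loc_tr_zero (T : TS A) : tr T (0 : A) = 0 := by
  simp [tr]

private lemma loc_tr_smul (T : TS A) (r : ℝ) (x : A) : tr T (r • x) = r * tr T x := by
  have : (r • x : A) = ((r : ℂ) • x : A) := by simp
  rw [this]
  simp [tr]

private lemma loc_tr_sum (T : TS A) {ι : Type v} (s : Finset ι) (f : ι → A) :
    tr T (∑ i ∈ s, f i) = ∑ i ∈ s, tr T (f i) := by
  simp [tr, map_sum]

private lemma loc_tr_comm (T : TS A) (x y : A) : tr T (x * y) = tr T (y * x) := by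
  simp only [tr]
  rw [T.1.tr]

/-- the cut-off function -/
private noncomputable def locf (t : ℝ) : ℝ := (√(max t (1 / 2)))⁻¹

private lemma locf_cont : Continuous locf := by
  unfold locf
  apply Continuous.inv₀
  · fun_prop
  · intro t
    have : (0 : ℝ) < max t (1 / 2) := lt_of_lt_of_le (by norm_num) (le_max_right _ _)
    exact (Real.sqrt_pos.2 this).ne'

private lemma locf_sq (t : ℝ) : locf t * locf t = (max t (1 / 2))⁻¹ := by
  unfold locf
  have : (0 : ℝ) < max t (1 / 2) := lt_of_lt_of_le (by norm_num) (le_max_right _ _)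
  rw [← mul_inv, Real.mul_self_sqrt this.le]

private noncomputable def locg (t : ℝ) : ℝ := locf t * (t * t) * locf t

private lemma locg_cont : Continuous locg := by
  unfold locg
  have := locf_cont
  fun_prop

private lemma locg_eq (t : ℝ) : locg t = (t * t) / (max t (1 / 2)) := by
  unfold locg
  have := locf_sq t
  rw [div_eq_mul_inv, ← this]
  ring

private lemma locg_ge {t : ℝ} (h : 1 / 2 ≤ t) : locg t = t := by
  rw [locg_eq, max_eq_left h]
  have : t ≠ 0 := by
    intro h0; rw [h0] at h; norm_num at h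
  field_simp

private lemma locg_lt {t : ℝ} (h : t ≤ 1 / 2) : locg t = 2 * (t * t) := by
  rw [locg_eq, max_eq_right h]
  ring

private lemma locg_all {t : ℝ} (h0 : 0 ≤ t) (h1 : t ≤ 1) : 0 ≤ locg t ∧ locg t ≤ 1 ∧ locg t ≤ t ∧
    t - locg t ≤ 2 * (t - t * t) ∧ locg t - locg t * locg t ≤ 2 * (t - t * t) := by
  rcases le_total t (1 / 2) with h | h
  · rw [locg_lt h]
    refine ⟨by positivity, by nlinarith, by nlinarith, by nlinarith, ?_⟩
    have : 0 ≤ (2 * (t * t)) * (2 * (t * t)) := by positivity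
    nlinarith
  · rw [locg_ge h]
    refine ⟨h0, h1, le_rfl, by nlinarith, by nlinarith⟩

private lemma loc_alg {n K : ℕ} (v : Fin n → Fin K → A) (a' : Fin K → A)
    (hv : ∀ i k j l, star (v i k) * v j l = if i = j ∧ k = l then a' k else 0) (i₀ i j : Fin n) :
    star (∑ k, v i k * star (v i₀ k)) * (∑ k, v j k * star (v i₀ k)) =
      if i = j then ∑ k, v i₀ k * a' k * star (v i₀ k) else 0 := by
  rw [star_sum, Finset.sum_mul_sum]
  have h1 : ∀ k l, star (v i k * star (v i₀ k)) * (v j l * star (v i₀ l)) =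
      if k = l then (if i = j then v i₀ k * a' k * star (v i₀ k) else 0) else 0 := by
    intro k l
    rw [star_mul, star_star]
    have : v i₀ k * star (v i k) * (v j l * star (v i₀ l)) =
        v i₀ k * (star (v i k) * v j l) * star (v i₀ l) := by noncomm_ring
    rw [this, hv]
    by_cases h : i = j
    · by_cases h' : k = l
      · subst h; subst h'; simp
      · simp [h']
    · simp [h]
  simp only [h1]
  by_cases h : i = j
  · simp [h]
  · simp [h]

private lemma loc_phi (c : A) (h0 : 0 ≤ c) (h1 : c ≤ 1) : phi 1 c = c := by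
  unfold phi
  have hn : ‖c‖ ≤ 1 := by
    rwa [CStarAlgebra.norm_le_one_iff_of_nonneg c h0]
  conv_rhs => rw [← cfcₙ_id' ℝ c]
  apply cfcₙ_congr
  intro x hx
  have : ‖x‖ ≤ ‖c‖ := NonUnitalIsometricContinuousFunctionalCalculus.norm_quasispectrum_le (𝕜 := ℝ) c hx
  have hx1 : x ≤ 1 := (le_abs_self x).trans (this.trans hn)
  simp [hx1]

private lemma loc_le_one (w : A) (h0 : 0 ≤ w) (hw : w * w ≤ w) : w ≤ 1 := by
  have hsa : IsSelfAdjoint w := IsSelfAdjoint.of_nonneg h0
  have hww : 0 ≤ w * w := by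
    have := star_mul_self_nonneg w
    rwa [hsa.star_eq] at this
  have h1 : ‖w * w‖ ≤ ‖w‖ := CStarAlgebra.norm_le_norm_of_nonneg_of_le hww hw
  have h2 : ‖w * w‖ = ‖w‖ * ‖w‖ := by
    have := CStarRing.norm_star_mul_self (x := w)
    rwa [hsa.star_eq] at this
  rw [← CStarAlgebra.norm_le_one_iff_of_nonneg w h0]
  rw [h2] at h1
  by_contra h
  push Not at h
  nlinarith

private lemma loc_spec (w : A) (h0 : 0 ≤ w) (h1 : w ≤ 1) : ∀ x ∈ spectrum ℝ w, 0 ≤ x ∧ x ≤ 1 := by
  intro x hx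
  refine ⟨spectrum_nonneg_of_nonneg h0 hx, ?_⟩
  have hsa : IsSelfAdjoint w := IsSelfAdjoint.of_nonneg h0
  have h2 : w ≤ algebraMap ℝ A 1 := by simpa using h1
  exact (le_algebraMap_iff_spectrum_le (A := A) (a := w) (r := (1 : ℝ)) hsa).1 h2 x hx

private lemma loc_cfc (w : A) (h0 : 0 ≤ w) (hw : w * w ≤ w) :
    cfc locf w * (w * w) * cfc locf w = cfc locg w ∧ star (cfc locf w) = cfc locf w ∧
    0 ≤ cfc locg w ∧ cfc locg w ≤ 1 ∧ cfc locg w ≤ w ∧ w - cfc locg w ≤ (2 : ℝ) • (w - w * w) ∧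
    cfc locg w - cfc locg w * cfc locg w ≤ (2 : ℝ) • (w - w * w) := by
  have h1 := loc_le_one w h0 hw
  have hsp := loc_spec w h0 h1
  have hsa : IsSelfAdjoint w := IsSelfAdjoint.of_nonneg h0
  have cf := locf_cont
  have cg := locg_cont
  have e1 : cfc (fun t : ℝ => t) w = w := cfc_id' ℝ w
  have e2 : cfc (fun t : ℝ => t * t) w = w * w := by
    rw [cfc_mul (fun t : ℝ => t) (fun t : ℝ => t) w, e1]
  have e3 : cfc (fun t : ℝ => 2 * (t - t * t)) w = (2 : ℝ) • (w - w * w) := by
    have : (fun t : ℝ => 2 * (t - t * t)) = fun t : ℝ => (2 : ℝ) • (t - t * t) := by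
      ext t; simp
    rw [this, cfc_smul (2 : ℝ) (fun t : ℝ => t - t * t) w (by fun_prop),
      cfc_sub (fun t : ℝ => t) (fun t : ℝ => t * t) w, e1, e2]
  have e4 : cfc (fun t : ℝ => t - locg t) w = w - cfc locg w := by
    rw [cfc_sub (fun t : ℝ => t) locg w (by fun_prop) (by fun_prop), e1]
  have e5 : cfc (fun t : ℝ => locg t - locg t * locg t) w = cfc locg w - cfc locg w * cfc locg w := by
    rw [cfc_sub locg (fun t => locg t * locg t) w (by fun_prop) (by fun_prop),
      cfc_mul locg locg w (by fun_prop) (by fun_prop)]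
  refine ⟨?_, ?_, ?_, ?_, ?_, ?_, ?_⟩
  · rw [← e2, ← cfc_mul locf (fun t : ℝ => t * t) w (by fun_prop) (by fun_prop),
      ← cfc_mul (fun t => locf t * (t * t)) locf w (by fun_prop) (by fun_prop)]
    rfl
  · exact (IsSelfAdjoint.cfc (f := locf) (a := w)).star_eq
  · exact cfc_nonneg fun x hx => (locg_all (hsp x hx).1 (hsp x hx).2).1
  · exact cfc_le_one _ _ fun x hx => (locg_all (hsp x hx).1 (hsp x hx).2).2.1
  · conv_rhs => rw [← e1]
    exact cfc_mono (fun x hx => (locg_all (hsp x hx).1 (hsp x hx).2).2.2.1) (by fun_prop) (by fun_prop)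
  · rw [← e3, ← e4]
    exact cfc_mono (fun x hx => (locg_all (hsp x hx).1 (hsp x hx).2).2.2.2.1) (by fun_prop)
      (by fun_prop)
  · rw [← e3, ← e5]
    exact cfc_mono (fun x hx => (locg_all (hsp x hx).1 (hsp x hx).2).2.2.2.2) (by fun_prop)
      (by fun_prop)

private lemma loc_mul_tr (hB : StBAS.{u}) (T : TS A) (x y : A) (r s : ℝ) (hx : ‖x‖ ≤ r)
    (hy : ‖y‖ ≤ s) : tr T (x * y) ≤ r * s := by
  obtain ⟨-, -, -, h, -⟩ := hB A T
  have h1 := (h (x * y)).2.2.2
  have h2 : tr T (x * y) ≤ ‖T.1.f (x * y)‖ := (le_abs_self _).trans (Complex.abs_re_le_norm _)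
  have h3 := norm_mul_le x y
  have h4 : ‖x‖ * ‖y‖ ≤ r * s := mul_le_mul hx hy (norm_nonneg _) ((norm_nonneg _).trans hx)
  linarith

/-- the cut element -/
private lemma loc_cut (hB : StBAS.{u}) (hCT : StCT.{u}) (T : TS A) (a : A) (ε : ℝ) (hε : 0 ≤ ε)
    (h0 : 0 ≤ a) (h1 : a ≤ 1) : |tr T (cut ε a) - tr T a| ≤ ε ∧
      tr T (cut ε a) - tr T (cut ε a * cut ε a) ≤ tr T a - tr T (a * a) + 2 * ε := by
  obtain ⟨c1, c2, -, -, -, c3, -⟩ := hCT A a h0
  obtain ⟨m1, -, -, m2, -⟩ := hB A T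
  have hn : ‖a‖ ≤ 1 := by rwa [CStarAlgebra.norm_le_one_iff_of_nonneg a h0]
  have hc : ‖cut ε a‖ ≤ 1 := (CStarAlgebra.norm_le_norm_of_nonneg_of_le (c1 ε) (c2 ε hε)).trans hn
  have hd := c3 ε hε
  have hm : tr T (cut ε a) ≤ tr T a := m1 _ _ (c2 ε hε)
  have h2 : tr T a - tr T (cut ε a) ≤ ε := by
    rw [← loc_tr_sub]
    have h3 := (m2 (a - cut ε a)).2.2.2
    have h4 : tr T (a - cut ε a) ≤ ‖T.1.f (a - cut ε a)‖ :=
      (le_abs_self _).trans (Complex.abs_re_le_norm _)
    linarith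
  refine ⟨by rw [abs_le]; constructor <;> linarith, ?_⟩
  have h5 : tr T (a * a) - tr T (cut ε a * cut ε a) ≤ 2 * ε := by
    have e1 : a * a - cut ε a * cut ε a = (a - cut ε a) * a + cut ε a * (a - cut ε a) := by
      noncomm_ring
    rw [← loc_tr_sub, e1, loc_tr_add]
    have h6 := loc_mul_tr hB T (a - cut ε a) a ε 1 hd hn
    have h7 := loc_mul_tr hB T (cut ε a) (a - cut ε a) 1 ε hc hd
    linarith
  linarith

end loc

theorem thm_LOC (hB : StBAS.{u}) (hTH : StTH1.{u}) (hRW : StRW.{u}) (hCT : StCT.{u})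
    (hRK : StRK.{u}) (hLOW : StLOW.{u}) : StLOC.{u} := by
  intro A _ _ _ hS hF hSC n c μ δ hn hc0 hc1 hμ0 hμ1 hδ
  by_cases hcz : c = 0
  · subst hcz
    refine ⟨fun _ => 0, fun _ => 0, 0, le_rfl, zero_le_one, ?_, ?_, ?_⟩
    · intro i j; simp
    · intro i; simp
    · intro T
      simp [loc_tr_zero, hδ.le]
  have hn0 : (0 : ℝ) < n := by exact_mod_cast hn
  have hn1 : (1 : ℝ) ≤ n := by exact_mod_cast hn
  obtain ⟨K, a, ha, hT⟩ := hTH A hS hF ((μ / n) • c) (δ / (6 * n))
    (smul_nonneg (by positivity) hc0) (by positivity)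
  obtain ⟨η, hη, hlow⟩ := hLOW A hS c hc0 hcz
  have hrk : ∀ T : TS A, (n : ℝ) * ∑ j, rk T.1 (a j) < rk T.1 c := by
    intro T
    obtain ⟨-, -, h3⟩ := hT T
    rw [loc_tr_smul] at h3
    have h4 : η ≤ tr T c := by
      have := hlow T.1
      rw [T.2] at this
      simpa [tr] using this
    have h5 : tr T c ≤ rk T.1 c := by
      have := (hRK A T.1 c hc0).1 1 one_pos
      rwa [loc_phi c hc0 hc1] at this
    have h6 : (n : ℝ) * ∑ j, rk T.1 (a j) ≤ n * (μ / n * tr T c) :=
      mul_le_mul_of_nonneg_left h3 hn0.le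
    have h7 : (n : ℝ) * (μ / n * tr T c) = μ * tr T c := by field_simp
    rw [h7] at h6
    nlinarith
  set ε : ℝ := δ / (10 * n * (K + 1)) with hε
  have hε0 : 0 < ε := by positivity
  obtain ⟨v, z, hvz, hv⟩ := hRW A hSC n K a c ε (fun j => (ha j).1) hc0 hcz hε0 hrk
  let i₀ : Fin n := ⟨0, by omega⟩
  have halg := loc_alg v (fun k => cut ε (a k)) hv i₀
  set w : A := ∑ k, v i₀ k * star (v i₀ k) with hw
  have hw0 : 0 ≤ w := Finset.sum_nonneg fun k _ => mul_star_self_nonneg _
  have hwsa : star w = w := (IsSelfAdjoint.of_nonneg hw0).star_eq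
  have hww : w * w = ∑ k, v i₀ k * cut ε (a k) * star (v i₀ k) := by
    have := halg i₀ i₀
    rw [if_pos rfl, ← hw, hwsa] at this
    exact this
  have hcut : ∀ k, 0 ≤ cut ε (a k) ∧ cut ε (a k) ≤ 1 := fun k =>
    ⟨(hCT A (a k) (ha k).1).1 ε, ((hCT A (a k) (ha k).1).2.1 ε hε0.le).trans (ha k).2⟩
  have hwle : w * w ≤ w := by
    rw [hww, hw]
    apply Finset.sum_le_sum
    intro k _
    have := star_right_conjugate_le_conjugate (hcut k).2 (v i₀ k)
    simpa using this
  obtain ⟨f1, f2, f3, f4, f5, f6, f7⟩ := loc_cfc w hw0 hwle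
  refine ⟨fun i => (∑ k, v i k * star (v i₀ k)) * cfc locf w,
    fun i => (∑ k, z i k * star (v i₀ k)) * cfc locf w, cfc locg w, f3, f4, ?_, ?_, ?_⟩
  · intro i j
    have e1 : star ((∑ k, v i k * star (v i₀ k)) * cfc locf w) *
        ((∑ k, v j k * star (v i₀ k)) * cfc locf w) =
        cfc locf w * (star (∑ k, v i k * star (v i₀ k)) * (∑ k, v j k * star (v i₀ k))) *
          cfc locf w := by
      rw [star_mul, f2]
      noncomm_ring
    simp only
    rw [e1, halg i j]
    by_cases h : i = j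
    · rw [if_pos h, if_pos h, ← hww, f1]
    · rw [if_neg h, if_neg h]; simp
  · intro i
    simp only
    rw [← mul_assoc, Finset.mul_sum]
    congr 1
    apply Finset.sum_congr rfl
    intro k _
    rw [hvz i k, mul_assoc]
  · intro T
    obtain ⟨h1, h2, -⟩ := hT T
    rw [loc_tr_smul] at h1
    have hmono := (hB A T).1
    have t1 : tr T w = ∑ k, tr T (cut ε (a k)) := by
      rw [hw, loc_tr_sum]
      apply Finset.sum_congr rfl
      intro k _
      rw [loc_tr_comm, hv]
      simp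
    have t2 : tr T (w * w) = ∑ k, tr T (cut ε (a k) * cut ε (a k)) := by
      rw [hww, loc_tr_sum]
      apply Finset.sum_congr rfl
      intro k _
      rw [mul_assoc, loc_tr_comm, mul_assoc, hv]
      simp
    have t3 : |∑ k, tr T (cut ε (a k)) - ∑ k, tr T (a k)| ≤ K * ε := by
      rw [← Finset.sum_sub_distrib]
      refine (Finset.abs_sum_le_sum_abs _ _).trans ?_
      refine (Finset.sum_le_sum fun k _ => (loc_cut hB hCT T (a k) ε hε0.le (ha k).1 (ha k).2).1).trans ?_
      simp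
    have t4 : tr T w - tr T (w * w) ≤ δ / (6 * n) + 2 * (K * ε) := by
      rw [t1, t2, ← Finset.sum_sub_distrib]
      refine (Finset.sum_le_sum fun k _ => (loc_cut hB hCT T (a k) ε hε0.le (ha k).1 (ha k).2).2).trans ?_
      rw [Finset.sum_add_distrib]
      have : ∑ _k : Fin K, 2 * ε = 2 * (K * ε) := by simp; ring
      rw [this]
      linarith
    have hKε : n * (K * ε) ≤ δ / 10 := by
      have : (n : ℝ) * (K * ε) = δ / 10 * (K / (K + 1)) := by
        rw [hε]; field_simp
      rw [this]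
      have h : (K : ℝ) / (K + 1) ≤ 1 := by
        rw [div_le_one (by positivity)]; linarith
      nlinarith
    have hKε0 : 0 ≤ (K : ℝ) * ε := by positivity
    have hKε1 : (K : ℝ) * ε ≤ δ / 10 := by nlinarith
    have hδn : (n : ℝ) * (δ / (6 * n)) = δ / 6 := by field_simp
    have hδn0 : 0 ≤ δ / (6 * n) := by positivity
    have hδn1 : δ / (6 * n) ≤ δ / 6 := by nlinarith
    have m5 := hmono _ _ f5
    have m6 := hmono _ _ f6
    have m7 := hmono _ _ f7
    rw [loc_tr_smul, loc_tr_sub, loc_tr_sub] at m6 m7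
    have key : |tr T (cfc locg w) - μ / n * tr T c| ≤ 3 * (δ / (6 * n)) + 5 * (K * ε) := by
      rw [t1] at m5 m6 t4
      rw [abs_le] at h1 t3 ⊢
      constructor <;> linarith [h1.1, h1.2, t3.1, t3.2]
    constructor
    · have e1 : (n : ℝ) * tr T (cfc locg w) - μ * tr T c =
          n * (tr T (cfc locg w) - μ / n * tr T c) := by field_simp
      rw [e1, abs_mul, abs_of_pos hn0]
      have := mul_le_mul_of_nonneg_left key hn0.le
      nlinarith
    · linarith

end Pool.Agent.H667R5.TW
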