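import Pool.Agent.H667R5.TW.Stubs
import Pool.Agent.H327R4.Pure.Stubs3

/-!
# MIN: minimax over the tracial state space
-/

set_option autoImplicit false

namespace Pool.Agent.H667R5.TW

open Pool.Agent.H327R4.Pure
open Filter Topology

universe u v

namespace MINh

variable {A : Type u} [CStarAlgebra A] [PartialOrder A] [StarOrderedRing A]

lemma cont_tr (g : A) : Continuous fun T : TS A => tr T g := by
  have h1 : Continuous fun (T : TS A) (x : A) => T.1.f x := continuous_induced_dom
  have h2 : Continuous fun T : TS A => T.1.f g := (continuous_apply g).comp h1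
  exact Complex.continuous_re.comp h2

lemma tr_add' (T : TS A) (x y : A) : tr T (x + y) = tr T x + tr T y := by
  simp [tr]

lemma tr_smul' (T : TS A) (r : ℝ) (x : A) : tr T (r • x) = r * tr T x := by
  have : r • x = ((r : ℝ) : ℂ) • x := (Complex.coe_smul r x).symm
  unfold tr
  rw [this, map_smul, smul_eq_mul, Complex.re_ofReal_mul]

lemma tr_sum' {ι : Type*} (T : TS A) (s : Finset ι) (h : ι → A) :
    tr T (∑ i ∈ s, h i) = ∑ i ∈ s, tr T (h i) := by
  unfold tr
  rw [map_sum, Complex.re_sum]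

/-- mixtures of tracial states -/
lemma exists_mix (T T' : TS A) (a b : ℝ) (ha : 0 ≤ a) (hb : 0 ≤ b) (hab : a + b = 1) :
    ∃ T'' : TS A, ∀ x, tr T'' x = a * tr T x + b * tr T' x := by
  let F : A →L[ℂ] ℂ := (a : ℂ) • T.1.f + (b : ℂ) • T'.1.f
  have hF : ∀ x, F x = (a : ℂ) * T.1.f x + (b : ℂ) * T'.1.f x := fun x => rfl
  refine ⟨⟨⟨F, ?_, ?_⟩, ?_⟩, ?_⟩
  · intro x
    have h1 := T.1.pos x
    have h2 := T'.1.pos x
    rw [hF]
    constructor
    · rw [Complex.add_re, Complex.re_ofReal_mul, Complex.re_ofReal_mul]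
      exact add_nonneg (mul_nonneg ha h1.1) (mul_nonneg hb h2.1)
    · rw [Complex.add_im, Complex.im_ofReal_mul, Complex.im_ofReal_mul, h1.2, h2.2]
      simp
  · intro x y
    rw [hF, hF, T.1.tr x y, T'.1.tr x y]
  · show F 1 = 1
    rw [hF, T.2, T'.2, mul_one, mul_one]
    exact_mod_cast hab
  · intro x
    show (F x).re = _
    rw [hF, Complex.add_re, Complex.re_ofReal_mul, Complex.re_ofReal_mul]
    rfl

end MINh

open MINh in
theorem thm_MIN (hC : StCPT.{u}) : StMIN.{u} := by
  classical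
  intro A _ _ _ N κ hN hT hne
  rcases isEmpty_or_nonempty (TS A) with hE | hE
  · obtain ⟨g, hg⟩ := hne
    exact ⟨g, hg, fun T => (hE.false T).elim⟩
  haveI : CompactSpace (TS A) := hC A
  -- finite subcover
  obtain ⟨s, hs⟩ := (isCompact_univ (X := TS A)).elim_finite_subcover
    (fun g : N => {T : TS A | κ < tr T g}) (fun g => isOpen_lt continuous_const (cont_tr _)) (by
      intro T _
      obtain ⟨g, hg, hgT⟩ := hT T
      exact Set.mem_iUnion.mpr ⟨⟨g, hg⟩, hgT⟩)
  have hs' : ∀ T : TS A, ∃ i : s, κ < tr T i.1.1 := by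
    intro T
    have h1 := hs (Set.mem_univ T)
    simp only [Set.mem_iUnion] at h1
    obtain ⟨g, hg, h2⟩ := h1
    exact ⟨⟨g, hg⟩, h2⟩
  let Φ : TS A → (s → ℝ) := fun T i => tr T i.1.1
  have hΦ : Continuous Φ := continuous_pi fun i => cont_tr _
  have hKc : IsCompact (Set.range Φ) := isCompact_range hΦ
  have hKx : Convex ℝ (Set.range Φ) := by
    rintro _ ⟨T, rfl⟩ _ ⟨T', rfl⟩ a b ha hb hab
    obtain ⟨T'', h⟩ := exists_mix T T' a b ha hb hab
    refine ⟨T'', ?_⟩
    funext i
    exact h _
  let Q : Set (s → ℝ) := {v | ∀ i, v i ≤ κ}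
  have hQx : Convex ℝ Q := by
    intro v hv w hw a b ha hb hab i
    show a * v i + b * w i ≤ κ
    calc a * v i + b * w i ≤ a * κ + b * κ :=
          add_le_add (mul_le_mul_of_nonneg_left (hv i) ha) (mul_le_mul_of_nonneg_left (hw i) hb)
      _ = κ := by rw [← add_mul, hab, one_mul]
  have hQc : IsClosed Q := by
    have : Q = ⋂ i, {v : s → ℝ | v i ≤ κ} := by
      ext v; simp [Q]
    rw [this]
    exact isClosed_iInter fun i => isClosed_le (continuous_apply i) continuous_const
  have hdisj : Disjoint Q (Set.range Φ) := by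
    rw [Set.disjoint_left]
    rintro v hv ⟨T, rfl⟩
    obtain ⟨i, hi⟩ := hs' T
    exact absurd (hv i) (not_le.mpr hi)
  obtain ⟨f, a, b, hfa, hab, hfb⟩ := geometric_hahn_banach_closed_compact hQx hQc hKx hKc hdisj
  let l : s → ℝ := fun i => f (Pi.single i 1)
  have hf : ∀ v, f v = ∑ i, v i * l i := by
    intro v
    have h1 : v = ∑ i, v i • (Pi.single i (1 : ℝ) : s → ℝ) := by
      funext j
      rw [Finset.sum_apply]
      simp [Pi.single_apply]
    conv_lhs => rw [h1]
    rw [map_sum]
    apply Finset.sum_congr rfl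
    intro i _
    rw [map_smul, smul_eq_mul]
  have hl0 : ∀ i, 0 ≤ l i := by
    intro i
    by_contra hneg
    rw [not_le] at hneg
    set c0 : s → ℝ := fun _ => κ with hc0
    set M : ℝ := (|a| + |f c0| + 1) / (-l i) with hM
    have hli : 0 < -l i := by linarith
    have hM0 : 0 ≤ M := by positivity
    have h1 : f (c0 - M • (Pi.single i (1 : ℝ) : s → ℝ)) < a := by
      apply hfa
      intro j
      show κ - M * (Pi.single i (1 : ℝ) : s → ℝ) j ≤ κ
      have : 0 ≤ (Pi.single i (1 : ℝ) : s → ℝ) j := by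
        rcases eq_or_ne j i with h | h
        · subst h; simp
        · simp [h]
      nlinarith [mul_nonneg hM0 this]
    rw [map_sub, map_smul, smul_eq_mul] at h1
    have h2 : M * (-l i) = |a| + |f c0| + 1 := by
      rw [hM, div_mul_cancel₀ _ hli.ne']
    have h3 : f (Pi.single i (1 : ℝ)) = l i := rfl
    rw [h3] at h1
    have h4 := le_abs_self a
    have h5 := neg_abs_le (f c0)
    nlinarith
  obtain ⟨T0⟩ := hE
  set S : ℝ := ∑ i, l i with hS
  have hS0 : 0 < S := by
    have h0 : 0 ≤ S := Finset.sum_nonneg fun i _ => hl0 i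
    rcases h0.lt_or_eq with h | h
    · exact h
    · exfalso
      have h1 : ∀ i, l i = 0 := by
        intro i
        exact (Finset.sum_eq_zero_iff_of_nonneg fun i _ => hl0 i).mp h.symm i (Finset.mem_univ i)
      have h2 : ∀ v, f v = 0 := by
        intro v
        rw [hf]
        exact Finset.sum_eq_zero fun i _ => by rw [h1, mul_zero]
      have h3 := hfa (fun _ => κ) (fun i => le_refl κ)
      have h4 := hfb (Φ T0) ⟨T0, rfl⟩
      rw [h2] at h3 h4
      linarith
  refine ⟨∑ i, (l i / S) • (i.1.1 : A), ?_, ?_⟩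
  · apply hN.sum_mem
    · intro i _
      exact div_nonneg (hl0 i) hS0.le
    · rw [← Finset.sum_div, ← hS, div_self hS0.ne']
    · intro i _
      exact i.1.2
  · intro T
    have h1 := hfa (fun _ => κ) (fun i => le_refl κ)
    have h2 := hfb (Φ T) ⟨T, rfl⟩
    rw [hf] at h1 h2
    rw [← Finset.mul_sum, ← hS] at h1
    have h3 : tr T (∑ i, (l i / S) • (i.1.1 : A)) = (∑ i, Φ T i * l i) / S := by
      rw [tr_sum', Finset.sum_div]
      apply Finset.sum_congr rfl
      intro i _
      rw [tr_smul']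
      show l i / S * tr T i.1.1 = tr T i.1.1 * l i / S
      ring
    rw [h3, lt_div_iff₀ hS0]
    linarith

end Pool.Agent.H667R5.TW
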