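import Pool.Agent.H667R5.TW.Stubs

set_option autoImplicit false
set_option linter.unusedSectionVars false

namespace Pool.Agent.H667R5.TW

open Pool.Agent.H327R4.Pure
open scoped CStarAlgebra ComplexOrder Matrix

universe u v

namespace PIECEaux

theorem exists_diag {p : ℕ} (c : Matrix (Fin p) (Fin p) ℂ) (hc : c.IsHermitian)
    (hb : ∀ g h, ‖c g h‖ ≤ 2) : ∃ (U : Matrix (Fin p) (Fin p) ℂ) (d : Fin p → ℝ),
      Uᴴ * U = 1 ∧ U * Uᴴ = 1 ∧ Uᴴ * c * U = Matrix.diagonal (fun l => (d l : ℂ)) ∧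
      (∀ g l, ‖U g l‖ ≤ 1) ∧ (∀ l, |d l| ≤ 2 * p) ∧ c.trace.re = ∑ l, d l := by
  set U : Matrix (Fin p) (Fin p) ℂ := (hc.eigenvectorUnitary : Matrix (Fin p) (Fin p) ℂ) with hU
  have hU1 : Uᴴ * U = 1 := by
    rw [← Matrix.star_eq_conjTranspose]
    exact Unitary.coe_star_mul_self hc.eigenvectorUnitary
  have hU2 : U * Uᴴ = 1 := by
    rw [← Matrix.star_eq_conjTranspose]
    exact Unitary.coe_mul_star_self hc.eigenvectorUnitary
  have hD : Uᴴ * c * U = Matrix.diagonal (fun l => (hc.eigenvalues l : ℂ)) := by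
    have h1 := hc.conjStarAlgAut_star_eigenvectorUnitary
    rw [Unitary.conjStarAlgAut_apply] at h1
    rw [← Matrix.star_eq_conjTranspose]
    simpa [Function.comp_def, hU] using h1
  have hent : ∀ g l, ‖U g l‖ ≤ 1 := fun g l =>
    entry_norm_bound_of_unitary (hc.eigenvectorUnitary).2 g l
  refine ⟨U, hc.eigenvalues, hU1, hU2, hD, hent, ?_, ?_⟩
  · intro l
    have h1 : ((hc.eigenvalues l : ℝ) : ℂ) = ∑ h, (∑ g, star (U g l) * c g h) * U h l := by
      have h2 := congrFun (congrFun hD l) l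
      rw [Matrix.diagonal_apply_eq] at h2
      rw [← h2, Matrix.mul_apply]
      refine Finset.sum_congr rfl fun h _ => ?_
      rw [Matrix.mul_apply]
      rfl
    have h3 : ∑ g, ‖U g l‖ ^ 2 = 1 := by
      have h2 := congrArg Complex.re (congrFun (congrFun hU1 l) l)
      rw [Matrix.mul_apply, Matrix.one_apply_eq, Complex.re_sum, Complex.one_re] at h2
      rw [← h2]
      refine Finset.sum_congr rfl fun g _ => ?_
      rw [Matrix.conjTranspose_apply, RCLike.star_def, ← Complex.normSq_eq_conj_mul_self,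
        Complex.ofReal_re, Complex.normSq_eq_norm_sq]
    have h4 : (∑ g, ‖U g l‖) ^ 2 ≤ p := by
      have h5 := sq_sum_le_card_mul_sum_sq (s := Finset.univ) (f := fun g => ‖U g l‖)
      rw [h3] at h5
      simpa using h5
    have h6 : |hc.eigenvalues l| = ‖((hc.eigenvalues l : ℝ) : ℂ)‖ := by
      rw [Complex.norm_real, Real.norm_eq_abs]
    rw [h6, h1]
    calc ‖∑ h, (∑ g, star (U g l) * c g h) * U h l‖
        ≤ ∑ h, (∑ g, ‖U g l‖ * 2) * ‖U h l‖ := by
          refine (norm_sum_le _ _).trans (Finset.sum_le_sum fun h _ => ?_)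
          rw [norm_mul]
          refine mul_le_mul_of_nonneg_right ?_ (norm_nonneg _)
          refine (norm_sum_le _ _).trans (Finset.sum_le_sum fun g _ => ?_)
          rw [norm_mul, norm_star]
          exact mul_le_mul_of_nonneg_left (hb g h) (norm_nonneg _)
      _ = 2 * (∑ g, ‖U g l‖) ^ 2 := by
          rw [← Finset.mul_sum, ← Finset.sum_mul]
          ring
      _ ≤ 2 * p := by linarith
  · have h1 : c.trace = (Uᴴ * c * U).trace := by
      rw [Matrix.mul_assoc, Matrix.trace_mul_comm, Matrix.mul_assoc, hU2, Matrix.mul_one]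
    rw [h1, hD, Matrix.trace_diagonal, Complex.re_sum]
    simp

/-- compression of a contraction -/
theorem psd_compress {p N : ℕ} (Y : Matrix (Fin p) (Fin p) ℂ) (e : Fin N → Fin p)
    (he : Function.Injective e) (h : (1 - Y * Yᴴ).PosSemidef) :
    (1 - Y.submatrix e e * (Y.submatrix e e)ᴴ).PosSemidef := by
  classical
  have h1 : (1 - Y.submatrix e e * (Y.submatrix e e)ᴴ) = (1 - Y * Yᴴ).submatrix e e +
      (Y.submatrix e id) * Matrix.diagonal (fun k => if k ∈ Set.range e then (0 : ℂ) else 1) *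
        (Y.submatrix e id)ᴴ := by
    ext i j
    rw [Matrix.sub_apply, Matrix.add_apply, Matrix.submatrix_apply, Matrix.sub_apply,
      Matrix.mul_apply, Matrix.mul_apply, Matrix.mul_apply]
    have h2 : (1 : Matrix (Fin N) (Fin N) ℂ) i j = (1 : Matrix (Fin p) (Fin p) ℂ) (e i) (e j) := by
      rw [Matrix.one_apply, Matrix.one_apply]
      by_cases hij : i = j
      · rw [if_pos hij, if_pos (by rw [hij])]
      · rw [if_neg hij, if_neg (fun h => hij (he h))]
    have h3 : ∑ k, Y (e i) k * Yᴴ k (e j) = ∑ k, Y.submatrix e e i k * (Y.submatrix e e)ᴴ k j +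
        ∑ k, (Y.submatrix e id * Matrix.diagonal
          (fun k => if k ∈ Set.range e then (0 : ℂ) else 1)) i k * (Y.submatrix e id)ᴴ k j := by
      have h4 : ∑ k, Y.submatrix e e i k * (Y.submatrix e e)ᴴ k j =
          ∑ k ∈ Finset.univ.image e, Y (e i) k * Yᴴ k (e j) := by
        rw [Finset.sum_image (fun a _ b _ hab => he hab)]
        rfl
      have h5 : ∑ k, (Y.submatrix e id * Matrix.diagonal
          (fun k => if k ∈ Set.range e then (0 : ℂ) else 1)) i k * (Y.submatrix e id)ᴴ k j =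
          ∑ k ∈ (Finset.univ.image e)ᶜ, Y (e i) k * Yᴴ k (e j) := by
        rw [← Finset.sum_add_sum_compl (Finset.univ.image e), Finset.sum_eq_zero, zero_add]
        · refine Finset.sum_congr rfl fun k hk => ?_
          rw [Finset.mem_compl, Finset.mem_image] at hk
          rw [Matrix.mul_diagonal, if_neg, mul_one]
          · rfl
          · rintro ⟨x, hx⟩
            exact hk ⟨x, Finset.mem_univ _, hx⟩
        · intro k hk
          rw [Finset.mem_image] at hk
          obtain ⟨x, _, hx⟩ := hk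
          rw [Matrix.mul_diagonal, if_pos ⟨x, hx⟩, mul_zero, zero_mul]
      rw [h4, h5, Finset.sum_add_sum_compl]
    rw [h2, h3]
    ring
  rw [h1]
  refine Matrix.PosSemidef.add (h.submatrix e) ?_
  refine Matrix.PosSemidef.mul_mul_conjTranspose_same ?_ _
  refine Matrix.PosSemidef.diagonal ?_
  intro k
  show (0 : ℂ) ≤ if k ∈ Set.range e then (0 : ℂ) else 1
  split_ifs
  · exact le_rfl
  · exact zero_le_one

section mix

variable {A : Type u} [CStarAlgebra A] {p : ℕ}

/-- the family `w · M` -/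
noncomputable def mix (w : Fin p → A) (M : Matrix (Fin p) (Fin p) ℂ) (l : Fin p) : A :=
  ∑ g, M g l • w g

theorem mix_mix (w : Fin p → A) (M N : Matrix (Fin p) (Fin p) ℂ) (l : Fin p) :
    mix (mix w M) N l = mix w (M * N) l := by
  unfold mix
  simp_rw [Finset.smul_sum, smul_smul, Matrix.mul_apply, Finset.sum_smul]
  rw [Finset.sum_comm]
  exact Finset.sum_congr rfl fun g _ => Finset.sum_congr rfl fun k _ => by rw [mul_comm]

theorem mix_sub (w w' : Fin p → A) (M : Matrix (Fin p) (Fin p) ℂ) (l : Fin p) :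
    mix w M l - mix w' M l = mix (fun g => w g - w' g) M l := by
  unfold mix
  rw [← Finset.sum_sub_distrib]
  exact Finset.sum_congr rfl fun g _ => by rw [smul_sub]

theorem mul_mix (x : A) (w : Fin p → A) (M : Matrix (Fin p) (Fin p) ℂ) (l : Fin p) :
    x * mix w M l = mix (fun g => x * w g) M l := by
  unfold mix
  rw [Finset.mul_sum]
  exact Finset.sum_congr rfl fun g _ => by rw [mul_smul_comm]

theorem star_mix_mul_mix (w : Fin p → A) (M : Matrix (Fin p) (Fin p) ℂ) (k l : Fin p) :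
    star (mix w M k) * mix w M l = ∑ g, ∑ h, (star (M g k) * M h l) • (star (w g) * w h) := by
  unfold mix
  rw [star_sum, Finset.sum_mul]
  refine Finset.sum_congr rfl fun g _ => ?_
  rw [Finset.mul_sum]
  refine Finset.sum_congr rfl fun h _ => ?_
  rw [star_smul, smul_mul_smul_comm]

theorem sum_mix_mul_star (w : Fin p → A) (M : Matrix (Fin p) (Fin p) ℂ) (hM : M * Mᴴ = 1) :
    ∑ l, mix w M l * star (mix w M l) = ∑ g, w g * star (w g) := by
  have h1 : ∀ l, mix w M l * star (mix w M l) =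
      ∑ g, ∑ h, (M g l * star (M h l)) • (w g * star (w h)) := by
    intro l
    unfold mix
    rw [star_sum, Finset.sum_mul]
    refine Finset.sum_congr rfl fun g _ => ?_
    rw [Finset.mul_sum]
    refine Finset.sum_congr rfl fun h _ => ?_
    rw [star_smul, smul_mul_smul_comm]
  simp_rw [h1]
  rw [Finset.sum_comm]
  refine Finset.sum_congr rfl fun g _ => ?_
  rw [Finset.sum_comm]
  have h2 : ∀ h, ∑ l, (M g l * star (M h l)) • (w g * star (w h)) =
      (if g = h then (1 : ℂ) else 0) • (w g * star (w h)) := by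
    intro h
    rw [← Finset.sum_smul]
    congr 1
    have h3 := congrFun (congrFun hM g) h
    rw [Matrix.mul_apply, Matrix.one_apply] at h3
    exact h3
  simp_rw [h2]
  rw [Finset.sum_eq_single g]
  · rw [if_pos rfl, one_smul]
  · intro h _ hh
    rw [if_neg (Ne.symm hh), zero_smul]
  · intro h
    exact absurd (Finset.mem_univ _) h

end mix

section traces

variable {A : Type u} [CStarAlgebra A] [PartialOrder A] [StarOrderedRing A]

theorem tr_add (T : TS A) (x y : A) : tr T (x + y) = tr T x + tr T y := by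
  unfold tr
  rw [map_add, Complex.add_re]

theorem tr_sub (T : TS A) (x y : A) : tr T (x - y) = tr T x - tr T y := by
  unfold tr
  rw [map_sub, Complex.sub_re]

theorem tr_rsmul (T : TS A) (r : ℝ) (x : A) : tr T (r • x) = r * tr T x := by
  unfold tr
  have h : r • x = (r : ℂ) • x := (Complex.coe_smul r x).symm
  rw [h, map_smul, smul_eq_mul, Complex.re_ofReal_mul]

theorem tr_sum (T : TS A) {ι : Type*} (s : Finset ι) (f : ι → A) :
    tr T (∑ i ∈ s, f i) = ∑ i ∈ s, tr T (f i) := by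
  unfold tr
  rw [map_sum, Complex.re_sum]

theorem n2_eq (T : TS A) (x : A) : n2 T x = tr T (star x * x) := rfl

theorem n2_smul (T : TS A) (c : ℂ) (x : A) : n2 T (c • x) = ‖c‖ ^ 2 * n2 T x := by
  unfold n2
  have h : star (c • x) * (c • x) = ((‖c‖ ^ 2 : ℝ) : ℂ) • (star x * x) := by
    rw [star_smul, smul_mul_smul_comm]
    congr 1
    rw [RCLike.star_def, Complex.conj_mul']
    push_cast
    rfl
  rw [h, map_smul, smul_eq_mul, Complex.re_ofReal_mul]

theorem n2_rsmul (T : TS A) (r : ℝ) (x : A) : n2 T (r • x) = r ^ 2 * n2 T x := by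
  have h : r • x = (r : ℂ) • x := (Complex.coe_smul r x).symm
  rw [h, n2_smul, Complex.norm_real, Real.norm_eq_abs, sq_abs]

theorem n2_nonneg (T : TS A) (x : A) : 0 ≤ n2 T x := (T.1.pos x).1

theorem n2_zero (T : TS A) : n2 T (0 : A) = 0 := by
  unfold n2
  simp

theorem sqrt_n2_sum (hB : StBAS.{u}) (T : TS A) {ι : Type*} (s : Finset ι) (f : ι → A) :
    √(n2 T (∑ i ∈ s, f i)) ≤ ∑ i ∈ s, √(n2 T (f i)) := by
  classical
  obtain ⟨-, -, -, -, h5, -⟩ := hB A T
  induction s using Finset.induction_on with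
  | empty => simp [n2_zero]
  | insert a s ha ih =>
    rw [Finset.sum_insert ha, Finset.sum_insert ha]
    exact (h5 _ _).trans (add_le_add le_rfl ih)

theorem q_facts {a : A} (ha : ‖a‖ ≤ 1) : 0 ≤ star a * a ∧ star a * a ≤ 1 := by
  refine ⟨star_mul_self_nonneg a, ?_⟩
  rw [← CStarAlgebra.norm_le_one_iff_of_nonneg _ (star_mul_self_nonneg a),
    CStarRing.norm_star_mul_self]
  exact mul_le_one₀ ha (norm_nonneg _) ha

/-- parallelogram -/
theorem tr_q_sub (hB : StBAS.{u}) (T : TS A) {q : A} (hq : 0 ≤ q) (y1 y2 : A) :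
    tr T (q * (star (y1 - y2) * (y1 - y2))) ≤
      2 * tr T (q * (star y1 * y1)) + 2 * tr T (q * (star y2 * y2)) := by
  obtain ⟨-, -, -, -, -, h6, -⟩ := hB A T
  have h1 := h6 q (star (y1 + y2) * (y1 + y2)) hq (star_mul_self_nonneg _)
  have h2 : q * (star (y1 - y2) * (y1 - y2)) + q * (star (y1 + y2) * (y1 + y2)) =
      (2 : ℝ) • (q * (star y1 * y1)) + (2 : ℝ) • (q * (star y2 * y2)) := by
    rw [star_sub, star_add, two_smul, two_smul]
    noncomm_ring
  have h3 := congrArg (tr T) h2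
  rw [tr_add, tr_add, tr_rsmul, tr_rsmul] at h3
  linarith

theorem tr_q_le (hB : StBAS.{u}) (T : TS A) {q : A} (hq : q ≤ 1) (y : A) :
    tr T (q * (star y * y)) ≤ n2 T y := by
  obtain ⟨-, -, -, -, -, h6, -⟩ := hB A T
  have h1 := h6 (1 - q) (star y * y) (sub_nonneg.2 hq) (star_mul_self_nonneg _)
  rw [sub_mul, one_mul, tr_sub] at h1
  exact sub_nonneg.1 h1

theorem tr_q_one (hB : StBAS.{u}) (T : TS A) {q : A} (hq0 : 0 ≤ q) (hq : q ≤ 1) :
    tr T (q * (star (1 - q) * (1 - q))) ≤ tr T q - tr T (q * q) := by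
  obtain ⟨-, -, -, -, -, -, h7, -⟩ := hB A T
  have hs : star q = q := (IsSelfAdjoint.of_nonneg hq0).star_eq
  have h1 := h7 0 (1 - q) q (sub_nonneg.2 hq)
  have h2 : q * (star (1 - q) * (1 - q)) + star q * (1 - q) * q = q - q * q := by
    rw [star_sub, star_one, hs]
    noncomm_ring
  have h3 := congrArg (tr T) h2
  rw [tr_add, tr_sub] at h3
  have h4 : tr T (star q * 0 * q) = 0 := by
    rw [mul_zero, zero_mul]
    unfold tr
    simp
  linarith

/-- lower bound for the mass of a block -/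
theorem mass_ge (hB : StBAS.{u}) (hC : StCUT.{u}) (T : TS A) (X : Finset A) {W : ℝ} (hW : 0 ≤ W)
    (β : Blk A) (hN : 0 < β.N) {q : A} (hq0 : 0 ≤ q) (hq1 : q ≤ 1) {d1 d2 : ℝ} (hd2 : 0 ≤ d2)
    (h1 : ∀ k l, n2 T (star (β.b k) * β.b l - (if k = l then q else 0)) ≤ d1)
    (h2 : tr T q - tr T (q * q) ≤ d2) :
    β.N * tr T q - W * ((β.N : ℝ) ^ 3 * ((β.N : ℝ) ^ 2 * (2 * d1 + 2 * d2))) -
      W * ∑ x ∈ X, ∑ l, n2 T (β.e x l) ≤ β.mass W X T := by
  have hN0 : (0 : ℝ) < β.N := by exact_mod_cast hN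
  have hg : ∀ k l, tr T (q * (star (β.g k l) * β.g k l)) ≤ 2 * d1 + 2 * d2 := by
    intro k l
    have e1 : β.g k l = (star (β.b k) * β.b l - (if k = l then q else 0)) -
        (if k = l then 1 - q else 0) := by
      unfold Blk.g
      split_ifs
      · abel
      · abel
    rw [e1]
    refine (tr_q_sub hB T hq0 _ _).trans ?_
    have e2 := (tr_q_le hB T hq1 (star (β.b k) * β.b l - (if k = l then q else 0))).trans (h1 k l)
    have e3 : tr T (q * (star (if k = l then 1 - q else 0) * (if k = l then 1 - q else 0))) ≤ d2 := by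
      split_ifs
      · exact (tr_q_one hB T hq0 hq1).trans h2
      · rw [mul_zero, mul_zero]
        unfold tr
        simpa using hd2
    linarith
  have hR : tr T (q * β.R W X) ≤ W * ((β.N : ℝ) ^ 2 * ((β.N : ℝ) ^ 2 * (2 * d1 + 2 * d2)) +
      1 / (β.N : ℝ) * ∑ x ∈ X, ∑ l, n2 T (β.e x l)) := by
    unfold Blk.R
    rw [mul_smul_comm, tr_rsmul]
    refine mul_le_mul_of_nonneg_left ?_ hW
    rw [mul_add, tr_add, mul_smul_comm, mul_smul_comm, tr_rsmul, tr_rsmul]
    refine add_le_add (mul_le_mul_of_nonneg_left ?_ (by positivity))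
      (mul_le_mul_of_nonneg_left ?_ (by positivity))
    · rw [Finset.mul_sum, tr_sum]
      calc ∑ k, tr T (q * ∑ l, star (β.g k l) * β.g k l) ≤ ∑ _k : Fin β.N, ∑ _l : Fin β.N,
            (2 * d1 + 2 * d2) := by
            refine Finset.sum_le_sum fun k _ => ?_
            rw [Finset.mul_sum, tr_sum]
            exact Finset.sum_le_sum fun l _ => hg k l
        _ = (β.N : ℝ) ^ 2 * (2 * d1 + 2 * d2) := by
            simp only [Finset.sum_const, Finset.card_univ, Fintype.card_fin, nsmul_eq_mul]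
            ring
    · rw [Finset.mul_sum, tr_sum]
      refine Finset.sum_le_sum fun x _ => ?_
      rw [Finset.mul_sum, tr_sum]
      exact Finset.sum_le_sum fun l _ => tr_q_le hB T hq1 _
  have hR0 : 0 ≤ β.R W X := by
    unfold Blk.R
    refine smul_nonneg hW (add_nonneg (smul_nonneg (by positivity) ?_)
      (smul_nonneg (by positivity) ?_))
    · exact Finset.sum_nonneg fun k _ => Finset.sum_nonneg fun l _ => star_mul_self_nonneg _
    · exact Finset.sum_nonneg fun k _ => Finset.sum_nonneg fun l _ => star_mul_self_nonneg _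
  obtain ⟨-, -, -, -, h5⟩ := hC A (β.R W X) 0 hR0 le_rfl
  have h6 := (h5 T).2.2 q hq0 hq1
  unfold Blk.mass
  have h7 : tr T q - W * ((β.N : ℝ) ^ 2 * ((β.N : ℝ) ^ 2 * (2 * d1 + 2 * d2)) +
      1 / (β.N : ℝ) * ∑ x ∈ X, ∑ l, n2 T (β.e x l)) ≤ tr T (cc (β.R W X)) := by linarith
  have h8 := mul_le_mul_of_nonneg_left h7 hN0.le
  refine le_trans (le_of_eq ?_) h8
  field_simp
  ring

/-- the Gram matrix of the new vectors -/
theorem gram_eq {p : ℕ} (b : Fin p → A) (a : A) (U c : Matrix (Fin p) (Fin p) ℂ) (d : Fin p → ℝ)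
    (hD : Uᴴ * c * U = Matrix.diagonal (fun l => (d l : ℂ))) (k l : Fin p) :
    star (mix (fun g => b g * a) U k) * mix (fun g => b g * a) U l -
      (if k = l then ((d l : ℝ) : ℂ) else 0) • (star a * a) =
    ∑ g, ∑ h, (star (U g k) * U h l) • (star a * (star (b g) * b h) * a - c g h • (star a * a)) := by
  rw [star_mix_mul_mix]
  have h1 : (if k = l then ((d l : ℝ) : ℂ) else 0) = ∑ g, ∑ h, star (U g k) * U h l * c g h := by
    have h2 := congrFun (congrFun hD k) l
    rw [Matrix.diagonal_apply] at h2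
    have h3 : (if k = l then ((d l : ℝ) : ℂ) else 0) = if k = l then ((d k : ℝ) : ℂ) else 0 := by
      by_cases hkl : k = l
      · rw [if_pos hkl, if_pos hkl, hkl]
      · rw [if_neg hkl, if_neg hkl]
    rw [h3, ← h2, Matrix.mul_apply, Finset.sum_comm]
    refine Finset.sum_congr rfl fun h _ => ?_
    rw [Matrix.mul_apply, Finset.sum_mul]
    refine Finset.sum_congr rfl fun g _ => ?_
    rw [Matrix.conjTranspose_apply]
    ring
  rw [h1, Finset.sum_smul, ← Finset.sum_sub_distrib]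
  refine Finset.sum_congr rfl fun g _ => ?_
  rw [Finset.sum_smul, ← Finset.sum_sub_distrib]
  refine Finset.sum_congr rfl fun h _ => ?_
  rw [smul_sub, smul_smul, star_mul]
  simp only [mul_assoc]

theorem gram_n2 (hB : StBAS.{u}) (T : TS A) {p : ℕ} (b : Fin p → A) (a : A)
    (U c : Matrix (Fin p) (Fin p) ℂ) (d : Fin p → ℝ)
    (hD : Uᴴ * c * U = Matrix.diagonal (fun l => (d l : ℂ))) (hU : ∀ g l, ‖U g l‖ ≤ 1) {r : ℝ}
    (hr : 0 ≤ r) (h : ∀ g h, n2 T (star a * (star (b g) * b h) * a - c g h • (star a * a)) ≤ r)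
    (k l : Fin p) :
    n2 T (star (mix (fun g => b g * a) U k) * mix (fun g => b g * a) U l -
      (if k = l then ((d l : ℝ) : ℂ) else 0) • (star a * a)) ≤ (p : ℝ) ^ 4 * r := by
  rw [gram_eq b a U c d hD k l]
  have h1 : √(n2 T (∑ g, ∑ h, (star (U g k) * U h l) •
      (star a * (star (b g) * b h) * a - c g h • (star a * a)))) ≤ (p : ℝ) ^ 2 * √r := by
    refine (sqrt_n2_sum hB T _ _).trans ?_
    have h2 : ∀ g : Fin p, √(n2 T (∑ h, (star (U g k) * U h l) •
        (star a * (star (b g) * b h) * a - c g h • (star a * a)))) ≤ p * √r := by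
      intro g
      refine (sqrt_n2_sum hB T _ _).trans ?_
      have h3 : ∀ h' : Fin p, √(n2 T ((star (U g k) * U h' l) •
          (star a * (star (b g) * b h') * a - c g h' • (star a * a)))) ≤ √r := by
        intro h'
        refine Real.sqrt_le_sqrt ?_
        rw [n2_smul]
        have h4 : ‖star (U g k) * U h' l‖ ≤ 1 := by
          rw [norm_mul, norm_star]
          exact mul_le_one₀ (hU _ _) (norm_nonneg _) (hU _ _)
        calc ‖star (U g k) * U h' l‖ ^ 2 * n2 T _ ≤ 1 * n2 T _ :=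
              mul_le_mul_of_nonneg_right (pow_le_one₀ (norm_nonneg _) h4) (n2_nonneg _ _)
          _ ≤ r := by
              rw [one_mul]
              exact h g h'
      refine (Finset.sum_le_sum fun h' _ => h3 h').trans ?_
      simp
    refine (Finset.sum_le_sum fun g _ => h2 g).trans ?_
    simp only [Finset.sum_const, Finset.card_univ, Fintype.card_fin, nsmul_eq_mul]
    apply le_of_eq
    ring
  have h5 := Real.sqrt_le_left (x := n2 T (∑ g, ∑ h, (star (U g k) * U h l) •
      (star a * (star (b g) * b h) * a - c g h • (star a * a)))) (y := (p : ℝ) ^ 2 * √r) 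
  have h6 := (Real.sqrt_le_iff.1 h1).2
  refine h6.trans (le_of_eq ?_)
  rw [mul_pow, Real.sq_sqrt hr]
  ring

theorem gram_tr (hB : StBAS.{u}) (hRQ : StRQ.{u}) (T : TS A) {p : ℕ} (b : Fin p → A) (a : A)
    (U c : Matrix (Fin p) (Fin p) ℂ) (d : Fin p → ℝ)
    (hD : Uᴴ * c * U = Matrix.diagonal (fun l => (d l : ℂ))) (hU : ∀ g l, ‖U g l‖ ≤ 1)
    (hb : ∀ g, ‖b g‖ ≤ 1) (ha : ‖a‖ ≤ 1) (hc : ∀ g h, ‖c g h‖ ≤ 2) {θ t : ℝ} (hθ : 0 ≤ θ)
    (ht : t = tr T (star a * a)) (h : ∀ g h, n2 T (star a * (star (b g) * b h) * a -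
      c g h • (star a * a)) ≤ θ * t) (hqq : t - tr T (star a * a * (star a * a)) ≤ θ * t)
    (k l : Fin p) :
    ‖T.1.f (star (mix (fun g => b g * a) U k) * mix (fun g => b g * a) U l) -
      (if k = l then ((d l * t : ℝ) : ℂ) else 0)‖ ≤ (p : ℝ) ^ 2 * (4 * √θ) * t := by
  have hq := (q_facts ha).1
  obtain ⟨-, -, -, -, -, -, -, -, h9⟩ := hB A T
  have hq2 : T.1.f (star a * a) = ((t : ℝ) : ℂ) := by
    rw [ht]
    exact h9 _ (IsSelfAdjoint.of_nonneg hq)
  have h1 : T.1.f (star (mix (fun g => b g * a) U k) * mix (fun g => b g * a) U l) -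
      (if k = l then ((d l * t : ℝ) : ℂ) else 0) =
      ∑ g, ∑ h, (star (U g k) * U h l) *
        (T.1.f (star a * (star (b g) * b h) * a) - c g h * ((t : ℝ) : ℂ)) := by
    have h2 := congrArg (fun z => T.1.f z) (gram_eq b a U c d hD k l)
    simp only [map_sub, map_smul, map_sum, hq2, smul_eq_mul] at h2
    rw [← h2]
    by_cases hkl : k = l
    · rw [if_pos hkl, if_pos hkl]
      push_cast
      rfl
    · rw [if_neg hkl, if_neg hkl, zero_mul]
  rw [h1]
  have h3 : ∀ g h', ‖T.1.f (star a * (star (b g) * b h') * a) - c g h' * ((t : ℝ) : ℂ)‖ ≤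
      4 * √θ * t := by
    intro g h'
    refine hRQ A T a (star (b g) * b h') (c g h') θ t ha ?_ (hc g h') hθ ht (h g h') hqq
    refine (norm_mul_le _ _).trans ?_
    rw [norm_star]
    exact mul_le_one₀ (hb _) (norm_nonneg _) (hb _)
  calc ‖∑ g, ∑ h, (star (U g k) * U h l) *
        (T.1.f (star a * (star (b g) * b h) * a) - c g h * ((t : ℝ) : ℂ))‖
      ≤ ∑ _g : Fin p, ∑ _h : Fin p, 4 * √θ * t := by
        refine (norm_sum_le _ _).trans (Finset.sum_le_sum fun g _ => ?_)
        refine (norm_sum_le _ _).trans (Finset.sum_le_sum fun h' _ => ?_)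
        rw [norm_mul]
        have h4 : ‖star (U g k) * U h' l‖ ≤ 1 := by
          rw [norm_mul, norm_star]
          exact mul_le_one₀ (hU _ _) (norm_nonneg _) (hU _ _)
        calc ‖star (U g k) * U h' l‖ * ‖T.1.f (star a * (star (b g) * b h') * a) -
              c g h' * ((t : ℝ) : ℂ)‖ ≤ 1 * (4 * √θ * t) :=
              mul_le_mul h4 (h3 g h') (norm_nonneg _) zero_le_one
          _ = 4 * √θ * t := one_mul _
    _ = (p : ℝ) ^ 2 * (4 * √θ) * t := by
        simp only [Finset.sum_const, Finset.card_univ, Fintype.card_fin, nsmul_eq_mul]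
        ring

/-- the errors of the new vectors -/
theorem err_le (hL : StLN.{u}) (T : TS A) {p : ℕ} (b : Fin p → A) (a x : A)
    (U Y : Matrix (Fin p) (Fin p) ℂ) (hU : U * Uᴴ = 1) {r : ℝ}
    (h : ∑ g, n2 T ((x * b g - ∑ h, Y h g • b h) * a) ≤ r) :
    ∑ l, n2 T (x * mix (fun g => b g * a) U l -
      ∑ k, (Uᴴ * Y * U) k l • mix (fun g => b g * a) U k) ≤ r := by
  have h1 : ∀ l, x * mix (fun g => b g * a) U l -
      ∑ k, (Uᴴ * Y * U) k l • mix (fun g => b g * a) U k =
      ∑ g, U g l • ((x * b g - ∑ h, Y h g • b h) * a) := by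
    intro l
    have h2 : ∑ k, (Uᴴ * Y * U) k l • mix (fun g => b g * a) U k =
        mix (mix (fun g => b g * a) Y) U l := by
      rw [mix_mix]
      have h3 : mix (mix (fun g => b g * a) U) (Uᴴ * Y * U) l =
          mix (fun g => b g * a) (U * (Uᴴ * Y * U)) l := mix_mix _ _ _ _
      rw [← Matrix.mul_assoc, ← Matrix.mul_assoc, hU, Matrix.one_mul] at h3
      exact h3
    rw [h2, mul_mix, mix_sub]
    refine Finset.sum_congr rfl fun g _ => ?_
    congr 1
    show x * (b g * a) - ∑ h, Y h g • (b h * a) = (x * b g - ∑ h, Y h g • b h) * a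
    rw [sub_mul, Finset.sum_mul, mul_assoc]
    congr 1
    exact Finset.sum_congr rfl fun h _ => (smul_mul_assoc _ _ _).symm
  simp_rw [h1]
  refine (hL A T p U (fun g => (x * b g - ∑ h, Y h g • b h) * a) ?_).trans h
  rw [hU, sub_self]
  exact Matrix.PosSemidef.zero

/-! ### the blocks -/

/-- the block of a set `E` of indices -/
noncomputable def blk {p : ℕ} (v : Fin p → A) (d : Fin p → ℝ)
    (Yt : A → Matrix (Fin p) (Fin p) ℂ) (E : Finset (Fin p)) : Blk A where
  N := E.card
  b i := (1 / √(d (E.equivFin.symm i))) • v (E.equivFin.symm i)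
  y x := (Yt x).submatrix (fun i => (E.equivFin.symm i : Fin p))
    (fun i => (E.equivFin.symm i : Fin p))

theorem sum_enum {p : ℕ} {G : Type*} [AddCommMonoid G] (E : Finset (Fin p)) (F : Fin p → G) :
    ∑ i : Fin E.card, F (E.equivFin.symm i) = ∑ l ∈ E, F l := by
  rw [Equiv.sum_comp E.equivFin.symm (fun l : E => F l), Finset.sum_coe_sort E F]

theorem enum_inj {p : ℕ} (E : Finset (Fin p)) :
    Function.Injective (fun i : Fin E.card => (E.equivFin.symm i : Fin p)) :=
  Subtype.val_injective.comp E.equivFin.symm.injective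

theorem blk_e {p : ℕ} (T : TS A) (v : Fin p → A) (d : Fin p → ℝ)
    (Yt : A → Matrix (Fin p) (Fin p) ℂ) (E : Finset (Fin p)) (x : A) :
    ∑ l, n2 T ((blk v d Yt E).e x l) = ∑ l ∈ E, n2 T ((1 / √(d l)) • (x * v l) -
        ∑ k ∈ E, Yt x k l • ((1 / √(d k)) • v k)) := by
  rw [← sum_enum E (fun l => n2 T ((1 / √(d l)) • (x * v l) -
        ∑ k ∈ E, Yt x k l • ((1 / √(d k)) • v k)))]
  refine Finset.sum_congr rfl fun i _ => ?_
  show n2 T (x * ((1 / √(d (E.equivFin.symm i))) • v (E.equivFin.symm i)) -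
    ∑ k : Fin E.card, Yt x (E.equivFin.symm k) (E.equivFin.symm i) •
      ((1 / √(d (E.equivFin.symm k))) • v (E.equivFin.symm k))) = _
  rw [sum_enum E (fun k => Yt x k (E.equivFin.symm i) • ((1 / √(d k)) • v k)), mul_smul_comm]

theorem blk_amp {p : ℕ} (v : Fin p → A) (d : Fin p → ℝ)
    (Yt : A → Matrix (Fin p) (Fin p) ℂ) (E : Finset (Fin p)) :
    (blk v d Yt E).amp 1 = ∑ l ∈ E, (1 / √(d l) * (1 / √(d l))) • (v l * star (v l)) := by
  rw [← sum_enum E (fun l => (1 / √(d l) * (1 / √(d l))) • (v l * star (v l)))]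
  refine Finset.sum_congr rfl fun i _ => ?_
  show ((1 / √(d (E.equivFin.symm i))) • v (E.equivFin.symm i)) * 1 *
    star ((1 / √(d (E.equivFin.symm i))) • v (E.equivFin.symm i)) = _
  rw [mul_one, star_smul, smul_mul_smul_comm]
  rfl

theorem blk_gram {p : ℕ} (T : TS A) (v : Fin p → A) (d : Fin p → ℝ)
    (Yt : A → Matrix (Fin p) (Fin p) ℂ) (E : Finset (Fin p)) (q : A) {σ r : ℝ} (hσ : 0 < σ)
    (hd : ∀ l ∈ E, σ < d l)
    (h : ∀ k l, n2 T (star (v k) * v l - (if k = l then ((d l : ℝ) : ℂ) else 0) • q) ≤ r)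
    (k l : Fin E.card) :
    n2 T (star ((blk v d Yt E).b k) * (blk v d Yt E).b l - (if k = l then q else 0)) ≤
      r / σ ^ 2 := by
  set k' : Fin p := (E.equivFin.symm k : Fin p) with hk'
  set l' : Fin p := (E.equivFin.symm l : Fin p) with hl'
  have hdk : σ < d k' := hd k' (E.equivFin.symm k).2
  have hdl : σ < d l' := hd l' (E.equivFin.symm l).2
  have hk0 : 0 < d k' := hσ.trans hdk
  have hl0 : 0 < d l' := hσ.trans hdl
  have hkl : (k = l) ↔ (k' = l') := ⟨fun h => by rw [hk', hl', h], fun h => enum_inj E h⟩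
  have h1 : star ((blk v d Yt E).b k) * (blk v d Yt E).b l - (if k = l then q else 0) =
      (1 / √(d k') * (1 / √(d l'))) • (star (v k') * v l' -
        (if k' = l' then ((d l' : ℝ) : ℂ) else 0) • q) := by
    show star ((1 / √(d k')) • v k') * ((1 / √(d l')) • v l') - (if k = l then q else 0) = _
    rw [star_smul, smul_mul_smul_comm, smul_sub]
    congr 1
    by_cases hh : k' = l'
    · rw [if_pos (hkl.2 hh), if_pos hh, hh, Complex.coe_smul, smul_smul]
      have e1 : 1 / √(d l') * (1 / √(d l')) * d l' = 1 := by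
        have e2 : √(d l') * √(d l') = d l' := Real.mul_self_sqrt hl0.le
        have e3 : √(d l') ≠ 0 := (Real.sqrt_pos.2 hl0).ne'
        rw [div_mul_div_comm, e2, one_mul, one_div, inv_mul_cancel₀ hl0.ne']
      rw [e1, one_smul]
    · rw [if_neg (fun h => hh (hkl.1 h)), if_neg hh, zero_smul, smul_zero]
  rw [h1, n2_rsmul]
  have h2 : (1 / √(d k') * (1 / √(d l'))) ^ 2 = 1 / (d k' * d l') := by
    rw [mul_pow, div_pow, div_pow, Real.sq_sqrt hk0.le, Real.sq_sqrt hl0.le, one_pow,
      div_mul_div_comm, one_mul]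
  have hr : 0 ≤ r := (n2_nonneg _ _).trans (h k' l')
  rw [h2, one_div, inv_mul_eq_div]
  calc n2 T (star (v k') * v l' - (if k' = l' then ((d l' : ℝ) : ℂ) else 0) • q) / (d k' * d l')
      ≤ r / (d k' * d l') := by
        exact div_le_div_of_nonneg_right (h k' l') (by positivity)
    _ ≤ r / σ ^ 2 := by
        refine div_le_div_of_nonneg_left hr (by positivity) ?_
        nlinarith

theorem blk_valid {p : ℕ} (X : Finset A) (v : Fin p → A)
    (d : Fin p → ℝ) (Yt : A → Matrix (Fin p) (Fin p) ℂ)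
    (hY : ∀ x ∈ X, Yt (star x) = (Yt x)ᴴ ∧ (1 - Yt x * (Yt x)ᴴ).PosSemidef) (E : Finset (Fin p))
    (hE : E.Nonempty) : (blk v d Yt E).Valid X := by
  refine ⟨Finset.card_pos.2 hE, fun x hx => ⟨?_, ?_⟩⟩
  · show (Yt (star x)).submatrix _ _ = ((Yt x).submatrix _ _)ᴴ
    rw [(hY x hx).1]
    rfl
  · exact psd_compress (Yt x) _ (enum_inj E) (hY x hx).2

theorem conj_valid {p : ℕ} (Y U : Matrix (Fin p) (Fin p) ℂ) (hU1 : Uᴴ * U = 1) (hU2 : U * Uᴴ = 1)
    (h : (1 - Y * Yᴴ).PosSemidef) :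
    (1 - (Uᴴ * Y * U) * (Uᴴ * Y * U)ᴴ).PosSemidef := by
  have h1 : (1 - (Uᴴ * Y * U) * (Uᴴ * Y * U)ᴴ) = Uᴴ * (1 - Y * Yᴴ) * U := by
    rw [Matrix.conjTranspose_mul, Matrix.conjTranspose_mul, Matrix.conjTranspose_conjTranspose,
      Matrix.mul_sub, Matrix.sub_mul, Matrix.mul_one, hU1]
    congr 1
    calc Uᴴ * Y * U * (Uᴴ * (Yᴴ * U)) = Uᴴ * Y * (U * Uᴴ) * (Yᴴ * U) := by
          simp only [Matrix.mul_assoc]
      _ = Uᴴ * (Y * Yᴴ) * U := by
          rw [hU2, Matrix.mul_one]
          simp only [Matrix.mul_assoc]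
  rw [h1]
  exact h.conjTranspose_mul_mul_same U

end traces

theorem sum_swap {p M : ℕ} {G : Type*} [AddCommGroup G] [Module ℝ G] (w : Fin M → ℝ)
    (E : Fin M → Finset (Fin p)) (F : Fin p → G) :
    ∑ s, w s • ∑ l ∈ E s, F l = ∑ l, (∑ s, if l ∈ E s then w s else 0) • F l := by
  have h1 : ∀ s, w s • ∑ l ∈ E s, F l = ∑ l, (if l ∈ E s then w s else 0) • F l := by
    intro s
    simp only [Finset.smul_sum, ite_smul, zero_smul, Finset.sum_ite_mem, Finset.univ_inter]
  simp_rw [h1, Finset.sum_smul]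
  exact Finset.sum_comm

end PIECEaux

open PIECEaux

theorem thm_PIECE (hB : StBAS.{u}) (hC : StCUT.{u}) (hL : StLN.{u}) (hRQ : StRQ.{u})
    (hLAY : StLAY) (hERR : StERR.{u}) : StPIECE.{u} := by
  intro A _ _ _ p X W σ η hX hW hσ hη hη1
  obtain ⟨CE, hCE0, hCE⟩ := hERR p σ η hσ hη hη1
  have hW0 : 0 ≤ W := by linarith
  refine ⟨8 * (p : ℝ) ^ 4 * (1 + 12 * W * X.card) +
    2 * W * (p : ℝ) ^ 7 * (2 * ((p : ℝ) ^ 4 / σ ^ 2) + 2) + 4 * W * X.card * CE * (p : ℝ) ^ 2,
    by positivity, ?_⟩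
  intro T b Y a c θ ε t hb hY ha hc hc2 hθ hε ht h6 h7 h8
  have ht0 : 0 ≤ t := by
    rw [ht]
    exact n2_nonneg T a
  obtain ⟨U, d, hU1, hU2, hD, hUe, hd, htr⟩ := exists_diag c hc hc2
  have hsq : 0 ≤ √θ := Real.sqrt_nonneg θ
  have hp0 : (0 : ℝ) ≤ p := Nat.cast_nonneg p
  have hXc : (0 : ℝ) ≤ X.card := Nat.cast_nonneg _
  have hsda : ∑ l, |d l| ≤ 2 * (p : ℝ) ^ 2 := by
    refine (Finset.sum_le_sum fun l _ => hd l).trans ?_
    simp only [Finset.sum_const, Finset.card_univ, Fintype.card_fin, nsmul_eq_mul]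
    apply le_of_eq
    ring
  have hsd : |∑ l, d l| ≤ 2 * (p : ℝ) ^ 2 := (Finset.abs_sum_le_sum_abs _ _).trans hsda
  rw [htr]
  set S : ℝ := ∑ l, d l with hS
  set cX : ℝ := (X.card : ℝ) with hcX
  by_cases hcase : 1 ≤ p ∧ 4 * (p : ℝ) ^ 2 * √θ ≤ 1
  swap
  · -- no blocks
    refine ⟨0, Fin.elim0, Fin.elim0, fun s => s.elim0, ?_, ?_⟩
    · rw [Finset.univ_eq_empty, Finset.sum_empty]
      refine Finset.sum_nonneg fun g _ => ?_
      have h1 : b g * (a * star a) * star (b g) = (b g * a) * star (b g * a) := by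
        rw [star_mul]
        simp only [mul_assoc]
      rw [h1]
      exact mul_star_self_nonneg _
    · rw [Finset.univ_eq_empty, Finset.sum_empty]
      refine mul_nonpos_of_nonpos_of_nonneg ?_ ht0
      have k1 : (1 - 12 * W * cX * η) * S ≤ (1 + 12 * W * cX) * (2 * (p : ℝ) ^ 2) := by
        refine (le_abs_self _).trans ?_
        rw [abs_mul]
        refine mul_le_mul ?_ hsd (abs_nonneg _) (by positivity)
        have k2 : 0 ≤ 12 * W * cX := by positivity
        rw [abs_le]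
        constructor
        · nlinarith
        · nlinarith
      have k3 : (1 + 12 * W * cX) * (2 * (p : ℝ) ^ 2) ≤ 8 * (p : ℝ) ^ 4 * (1 + 12 * W * cX) * √θ := by
        rcases Nat.eq_zero_or_pos p with hp | hp
        · rw [hp]
          norm_num
        · have hθ1 : 1 < 4 * (p : ℝ) ^ 2 * √θ := by
            by_contra h
            exact hcase ⟨hp, not_lt.1 h⟩
          have k4 : 0 ≤ (1 + 12 * W * cX) * (2 * (p : ℝ) ^ 2) := by positivity
          calc (1 + 12 * W * cX) * (2 * (p : ℝ) ^ 2)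
              ≤ (1 + 12 * W * cX) * (2 * (p : ℝ) ^ 2) * (4 * (p : ℝ) ^ 2 * √θ) :=
                le_mul_of_one_le_right k4 hθ1.le
            _ = 8 * (p : ℝ) ^ 4 * (1 + 12 * W * cX) * √θ := by ring
      have k5 : 0 ≤ (p : ℝ) * σ := by positivity
      have k6 : 0 ≤ W * cX * (15 / η) * ε := by positivity
      have k7 : 0 ≤ (2 * W * (p : ℝ) ^ 7 * (2 * ((p : ℝ) ^ 4 / σ ^ 2) + 2) +
          4 * W * cX * CE * (p : ℝ) ^ 2) * √θ := by positivity
      nlinarith
  · obtain ⟨hp1, hθ1⟩ := hcase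
    have hp1' : (1 : ℝ) ≤ p := by exact_mod_cast hp1
    have hsq1 : √θ ≤ 1 := by nlinarith
    have hθs : θ ≤ √θ := by
      have := Real.mul_self_sqrt hθ
      nlinarith
    set v : Fin p → A := mix (fun g => b g * a) U with hv
    set Yt : A → Matrix (Fin p) (Fin p) ℂ := fun x => Uᴴ * Y x * U with hYt
    obtain ⟨M, w, E, hw1, hw2, hw3⟩ := hLAY p d σ
    have hbn : ∀ g, ‖b g‖ ≤ 1 := by
      intro g
      have k1 : b g * star (b g) ≤ 1 :=
        (Finset.single_le_sum (f := fun g => b g * star (b g))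
          (fun i _ => mul_star_self_nonneg _) (Finset.mem_univ g)).trans hb
      rw [← CStarAlgebra.norm_le_one_iff_of_nonneg _ (mul_star_self_nonneg _),
        CStarRing.norm_self_mul_star] at k1
      by_contra h
      push Not at h
      nlinarith
    have hYv : ∀ x ∈ X, Yt (star x) = (Yt x)ᴴ ∧ (1 - Yt x * (Yt x)ᴴ).PosSemidef := by
      intro x hx
      refine ⟨?_, conj_valid (Y x) U hU1 hU2 (hY x hx).2⟩
      show Uᴴ * Y (star x) * U = (Uᴴ * Y x * U)ᴴ
      rw [(hY x hx).1, Matrix.conjTranspose_mul, Matrix.conjTranspose_mul,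
        Matrix.conjTranspose_conjTranspose, Matrix.mul_assoc]
    have hYv' : ∀ x ∈ X, (1 - (Yt x)ᴴ * Yt x).PosSemidef := by
      intro x hx
      have k1 := (hYv (star x) (hX x hx).2).2
      rw [(hYv x hx).1, Matrix.conjTranspose_conjTranspose] at k1
      exact k1
    have hgram : ∀ k l, ‖T.1.f (star (v k) * v l) - (if k = l then ((d l * t : ℝ) : ℂ) else 0)‖ ≤
        (p : ℝ) ^ 2 * (4 * √θ) * t :=
      fun k l => gram_tr hB hRQ T b a U c d hD hUe hbn ha hc2 hθ ht h6 h7 k l
    have hgram2 : ∀ k l, n2 T (star (v k) * v l -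
        (if k = l then ((d l : ℝ) : ℂ) else 0) • (star a * a)) ≤ (p : ℝ) ^ 4 * (θ * t) :=
      fun k l => gram_n2 hB T b a U c d hD hUe (mul_nonneg hθ ht0) h6 k l
    have herr : ∀ x ∈ X, ∑ l, n2 T (x * v l - ∑ k, Yt x k l • v k) ≤ ε * t :=
      fun x hx => err_le hL T b a x U (Y x) hU2 (h8 x hx)
    refine ⟨M, w, fun s => blk v d Yt (E s),
      fun s => ⟨(hw1 s).1, blk_valid X v d Yt hYv (E s) (hw1 s).2.1⟩, ?_, ?_⟩
    · -- the amplifications
      have k1 : ∑ s, w s • (blk v d Yt (E s)).amp 1 =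
          ∑ l, max (d l - σ) 0 • ((1 / √(d l) * (1 / √(d l))) • (v l * star (v l))) := by
        simp_rw [blk_amp]
        rw [sum_swap]
        exact Finset.sum_congr rfl fun l _ => by rw [hw2 l]
      have k2 : ∑ g, b g * (a * star a) * star (b g) = ∑ l, v l * star (v l) := by
        rw [hv, sum_mix_mul_star _ U hU2]
        refine Finset.sum_congr rfl fun g _ => ?_
        rw [star_mul]
        simp only [mul_assoc]
      rw [k1, k2]
      refine Finset.sum_le_sum fun l _ => ?_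
      rw [smul_smul]
      have k3 : max (d l - σ) 0 * (1 / √(d l) * (1 / √(d l))) ≤ 1 := by
        rcases le_or_gt (d l) σ with h | h
        · rw [max_eq_right (by linarith), zero_mul]
          exact zero_le_one
        · have h0 : 0 < d l := hσ.trans h
          rw [max_eq_left (by linarith), div_mul_div_comm, Real.mul_self_sqrt h0.le, one_mul,
            mul_one_div, div_le_one h0]
          linarith
      have k4 : v l * star (v l) - (max (d l - σ) 0 * (1 / √(d l) * (1 / √(d l)))) •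
          (v l * star (v l)) = (1 - max (d l - σ) 0 * (1 / √(d l) * (1 / √(d l)))) •
            (v l * star (v l)) := by
        rw [sub_smul, one_smul]
      rw [← sub_nonneg, k4]
      exact smul_nonneg (sub_nonneg.2 k3) (mul_star_self_nonneg _)
    · -- the mass
      obtain ⟨hq0, hq1⟩ := q_facts ha
      set S0 : ℝ := ∑ l, max (d l - σ) 0 with hS0
      have e1 : ∑ s, w s * ((E s).card : ℝ) = S0 := by
        have k1 := sum_swap w E (fun _ => (1 : ℝ))
        simp only [smul_eq_mul, mul_one, Finset.sum_const, nsmul_eq_mul] at k1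
        rw [k1, hS0]
        exact Finset.sum_congr rfl fun l _ => hw2 l
      have e2 : S - p * σ ≤ S0 := by
        have k1 : S - p * σ = ∑ l, (d l - σ) := by
          rw [Finset.sum_sub_distrib, hS]
          simp
        rw [k1]
        exact Finset.sum_le_sum fun l _ => le_max_left _ _
      have e3 : S0 ≤ 2 * (p : ℝ) ^ 2 := by
        refine le_trans (Finset.sum_le_sum fun l _ => ?_) hsda
        refine max_le ?_ (abs_nonneg _)
        have := le_abs_self (d l)
        linarith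
      have e4 : ∑ s, w s ≤ 2 * (p : ℝ) ^ 2 := by
        refine le_trans ?_ (e1.le.trans e3)
        refine Finset.sum_le_sum fun s _ => ?_
        have k1 : (1 : ℝ) ≤ ((E s).card : ℝ) := by
          exact_mod_cast Finset.card_pos.2 (hw1 s).2.1
        exact le_mul_of_one_le_right (hw1 s).1 k1
      set K : ℝ := (p : ℝ) ^ 5 * (2 * ((p : ℝ) ^ 4 * (θ * t) / σ ^ 2) + 2 * (θ * t)) with hK
      have hK0 : 0 ≤ K := by positivity
      set er : Fin M → A → ℝ := fun s x => ∑ l ∈ E s, n2 T ((1 / √(d l)) • (x * v l) -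
        ∑ k ∈ E s, Yt x k l • ((1 / √(d k)) • v k)) with her
      have hmass : ∀ s, ((E s).card : ℝ) * t - W * K - W * ∑ x ∈ X, er s x ≤
          (blk v d Yt (E s)).mass W X T := by
        intro s
        have k1 := mass_ge hB hC T X hW0 (blk v d Yt (E s)) (Finset.card_pos.2 (hw1 s).2.1)
          hq0 hq1 (mul_nonneg hθ ht0)
          (fun k l => blk_gram T v d Yt (E s) (star a * a) hσ (hw1 s).2.2 hgram2 k l)
          (by rw [← ht]; exact h7)
        have k2 : (((blk v d Yt (E s)).N : ℕ) : ℝ) = ((E s).card : ℝ) := rfl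
        rw [k2, ← ht] at k1
        have k3 : ∑ x ∈ X, ∑ l, n2 T ((blk v d Yt (E s)).e x l) = ∑ x ∈ X, er s x :=
          Finset.sum_congr rfl fun x _ => blk_e T v d Yt (E s) x
        rw [k3] at k1
        refine le_trans ?_ k1
        have k4 : ((E s).card : ℝ) ≤ p := by
          have := Finset.card_le_univ (E s)
          rw [Fintype.card_fin] at this
          exact_mod_cast this
        have k5 : ((E s).card : ℝ) ^ 3 * (((E s).card : ℝ) ^ 2 *
            (2 * ((p : ℝ) ^ 4 * (θ * t) / σ ^ 2) + 2 * (θ * t))) ≤ K := by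
          rw [hK, ← mul_assoc, ← pow_add]
          refine mul_le_mul_of_nonneg_right (pow_le_pow_left₀ (Nat.cast_nonneg _) k4 _) ?_
          have : 0 ≤ θ * t := mul_nonneg hθ ht0
          positivity
        have k6 := mul_le_mul_of_nonneg_left k5 hW0
        linarith
      have hE : ∀ x ∈ X, ∑ s, w s * er s x ≤
          (12 * η * S + 15 / η * ε + CE * ((p : ℝ) ^ 2 * (4 * √θ))) * t := by
        intro x hx
        refine hCE A T x v (Yt x) d t ((p : ℝ) ^ 2 * (4 * √θ)) ε M w E hw1 hw2 hw3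
          (hYv x hx).2 (hYv' x hx) hd ht0 (by positivity) (by linarith) hε hgram (herr x hx) ?_
        have k1 := herr (star x) (hX x hx).2
        rw [(hYv x hx).1] at k1
        exact k1
      have hfin : ∑ s, w s * (((E s).card : ℝ) * t - W * K - W * ∑ x ∈ X, er s x) ≤
          ∑ s, w s * (blk v d Yt (E s)).mass W X T :=
        Finset.sum_le_sum fun s _ => mul_le_mul_of_nonneg_left (hmass s) (hw1 s).1
      refine le_trans ?_ hfin
      have f1 : ∑ s, w s * (((E s).card : ℝ) * t - W * K - W * ∑ x ∈ X, er s x) =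
          S0 * t - W * K * ∑ s, w s - W * ∑ x ∈ X, ∑ s, w s * er s x := by
        rw [← e1, Finset.sum_comm, Finset.sum_mul, Finset.mul_sum, Finset.mul_sum,
          ← Finset.sum_sub_distrib, ← Finset.sum_sub_distrib]
        refine Finset.sum_congr rfl fun s _ => ?_
        rw [← Finset.mul_sum]
        ring
      have f2 : ∑ x ∈ X, ∑ s, w s * er s x ≤
          cX * ((12 * η * S + 15 / η * ε + CE * ((p : ℝ) ^ 2 * (4 * √θ))) * t) := by
        refine (Finset.sum_le_sum hE).trans ?_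
        rw [Finset.sum_const, nsmul_eq_mul]
      have f3 : W * K * ∑ s, w s ≤ W * K * (2 * (p : ℝ) ^ 2) :=
        mul_le_mul_of_nonneg_left e4 (mul_nonneg hW0 hK0)
      have f4 : K ≤ (p : ℝ) ^ 5 * (2 * ((p : ℝ) ^ 4 / σ ^ 2) + 2) * (√θ * t) := by
        have k1 : K = (p : ℝ) ^ 5 * (2 * ((p : ℝ) ^ 4 / σ ^ 2) + 2) * (θ * t) := by
          rw [hK]
          ring
        rw [k1]
        exact mul_le_mul_of_nonneg_left (mul_le_mul_of_nonneg_right hθs ht0) (by positivity)
      have f5 : W * K * (2 * (p : ℝ) ^ 2) ≤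
          W * ((p : ℝ) ^ 5 * (2 * ((p : ℝ) ^ 4 / σ ^ 2) + 2) * (√θ * t)) * (2 * (p : ℝ) ^ 2) :=
        mul_le_mul_of_nonneg_right (mul_le_mul_of_nonneg_left f4 hW0) (by positivity)
      have f6 : W * ∑ x ∈ X, ∑ s, w s * er s x ≤
          W * (cX * ((12 * η * S + 15 / η * ε + CE * ((p : ℝ) ^ 2 * (4 * √θ))) * t)) :=
        mul_le_mul_of_nonneg_left f2 hW0
      have f7 : (S - p * σ) * t ≤ S0 * t := mul_le_mul_of_nonneg_right e2 ht0
      have f8 : 0 ≤ 8 * (p : ℝ) ^ 4 * (1 + 12 * W * cX) * √θ * t := by positivity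
      rw [f1]
      nlinarith [f3, f5, f6, f7, f8]

end Pool.Agent.H667R5.TW
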