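import Pool.Agent.H667R5.TW.Stubs

/-!
# Toms-Winter project (helper667), task REF: spectral refinement of a piece (helper784)
-/

set_option autoImplicit false

namespace Pool.Agent.H667R5.TW

open Pool.Agent.H327R4.Pure
open scoped CStarAlgebra ComplexOrder

universe u

namespace REF

section basics

variable {A : Type u} [CStarAlgebra A] [PartialOrder A] [StarOrderedRing A]

theorem tr_add (T : TS A) (x y : A) : tr T (x + y) = tr T x + tr T y := by
  unfold tr; rw [map_add, Complex.add_re]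

theorem tr_sub (T : TS A) (x y : A) : tr T (x - y) = tr T x - tr T y := by
  unfold tr; rw [map_sub, Complex.sub_re]

theorem tr_sum (T : TS A) {ι : Type} (s : Finset ι) (f : ι → A) :
    tr T (∑ i ∈ s, f i) = ∑ i ∈ s, tr T (f i) := by
  unfold tr; rw [map_sum, Complex.re_sum]

theorem tr_cyc (T : TS A) (x y : A) : tr T (x * y) = tr T (y * x) := by
  unfold tr; rw [T.1.tr]

theorem n2_eq (T : TS A) (x : A) : n2 T x = tr T (star x * x) := rfl

theorem n2_neg (T : TS A) (x : A) : n2 T (-x) = n2 T x := by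
  unfold n2; rw [star_neg, neg_mul_neg]

/-- the standing data -/
structure Std (T : TS A) (a z : A) : Prop where
  a1 : ‖a‖ ≤ 1
  zs : IsSelfAdjoint z
  z1 : ‖z‖ ≤ 1

/-- `d = τ(q - q²)` -/
noncomputable def dd (T : TS A) (a : A) : ℝ :=
  tr T (star a * a) - tr T (star a * a * (star a * a))

theorem q0 (a : A) : 0 ≤ star a * a := star_mul_self_nonneg a

theorem qs (a : A) : star (star a * a) = star a * a := by rw [star_mul, star_star]

theorem qn {a : A} (ha : ‖a‖ ≤ 1) : ‖star a * a‖ ≤ 1 := by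
  rw [CStarRing.norm_star_mul_self]
  exact mul_le_one₀ ha (norm_nonneg _) ha

theorem q1 {a : A} (ha : ‖a‖ ≤ 1) : star a * a ≤ 1 :=
  (CStarAlgebra.norm_le_one_iff_of_nonneg _ (q0 a)).1 (qn ha)

theorem qq0 {a : A} (ha : ‖a‖ ≤ 1) : 0 ≤ star a * a - star a * a * (star a * a) := by
  have h1 : star (star a) * star a ≤ 1 := q1 (by rwa [norm_star])
  rw [star_star] at h1
  have h2 := star_left_conjugate_nonneg (sub_nonneg.2 h1) a
  have h3 : star a * (1 - a * star a) * a = star a * a - star a * a * (star a * a) := by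
    noncomm_ring
  rwa [h3] at h2

variable (hB : StBAS.{u})
include hB

theorem dd0 (T : TS A) {a : A} (ha : ‖a‖ ≤ 1) : 0 ≤ dd T a := by
  obtain ⟨b1, -⟩ := hB A T
  have := b1 _ _ (qq0 ha)
  rw [tr_sub] at this
  have h0 : tr T (0 : A) = 0 := by unfold tr; rw [map_zero]; rfl
  rw [h0] at this
  exact this

theorem trq0 (T : TS A) (a : A) : 0 ≤ tr T (star a * a) := by
  obtain ⟨-, -, -, b4, -⟩ := hB A T
  exact (b4 a).2.1

theorem trqq (T : TS A) {a : A} (ha : ‖a‖ ≤ 1) :
    tr T (star a * a * (star a * a)) ≤ tr T (star a * a) := by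
  have := dd0 hB T ha
  unfold dd at this
  linarith

theorem n2q (T : TS A) {a : A} (ha : ‖a‖ ≤ 1) : n2 T (star a * a) ≤ tr T (star a * a) := by
  rw [n2_eq, qs]
  exact trqq hB T ha

theorem n2a (T : TS A) {a z : A} (h : Std T a z) :
    n2 T (star a * z * a * (1 - star a * a)) ≤ dd T a := by
  obtain ⟨b1, b2, b3, b4, b5, b6, b7, b8, b9⟩ := hB A T
  have h1 : star a * z * a * (1 - star a * a) = (star a * z) * (a * (1 - star a * a)) := by
    noncomm_ring
  rw [h1]
  refine (b3 _ _).1.trans ?_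
  have h2 : ‖star a * z‖ ≤ 1 := by
    refine (norm_mul_le _ _).trans ?_
    rw [norm_star]
    exact mul_le_one₀ h.a1 (norm_nonneg _) h.z1
  have h3 : n2 T (a * (1 - star a * a)) ≤ dd T a := by
    have e1 : star (a * (1 - star a * a)) * (a * (1 - star a * a)) =
        (1 - star a * a) * ((star a * a) * (1 - star a * a)) := by
      rw [star_mul, star_sub, star_one, qs]
      noncomm_ring
    rw [n2_eq, e1, tr_cyc]
    have e2 : star a * a * (1 - star a * a) * (1 - star a * a) =
        (star a * a - star a * a * (star a * a)) -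
          (star a * a) * (star a * a - star a * a * (star a * a)) := by noncomm_ring
    rw [e2, tr_sub, tr_sub]
    have := b6 _ _ (q0 a) (qq0 h.a1)
    unfold dd
    linarith
  calc ‖star a * z‖ ^ 2 * n2 T (a * (1 - star a * a)) ≤ 1 * n2 T (a * (1 - star a * a)) := by
        apply mul_le_mul_of_nonneg_right _ (b4 _).2.1
        exact pow_le_one₀ (norm_nonneg _) h2
    _ ≤ dd T a := by rw [one_mul]; exact h3

theorem zs' {T : TS A} {a z : A} (h : Std T a z) : IsSelfAdjoint (star a * z * a) := by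
  have : star (star a * z * a) = star a * z * a := by
    rw [star_mul, star_mul, star_star, h.zs.star_eq, mul_assoc]
  exact this

theorem zn' {T : TS A} {a z : A} (h : Std T a z) : ‖star a * z * a‖ ≤ 1 := by
  refine (norm_mul_le _ _).trans ?_
  refine mul_le_one₀ ?_ (norm_nonneg _) h.a1
  refine (norm_mul_le _ _).trans ?_
  rw [norm_star]
  exact mul_le_one₀ h.a1 (norm_nonneg _) h.z1

/-- `‖[z', q]‖₂ ≤ 2 √d` -/
theorem comz (T : TS A) {a z : A} (h : Std T a z) :
    √(n2 T (star a * z * a * (star a * a) - star a * a * (star a * z * a))) ≤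
      2 * √(dd T a) := by
  obtain ⟨b1, b2, b3, b4, b5, b6, b7, b8, b9⟩ := hB A T
  have hz := (zs' hB h).star_eq
  have e1 : star a * z * a * (star a * a) - star a * a * (star a * z * a) =
      star (star a * z * a * (1 - star a * a)) + (-(star a * z * a * (1 - star a * a))) := by
    rw [star_mul, hz, star_sub, star_one, qs]
    noncomm_ring
  rw [e1]
  refine (b5 _ _).trans ?_
  rw [n2_neg, (b4 _).1]
  have := Real.sqrt_le_sqrt (n2a hB T h)
  linarith

end basics

/-! ### functional calculus -/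

section fcalc

variable {A : Type u} [CStarAlgebra A]

theorem nontriv (T : TS A) : Nontrivial A := by
  refine ⟨⟨1, 0, fun h => ?_⟩⟩
  have h1 : T.1.f 1 = 1 := T.2
  have h2 : T.1.f 1 = T.1.f 0 := congrArg T.1.f h
  rw [h1, map_zero] at h2
  exact one_ne_zero h2

theorem spec (T : TS A) {y : A} (hy : ‖y‖ ≤ 1) : ∀ t ∈ spectrum ℝ y, t ∈ Set.Icc (-1 : ℝ) 1 := by
  intro t ht
  have hnt : Nontrivial A := nontriv T
  have h1 := spectrum.norm_le_norm_of_mem ht
  rw [Real.norm_eq_abs] at h1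
  exact abs_le.1 (h1.trans hy)

end fcalc

section comm

variable (hB : StBAS.{u})
include hB

/-- commutators of polynomials in `z'` with `q` -/
theorem comP (P : Polynomial ℝ) : ∃ C K : ℝ, 0 ≤ C ∧ 0 ≤ K ∧ ∀ (A : Type u) [CStarAlgebra A]
    [PartialOrder A] [StarOrderedRing A] (T : TS A) (a z : A), Std T a z →
    ‖Polynomial.aeval (star a * z * a) P‖ ≤ K ∧
    √(n2 T (Polynomial.aeval (star a * z * a) P * (star a * a) -
      star a * a * Polynomial.aeval (star a * z * a) P)) ≤ C * √(dd T a) := by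
  induction P using Polynomial.induction_on with
  | C r =>
    refine ⟨0, |r|, le_rfl, abs_nonneg _, ?_⟩
    intro A _ _ _ T a z h
    have hnt : Nontrivial A := nontriv T
    rw [Polynomial.aeval_C]
    constructor
    · rw [norm_algebraMap', Real.norm_eq_abs]
    · rw [Algebra.commutes, sub_self]
      unfold n2
      simp
  | add P Q hP hQ =>
    obtain ⟨C, K, hC, hK, h1⟩ := hP
    obtain ⟨C', K', hC', hK', h2⟩ := hQ
    refine ⟨C + C', K + K', add_nonneg hC hC', add_nonneg hK hK', ?_⟩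
    intro A _ _ _ T a z h
    obtain ⟨b1, b2, b3, b4, b5, b6, b7, b8, b9⟩ := hB A T
    obtain ⟨h3, h4⟩ := h1 A T a z h
    obtain ⟨h5, h6⟩ := h2 A T a z h
    rw [map_add]
    constructor
    · exact (norm_add_le _ _).trans (add_le_add h3 h5)
    · rw [add_mul, mul_add, add_sub_add_comm]
      refine (b5 _ _).trans ?_
      rw [add_mul]
      exact add_le_add h4 h6
  | monomial n r hP =>
    obtain ⟨C, K, hC, hK, h1⟩ := hP
    refine ⟨C + 2 * K, K, by positivity, hK, ?_⟩
    intro A _ _ _ T a z h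
    obtain ⟨b1, b2, b3, b4, b5, b6, b7, b8, b9⟩ := hB A T
    obtain ⟨h3, h4⟩ := h1 A T a z h
    have hz := comz hB T h
    have hz1 := zn' hB h
    rw [pow_succ, ← mul_assoc, map_mul (Polynomial.aeval (star a * z * a)) _ Polynomial.X,
      Polynomial.aeval_X]
    generalize Polynomial.aeval (star a * z * a) (Polynomial.C r * Polynomial.X ^ n) = y at *
    generalize star a * z * a = w at *
    generalize star a * a = q at *
    constructor
    · refine (norm_mul_le _ _).trans ?_
      calc ‖y‖ * ‖w‖ ≤ K * 1 := mul_le_mul h3 hz1 (norm_nonneg _) hK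
        _ = K := mul_one _
    · have e1 : y * w * q - q * (y * w) = y * (w * q - q * w) + (y * q - q * y) * w := by
        noncomm_ring
      rw [e1]
      refine (b5 _ _).trans ?_
      have h5 : √(n2 T (y * (w * q - q * w))) ≤ K * (2 * √(dd T a)) := by
        calc √(n2 T (y * (w * q - q * w))) ≤ √(‖y‖ ^ 2 * n2 T (w * q - q * w)) :=
              Real.sqrt_le_sqrt (b3 _ _).1
          _ = ‖y‖ * √(n2 T (w * q - q * w)) := by
              rw [Real.sqrt_mul (by positivity), Real.sqrt_sq (norm_nonneg _)]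
          _ ≤ K * (2 * √(dd T a)) := mul_le_mul h3 hz (Real.sqrt_nonneg _) hK
      have h6 : √(n2 T ((y * q - q * y) * w)) ≤ C * √(dd T a) := by
        calc √(n2 T ((y * q - q * y) * w)) ≤ √(‖w‖ ^ 2 * n2 T (y * q - q * y)) :=
              Real.sqrt_le_sqrt (b3 _ _).2
          _ = ‖w‖ * √(n2 T (y * q - q * y)) := by
              rw [Real.sqrt_mul (by positivity), Real.sqrt_sq (norm_nonneg _)]
          _ ≤ 1 * (C * √(dd T a)) := mul_le_mul hz1 h4 (Real.sqrt_nonneg _) zero_le_one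
          _ = C * √(dd T a) := one_mul _
      linarith

/-- commutators of continuous functions of `z'` with `q` -/
theorem comF (F : ℝ → ℝ) (hF : Continuous F) (θ : ℝ) (hθ : 0 < θ) : ∃ C : ℝ, 0 ≤ C ∧
    ∀ (A : Type u) [CStarAlgebra A] [PartialOrder A] [StarOrderedRing A] (T : TS A) (a z : A),
    Std T a z → n2 T (cfc F (star a * z * a) * (star a * a) -
      star a * a * cfc F (star a * z * a)) ≤ θ * tr T (star a * a) + C * dd T a := by
  obtain ⟨P, hP⟩ := exists_polynomial_near_of_continuousOn (-1) 1 F hF.continuousOn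
    (√θ / 4) (by positivity)
  obtain ⟨C, K, hC, hK, h1⟩ := comP hB P
  refine ⟨2 * C ^ 2, by positivity, ?_⟩
  intro A _ _ _ T a z h
  obtain ⟨b1, b2, b3, b4, b5, b6, b7, b8, b9⟩ := hB A T
  obtain ⟨-, h4⟩ := h1 A T a z h
  have hsa : IsSelfAdjoint (star a * z * a) := zs' hB h
  have hsp := spec T (zn' hB h)
  have hcP : Continuous (fun t => Polynomial.eval t P) := P.continuous
  have e1 : cfc F (star a * z * a) = Polynomial.aeval (star a * z * a) P +
      cfc (fun t => F t - Polynomial.eval t P) (star a * z * a) := by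
    rw [← cfc_polynomial P (star a * z * a) hsa,
      ← cfc_add (star a * z * a) (fun t => Polynomial.eval t P)
        (fun t => F t - Polynomial.eval t P) hcP.continuousOn (hF.sub hcP).continuousOn]
    congr 1
    funext t
    ring
  have hG : ‖cfc (fun t => F t - Polynomial.eval t P) (star a * z * a)‖ ≤ √θ / 4 := by
    apply norm_cfc_le (by positivity)
    intro t ht
    rw [Real.norm_eq_abs, abs_sub_comm]
    exact (hP t (hsp t ht)).le
  rw [e1]
  have hd := dd0 hB T h.a1
  have hq := trq0 hB T a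
  have hnq := n2q hB T h.a1
  generalize cfc (fun t => F t - Polynomial.eval t P) (star a * z * a) = G at *
  generalize Polynomial.aeval (star a * z * a) P = y at *
  have e2 : (y + G) * (star a * a) - star a * a * (y + G) =
      (y * (star a * a) - star a * a * y) + (G * (star a * a) + (-(star a * a * G))) := by
    noncomm_ring
  rw [e2]
  have h5 : √(n2 T (G * (star a * a))) ≤ √θ / 4 * √(tr T (star a * a)) := by
    calc √(n2 T (G * (star a * a))) ≤ √(‖G‖ ^ 2 * n2 T (star a * a)) :=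
          Real.sqrt_le_sqrt (b3 _ _).1
      _ = ‖G‖ * √(n2 T (star a * a)) := by
          rw [Real.sqrt_mul (by positivity), Real.sqrt_sq (norm_nonneg _)]
      _ ≤ √θ / 4 * √(tr T (star a * a)) :=
          mul_le_mul hG (Real.sqrt_le_sqrt hnq) (Real.sqrt_nonneg _) (by positivity)
  have h6 : √(n2 T (-(star a * a * G))) ≤ √θ / 4 * √(tr T (star a * a)) := by
    rw [n2_neg]
    calc √(n2 T (star a * a * G)) ≤ √(‖G‖ ^ 2 * n2 T (star a * a)) :=
          Real.sqrt_le_sqrt (b3 _ _).2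
      _ = ‖G‖ * √(n2 T (star a * a)) := by
          rw [Real.sqrt_mul (by positivity), Real.sqrt_sq (norm_nonneg _)]
      _ ≤ √θ / 4 * √(tr T (star a * a)) :=
          mul_le_mul hG (Real.sqrt_le_sqrt hnq) (Real.sqrt_nonneg _) (by positivity)
  have h7 : √(n2 T ((y * (star a * a) - star a * a * y) +
      (G * (star a * a) + (-(star a * a * G))))) ≤
      C * √(dd T a) + √θ / 2 * √(tr T (star a * a)) := by
    refine (b5 _ _).trans ?_
    refine (add_le_add h4 (b5 _ _)).trans ?_
    linarith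
  have h8 := Real.sq_sqrt (b4 ((y * (star a * a) - star a * a * y) +
      (G * (star a * a) + (-(star a * a * G))))).2.1
  have h9 := Real.sq_sqrt hd
  have h10 := Real.sq_sqrt hq
  have h11 := Real.sq_sqrt hθ.le
  generalize n2 T ((y * (star a * a) - star a * a * y) +
      (G * (star a * a) + (-(star a * a * G)))) = N at *
  have h12 : √N ^ 2 ≤ (C * √(dd T a) + √θ / 2 * √(tr T (star a * a))) ^ 2 :=
    pow_le_pow_left₀ (Real.sqrt_nonneg _) h7 2
  rw [h8] at h12
  have h13 : (C * √(dd T a) + √θ / 2 * √(tr T (star a * a))) ^ 2 ≤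
      2 * (C * √(dd T a)) ^ 2 + 2 * (√θ / 2 * √(tr T (star a * a))) ^ 2 := by
    nlinarith [sq_nonneg (C * √(dd T a) - √θ / 2 * √(tr T (star a * a)))]
  have h14 : 2 * (C * √(dd T a)) ^ 2 + 2 * (√θ / 2 * √(tr T (star a * a))) ^ 2 =
      2 * C ^ 2 * dd T a + θ / 2 * tr T (star a * a) := by
    rw [mul_pow, mul_pow, h9, h10, div_pow, h11]
    ring
  have h15 : θ / 2 * tr T (star a * a) ≤ θ * tr T (star a * a) := by nlinarith
  linarith

end comm

/-! ### the windows -/

section windows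

open Finset

/-- a ramp -/
noncomputable def U (δ : ℝ) (L i : ℕ) (t : ℝ) : ℝ := min 1 (max 0 ((t + 1) / δ + L - i))

/-- a window -/
noncomputable def W (δ : ℝ) (L j m : ℕ) (t : ℝ) : ℝ :=
  U δ L (m * L + j) t - U δ L (m * L + j + (L - 1)) t

/-- the zone -/
noncomputable def Lam (δ : ℝ) (L M j : ℕ) (t : ℝ) : ℝ :=
  ∑ m ∈ range M, (U δ L (m * L + j + (L - 1)) t - U δ L ((m + 1) * L + j) t)

theorem U_cont (δ : ℝ) (L i : ℕ) : Continuous (U δ L i) := by
  unfold U; fun_prop

theorem W_cont (δ : ℝ) (L j m : ℕ) : Continuous (W δ L j m) :=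
  (U_cont _ _ _).sub (U_cont _ _ _)

theorem Lam_cont (δ : ℝ) (L M j : ℕ) : Continuous (Lam δ L M j) :=
  continuous_finset_sum _ fun _ _ => (U_cont _ _ _).sub (U_cont _ _ _)

theorem U0 (δ : ℝ) (L i : ℕ) (t : ℝ) : 0 ≤ U δ L i t := by
  unfold U; positivity

theorem U1 (δ : ℝ) (L i : ℕ) (t : ℝ) : U δ L i t ≤ 1 := min_le_left _ _

theorem U_anti (δ : ℝ) (L : ℕ) {i i' : ℕ} (h : i ≤ i') (t : ℝ) : U δ L i' t ≤ U δ L i t := by
  unfold U
  have : (i : ℝ) ≤ i' := by exact_mod_cast h
  apply min_le_min_left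
  apply max_le_max_left
  linarith

theorem U_one {δ : ℝ} (hδ : 0 < δ) {L i : ℕ} (h : i < L) {t : ℝ} (ht : -1 ≤ t) :
    U δ L i t = 1 := by
  unfold U
  have h1 : (i : ℝ) + 1 ≤ L := by exact_mod_cast h
  have h2 : 0 ≤ (t + 1) / δ := div_nonneg (by linarith) hδ.le
  apply min_eq_left
  exact le_max_of_le_right (by linarith)

theorem U_zero {δ : ℝ} {L i : ℕ} {t : ℝ} (h : (t + 1) / δ + L ≤ i) : U δ L i t = 0 := by
  unfold U
  rw [max_eq_left (by linarith)]
  exact min_eq_right zero_le_one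

theorem U_ne_one {δ : ℝ} {L i : ℕ} {t : ℝ} (h : U δ L i t ≠ 1) : (t + 1) / δ + L < i + 1 := by
  by_contra hcon
  apply h
  unfold U
  apply min_eq_left
  exact le_max_of_le_right (by linarith)

theorem W0 (δ : ℝ) (L j m : ℕ) (t : ℝ) : 0 ≤ W δ L j m t :=
  sub_nonneg.2 (U_anti δ L (Nat.le_add_right _ _) t)

theorem W1 (δ : ℝ) (L j m : ℕ) (t : ℝ) : W δ L j m t ≤ 1 := by
  unfold W
  have := U0 δ L (m * L + j + (L - 1)) t
  have := U1 δ L (m * L + j) t
  linarith

theorem W_supp {δ : ℝ} {L j m : ℕ} (hL : 1 ≤ L) {t : ℝ} (h : W δ L j m t ≠ 0) :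
    (m : ℝ) * L + j < (t + 1) / δ + L ∧ (t + 1) / δ + L < ((m : ℝ) + 1) * L + j := by
  constructor
  · by_contra hcon
    apply h
    unfold W
    have h1 : U δ L (m * L + j) t = 0 := U_zero (by push_cast; linarith)
    have h2 := U_anti δ L (Nat.le_add_right (m * L + j) (L - 1)) t
    have h3 := U0 δ L (m * L + j + (L - 1)) t
    linarith
  · have h1 : U δ L (m * L + j + (L - 1)) t ≠ 1 := by
      intro h2
      apply h
      unfold W
      have h3 := U_anti δ L (Nat.le_add_right (m * L + j) (L - 1)) t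
      have h4 := U1 δ L (m * L + j) t
      linarith
    have h2 := U_ne_one h1
    have h3 : ((m * L + j + (L - 1) : ℕ) : ℝ) + 1 = ((m : ℝ) + 1) * L + j := by
      have : m * L + j + (L - 1) + 1 = (m + 1) * L + j := by
        rw [Nat.add_mul, one_mul]
        omega
      exact_mod_cast this
    rw [h3] at h2
    exact h2

theorem W_disj {δ : ℝ} {L j m m' : ℕ} (hL : 1 ≤ L) (hm : m < m') (t : ℝ) :
    W δ L j m t * W δ L j m' t = 0 := by
  by_contra hcon
  have h1 := (W_supp hL (left_ne_zero_of_mul hcon)).2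
  have h2 := (W_supp hL (right_ne_zero_of_mul hcon)).1
  have h3 : (m : ℝ) + 1 ≤ m' := by exact_mod_cast hm
  have h4 : (0 : ℝ) ≤ L := Nat.cast_nonneg _
  nlinarith

theorem W_disj' {δ : ℝ} {L j m m' : ℕ} (hL : 1 ≤ L) (hm : m ≠ m') (t : ℝ) :
    W δ L j m t * W δ L j m' t = 0 := by
  rcases lt_or_gt_of_ne hm with h | h
  · exact W_disj hL h t
  · rw [mul_comm]; exact W_disj hL h t

theorem W_sum {δ : ℝ} (hδ : 0 < δ) {L M j : ℕ} (hj : j < L)
    (hM : 2 / δ ≤ (M : ℝ) * L - L) {t : ℝ} (ht : t ∈ Set.Icc (-1 : ℝ) 1) :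
    ∑ m ∈ range M, W δ L j m t + Lam δ L M j t = 1 := by
  unfold Lam
  rw [← sum_add_distrib]
  have h1 : ∀ m ∈ range M, W δ L j m t + (U δ L (m * L + j + (L - 1)) t -
      U δ L ((m + 1) * L + j) t) = U δ L (m * L + j) t - U δ L ((m + 1) * L + j) t := by
    intro m _
    unfold W
    ring
  rw [sum_congr rfl h1, sum_range_sub' (fun m => U δ L (m * L + j) t)]
  rw [zero_mul, zero_add, U_one hδ hj ht.1]
  rw [U_zero, sub_zero]
  have h2 : (t + 1) / δ ≤ 2 / δ := div_le_div_of_nonneg_right (by linarith [ht.2]) hδ.le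
  push_cast
  have : (0 : ℝ) ≤ j := Nat.cast_nonneg _
  linarith

theorem Lam0 (δ : ℝ) {L : ℕ} (hL : 1 ≤ L) (M j : ℕ) (t : ℝ) : 0 ≤ Lam δ L M j t := by
  unfold Lam
  refine sum_nonneg (fun m _ => sub_nonneg.2 (U_anti δ L ?_ t))
  rw [Nat.add_mul, one_mul]
  omega

theorem Lam_sum (δ : ℝ) {L : ℕ} (hL : 1 ≤ L) (M : ℕ) (t : ℝ) :
    ∑ j ∈ range L, Lam δ L M j t ≤ 1 := by
  unfold Lam
  rw [sum_comm]
  have h1 : ∀ m ∈ range M, ∑ j ∈ range L, (U δ L (m * L + j + (L - 1)) t -
      U δ L ((m + 1) * L + j) t) = U δ L (m * L + (L - 1)) t - U δ L ((m + 1) * L + (L - 1)) t := by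
    intro m _
    have h2 := sum_range_sub' (fun j => U δ L (m * L + (L - 1) + j) t) L
    rw [add_zero] at h2
    have h3 : m * L + (L - 1) + L = (m + 1) * L + (L - 1) := by
      rw [Nat.add_mul, one_mul]; omega
    rw [h3] at h2
    rw [← h2]
    refine sum_congr rfl (fun j _ => ?_)
    have h4 : m * L + j + (L - 1) = m * L + (L - 1) + j := by omega
    have h5 : (m + 1) * L + j = m * L + (L - 1) + (j + 1) := by
      rw [Nat.add_mul, one_mul]; omega
    rw [h4, h5]
  rw [sum_congr rfl h1, sum_range_sub' (fun m => U δ L (m * L + (L - 1)) t)]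
  have h6 := U0 δ L (M * L + (L - 1)) t
  have h7 := U1 δ L (0 * L + (L - 1)) t
  linarith

theorem sqsum (s : Finset ℕ) (x : ℕ → ℝ) (h : ∀ m ∈ s, ∀ m' ∈ s, m ≠ m' → x m * x m' = 0) :
    ∑ m ∈ s, x m ^ 2 = (∑ m ∈ s, x m) ^ 2 := by
  rw [sq, sum_mul_sum]
  refine sum_congr rfl (fun m hm => ?_)
  rw [sum_eq_single m]
  · ring
  · intro m' hm' hne
    exact h m hm m' hm' (Ne.symm hne)
  · intro h1
    exact absurd hm h1

/-- pointwise inequalities -/
theorem pw {δ : ℝ} (hδ : 0 < δ) {L M j : ℕ} (hj : j < L)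
    (hM : 2 / δ ≤ (M : ℝ) * L - L) {t : ℝ} (ht : t ∈ Set.Icc (-1 : ℝ) 1) :
    ∑ m ∈ range M, W δ L j m t ^ 2 ≤ 1 ∧ ∑ m ∈ range M, W δ L j m t ^ 4 ≤ 1 ∧
      1 ≤ ∑ m ∈ range M, W δ L j m t ^ 2 + 2 * Lam δ L M j t ∧
      ∑ m ∈ range M, W δ L j m t ^ 2 ≤ ∑ m ∈ range M, W δ L j m t ^ 4 + 2 * Lam δ L M j t := by
  have hL : 1 ≤ L := by omega
  have h1 := W_sum hδ hj hM ht
  have h2 := Lam0 δ hL M j t
  have h3 : 0 ≤ ∑ m ∈ range M, W δ L j m t := sum_nonneg (fun m _ => W0 δ L j m t)
  have h4 := sqsum (range M) (fun m => W δ L j m t) (fun m _ m' _ hne => W_disj' hL hne t)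
  have h5 : ∑ m ∈ range M, W δ L j m t ^ 4 = (∑ m ∈ range M, W δ L j m t ^ 2) ^ 2 := by
    rw [← sqsum (range M) (fun m => W δ L j m t ^ 2) (fun m _ m' _ hne => by
      rw [← mul_pow, W_disj' hL hne t]; norm_num)]
    refine sum_congr rfl (fun m _ => by ring)
  rw [h5, h4]
  generalize ∑ m ∈ range M, W δ L j m t = S at *
  generalize Lam δ L M j t = l at *
  have hS : S = 1 - l := by linarith
  have hl : l ≤ 1 := by linarith
  subst hS
  have h6 : (1 - l) ^ 2 ≤ 1 := by nlinarith
  refine ⟨h6, ?_, by nlinarith, ?_⟩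
  · have h7 : 0 ≤ (1 - l) ^ 2 := sq_nonneg _
    nlinarith
  · have h7 : 0 ≤ (1 - l) ^ 2 := sq_nonneg _
    nlinarith

end windows

/-! ### one window -/

section one

variable {A : Type u} [CStarAlgebra A] [PartialOrder A] [StarOrderedRing A]

theorem cfcsum (y : A) (s : Finset ℕ) (f : ℕ → ℝ → ℝ) (hf : ∀ i, Continuous (f i)) :
    cfc (fun t => ∑ i ∈ s, f i t) y = ∑ i ∈ s, cfc (f i) y := by
  rw [← cfc_sum f y s (fun i _ => (hf i).continuousOn)]
  congr 1
  funext t
  rw [Finset.sum_apply]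

theorem qf {a f : A} (hf : star f = f) : star (a * f) * (a * f) = f * (star a * a * f) := by
  rw [star_mul, hf]
  noncomm_ring

theorem tr_qf (T : TS A) {a f : A} (hf : star f = f) :
    tr T (star (a * f) * (a * f)) = tr T (star a * a * (f * f)) := by
  rw [qf hf, tr_cyc, mul_assoc]

variable (hB : StBAS.{u})
include hB

theorem trmono (T : TS A) {y b : A} (hy : IsSelfAdjoint y) (hy1 : ‖y‖ ≤ 1) (hb : 0 ≤ b)
    {F G : ℝ → ℝ} (hF : Continuous F) (hG : Continuous G)
    (h : ∀ t ∈ Set.Icc (-1 : ℝ) 1, F t ≤ G t) : tr T (b * cfc F y) ≤ tr T (b * cfc G y) := by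
  obtain ⟨b1, b2, b3, b4, b5, b6, b7, b8, b9⟩ := hB A T
  have h1 : cfc F y ≤ cfc G y :=
    cfc_mono (fun t ht => h t (spec T hy1 t ht)) hF.continuousOn hG.continuousOn
  have h2 := b6 _ _ hb (sub_nonneg.2 h1)
  rw [mul_sub, tr_sub] at h2
  linarith

theorem R3one (T : TS A) {a f g : A} (ha : ‖a‖ ≤ 1) (hf : star f = f) (hg : g = f * f)
    (hg1 : ‖g‖ ≤ 1) :
    tr T (star (a * f) * (a * f)) - tr T (star (a * f) * (a * f) * (star (a * f) * (a * f))) ≤
      tr T (star a * a * g) - tr T (star a * a * (star a * a) * (g * g)) +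
        √(tr T (star a * a) * n2 T (g * (star a * a) - star a * a * g)) := by
  obtain ⟨b1, b2, b3, b4, b5, b6, b7, b8, b9⟩ := hB A T
  have hgs : star g = g := by rw [hg, star_mul, hf]
  have hqs := qs a
  have hq := trq0 hB T a
  have hnq := n2q hB T ha
  rw [tr_qf T hf, qf hf, ← hg]
  generalize star a * a = q at *
  have e1 : tr T (f * (q * f) * (f * (q * f))) = tr T (q * q * (g * g)) +
      tr T (q * (g * q - q * g) * g) := by
    have e2 : f * (q * f) * (f * (q * f)) = f * (q * (f * f) * q * f) := by noncomm_ring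
    rw [e2, tr_cyc, ← hg, ← tr_add]
    congr 1
    rw [mul_assoc _ f f, ← hg]
    noncomm_ring
  have e3 : |tr T (q * (g * q - q * g) * g)| ≤ √(tr T q * n2 T (g * q - q * g)) := by
    rw [tr_cyc]
    have e4 : g * (q * (g * q - q * g)) = star (q * g) * (g * q - q * g) := by
      rw [star_mul, hgs, hqs, mul_assoc]
    rw [e4]
    have h1 : |tr T (star (q * g) * (g * q - q * g))| ≤
        ‖T.1.f (star (q * g) * (g * q - q * g))‖ := Complex.abs_re_le_norm _
    refine h1.trans ?_
    apply Real.le_sqrt_of_sq_le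
    refine (b2 _ _).trans ?_
    apply mul_le_mul_of_nonneg_right _ (b4 _).2.1
    refine (b3 _ _).2.trans ?_
    refine le_trans ?_ hnq
    have : ‖g‖ ^ 2 ≤ 1 := pow_le_one₀ (norm_nonneg _) hg1
    have h2 := (b4 q).2.1
    nlinarith
  rw [e1]
  have := (abs_le.1 e3).1
  linarith

theorem R4one (T : TS A) {a z f h : A} {r w0 : ℝ} (hs : Std T a z) (hf : star f = f)
    (hf1 : ‖f‖ ≤ 1) (hh : h = f * (star a * z * a) - r • f) (hh1 : ‖h‖ ≤ w0) :
    n2 T (star (a * f) * z * (a * f) - r • (star (a * f) * (a * f))) ≤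
      2 * w0 ^ 2 * tr T (star a * a * (f * f)) + 2 * dd T a := by
  obtain ⟨b1, b2, b3, b4, b5, b6, b7, b8, b9⟩ := hB A T
  have hqs := qs a
  have ha := hs.a1
  have hd := n2a hB T hs
  have e1 : star (a * f) * z * (a * f) = f * (star a * z * a) * f := by
    rw [star_mul, hf]
    noncomm_ring
  rw [e1, qf hf]
  have hff : 0 ≤ f * f := by
    have := star_mul_self_nonneg f
    rwa [hf] at this
  have hqq := b6 _ _ (qq0 ha) hff
  rw [sub_mul, tr_sub] at hqq
  generalize star a * z * a = y at *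
  have e2 : f * y * f - r • (f * (star a * a * f)) = h * (star a * a * f) +
      f * (y * (1 - star a * a)) * f := by
    rw [hh, sub_mul, smul_mul_assoc]
    noncomm_ring
  rw [e2]
  have h1 : n2 T (h * (star a * a * f)) ≤ w0 ^ 2 * tr T (star a * a * (f * f)) := by
    refine (b3 _ _).1.trans ?_
    have h2 : n2 T (star a * a * f) ≤ tr T (star a * a * (f * f)) := by
      have e3 : n2 T (star a * a * f) = tr T (star a * a * (star a * a) * (f * f)) := by
        rw [n2_eq, star_mul, hf, hqs]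
        have : f * (star a * a) * (star a * a * f) = f * (star a * a * (star a * a) * f) := by
          noncomm_ring
        rw [this, tr_cyc, mul_assoc _ f f]
      rw [e3]
      linarith
    have h3 : ‖h‖ ^ 2 ≤ w0 ^ 2 := pow_le_pow_left₀ (norm_nonneg _) hh1 2
    exact mul_le_mul h3 h2 (b4 _).2.1 (by positivity)
  have h2 : n2 T (f * (y * (1 - star a * a)) * f) ≤ dd T a := by
    have hfn : ‖f‖ ^ 2 ≤ 1 := pow_le_one₀ (norm_nonneg _) hf1
    refine (b3 _ _).2.trans ?_
    have h3 : n2 T (f * (y * (1 - star a * a))) ≤ dd T a := by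
      refine (b3 _ _).1.trans ?_
      have h4 := (b4 (y * (1 - star a * a))).2.1
      nlinarith
    have h4 := (b4 (f * (y * (1 - star a * a)))).2.1
    nlinarith
  have h3 := b5 (h * (star a * a * f)) (f * (y * (1 - star a * a)) * f)
  have h4 := (b4 (h * (star a * a * f))).2.1
  have h5 := (b4 (f * (y * (1 - star a * a)) * f)).2.1
  have h6 := (b4 (h * (star a * a * f) + f * (y * (1 - star a * a)) * f)).2.1
  generalize n2 T (h * (star a * a * f)) = u1 at *
  generalize n2 T (f * (y * (1 - star a * a)) * f) = u2 at *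
  generalize n2 T (h * (star a * a * f) + f * (y * (1 - star a * a)) * f) = u3 at *
  have h7 : u3 ≤ 2 * u1 + 2 * u2 := by
    have e4 := Real.sq_sqrt h4
    have e5 := Real.sq_sqrt h5
    have e6 := Real.sq_sqrt h6
    have h8 : √u3 ^ 2 ≤ (√u1 + √u2) ^ 2 := pow_le_pow_left₀ (Real.sqrt_nonneg _) h3 2
    nlinarith [sq_nonneg (√u1 - √u2)]
  linarith

end one

theorem amgm {x y κ : ℝ} (hx : 0 ≤ x) (hy : 0 ≤ y) (hκ : 0 < κ) :
    √(x * y) ≤ (κ * x + y / κ) / 2 := by
  apply Real.sqrt_le_iff.2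
  refine ⟨by positivity, ?_⟩
  have h1 : x * y = (κ * x) * (y / κ) := by field_simp
  rw [h1]
  nlinarith [sq_nonneg (κ * x - y / κ)]

/-- the norm of `F_m(z') (z' - r)` -/
theorem W_width {δ : ℝ} (hδ : 0 < δ) {L j m : ℕ} (hL : 1 ≤ L) {t : ℝ}
    (ht : t ∈ Set.Icc (-1 : ℝ) 1) :
    |W δ L j m t * (t - max (-1) (min 1 (((m : ℝ) * L + j - L) * δ - 1)))| ≤ L * δ := by
  have hLδ : 0 ≤ (L : ℝ) * δ := by positivity
  by_cases h0 : W δ L j m t = 0
  · rw [h0, zero_mul, abs_zero]
    exact hLδ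
  · obtain ⟨h1, h2⟩ := W_supp hL h0
    have h3 : ((m : ℝ) * L + j - L) * δ < t + 1 := by
      have : (m : ℝ) * L + j - L < (t + 1) / δ := by linarith
      rwa [lt_div_iff₀ hδ] at this
    have h4 : t + 1 < ((m : ℝ) * L + j) * δ := by
      have : (t + 1) / δ < (m : ℝ) * L + j := by linarith
      rwa [div_lt_iff₀ hδ] at this
    obtain ⟨c, hc⟩ : ∃ c : ℝ, c = ((m : ℝ) * L + j - L) * δ - 1 := ⟨_, rfl⟩
    have h5 : c < t := by rw [hc]; linarith
    have h6 : t < c + L * δ := by rw [hc]; linarith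
    rw [← hc, min_eq_right (by linarith [ht.2])]
    have h7 : 0 ≤ t - max (-1) c := sub_nonneg.2 (max_le ht.1 h5.le)
    have h8 : t - max (-1) c ≤ L * δ := by
      have := le_max_right (-1) c
      linarith
    rw [abs_mul, abs_of_nonneg h7, abs_of_nonneg (W0 δ L j m t)]
    calc W δ L j m t * (t - max (-1) c) ≤ 1 * (L * δ) :=
          mul_le_mul (W1 δ L j m t) h8 h7 zero_le_one
      _ = L * δ := one_mul _

end REF

open REF Finset in
theorem thm_REF (hB : StBAS.{u}) : StREF.{u} := by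
  intro ϑ hϑ
  -- constants
  obtain ⟨L, hL⟩ := exists_nat_ge (4 / ϑ)
  have hL0 : (0 : ℝ) < L := lt_of_lt_of_le (by positivity) hL
  have hL1 : 1 ≤ L := by exact_mod_cast hL0
  obtain ⟨δ, hδ⟩ : ∃ δ : ℝ, δ = min 1 ϑ / (2 * L) := ⟨_, rfl⟩
  have hmin : 0 < min 1 ϑ := lt_min one_pos hϑ
  have hδ0 : 0 < δ := by rw [hδ]; positivity
  have hLδ : (L : ℝ) * δ = min 1 ϑ / 2 := by rw [hδ]; field_simp
  have hw : 2 * ((L : ℝ) * δ) ^ 2 ≤ ϑ := by
    rw [hLδ]
    have h1 := min_le_left 1 ϑ
    have h2 := min_le_right 1 ϑ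
    nlinarith
  obtain ⟨M, hM⟩ : ∃ M : ℕ, 2 / δ ≤ (M : ℝ) * L - L := by
    obtain ⟨M, hM⟩ := exists_nat_ge (2 / δ / L + 1)
    refine ⟨M, ?_⟩
    have h1 : (2 / δ / L + 1) * L ≤ (M : ℝ) * L := mul_le_mul_of_nonneg_right hM hL0.le
    have h2 : (2 / δ / L + 1) * L = 2 / δ + L := by field_simp
    linarith
  obtain ⟨κ, hκ⟩ : ∃ κ : ℝ, κ = ϑ / (2 * ((M : ℝ) + 1)) := ⟨_, rfl⟩
  have hκ0 : 0 < κ := by rw [hκ]; positivity
  have hMκ : (M : ℝ) * κ ≤ ϑ / 2 := by
    rw [hκ, mul_div_assoc', div_le_div_iff₀ (by positivity) (by norm_num)]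
    have : (0 : ℝ) ≤ M := Nat.cast_nonneg _
    nlinarith
  choose C hC0 hC using fun j m : ℕ => comF hB (fun t => W δ L j m t ^ 2)
    ((W_cont δ L j m).pow 2) (κ ^ 2) (by positivity)
  obtain ⟨C1, hC1⟩ : ∃ C1 : ℝ, C1 = ∑ j ∈ range L, ∑ m ∈ range M, C j m := ⟨_, rfl⟩
  have hC10 : 0 ≤ C1 := by
    rw [hC1]
    exact sum_nonneg (fun _ _ => sum_nonneg (fun _ _ => hC0 _ _))
  have hCle : ∀ j m, j < L → m < M → C j m ≤ C1 := by
    intro j m hj hm
    rw [hC1]
    refine (single_le_sum (f := fun m => C j m) (fun _ _ => hC0 _ _) (mem_range.2 hm)).trans ?_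
    exact single_le_sum (f := fun j => ∑ m ∈ range M, C j m)
      (fun _ _ => sum_nonneg (fun _ _ => hC0 _ _)) (mem_range.2 hj)
  refine ⟨1 + M * (C1 / κ) + 2 * M, M, by positivity, ?_⟩
  intro A _ _ _ T a z ha hz hz1
  obtain ⟨b1, b2, b3, b4, b5, b6, b7, b8, b9⟩ := hB A T
  have hs : Std T a z := ⟨ha, hz, hz1⟩
  have hnt : Nontrivial A := nontriv T
  have hy := zs' hB hs
  have hy1 := zn' hB hs
  have hq0 := trq0 hB T a
  have hd0 := dd0 hB T ha
  have hqpos := q0 a
  have hqq := qq0 ha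
  have hspec := spec T hy1
  obtain ⟨y, hyd⟩ : ∃ y, y = star a * z * a := ⟨_, rfl⟩
  rw [← hyd] at hy hy1 hspec
  have hone : cfc (fun _ : ℝ => (1 : ℝ)) y = 1 := cfc_const_one ℝ y
  -- choice of the shift
  obtain ⟨j, hj, hjle⟩ : ∃ j ∈ range L, tr T (star a * a * cfc (Lam δ L M j) y) ≤
      tr T (star a * a) / L := by
    apply exists_le_of_sum_le ⟨0, mem_range.2 (by omega)⟩
    rw [← tr_sum, ← mul_sum, ← cfcsum y (range L) (fun j => Lam δ L M j)
      (fun j => Lam_cont δ L M j), sum_const, card_range, nsmul_eq_mul,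
      mul_div_cancel₀ _ hL0.ne']
    have h1 := trmono hB T hy hy1 hqpos
      (F := fun t => ∑ j ∈ range L, Lam δ L M j t) (G := fun _ => 1)
      (continuous_finset_sum _ fun j _ => Lam_cont δ L M j) continuous_const
      (fun t _ => Lam_sum δ hL1 M t)
    rw [hone, mul_one] at h1
    exact h1
  rw [mem_range] at hj
  -- the functions
  have hWc : ∀ m, Continuous (W δ L j m) := fun m => W_cont δ L j m
  have hWn : ∀ m, ‖cfc (W δ L j m) y‖ ≤ 1 := fun m => by
    apply norm_cfc_le zero_le_one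
    intro t _
    rw [Real.norm_eq_abs, abs_of_nonneg (W0 _ _ _ _ _)]
    exact W1 _ _ _ _ _
  have hWs : ∀ m, star (cfc (W δ L j m) y) = cfc (W δ L j m) y := fun m =>
    (cfc_predicate (W δ L j m) y : IsSelfAdjoint _).star_eq
  have hW2 : ∀ m, cfc (W δ L j m) y * cfc (W δ L j m) y = cfc (fun t => W δ L j m t ^ 2) y := by
    intro m
    rw [← cfc_mul _ _ y (hWc m).continuousOn (hWc m).continuousOn]
    congr 1
    funext t
    ring
  have hW4 : ∀ m, cfc (fun t => W δ L j m t ^ 2) y * cfc (fun t => W δ L j m t ^ 2) y =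
      cfc (fun t => W δ L j m t ^ 4) y := by
    intro m
    rw [← cfc_mul (fun t => W δ L j m t ^ 2) (fun t => W δ L j m t ^ 2) y
      ((hWc m).pow 2).continuousOn ((hWc m).pow 2).continuousOn]
    congr 1
    funext t
    ring
  have hpw := fun t ht => pw hδ0 hj hM (t := t) ht
  have hsc : Continuous (fun t => ∑ m ∈ range M, W δ L j m t ^ 2) :=
    continuous_finset_sum _ fun m _ => (hWc m).pow 2
  have hsc4 : Continuous (fun t => ∑ m ∈ range M, W δ L j m t ^ 4) :=
    continuous_finset_sum _ fun m _ => (hWc m).pow 4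
  have hlc : Continuous (Lam δ L M j) := Lam_cont δ L M j
  -- the sum of the squares
  have hsum2 : ∀ b : A, ∑ m ∈ range M, tr T (b * cfc (fun t => W δ L j m t ^ 2) y) =
      tr T (b * cfc (fun t => ∑ m ∈ range M, W δ L j m t ^ 2) y) := by
    intro b
    rw [cfcsum y (range M) (fun m t => W δ L j m t ^ 2) (fun m => (hWc m).pow 2), mul_sum,
      tr_sum]
  have hsum4 : ∀ b : A, ∑ m ∈ range M, tr T (b * cfc (fun t => W δ L j m t ^ 4) y) =
      tr T (b * cfc (fun t => ∑ m ∈ range M, W δ L j m t ^ 4) y) := by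
    intro b
    rw [cfcsum y (range M) (fun m t => W δ L j m t ^ 4) (fun m => (hWc m).pow 4), mul_sum,
      tr_sum]
  -- key inequalities
  have k1 : tr T (star a * a * cfc (fun t => ∑ m ∈ range M, W δ L j m t ^ 2) y) ≤
      tr T (star a * a) := by
    have := trmono hB T hy hy1 hqpos hsc (continuous_const (y := (1 : ℝ)))
      (fun t ht => (hpw t ht).1)
    rwa [hone, mul_one] at this
  have hlam : tr T (star a * a * cfc (Lam δ L M j) y) ≤ ϑ / 4 * tr T (star a * a) := by
    refine hjle.trans ?_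
    rw [div_le_iff₀ hL0]
    have h1 : 4 ≤ L * ϑ := by
      rwa [div_le_iff₀ hϑ] at hL
    nlinarith
  have hadd : ∀ (b : A) (F : ℝ → ℝ), Continuous F →
      tr T (b * cfc (fun t => F t + 2 * Lam δ L M j t) y) =
        tr T (b * cfc F y) + 2 * tr T (b * cfc (Lam δ L M j) y) := by
    intro b F hF
    rw [cfc_add y F (fun t => 2 * Lam δ L M j t) hF.continuousOn
      (continuous_const.mul hlc).continuousOn]
    have h1 : cfc (fun t => 2 * Lam δ L M j t) y = cfc (Lam δ L M j) y + cfc (Lam δ L M j) y := by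
      rw [← cfc_add y _ _ hlc.continuousOn hlc.continuousOn]
      congr 1
      funext t
      ring
    rw [h1, mul_add, mul_add, tr_add, tr_add]
    ring
  have k2 : tr T (star a * a) ≤
      tr T (star a * a * cfc (fun t => ∑ m ∈ range M, W δ L j m t ^ 2) y) +
        ϑ / 2 * tr T (star a * a) := by
    have := trmono hB T hy hy1 hqpos (continuous_const (y := (1 : ℝ)))
      (G := fun t => ∑ m ∈ range M, W δ L j m t ^ 2 + 2 * Lam δ L M j t)
      (hsc.add (continuous_const.mul hlc)) (fun t ht => (hpw t ht).2.2.1)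
    rw [hone, mul_one, hadd _ _ hsc] at this
    linarith
  have k3 : tr T (star a * a * cfc (fun t => ∑ m ∈ range M, W δ L j m t ^ 2) y) -
      tr T (star a * a * (star a * a) * cfc (fun t => ∑ m ∈ range M, W δ L j m t ^ 4) y) ≤
      dd T a + ϑ / 2 * tr T (star a * a) := by
    have h1 := trmono hB T hy hy1 hqpos hsc
      (G := fun t => ∑ m ∈ range M, W δ L j m t ^ 4 + 2 * Lam δ L M j t)
      (hsc4.add (continuous_const.mul hlc)) (fun t ht => (hpw t ht).2.2.2)
    rw [hadd _ _ hsc4] at h1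
    have h2 := trmono hB T hy hy1 hqq hsc4 (continuous_const (y := (1 : ℝ)))
      (fun t ht => (hpw t ht).2.1)
    rw [hone, mul_one, sub_mul, tr_sub, tr_sub] at h2
    unfold dd
    linarith
  refine ⟨fun m => cfc (W δ L j m) y,
    fun m => max (-1) (min 1 ((((m : ℕ) : ℝ) * L + j - L) * δ - 1)), ?_, ?_, ?_, ?_, ?_⟩
  · intro m
    refine ⟨cfc_nonneg (fun t _ => W0 _ _ _ _ _), cfc_le_one _ _ (fun t _ => W1 _ _ _ _ _), ?_⟩
    rw [abs_le]
    exact ⟨le_max_left _ _, max_le (by norm_num) (min_le_left _ _)⟩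
  · have h1 : ∑ m : Fin M, cfc (W δ L j m) y * cfc (W δ L j m) y =
        cfc (fun t => ∑ m ∈ range M, W δ L j m t ^ 2) y := by
      rw [cfcsum y (range M) (fun m t => W δ L j m t ^ 2) (fun m => (hWc m).pow 2),
        Finset.sum_range]
      exact sum_congr rfl (fun m _ => hW2 m)
    rw [h1]
    exact cfc_le_one _ _ (fun t ht => (hpw t (hspec t ht)).1)
  · have h1 : ∑ m : Fin M, tr T (star (a * cfc (W δ L j m) y) * (a * cfc (W δ L j m) y)) =
        tr T (star a * a * cfc (fun t => ∑ m ∈ range M, W δ L j m t ^ 2) y) := by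
      rw [← hsum2, Finset.sum_range]
      refine sum_congr rfl (fun m _ => ?_)
      rw [tr_qf T (hWs m), hW2]
    rw [h1]
    have h2 : 0 ≤ (1 + M * (C1 / κ) + 2 * M) * dd T a := by positivity
    have h3 : 0 ≤ ϑ / 2 * tr T (star a * a) := by positivity
    unfold dd at h2
    linarith
  · have h1 : ∀ m ∈ range M, tr T (star (a * cfc (W δ L j m) y) * (a * cfc (W δ L j m) y)) -
        tr T (star (a * cfc (W δ L j m) y) * (a * cfc (W δ L j m) y) *
          (star (a * cfc (W δ L j m) y) * (a * cfc (W δ L j m) y))) ≤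
        tr T (star a * a * cfc (fun t => W δ L j m t ^ 2) y) -
        tr T (star a * a * (star a * a) * cfc (fun t => W δ L j m t ^ 4) y) +
        (κ * tr T (star a * a) + C1 / κ * dd T a) := by
      intro m hm
      rw [mem_range] at hm
      have h2 := R3one hB T ha (hWs m) (hW2 m).symm (by
        rw [← hW2]
        exact (norm_mul_le _ _).trans (mul_le_one₀ (hWn m) (norm_nonneg _) (hWn m)))
      rw [hW4] at h2
      refine h2.trans (add_le_add_right ?_ _)
      have h3 := hC j m A T a z hs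
      rw [← hyd] at h3
      have h4 := (b4 (cfc (fun t => W δ L j m t ^ 2) y * (star a * a) -
        star a * a * cfc (fun t => W δ L j m t ^ 2) y)).2.1
      generalize n2 T (cfc (fun t => W δ L j m t ^ 2) y * (star a * a) -
        star a * a * cfc (fun t => W δ L j m t ^ 2) y) = N at *
      have h5 : N ≤ κ ^ 2 * tr T (star a * a) + C1 * dd T a :=
        h3.trans (by have := mul_le_mul_of_nonneg_right (hCle j m hj hm) hd0; linarith)
      refine (amgm hq0 h4 hκ0).trans ?_
      have h6 : N / κ ≤ κ * tr T (star a * a) + C1 / κ * dd T a := by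
        rw [div_le_iff₀ hκ0]
        have : (κ * tr T (star a * a) + C1 / κ * dd T a) * κ =
            κ ^ 2 * tr T (star a * a) + C1 * dd T a := by field_simp
        rw [this]
        exact h5
      have h7 : 0 ≤ C1 / κ * dd T a := by positivity
      linarith
    have h2 := sum_le_sum h1
    have h2' : ∑ m ∈ range M, (tr T (star a * a * cfc (fun t => W δ L j m t ^ 2) y) -
        tr T (star a * a * (star a * a) * cfc (fun t => W δ L j m t ^ 4) y) +
        (κ * tr T (star a * a) + C1 / κ * dd T a)) =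
        tr T (star a * a * cfc (fun t => ∑ m ∈ range M, W δ L j m t ^ 2) y) -
        tr T (star a * a * (star a * a) * cfc (fun t => ∑ m ∈ range M, W δ L j m t ^ 4) y) +
        M * (κ * tr T (star a * a) + C1 / κ * dd T a) := by
      rw [sum_add_distrib, sum_sub_distrib, hsum2, hsum4, sum_const, card_range, nsmul_eq_mul]
    rw [h2', Finset.sum_range] at h2
    refine h2.trans ?_
    have h3 : (M : ℝ) * (κ * tr T (star a * a)) ≤ ϑ / 2 * tr T (star a * a) := by
      rw [← mul_assoc]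
      exact mul_le_mul_of_nonneg_right hMκ hq0
    have h4 : 0 ≤ 2 * (M : ℝ) * dd T a := by positivity
    have h5 : tr T (star a * a) - tr T (star a * a * (star a * a)) = dd T a := rfl
    rw [h5]
    nlinarith
  · have h1 : ∀ m ∈ range M, n2 T (star (a * cfc (W δ L j m) y) * z * (a * cfc (W δ L j m) y) -
        (max (-1) (min 1 (((m : ℝ) * L + j - L) * δ - 1))) •
          (star (a * cfc (W δ L j m) y) * (a * cfc (W δ L j m) y))) ≤
        2 * ((L : ℝ) * δ) ^ 2 * tr T (star a * a * cfc (fun t => W δ L j m t ^ 2) y) +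
          2 * dd T a := by
      intro m _
      obtain ⟨r, hr⟩ : ∃ r : ℝ, r = max (-1) (min 1 (((m : ℝ) * L + j - L) * δ - 1)) := ⟨_, rfl⟩
      rw [← hr, ← hW2]
      have hc1 : Continuous (fun t : ℝ => t) := continuous_id
      have hh : cfc (fun t => W δ L j m t * (t - r)) y =
          cfc (W δ L j m) y * (star a * z * a) - r • cfc (W δ L j m) y := by
        rw [← hyd]
        have e1 : (fun t => W δ L j m t * (t - r)) =
            fun t => W δ L j m t * t - r * W δ L j m t := by funext t; ring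
        rw [e1, cfc_sub (fun t => W δ L j m t * t) (fun t => r * W δ L j m t) y
          ((hWc m).mul hc1).continuousOn (continuous_const.mul (hWc m)).continuousOn,
          cfc_mul (W δ L j m) (fun t => t) y (hWc m).continuousOn hc1.continuousOn,
          cfc_const_mul r (W δ L j m) y (hWc m).continuousOn, cfc_id' ℝ y hy]
      refine R4one hB T hs (hWs m) (hWn m) hh ?_
      apply norm_cfc_le (by positivity)
      intro t ht
      rw [Real.norm_eq_abs, hr]
      exact W_width hδ0 hL1 (hspec t ht)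
    have h2 := sum_le_sum h1
    rw [Finset.sum_range, sum_add_distrib, ← mul_sum, hsum2, sum_const, card_range,
      nsmul_eq_mul] at h2
    refine h2.trans ?_
    have h3 : 2 * ((L : ℝ) * δ) ^ 2 *
        tr T (star a * a * cfc (fun t => ∑ m ∈ range M, W δ L j m t ^ 2) y) ≤
        ϑ * tr T (star a * a) := by
      have h4 : 2 * ((L : ℝ) * δ) ^ 2 *
        tr T (star a * a * cfc (fun t => ∑ m ∈ range M, W δ L j m t ^ 2) y) ≤
        2 * ((L : ℝ) * δ) ^ 2 * tr T (star a * a) :=
        mul_le_mul_of_nonneg_left k1 (by positivity)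
      exact h4.trans (mul_le_mul_of_nonneg_right hw hq0)
    have h4 : 0 ≤ (1 + M * (C1 / κ)) * dd T a := by positivity
    have h5 : tr T (star a * a) - tr T (star a * a * (star a * a)) = dd T a := rfl
    rw [h5]
    nlinarith

end Pool.Agent.H667R5.TW
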