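import Pool.Agent.H667R5.TW.Stubs

set_option autoImplicit false

/-! # RQ: from the 2-norm to the trace -/

namespace Pool.Agent.H667R5.TW

open Pool.Agent.H327R4.Pure
open scoped CStarAlgebra ComplexOrder Matrix

universe u v

theorem thm_RQ (h : StBAS.{u}) : StRQ.{u} := by
  intro A _ _ _ T a y c θ t ha hy hc hθ ht h1 h2
  obtain ⟨b1, b2, b3, b4, b5, b6, b7, b8, b9⟩ := h A T
  set q : A := star a * a with hq
  have hq0 : 0 ≤ q := star_mul_self_nonneg a
  have hqs : star q = q := by rw [hq, star_mul, star_star]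
  have hq1 : q ≤ 1 := by
    rw [← CStarAlgebra.norm_le_one_iff_of_nonneg q hq0, hq, CStarRing.norm_star_mul_self]
    nlinarith [norm_nonneg a]
  have hTq : T.1.f q = ((t : ℝ) : ℂ) := by rw [ht]; exact b9 q hqs
  have hn2a : n2 T a = t := by rw [ht]; rfl
  have ht0 : 0 ≤ t := by rw [← hn2a]; exact (b4 a).2.1
  set r : A := star a * y * a - c • q with hr
  have hTr : T.1.f (star a * y * a) - c * ((t : ℝ) : ℂ) = T.1.f r := by
    rw [hr, map_sub, map_smul, hTq, smul_eq_mul]
  have hsplit : T.1.f r = T.1.f (r * q) + T.1.f (r * (1 - q)) := by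
    rw [← map_add]
    congr 1
    noncomm_ring
  have e1 : ‖T.1.f (r * q)‖ ≤ √θ * t := by
    have f1 := b2 (star r) q
    rw [star_star] at f1
    have f2 : n2 T (star r) ≤ θ * t := by rw [(b4 r).1]; exact h1
    have f3 : n2 T q ≤ t := by
      have f4 := (b3 (star a) a).1
      rw [hn2a, norm_star] at f4
      have f5 : ‖a‖ ^ 2 * t ≤ 1 * t := by
        apply mul_le_mul_of_nonneg_right _ ht0
        nlinarith [norm_nonneg a]
      rw [one_mul] at f5
      exact f4.trans f5
    have f6 : ‖T.1.f (r * q)‖ ^ 2 ≤ (√θ * t) ^ 2 := by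
      refine f1.trans ?_
      calc n2 T (star r) * n2 T q ≤ (θ * t) * t := mul_le_mul f2 f3 (b4 q).2.1 (by positivity)
        _ = (√θ * t) ^ 2 := by rw [mul_pow, Real.sq_sqrt hθ]; ring
    exact abs_le_of_sq_le_sq' f6 (by positivity) |>.2
  have e2 : ‖T.1.f (r * (1 - q))‖ ≤ 3 * √θ * t := by
    have g1 : r * (1 - q) = star (star (y - c • 1) * a) * (a * (1 - q)) := by
      rw [star_mul, star_star, hr]
      have : star a * y * a - c • q = star a * (y - c • 1) * a := by
        rw [mul_sub, sub_mul, mul_smul_comm, mul_one, smul_mul_assoc]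
      rw [this]
      noncomm_ring
    have f1 := b2 (star (y - c • 1) * a) (a * (1 - q))
    rw [← g1] at f1
    have f2 : n2 T (star (y - c • 1) * a) ≤ 9 * t := by
      have f4 := (b3 (star (y - c • 1)) a).1
      rw [hn2a, norm_star] at f4
      have f5 : ‖y - c • (1 : A)‖ ≤ 3 := by
        rcases subsingleton_or_nontrivial A with hs | hs
        · have : y - c • (1 : A) = 0 := Subsingleton.elim _ _
          rw [this, norm_zero]
          norm_num
        · calc ‖y - c • (1 : A)‖ ≤ ‖y‖ + ‖c • (1 : A)‖ := norm_sub_le _ _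
            _ = ‖y‖ + ‖c‖ := by rw [norm_smul, CStarRing.norm_one, mul_one]
            _ ≤ 3 := by linarith
      have f6 : ‖y - c • (1 : A)‖ ^ 2 ≤ 9 := by nlinarith [norm_nonneg (y - c • (1 : A))]
      exact f4.trans (mul_le_mul_of_nonneg_right f6 ht0)
    have f3 : n2 T (a * (1 - q)) ≤ θ * t := by
      have g2 : star (a * (1 - q)) * (a * (1 - q)) = q - q * q - (q * q - q * q * q) := by
        rw [star_mul, star_sub, star_one, hqs]
        have : (1 - q) * star a * (a * (1 - q)) = (1 - q) * q * (1 - q) := by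
          rw [hq]; noncomm_ring
        rw [this]
        noncomm_ring
      have g3 : n2 T (a * (1 - q)) = tr T (q - q * q - (q * q - q * q * q)) := by
        rw [← g2]; rfl
      have g4 : tr T (q - q * q - (q * q - q * q * q)) =
          tr T q - tr T (q * q) - (tr T (q * q) - tr T (q * q * q)) := by
        simp only [tr, map_sub, Complex.sub_re]
      have g5 : tr T (q * q * q) ≤ tr T (q * q) := by
        have := b7 q 1 q hq1
        rw [hqs, mul_one] at this
        exact this
      rw [g3, g4, ← ht]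
      linarith
    have f6 : ‖T.1.f (r * (1 - q))‖ ^ 2 ≤ (3 * √θ * t) ^ 2 := by
      refine f1.trans ?_
      calc n2 T (star (y - c • 1) * a) * n2 T (a * (1 - q)) ≤ (9 * t) * (θ * t) :=
            mul_le_mul f2 f3 (b4 _).2.1 (by positivity)
        _ = (3 * √θ * t) ^ 2 := by rw [mul_pow, mul_pow, Real.sq_sqrt hθ]; ring
    exact abs_le_of_sq_le_sq' f6 (by positivity) |>.2
  rw [hTr, hsplit]
  calc ‖T.1.f (r * q) + T.1.f (r * (1 - q))‖ ≤ ‖T.1.f (r * q)‖ + ‖T.1.f (r * (1 - q))‖ :=
        norm_add_le _ _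
    _ ≤ √θ * t + 3 * √θ * t := add_le_add e1 e2
    _ = 4 * √θ * t := by ring

end Pool.Agent.H667R5.TW
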