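import Pool.Agent.H667R5.TW.Stubs

set_option autoImplicit false

namespace Pool.Agent.H667R5.TW

open Pool.Agent.H327R4.Pure
open scoped CStarAlgebra ComplexOrder Matrix

universe u v

namespace TS0

set_option linter.unusedSectionVars false

variable {A : Type u} [CStarAlgebra A] [PartialOrder A] [StarOrderedRing A]

theorem smul_nonneg' (r : ℝ) (x : A) (hr : 0 ≤ r) (hx : 0 ≤ x) : 0 ≤ r • x :=
  smul_nonneg hr hx

theorem conj_le (z x y : A) (h : x ≤ y) : star z * x * z ≤ star z * y * z :=
  star_left_conjugate_le_conjugate h z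

theorem conj_nonneg (z x : A) (h : 0 ≤ x) : 0 ≤ star z * x * z :=
  star_left_conjugate_nonneg h z

theorem norm_le_of_sq_le (a e : A) (c : ℝ) (he1 : e ≤ 1) (hc : 0 ≤ c)
    (h : star a * a ≤ (c ^ 2) • e) : ‖a‖ ≤ c := by
  have h1 : star a * a ≤ algebraMap ℝ A (c ^ 2) := by
    refine le_trans h ?_
    rw [Algebra.algebraMap_eq_smul_one]
    exact smul_le_smul_of_nonneg_left he1 (sq_nonneg c)
  have h2 : ‖star a * a‖ ≤ c ^ 2 :=
    (CStarAlgebra.norm_le_iff_le_algebraMap (star a * a) (sq_nonneg c)
      (star_mul_self_nonneg a)).mpr h1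
  rw [CStarRing.norm_star_mul_self] at h2
  nlinarith [norm_nonneg a]

theorem smul_le_of_le_smul (r : ℝ) (x y : A) (hr : 0 < r) (h : r • x ≤ y) : x ≤ (1 / r) • y := by
  have h1 : (1 / r) • (r • x) ≤ (1 / r) • y :=
    smul_le_smul_of_nonneg_left h (by positivity)
  rw [smul_smul, one_div, inv_mul_cancel₀ hr.ne', one_smul] at h1
  rw [one_div]
  exact h1

theorem tr_add (T : TS A) (x y : A) : tr T (x + y) = tr T x + tr T y := by
  unfold tr; rw [map_add, Complex.add_re]

theorem tr_sum (T : TS A) {ι : Type} (s : Finset ι) (f : ι → A) :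
    tr T (∑ i ∈ s, f i) = ∑ i ∈ s, tr T (f i) := by
  unfold tr
  rw [map_sum, Complex.re_sum]

theorem tr_smul (T : TS A) (r : ℝ) (x : A) : tr T (r • x) = r * tr T x := by
  unfold tr
  have : r • x = (r : ℂ) • x := by
    exact (Complex.coe_smul r x).symm
  rw [this, map_smul, smul_eq_mul, Complex.re_ofReal_mul]

theorem abs_tr_le (T : TS A) (x : A) : |tr T x| ≤ ‖T.1.f x‖ := Complex.abs_re_le_norm _

end TS0

open TS0

theorem thm_S0b (hB : StBAS.{u}) (hG : StGN.{u}) : StS0.{u} := by
  intro A _ _ _ n X W β u e hW hnW hN hloc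
  classical
  have hNr : (0 : ℝ) < β.N := by exact_mod_cast hN
  have hN1 : (1 : ℝ) ≤ β.N := by exact_mod_cast hN
  have hW0 : 0 < W := by linarith
  have hsW : 0 < √W := Real.sqrt_pos.mpr hW0
  have hsW2 : √W ^ 2 = W := Real.sq_sqrt hW0.le
  have hWN : 0 < W * (β.N : ℝ) ^ 2 := by positivity
  set G : A := ∑ k, ∑ l, star (β.g k l) * β.g k l with hGdef
  set Ex : A → A := fun x => ∑ l, star (β.e x l) * β.e x l with hExdef
  have hG0 : 0 ≤ G := Finset.sum_nonneg fun k _ => Finset.sum_nonneg fun l _ =>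
    star_mul_self_nonneg _
  have hEx0 : ∀ x, 0 ≤ Ex x := fun x => Finset.sum_nonneg fun l _ => star_mul_self_nonneg _
  have hR : β.R W X = (W * (β.N : ℝ) ^ 2) • G + (W / β.N) • ∑ x ∈ X, Ex x := by
    unfold Blk.R
    rw [smul_add, smul_smul, smul_smul]
    congr 2
    ring
  have hR1 : (W * (β.N : ℝ) ^ 2) • G ≤ β.R W X := by
    rw [hR]
    refine le_add_of_nonneg_right ?_
    exact smul_nonneg' _ _ (by positivity) (Finset.sum_nonneg fun x _ => hEx0 x)
  have hR2 : ∀ x ∈ X, (W / β.N) • Ex x ≤ β.R W X := by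
    intro x hx
    rw [hR]
    refine le_trans ?_ (le_add_of_nonneg_left (smul_nonneg' _ _ hWN.le hG0))
    refine smul_le_smul_of_nonneg_left ?_ (by positivity)
    exact Finset.single_le_sum (f := Ex) (fun y _ => hEx0 y) hx
  -- (4)
  have h4 : ∀ i, ∑ k, ∑ l, star (β.g k l * u i) * (β.g k l * u i) ≤
      (1 / (W * (β.N : ℝ) ^ 2)) • e := by
    intro i
    have e1 : ∑ k, ∑ l, star (β.g k l * u i) * (β.g k l * u i) = star (u i) * G * u i := by
      rw [hGdef, Finset.mul_sum, Finset.sum_mul]
      refine Finset.sum_congr rfl fun k _ => ?_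
      rw [Finset.mul_sum, Finset.sum_mul]
      refine Finset.sum_congr rfl fun l _ => ?_
      rw [star_mul]
      simp only [mul_assoc]
    rw [e1]
    apply smul_le_of_le_smul _ _ _ hWN
    have e2 : (W * (β.N : ℝ) ^ 2) • (star (u i) * G * u i) =
        star (u i) * ((W * (β.N : ℝ) ^ 2) • G) * u i := by
      rw [mul_smul_comm, smul_mul_assoc]
    rw [e2]
    exact le_trans (conj_le _ _ _ hR1) (hloc.le i)
  have h5 : ∀ x ∈ X, ∀ i, ∑ l, star (β.e x l * u i) * (β.e x l * u i) ≤ ((β.N : ℝ) / W) • e := by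
    intro x hx i
    have e1 : ∑ l, star (β.e x l * u i) * (β.e x l * u i) = star (u i) * Ex x * u i := by
      rw [hExdef]
      simp only
      rw [Finset.mul_sum, Finset.sum_mul]
      refine Finset.sum_congr rfl fun l _ => ?_
      rw [star_mul]
      simp only [mul_assoc]
    rw [e1]
    have e3 : ((β.N : ℝ) / W) = 1 / (W / β.N) := by
      rw [one_div_div]
    rw [e3]
    apply smul_le_of_le_smul _ _ _ (by positivity)
    have e2 : (W / (β.N : ℝ)) • (star (u i) * Ex x * u i) =
        star (u i) * ((W / (β.N : ℝ)) • Ex x) * u i := by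
      rw [mul_smul_comm, smul_mul_assoc]
    rw [e2]
    exact le_trans (conj_le _ _ _ (hR2 x hx)) (hloc.le i)
  have h4' : ∀ k l i, star (β.g k l * u i) * (β.g k l * u i) ≤
      (1 / (W * (β.N : ℝ) ^ 2)) • e := by
    intro k l i
    refine le_trans ?_ (h4 i)
    refine le_trans ?_ (Finset.single_le_sum (f := fun k => ∑ l, star (β.g k l * u i) *
      (β.g k l * u i)) (fun k _ => Finset.sum_nonneg fun l _ => star_mul_self_nonneg _)
      (Finset.mem_univ k))
    exact Finset.single_le_sum (f := fun l => star (β.g k l * u i) * (β.g k l * u i))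
      (fun l _ => star_mul_self_nonneg _) (Finset.mem_univ l)
  have hc2 : (1 / (√W * β.N)) ^ 2 = 1 / (W * (β.N : ℝ) ^ 2) := by
    rw [div_pow, mul_pow, hsW2, one_pow]
  have h3 : ∀ k l i, ‖β.g k l * u i‖ ≤ 1 / (√W * β.N) := by
    intro k l i
    apply norm_le_of_sq_le _ e _ hloc.e1 (by positivity)
    rw [hc2]
    exact h4' k l i
  have hu : ∀ i, ‖u i‖ ≤ 1 := by
    intro i
    apply norm_le_of_sq_le _ e _ hloc.e1 zero_le_one
    have := hloc.orth i i
    rw [if_pos rfl] at this
    rw [this, one_pow, one_smul]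
  -- (1)
  have hs0 : ∀ i j, β.s0 u i j = ∑ l, (β.b l * u i) * star (β.b l * u j) := by
    intro i j
    unfold Blk.s0 Blk.amp
    refine Finset.sum_congr rfl fun l _ => ?_
    rw [star_mul]
    simp only [mul_assoc]
  have h1 : dsum (β.s0 u) ≤ (1 + n / √W) • 1 := by
    have hgn := hG A (n * β.N) (fun a => β.b (finProdFinEquiv.symm a).2 *
        u (finProdFinEquiv.symm a).1) (fun _ => e)
      (fun a a' => star (u (finProdFinEquiv.symm a).1) *
        (β.g (finProdFinEquiv.symm a).2 (finProdFinEquiv.symm a').2 *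
          u (finProdFinEquiv.symm a').1)) (n / √W) (by positivity) (fun _ => ⟨hloc.e0, hloc.e1⟩) ?_ ?_
    · have e1 : ∑ a : Fin (n * β.N), (β.b (finProdFinEquiv.symm a).2 *
        u (finProdFinEquiv.symm a).1) * star (β.b (finProdFinEquiv.symm a).2 *
        u (finProdFinEquiv.symm a).1) = dsum (β.s0 u) := by
        unfold dsum
        rw [Fintype.sum_equiv finProdFinEquiv.symm _
          (fun p : Fin n × Fin β.N => (β.b p.2 * u p.1) * star (β.b p.2 * u p.1))
          (fun a => rfl)]
        rw [Fintype.sum_prod_type]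
        refine Finset.sum_congr rfl fun i _ => ?_
        rw [hs0]
      rw [e1] at hgn
      exact hgn
    · intro a a'
      set i := (finProdFinEquiv.symm a).1 with hi
      set l := (finProdFinEquiv.symm a).2 with hl
      set j := (finProdFinEquiv.symm a').1 with hj
      set k := (finProdFinEquiv.symm a').2 with hk
      have haa : (a = a') ↔ (i = j ∧ l = k) := by
        rw [hi, hj, hl, hk]
        constructor
        · intro h; rw [h]; exact ⟨rfl, rfl⟩
        · intro h
          apply finProdFinEquiv.symm.injective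
          exact Prod.ext h.1 h.2
      have e2 : star (β.b l * u i) * (β.b k * u j) =
          star (u i) * (if l = k then 1 else 0) * u j +
            star (u i) * (β.g l k * u j) := by
        unfold Blk.g
        rw [star_mul]
        simp only [mul_sub, sub_mul, mul_assoc]
        abel
      rw [e2]
      congr 1
      by_cases hlk : l = k
      · rw [if_pos hlk, mul_one, hloc.orth i j]
        by_cases hij : i = j
        · rw [if_pos hij, if_pos (haa.mpr ⟨hij, hlk⟩)]
        · rw [if_neg hij, if_neg (fun h => hij (haa.mp h).1)]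
      · rw [if_neg hlk, mul_zero, zero_mul, if_neg (fun h => hlk (haa.mp h).2)]
    · intro a
      have e3 : ∀ a' : Fin (n * β.N), ‖star (u (finProdFinEquiv.symm a).1) *
        (β.g (finProdFinEquiv.symm a).2 (finProdFinEquiv.symm a').2 *
          u (finProdFinEquiv.symm a').1)‖ ≤ 1 / (√W * β.N) := by
        intro a'
        refine le_trans (norm_mul_le _ _) ?_
        rw [norm_star]
        calc ‖u (finProdFinEquiv.symm a).1‖ * ‖β.g (finProdFinEquiv.symm a).2
              (finProdFinEquiv.symm a').2 * u (finProdFinEquiv.symm a').1‖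
            ≤ 1 * (1 / (√W * β.N)) := mul_le_mul (hu _) (h3 _ _ _) (norm_nonneg _) zero_le_one
          _ = 1 / (√W * β.N) := one_mul _
      refine le_trans (Finset.sum_le_sum fun a' _ => e3 a') ?_
      rw [Finset.sum_const, Finset.card_univ, Fintype.card_fin, nsmul_eq_mul]
      push_cast
      apply le_of_eq
      field_simp
  have hs0ii : ∀ i, 0 ≤ β.s0 u i i := by
    intro i
    rw [hs0]
    exact Finset.sum_nonneg fun l _ => mul_star_self_nonneg _
  have hnsq : (n : ℝ) / √W ≤ 1 := by
    rw [div_le_one hsW]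
    apply Real.le_sqrt_of_sq_le
    exact hnW
  have h2 : ∀ i, β.s0 u i i ≤ (2 : ℝ) • 1 := by
    intro i
    refine le_trans (Finset.single_le_sum (f := fun i => β.s0 u i i) (fun j _ => hs0ii j)
      (Finset.mem_univ i)) ?_
    refine le_trans h1 ?_
    exact smul_le_smul_of_nonneg_right (by linarith) zero_le_one
  refine ⟨h1, h2, h3, h4, h5, ?_⟩
  intro T i
  obtain ⟨b1, b2, b3, b4, b5, b6, b7, b8, b9⟩ := hB A T
  have hee : star (u i) * u i = e := by
    have := hloc.orth i i
    rwa [if_pos rfl] at this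
  have htre : 0 ≤ tr T e := by
    have := b1 0 e hloc.e0
    have h0 : tr T 0 = 0 := by unfold tr; simp
    rwa [h0] at this
  have hn2u : n2 T (u i) = tr T e := by
    unfold n2 tr; rw [hee]
  have hsum : ∑ l, n2 T (β.b l * u i) = tr T (β.s0 u i i) := by
    rw [hs0, tr_sum]
    refine Finset.sum_congr rfl fun l _ => ?_
    unfold n2 tr
    rw [T.1.tr]
  have hterm : ∀ l, |n2 T (β.b l * u i) - tr T e| ≤ tr T e / (√W * β.N) := by
    intro l
    have e1 : star (β.b l * u i) * (β.b l * u i) = e + star (u i) * (β.g l l * u i) := by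
      unfold Blk.g
      rw [star_mul, if_pos rfl]
      simp only [mul_sub, sub_mul, mul_assoc, one_mul]
      rw [hee]
      abel
    have e2 : n2 T (β.b l * u i) - tr T e = tr T (star (u i) * (β.g l l * u i)) := by
      unfold n2
      rw [e1]
      have := tr_add T e (star (u i) * (β.g l l * u i))
      unfold tr at this ⊢
      rw [this]; ring
    rw [e2]
    refine le_trans (abs_tr_le T _) ?_
    have e3 := b2 (u i) (β.g l l * u i)
    have e4 : n2 T (β.g l l * u i) ≤ 1 / (W * (β.N : ℝ) ^ 2) * tr T e := by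
      have := b1 _ _ (h4' l l i)
      rw [tr_smul] at this
      exact this
    rw [hn2u] at e3
    have e5 : ‖T.1.f (star (u i) * (β.g l l * u i))‖ ^ 2 ≤ (tr T e / (√W * β.N)) ^ 2 := by
      refine le_trans e3 ?_
      calc tr T e * n2 T (β.g l l * u i) ≤ tr T e * (1 / (W * (β.N : ℝ) ^ 2) * tr T e) :=
            mul_le_mul_of_nonneg_left e4 htre
        _ = (tr T e / (√W * β.N)) ^ 2 := by
            rw [← hc2]; ring
    exact le_of_sq_le_sq e5 (by positivity)
  have habs : |tr T (β.s0 u i i) - β.N * tr T e| ≤ 1 / √W * (β.N * tr T e) := by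
    rw [← hsum]
    have e1 : ∑ l, n2 T (β.b l * u i) - β.N * tr T e = ∑ l, (n2 T (β.b l * u i) - tr T e) := by
      rw [Finset.sum_sub_distrib, Finset.sum_const, Finset.card_univ, Fintype.card_fin,
        nsmul_eq_mul]
    rw [e1]
    refine le_trans (Finset.abs_sum_le_sum_abs _ _) ?_
    refine le_trans (Finset.sum_le_sum fun l _ => hterm l) ?_
    rw [Finset.sum_const, Finset.card_univ, Fintype.card_fin, nsmul_eq_mul]
    have e2 : (β.N : ℝ) * (tr T e / (√W * β.N)) = 1 / √W * tr T e := by
      field_simp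
    rw [e2]
    apply mul_le_mul_of_nonneg_left _ (by positivity)
    nlinarith
  refine ⟨habs, hsum, ?_⟩
  rw [hsum]
  have e1 := (abs_le.mp habs).2
  have e2 : 1 / √W ≤ 1 := by
    rw [div_le_one hsW]
    exact Real.one_le_sqrt.mpr hW
  have e3 : 1 / √W * (β.N * tr T e) ≤ 1 * (β.N * tr T e) :=
    mul_le_mul_of_nonneg_right e2 (by positivity)
  linarith

end Pool.Agent.H667R5.TW
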