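import Pool.Agent.H667R5.TW.Stubs

set_option autoImplicit false

namespace Pool.Agent.H667R5.TW

open Pool.Agent.H327R4.Pure
open scoped CStarAlgebra ComplexOrder Matrix

universe u v

namespace TS1

set_option linter.unusedSectionVars false

variable {A : Type u} [CStarAlgebra A] [PartialOrder A] [StarOrderedRing A]

theorem tr_sum (T : TS A) {ι : Type} (s : Finset ι) (f : ι → A) :
    tr T (∑ i ∈ s, f i) = ∑ i ∈ s, tr T (f i) := by
  unfold tr
  rw [map_sum, Complex.re_sum]

theorem tr_smul (T : TS A) (r : ℝ) (x : A) : tr T (r • x) = r * tr T x := by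
  unfold tr
  have : r • x = (r : ℂ) • x := (Complex.coe_smul r x).symm
  rw [this, map_smul, smul_eq_mul, Complex.re_ofReal_mul]

theorem cs {ι : Type} (s : Finset ι) (z : ι → ℂ) (p q : ι → ℝ) (hp : ∀ i ∈ s, 0 ≤ p i)
    (hq : ∀ i ∈ s, 0 ≤ q i) (h : ∀ i ∈ s, ‖z i‖ ^ 2 ≤ p i * q i) (P Q : ℝ)
    (hP : ∑ i ∈ s, p i ≤ P) (hQ : ∑ i ∈ s, q i ≤ Q) : ‖∑ i ∈ s, z i‖ ^ 2 ≤ P * Q := by
  have h1 : ‖∑ i ∈ s, z i‖ ≤ ∑ i ∈ s, √(p i) * √(q i) := by
    refine le_trans (norm_sum_le _ _) (Finset.sum_le_sum fun i hi => ?_)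
    rw [← Real.sqrt_mul (hp i hi)]
    exact Real.le_sqrt_of_sq_le (h i hi)
  have h2 : (∑ i ∈ s, √(p i) * √(q i)) ^ 2 ≤ (∑ i ∈ s, √(p i) ^ 2) * (∑ i ∈ s, √(q i) ^ 2) :=
    Finset.sum_mul_sq_le_sq_mul_sq s _ _
  have h3 : ∑ i ∈ s, √(p i) ^ 2 = ∑ i ∈ s, p i :=
    Finset.sum_congr rfl fun i hi => Real.sq_sqrt (hp i hi)
  have h4 : ∑ i ∈ s, √(q i) ^ 2 = ∑ i ∈ s, q i :=
    Finset.sum_congr rfl fun i hi => Real.sq_sqrt (hq i hi)
  rw [h3, h4] at h2
  have h5 : 0 ≤ ∑ i ∈ s, p i := Finset.sum_nonneg hp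
  have h6 : 0 ≤ ∑ i ∈ s, q i := Finset.sum_nonneg hq
  calc ‖∑ i ∈ s, z i‖ ^ 2 ≤ (∑ i ∈ s, √(p i) * √(q i)) ^ 2 :=
        pow_le_pow_left₀ (norm_nonneg _) h1 2
    _ ≤ (∑ i ∈ s, p i) * (∑ i ∈ s, q i) := h2
    _ ≤ P * Q := mul_le_mul hP hQ h6 (le_trans h5 hP)

theorem sum_sq_le {N : ℕ} (y : Matrix (Fin N) (Fin N) ℂ) (h : (1 - y * yᴴ).PosSemidef) :
    ∑ k, ∑ l, ‖y k l‖ ^ 2 ≤ (N : ℝ) := by
  have h1 := h.trace_nonneg
  rw [Matrix.trace_sub, Matrix.trace_one, Fintype.card_fin] at h1
  have h2 : (y * yᴴ).trace = ((∑ k, ∑ l, ‖y k l‖ ^ 2 : ℝ) : ℂ) := by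
    unfold Matrix.trace
    push_cast
    refine Finset.sum_congr rfl fun k _ => ?_
    rw [Matrix.diag_apply, Matrix.mul_apply]
    refine Finset.sum_congr rfl fun l _ => ?_
    rw [Matrix.conjTranspose_apply]
    have := Complex.mul_conj (y k l)
    rw [Complex.normSq_eq_norm_sq] at this
    push_cast at this
    exact this
  rw [h2] at h1
  have h3 := (Complex.le_def.mp h1).1
  simp only [Complex.zero_re, Complex.sub_re, Complex.natCast_re, Complex.ofReal_re] at h3
  linarith

end TS1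

open TS1

theorem thm_S1 (hB : StBAS.{u}) (hS : StS0.{u}) : StS1.{u} := by
  intro A _ _ _ n X W β u e hW hnW hval hloc T x hx i j
  classical
  have hN := hval.1
  have hNr : (0 : ℝ) < β.N := by exact_mod_cast hN
  have hN1 : (1 : ℝ) ≤ β.N := by exact_mod_cast hN
  have hW0 : 0 < W := by linarith
  have hsW : 0 < √W := Real.sqrt_pos.mpr hW0
  have hsW2 : √W ^ 2 = W := Real.sq_sqrt hW0.le
  obtain ⟨s1, s2, s3, s4, s5, s6⟩ := hS A n X W β u e hW hnW hN hloc
  obtain ⟨b1, b2, b3, b4, b5, b6, b7, b8, b9⟩ := hB A T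
  have htre : 0 ≤ tr T e := by
    have := b1 0 e hloc.e0
    have h0 : tr T 0 = 0 := by unfold tr; simp
    rwa [h0] at this
  have hTe : T.1.f e = ((tr T e : ℝ) : ℂ) := b9 e (IsSelfAdjoint.of_nonneg hloc.e0)
  set α : ℝ := β.N * tr T e with hα
  have hα0 : 0 ≤ α := by positivity
  -- decomposition
  have hdec : T.1.f (x * β.s0 u i j) =
      ∑ l, T.1.f (star (β.b l * u j) * (β.e x l * u i)) +
      ∑ l, ∑ k, β.y x k l * T.1.f (star (u j) * (β.g l k * u i)) +
      (if i = j then (β.y x).trace * ((tr T e : ℝ) : ℂ) else 0) := by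
    have e1 : ∀ l, T.1.f (x * (β.b l * (u i * star (u j)) * star (β.b l))) =
        T.1.f (star (β.b l * u j) * (β.e x l * u i)) +
        ∑ k, β.y x k l * T.1.f (star (u j) * (β.g l k * u i)) +
        (if i = j then β.y x l l * ((tr T e : ℝ) : ℂ) else 0) := by
      intro l
      have e2 : x * (β.b l * (u i * star (u j)) * star (β.b l)) =
          (x * β.b l * u i) * star (β.b l * u j) := by
        rw [star_mul]; simp only [mul_assoc]
      rw [e2, T.1.tr]
      have e3 : x * β.b l = β.e x l + ∑ k, β.y x k l • β.b k := by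
        unfold Blk.e; abel
      have e4 : star (β.b l * u j) * (x * β.b l * u i) =
          star (β.b l * u j) * (β.e x l * u i) +
          ∑ k, β.y x k l • (star (u j) * (β.g l k * u i) +
            (if l = k then star (u j) * u i else 0)) := by
        rw [e3, add_mul, mul_add]
        congr 1
        rw [Finset.sum_mul, Finset.mul_sum]
        refine Finset.sum_congr rfl fun k _ => ?_
        rw [smul_mul_assoc, mul_smul_comm]
        congr 1
        unfold Blk.g
        rw [star_mul]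
        by_cases hlk : l = k
        · rw [if_pos hlk, if_pos hlk]
          simp only [mul_sub, sub_mul, mul_assoc, one_mul]
          abel
        · rw [if_neg hlk, if_neg hlk]
          simp only [sub_zero, mul_assoc, add_zero]
      rw [e4, map_add, map_sum]
      have e5 : ∑ k, T.1.f (β.y x k l • (star (u j) * (β.g l k * u i) +
            (if l = k then star (u j) * u i else 0))) =
          ∑ k, β.y x k l * T.1.f (star (u j) * (β.g l k * u i)) +
          (if i = j then β.y x l l * ((tr T e : ℝ) : ℂ) else 0) := by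
        have e6 : ∀ k, T.1.f (β.y x k l • (star (u j) * (β.g l k * u i) +
            (if l = k then star (u j) * u i else 0))) =
            β.y x k l * T.1.f (star (u j) * (β.g l k * u i)) +
            (if l = k then β.y x k l * T.1.f (star (u j) * u i) else 0) := by
          intro k
          rw [map_smul, smul_eq_mul, map_add, mul_add]
          congr 1
          by_cases hlk : l = k
          · rw [if_pos hlk, if_pos hlk]
          · rw [if_neg hlk, if_neg hlk, map_zero, mul_zero]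
        rw [Finset.sum_congr rfl (fun k _ => e6 k), Finset.sum_add_distrib]
        congr 1
        rw [Finset.sum_ite_eq Finset.univ l (fun k => β.y x k l * T.1.f (star (u j) * u i)),
          if_pos (Finset.mem_univ l), hloc.orth j i]
        by_cases hij : i = j
        · rw [if_pos hij, if_pos hij.symm, hTe]
        · rw [if_neg hij, if_neg (fun h => hij h.symm), map_zero, mul_zero]
      rw [e5]
      ring
    unfold Blk.s0 Blk.amp
    rw [Finset.mul_sum, map_sum, Finset.sum_congr rfl (fun l _ => e1 l),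
      Finset.sum_add_distrib, Finset.sum_add_distrib]
    congr 1
    by_cases hij : i = j
    · simp only [if_pos hij]
      rw [← Finset.sum_mul]
      rfl
    · simp only [if_neg hij]
      rw [Finset.sum_const_zero]
  have hfirst : ‖∑ l, T.1.f (star (β.b l * u j) * (β.e x l * u i))‖ ≤ 2 * (1 / √W * α) := by
    have h5 := b1 _ _ (s5 x hx i)
    rw [tr_sum, tr_smul] at h5
    have h6 := cs Finset.univ (fun l => T.1.f (star (β.b l * u j) * (β.e x l * u i)))
      (fun l => n2 T (β.b l * u j)) (fun l => n2 T (β.e x l * u i))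
      (fun l _ => (b4 _).2.1) (fun l _ => (b4 _).2.1) (fun l _ => b2 _ _) (2 * α)
      ((β.N : ℝ) / W * tr T e) (s6 T j).2.2 h5
    have h7 : 2 * α * ((β.N : ℝ) / W * tr T e) ≤ (2 * (1 / √W * α)) ^ 2 := by
      have e1 : (2 * (1 / √W * α)) ^ 2 = 4 * (1 / W) * α ^ 2 := by
        rw [mul_pow, mul_pow, div_pow, hsW2]; ring
      have e2 : 2 * α * ((β.N : ℝ) / W * tr T e) = 2 * (1 / W) * α ^ 2 := by
        rw [hα]; ring
      rw [e1, e2]
      have : 0 ≤ (1 / W) * α ^ 2 := by positivity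
      nlinarith
    exact le_of_sq_le_sq (le_trans h6 h7) (by positivity)
  have hsecond : ‖∑ l, ∑ k, β.y x k l * T.1.f (star (u j) * (β.g l k * u i))‖ ≤ 1 / √W * α := by
    rw [← Finset.sum_product']
    have h4 := b1 _ _ (s4 i)
    rw [tr_sum, tr_smul] at h4
    have h4' : ∑ p ∈ (Finset.univ ×ˢ Finset.univ : Finset (Fin β.N × Fin β.N)),
        tr T e * n2 T (β.g p.1 p.2 * u i) ≤
        tr T e * (1 / (W * (β.N : ℝ) ^ 2) * tr T e) := by
      rw [← Finset.mul_sum]
      apply mul_le_mul_of_nonneg_left _ htre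
      rw [Finset.sum_product]
      refine le_trans (le_of_eq ?_) h4
      refine Finset.sum_congr rfl fun l _ => ?_
      rw [tr_sum]
      rfl
    have hy : ∑ p ∈ (Finset.univ ×ˢ Finset.univ : Finset (Fin β.N × Fin β.N)),
        ‖β.y x p.2 p.1‖ ^ 2 ≤ (β.N : ℝ) := by
      rw [Finset.sum_product, Finset.sum_comm]
      exact sum_sq_le (β.y x) (hval.2 x hx).2
    have hn2u : n2 T (u j) = tr T e := by
      unfold n2 tr
      have := hloc.orth j j
      rw [if_pos rfl] at this
      rw [this]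
    have h6 := cs (Finset.univ ×ˢ Finset.univ : Finset (Fin β.N × Fin β.N))
      (fun p => β.y x p.2 p.1 * T.1.f (star (u j) * (β.g p.1 p.2 * u i)))
      (fun p => ‖β.y x p.2 p.1‖ ^ 2) (fun p => tr T e * n2 T (β.g p.1 p.2 * u i))
      (fun p _ => sq_nonneg _) (fun p _ => mul_nonneg htre (b4 _).2.1)
      (fun p _ => by
        rw [norm_mul, mul_pow]
        apply mul_le_mul_of_nonneg_left _ (sq_nonneg _)
        have := b2 (u j) (β.g p.1 p.2 * u i)
        rw [hn2u] at this
        exact this) (β.N : ℝ) (tr T e * (1 / (W * (β.N : ℝ) ^ 2) * tr T e)) hy h4'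
    have h7 : (β.N : ℝ) * (tr T e * (1 / (W * (β.N : ℝ) ^ 2) * tr T e)) ≤ (1 / √W * α) ^ 2 := by
      have e1 : (1 / √W * α) ^ 2 = (1 / W) * (tr T e) ^ 2 * (β.N : ℝ) ^ 2 := by
        rw [mul_pow, div_pow, hsW2, hα]; ring
      have e2 : (β.N : ℝ) * (tr T e * (1 / (W * (β.N : ℝ) ^ 2) * tr T e)) =
          (1 / W) * (tr T e) ^ 2 * (1 / β.N) := by
        field_simp
      rw [e1, e2]
      apply mul_le_mul_of_nonneg_left _ (by positivity)
      have h8 : 1 / (β.N : ℝ) ≤ 1 := by
        rw [div_le_one hNr]; exact hN1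
      nlinarith
    exact le_of_sq_le_sq (le_trans h6 h7) (by positivity)
  rw [hdec, add_sub_cancel_right]
  refine le_trans (norm_add_le _ _) ?_
  have e1 : 4 / √W * α = 4 * (1 / √W * α) := by ring
  rw [e1]
  have : 0 ≤ 1 / √W * α := by positivity
  linarith

end Pool.Agent.H667R5.TW
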