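import Pool.Agent.H667R5.TW.Stubs

/-!
# S2: commutators with the amplification
-/

set_option autoImplicit false
set_option linter.unusedSectionVars false

namespace Pool.Agent.H667R5.TW

open Pool.Agent.H327R4.Pure
open scoped CStarAlgebra ComplexOrder Matrix

universe u v

section

variable {A : Type u} [CStarAlgebra A] [PartialOrder A] [StarOrderedRing A]

theorem S2_tr_smul (T : TS A) (r : ℝ) (x : A) : tr T (r • x) = r * tr T x := by
  unfold tr
  rw [← Complex.coe_smul, map_smul, smul_eq_mul, Complex.re_ofReal_mul]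

theorem S2_tr_sum (T : TS A) {ι : Type*} (s : Finset ι) (x : ι → A) :
    tr T (∑ l ∈ s, x l) = ∑ l ∈ s, tr T (x l) := by
  unfold tr
  rw [map_sum, Complex.re_sum]

theorem S2_half (hCSM : StCSM.{u}) (hBAS : StBAS.{u}) (T : TS A) {N : ℕ} (a w : Fin N → A)
    (r : ℝ) (e : A) (hw : ∑ l, w l * star (w l) ≤ (2 : ℝ) • 1)
    (ha : ∑ l, star (a l) * a l ≤ r • e) :
    n2 T (∑ l, a l * star (w l)) ≤ 2 * (r * tr T e) := by
  obtain ⟨hmono, -, -, hst, -⟩ := hBAS A T
  have h1 := hCSM A N a w 2 (by norm_num) hw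
  have h2 := hmono _ _ h1
  rw [S2_tr_smul, S2_tr_sum] at h2
  have h3 : n2 T (∑ l, a l * star (w l)) =
      tr T ((∑ l, a l * star (w l)) * star (∑ l, a l * star (w l))) := by
    rw [← (hst (∑ l, a l * star (w l))).1]
    unfold n2 tr
    rw [star_star]
  rw [h3]
  refine h2.trans ?_
  have h4 := hmono _ _ ha
  rw [S2_tr_smul, S2_tr_sum] at h4
  have h5 : ∑ l, tr T (a l * star (a l)) = ∑ l, tr T (star (a l) * a l) := by
    refine Finset.sum_congr rfl fun l _ => ?_
    unfold tr
    rw [T.1.tr]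
  rw [h5]
  linarith

end

theorem thm_S2 (hS0 : StS0.{u}) (hCSM : StCSM.{u}) (hBAS : StBAS.{u}) : StS2.{u} := by
  intro A _ _ _ n X W β u e hW hn hV hL T x hx hxs i j
  obtain ⟨-, h2, -, -, h5, -⟩ := hS0 A n X W β u e hW hn hV.1 hL
  obtain ⟨hmono, -, -, hst, htri, -⟩ := hBAS A T
  have hW0 : 0 < W := by linarith
  have hsum : ∀ i, ∑ l, (β.b l * u i) * star (β.b l * u i) ≤ (2 : ℝ) • (1 : A) := by
    intro i
    refine le_trans (le_of_eq ?_) (h2 i)
    unfold Blk.s0 Blk.amp
    refine Finset.sum_congr rfl fun l _ => ?_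
    simp only [star_mul, mul_assoc]
  set Z : A := ∑ l, (β.e x l * u i) * star (β.b l * u j) with hZ
  set Z' : A := ∑ l, (β.e (star x) l * u j) * star (β.b l * u i) with hZ'
  have hZn : n2 T Z ≤ 2 * ((β.N : ℝ) / W * tr T e) :=
    S2_half hCSM hBAS T _ _ _ e (hsum j) (h5 x hx i)
  have hZn' : n2 T Z' ≤ 2 * ((β.N : ℝ) / W * tr T e) :=
    S2_half hCSM hBAS T _ _ _ e (hsum i) (h5 (star x) hxs j)
  have hy : ∀ k l, β.y (star x) k l = star (β.y x l k) := by
    intro k l
    rw [(hV.2 x hx).1, Matrix.conjTranspose_apply]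
  have hxb : ∀ l, x * β.b l = β.e x l + ∑ k, β.y x k l • β.b k := by
    intro l
    unfold Blk.e
    abel
  have hxb' : ∀ l, star (β.b l) * x = star (β.e (star x) l) + ∑ k, β.y x l k • star (β.b k) := by
    intro l
    have h1 : star x * β.b l = β.e (star x) l + ∑ k, β.y (star x) k l • β.b k := by
      unfold Blk.e
      abel
    have h2 := congrArg star h1
    rw [star_mul, star_star, star_add, star_sum] at h2
    rw [h2]
    congr 1
    refine Finset.sum_congr rfl fun k _ => ?_
    rw [star_smul, hy, star_star]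
  have hL1 : x * β.s0 u i j = Z + ∑ l, ∑ k, β.y x k l • (β.b k * u i * star (u j) * star (β.b l)) := by
    unfold Blk.s0 Blk.amp
    rw [hZ, Finset.mul_sum, ← Finset.sum_add_distrib]
    refine Finset.sum_congr rfl fun l _ => ?_
    have h1 : x * (β.b l * (u i * star (u j)) * star (β.b l)) =
        (x * β.b l) * u i * star (u j) * star (β.b l) := by
      simp only [mul_assoc]
    rw [h1, hxb, star_mul, add_mul, add_mul, add_mul, Finset.sum_mul, Finset.sum_mul,
      Finset.sum_mul]
    congr 1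
    · simp only [mul_assoc]
    · refine Finset.sum_congr rfl fun k _ => ?_
      simp only [smul_mul_assoc]
  have hL2 : β.s0 u i j * x = star Z' +
      ∑ l, ∑ k, β.y x l k • (β.b l * u i * star (u j) * star (β.b k)) := by
    unfold Blk.s0 Blk.amp
    rw [hZ', star_sum, Finset.sum_mul, ← Finset.sum_add_distrib]
    refine Finset.sum_congr rfl fun l _ => ?_
    have h1 : β.b l * (u i * star (u j)) * star (β.b l) * x =
        (β.b l * u i * star (u j)) * (star (β.b l) * x) := by
      simp only [mul_assoc]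
    rw [h1, hxb', mul_add, Finset.mul_sum]
    congr 1
    · simp only [star_mul, star_star, mul_assoc]
    · refine Finset.sum_congr rfl fun k _ => ?_
      rw [mul_smul_comm]
  have hdiff : x * β.s0 u i j - β.s0 u i j * x = Z + (-star Z') := by
    rw [hL1, hL2, Finset.sum_comm]
    abel
  rw [hdiff]
  have hneg : n2 T (-star Z') = n2 T Z' := by
    rw [← (hst Z').1]
    unfold n2
    rw [star_neg, neg_mul_neg]
  have h6 := htri Z (-star Z')
  rw [hneg] at h6
  set c : ℝ := 2 * ((β.N : ℝ) / W * tr T e) with hc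
  have h7 : √(n2 T Z) ≤ √c := Real.sqrt_le_sqrt hZn
  have h8 : √(n2 T Z') ≤ √c := Real.sqrt_le_sqrt hZn'
  have hc0 : 0 ≤ c := (hst Z).2.1.trans hZn
  have h9 : √(n2 T (Z + -star Z')) ≤ 2 * √c := by linarith
  have h10 : n2 T (Z + -star Z') ≤ (2 * √c) ^ 2 := by
    rw [← Real.sq_sqrt (hst (Z + -star Z')).2.1]
    exact pow_le_pow_left₀ (Real.sqrt_nonneg _) h9 2
  refine h10.trans (le_of_eq ?_)
  rw [mul_pow, Real.sq_sqrt hc0, hc]
  ring

end Pool.Agent.H667R5.TW
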