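import Pool.Agent.H667R5.TW.Stubs

/-!
# S3: the amplification is almost orthogonal to the penalised element `V`
-/

set_option autoImplicit false

namespace Pool.Agent.H667R5.TW

open Pool.Agent.H327R4.Pure
open scoped CStarAlgebra ComplexOrder Matrix

universe u v

namespace TS3

variable {A : Type u} [CStarAlgebra A] [PartialOrder A] [StarOrderedRing A]

theorem s0_eq (β : Blk A) {n : ℕ} (u : Fin n → A) (i j : Fin n) :
    β.s0 u i j = ∑ l, (β.b l * u i) * star (β.b l * u j) := by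
  unfold Blk.s0 Blk.amp
  refine Finset.sum_congr rfl fun l _ => ?_
  simp only [star_mul, mul_assoc]

theorem s0_star (β : Blk A) {n : ℕ} (u : Fin n → A) (i j : Fin n) :
    star (β.s0 u i j) = β.s0 u j i := by
  rw [s0_eq, s0_eq, star_sum]
  refine Finset.sum_congr rfl fun l _ => ?_
  simp only [star_mul, star_star]

theorem tr_sum (T : TS A) {m : ℕ} (f : Fin m → A) : tr T (∑ l, f l) = ∑ l, tr T (f l) := by
  unfold tr
  rw [map_sum, Complex.re_sum]

theorem tr_smul (T : TS A) (r : ℝ) (x : A) : tr T (r • x) = r * tr T x := by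
  unfold tr
  have h : r • x = (r : ℂ) • x := by simp
  rw [h, map_smul, smul_eq_mul, Complex.re_ofReal_mul]

/-- the Cauchy-Schwarz inequality for a sum -/
theorem cs_sum (h : StBAS.{u}) (T : TS A) {m : ℕ} (a b : Fin m → A) :
    ‖∑ l, T.1.f (star (a l) * b l)‖ ≤ √((∑ l, n2 T (a l)) * (∑ l, n2 T (b l))) := by
  obtain ⟨_, hcs, _, hn, _⟩ := h A T
  have h0 : ∀ x : A, 0 ≤ n2 T x := fun x => (hn x).2.1
  have h1 : ∀ l, ‖T.1.f (star (a l) * b l)‖ ≤ √(n2 T (a l)) * √(n2 T (b l)) := by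
    intro l
    rw [← Real.sqrt_mul (h0 _)]
    exact Real.le_sqrt_of_sq_le (hcs _ _)
  calc ‖∑ l, T.1.f (star (a l) * b l)‖ ≤ ∑ l, ‖T.1.f (star (a l) * b l)‖ := norm_sum_le _ _
    _ ≤ ∑ l, √(n2 T (a l)) * √(n2 T (b l)) := Finset.sum_le_sum fun l _ => h1 l
    _ ≤ √((∑ l, n2 T (a l)) * (∑ l, n2 T (b l))) := by
      apply Real.le_sqrt_of_sq_le
      calc (∑ l, √(n2 T (a l)) * √(n2 T (b l))) ^ 2
          ≤ (∑ l, √(n2 T (a l)) ^ 2) * (∑ l, √(n2 T (b l)) ^ 2) :=
            Finset.sum_mul_sq_le_sq_mul_sq _ _ _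
        _ = _ := by
          congr 1 <;> exact Finset.sum_congr rfl fun l _ => Real.sq_sqrt (h0 _)

/-- `n2 (∑ a_l w_l^*) ≤ K ∑ n2 (a_l)` -/
theorem n2_csm (h : StBAS.{u}) (hC : StCSM.{u}) (T : TS A) {m : ℕ} (a w : Fin m → A) (K : ℝ)
    (hK : 0 < K) (hw : ∑ l, w l * star (w l) ≤ K • 1) :
    n2 T (∑ l, a l * star (w l)) ≤ K * ∑ l, n2 T (a l) := by
  obtain ⟨hmono, _, _, hn, _⟩ := h A T
  have h1 := hmono _ _ (hC A m a w K hK hw)
  have h2 : tr T ((∑ l, a l * star (w l)) * star (∑ l, a l * star (w l))) =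
      n2 T (∑ l, a l * star (w l)) := by
    unfold n2 tr
    rw [T.1.tr]
  have h3 : tr T (K • ∑ l, a l * star (a l)) = K * ∑ l, n2 T (a l) := by
    rw [tr_smul, tr_sum]
    congr 1
    refine Finset.sum_congr rfl fun l _ => ?_
    unfold n2 tr
    rw [T.1.tr]
  rw [h2, h3] at h1
  exact h1

theorem sq_le {V : A} (hV0 : 0 ≤ V) (hV1 : V ≤ 1) : V * V ≤ V := by
  have hs : CFC.sqrt V * CFC.sqrt V = V := CFC.sqrt_mul_sqrt_self V hV0
  have h3 : CFC.sqrt V * V * CFC.sqrt V ≤ CFC.sqrt V * 1 * CFC.sqrt V :=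
    conjugate_le_conjugate_of_nonneg hV1 (CFC.sqrt_nonneg V)
  have h4 : ∀ s : A, s * s = V → s * V * s = V * V := by
    intro s h
    rw [← h]
    simp only [mul_assoc]
  rw [h4 _ hs, mul_one, hs] at h3
  exact h3

end TS3

open TS3 in
theorem thm_S3 (h : StBAS.{u}) (h0 : StS0.{u}) (hC : StCSM.{u}) : StS3.{u} := by
  intro A _ _ _ n X W lam β u e V hW hnW hN hloc hV0 hV1 hlam hlam1 hpen T i j
  obtain ⟨_, hdiag, _, _, _, htr⟩ := h0 A n X W β u e hW hnW hN hloc
  obtain ⟨hmono, hcs, hmul, hn, hadd, hpos, hconj, hstar, hsa⟩ := h A T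
  set α : ℝ := β.N * tr T e with hα
  have hα0 : 0 ≤ α := by
    have h1 : 0 ≤ tr T e := by
      have := hmono 0 e hloc.e0
      simpa [tr] using this
    positivity
  have hb : ∀ i, ∑ l, n2 T (β.b l * u i) ≤ 2 * α := fun i => (htr T i).2.2
  have hn0 : ∀ x : A, 0 ≤ n2 T x := fun x => (hn x).2.1
  have hVs : star V = V := (IsSelfAdjoint.of_nonneg hV0).star_eq
  -- `n2 (V b_l u_i)`
  have hVb : ∀ i, ∑ l, n2 T (V * (β.b l * u i)) ≤ lam * α := by
    intro i
    have h1 := hmono _ _ (hpen i)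
    rw [tr_sum, tr_smul] at h1
    calc ∑ l, n2 T (V * (β.b l * u i)) ≤ ∑ l, tr T (star (β.b l * u i) * V * (β.b l * u i)) := by
          refine Finset.sum_le_sum fun l _ => ?_
          have h2 : V * V ≤ V := sq_le hV0 hV1
          have h5 := hconj (V * V) V (β.b l * u i) h2
          calc n2 T (V * (β.b l * u i)) = tr T (star (β.b l * u i) * (V * V) * (β.b l * u i)) := by
                unfold n2 tr
                rw [star_mul, hVs]
                simp only [mul_assoc]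
            _ ≤ _ := h5
      _ ≤ lam * β.N * tr T e := h1
      _ = lam * α := by rw [hα]; ring
  -- first item
  have hw2 : ∀ j, ∑ l, (β.b l * u j) * star (β.b l * u j) ≤ (2 : ℝ) • 1 := by
    intro j
    have := hdiag j
    rwa [s0_eq] at this
  have hVs0 : ∀ i j, n2 T (V * β.s0 u i j) ≤ 2 * lam * α := by
    intro i j
    have h1 : V * β.s0 u i j = ∑ l, (V * (β.b l * u i)) * star (β.b l * u j) := by
      rw [s0_eq, Finset.mul_sum]
      refine Finset.sum_congr rfl fun l _ => ?_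
      simp only [mul_assoc]
    rw [h1]
    have h2 := n2_csm h hC T (fun l => V * (β.b l * u i)) (fun l => β.b l * u j) 2 (by norm_num)
      (hw2 j)
    nlinarith [hVb i]
  have hs0V : ∀ i j, n2 T (β.s0 u i j * V) ≤ 2 * lam * α := by
    intro i j
    have h1 : β.s0 u i j * V = star (V * β.s0 u j i) := by
      rw [star_mul, hVs, s0_star]
    rw [h1, (hn _).1]
    exact hVs0 j i
  have hs0 : ∀ i j, n2 T (β.s0 u i j) ≤ 4 * α := by
    intro i j
    rw [s0_eq]
    have h2 := n2_csm h hC T (fun l => β.b l * u i) (fun l => β.b l * u j) 2 (by norm_num)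
      (hw2 j)
    nlinarith [hb i]
  refine ⟨hVs0 i j, hs0V i j, hs0 i j, ?_⟩
  intro x hx
  have hxs : ‖star x‖ ≤ 1 := by rwa [norm_star]
  -- `n2 (x^* y) ≤ n2 y`
  have hxy : ∀ y : A, n2 T (star x * y) ≤ n2 T y := by
    intro y
    have h1 := (hmul (star x) y).1
    have h2 : ‖star x‖ ^ 2 ≤ 1 := by
      have := norm_nonneg (star x)
      nlinarith
    nlinarith [hn0 y]
  have hxb : ∑ l, n2 T (star x * (β.b l * u j)) ≤ 2 * α :=
    le_trans (Finset.sum_le_sum fun l _ => hxy _) (hb j)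
  have hxVb : ∑ l, n2 T (star x * (V * (β.b l * u j))) ≤ lam * α :=
    le_trans (Finset.sum_le_sum fun l _ => hxy _) (hVb j)
  have key1 : ‖T.1.f (x * (V * β.s0 u i j))‖ ≤ √(2 * α * (lam * α)) := by
    have h1 : T.1.f (x * (V * β.s0 u i j)) =
        ∑ l, T.1.f (star (star x * (β.b l * u j)) * (V * (β.b l * u i))) := by
      rw [s0_eq, Finset.mul_sum, Finset.mul_sum, map_sum]
      refine Finset.sum_congr rfl fun l _ => ?_
      rw [star_mul (star x), star_star, show x * (V * (β.b l * u i * star (β.b l * u j))) =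
        (x * (V * (β.b l * u i))) * star (β.b l * u j) by simp only [mul_assoc], T.1.tr]
      simp only [mul_assoc]
    rw [h1]
    refine le_trans (cs_sum h T _ _) (Real.sqrt_le_sqrt ?_)
    exact mul_le_mul hxb (hVb i) (Finset.sum_nonneg fun l _ => hn0 _) (by positivity)
  have key2 : ‖T.1.f (x * (β.s0 u i j * V))‖ ≤ √(lam * α * (2 * α)) := by
    have h1 : T.1.f (x * (β.s0 u i j * V)) =
        ∑ l, T.1.f (star (star x * (V * (β.b l * u j))) * (β.b l * u i)) := by
      rw [s0_eq, Finset.sum_mul, Finset.mul_sum, map_sum]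
      refine Finset.sum_congr rfl fun l _ => ?_
      rw [star_mul (star x), star_star, star_mul V, hVs,
        show x * (β.b l * u i * star (β.b l * u j) * V) =
        (x * (β.b l * u i)) * (star (β.b l * u j) * V) by simp only [mul_assoc], T.1.tr]
      simp only [mul_assoc]
    rw [h1]
    refine le_trans (cs_sum h T _ _) (Real.sqrt_le_sqrt ?_)
    exact mul_le_mul hxVb (hb i) (Finset.sum_nonneg fun l _ => hn0 _) (by positivity)
  have key3 : ‖T.1.f (x * (V * β.s0 u i j * V))‖ ≤ √(lam * α * (lam * α)) := by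
    have h1 : T.1.f (x * (V * β.s0 u i j * V)) =
        ∑ l, T.1.f (star (star x * (V * (β.b l * u j))) * (V * (β.b l * u i))) := by
      rw [s0_eq, Finset.mul_sum, Finset.sum_mul, Finset.mul_sum, map_sum]
      refine Finset.sum_congr rfl fun l _ => ?_
      rw [star_mul (star x), star_star, star_mul V, hVs,
        show x * (V * (β.b l * u i * star (β.b l * u j)) * V) =
        (x * (V * (β.b l * u i))) * (star (β.b l * u j) * V) by simp only [mul_assoc], T.1.tr]
      simp only [mul_assoc]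
    rw [h1]
    refine le_trans (cs_sum h T _ _) (Real.sqrt_le_sqrt ?_)
    exact mul_le_mul hxVb (hVb i) (Finset.sum_nonneg fun l _ => hn0 _) (by positivity)
  have hexp : T.1.f (x * ((1 - V) * β.s0 u i j * (1 - V))) - T.1.f (x * β.s0 u i j) =
      - T.1.f (x * (V * β.s0 u i j)) - T.1.f (x * (β.s0 u i j * V)) +
        T.1.f (x * (V * β.s0 u i j * V)) := by
    rw [← map_neg, ← map_sub, ← map_sub, ← map_add]
    congr 1
    noncomm_ring
  rw [hexp]
  have hsl : √lam * √lam = lam := Real.mul_self_sqrt hlam.le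
  have hsl0 : 0 ≤ √lam := Real.sqrt_nonneg _
  have hsl1 : √lam ≤ 1 := Real.sqrt_le_one.mpr hlam1
  have e1 : √(2 * α * (lam * α)) ≤ (3 / 2) * √lam * α := by
    apply Real.sqrt_le_iff.mpr
    refine ⟨by positivity, ?_⟩
    nlinarith [mul_nonneg hα0 hα0, mul_nonneg hlam.le (mul_nonneg hα0 hα0)]
  have e2 : √(lam * α * (2 * α)) ≤ (3 / 2) * √lam * α := by
    apply Real.sqrt_le_iff.mpr
    refine ⟨by positivity, ?_⟩
    nlinarith [mul_nonneg hα0 hα0, mul_nonneg hlam.le (mul_nonneg hα0 hα0)]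
  have e3 : √(lam * α * (lam * α)) ≤ √lam * α := by
    rw [Real.sqrt_mul_self (by positivity)]
    have : lam ≤ √lam := by nlinarith
    nlinarith
  calc ‖- T.1.f (x * (V * β.s0 u i j)) - T.1.f (x * (β.s0 u i j * V)) +
        T.1.f (x * (V * β.s0 u i j * V))‖
      ≤ ‖- T.1.f (x * (V * β.s0 u i j)) - T.1.f (x * (β.s0 u i j * V))‖ +
        ‖T.1.f (x * (V * β.s0 u i j * V))‖ := norm_add_le _ _
    _ ≤ ‖T.1.f (x * (V * β.s0 u i j))‖ + ‖T.1.f (x * (β.s0 u i j * V))‖ +
        ‖T.1.f (x * (V * β.s0 u i j * V))‖ := by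
        gcongr
        refine le_trans (norm_sub_le _ _) ?_
        rw [norm_neg]
    _ ≤ 4 * √lam * α := by linarith

end Pool.Agent.H667R5.TW
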