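import Pool.Agent.H667R5.TW.Stubs

/-!
# S4: cross terms

Adapted from helper141's file `TS4`.
-/

set_option autoImplicit false

namespace Pool.Agent.H667R5.TW

open Pool.Agent.H327R4.Pure
open scoped CStarAlgebra ComplexOrder Matrix

universe u v

namespace S4hb

variable {A : Type u} [CStarAlgebra A] [PartialOrder A] [StarOrderedRing A]

lemma tr_add' (T : TS A) (x y : A) : tr T (x + y) = tr T x + tr T y := by
  simp [tr]

lemma tr_smul' (T : TS A) (r : ℝ) (x : A) : tr T (r • x) = r * tr T x := by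
  have : r • x = ((r : ℝ) : ℂ) • x := (Complex.coe_smul r x).symm
  unfold tr
  rw [this, map_smul, smul_eq_mul, Complex.re_ofReal_mul]

lemma tr_sum' {ι : Type*} (T : TS A) (s : Finset ι) (h : ι → A) :
    tr T (∑ i ∈ s, h i) = ∑ i ∈ s, tr T (h i) := by
  unfold tr
  rw [map_sum, Complex.re_sum]

lemma norm_le_one_of_le {G : A} (h : star G * G ≤ 1) : ‖G‖ ≤ 1 := by
  have h1 : ‖star G * G‖ ≤ ‖(1 : A)‖ := CStarAlgebra.norm_le_norm_of_nonneg_of_le
    (star_mul_self_nonneg G) h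
  rw [CStarRing.norm_star_mul_self] at h1
  have h2 : ‖(1 : A)‖ ≤ 1 := by
    rcases subsingleton_or_nontrivial A with hA | hA
    · rw [Subsingleton.elim (1 : A) 0, norm_zero]; exact zero_le_one
    · rw [CStarRing.norm_one]
  have h3 := norm_nonneg G
  nlinarith

lemma norm_one_sub_le {V : A} (h0 : 0 ≤ V) (h1 : V ≤ 1) : ‖1 - V‖ ≤ 1 := by
  have h2 : ‖1 - V‖ ≤ ‖(1 : A)‖ := CStarAlgebra.norm_le_norm_of_nonneg_of_le
    (sub_nonneg.mpr h1) (sub_le_self 1 h0)
  have h3 : ‖(1 : A)‖ ≤ 1 := by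
    rcases subsingleton_or_nontrivial A with hA | hA
    · rw [Subsingleton.elim (1 : A) 0, norm_zero]; exact zero_le_one
    · rw [CStarRing.norm_one]
  exact h2.trans h3

lemma sq_le {V : A} (h0 : 0 ≤ V) (h1 : V ≤ 1) : V * V ≤ V := by
  have hs : CFC.sqrt V * CFC.sqrt V = V := CFC.sqrt_mul_sqrt_self V h0
  have hsa : star (CFC.sqrt V) = CFC.sqrt V :=
    (IsSelfAdjoint.of_nonneg (CFC.sqrt_nonneg V)).star_eq
  have h2 : star (CFC.sqrt V) * (1 - V) * CFC.sqrt V = V - V * V := by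
    rw [hsa]
    have e1 : CFC.sqrt V * (1 - V) * CFC.sqrt V
        = CFC.sqrt V * CFC.sqrt V - CFC.sqrt V * V * CFC.sqrt V := by noncomm_ring
    have e2 : CFC.sqrt V * V * CFC.sqrt V = V * V := by
      calc CFC.sqrt V * V * CFC.sqrt V
          = CFC.sqrt V * (CFC.sqrt V * CFC.sqrt V) * CFC.sqrt V := by rw [hs]
        _ = (CFC.sqrt V * CFC.sqrt V) * (CFC.sqrt V * CFC.sqrt V) := by noncomm_ring
        _ = V * V := by rw [hs]
    rw [e1, e2, hs]
  have h3 : 0 ≤ star (CFC.sqrt V) * (1 - V) * CFC.sqrt V :=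
    star_left_conjugate_nonneg (sub_nonneg.mpr h1) _
  rw [h2] at h3
  exact sub_nonneg.mp h3

lemma n2_add_le {T : TS A} (hB : StBAS.{u}) (x y : A) :
    n2 T (x + y) ≤ 2 * n2 T x + 2 * n2 T y := by
  obtain ⟨-, -, -, b4, b5, -⟩ := hB A T
  have h1 := b5 x y
  have hx := (b4 x).2.1
  have hy := (b4 y).2.1
  have hxy := (b4 (x + y)).2.1
  have e1 := Real.sq_sqrt hx
  have e2 := Real.sq_sqrt hy
  have e3 := Real.sq_sqrt hxy
  have p1 := Real.sqrt_nonneg (n2 T x)
  have p2 := Real.sqrt_nonneg (n2 T y)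
  have p3 := Real.sqrt_nonneg (n2 T (x + y))
  have h2 : √(n2 T (x + y)) ^ 2 ≤ (√(n2 T x) + √(n2 T y)) ^ 2 := by
    apply pow_le_pow_left₀ p3 h1
  nlinarith [sq_nonneg (√(n2 T x) - √(n2 T y))]

lemma n2_neg (T : TS A) (x : A) : n2 T (-x) = n2 T x := by
  unfold n2; rw [star_neg, neg_mul_neg]

end S4hb

open S4hb in
theorem thm_S4b (hB : StBAS.{u}) (h0 : StS0.{u}) (hL : StLN.{u}) : StS4.{u} := by
  intro A _ _ _ n X W lam β u e V hW hnW hval hloc hV0 hV1 hlam hlam1 hpen T G z1 hG hz1 z hz hzn i j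
  obtain ⟨b1, b2, b3, b4, b5, b6, b7, b8, b9⟩ := hB A T
  obtain ⟨-, -, -, -, s5, s6⟩ := h0 A n X W β u e hW hnW hval.1 hloc
  have hW0 : 0 < W := by linarith
  have hN0 : (0 : ℝ) < β.N := by exact_mod_cast hval.1
  set α : ℝ := β.N * tr T e with hα
  have hsa : star (1 - V) = 1 - V := by
    rw [star_sub, star_one, (IsSelfAdjoint.of_nonneg hV0).star_eq]
  have hVs : star V = V := (IsSelfAdjoint.of_nonneg hV0).star_eq
  have hn1V := norm_one_sub_le hV0 hV1
  have hGn : ‖G‖ ≤ 1 := norm_le_one_of_le (hG.trans hV1)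
  set R : A := CFC.sqrt V with hR
  have hRR : R * R = V := CFC.sqrt_mul_sqrt_self V hV0
  have hRs : star R = R := (IsSelfAdjoint.of_nonneg (CFC.sqrt_nonneg V)).star_eq
  have hRn : ‖R‖ ≤ 1 := by
    apply norm_le_one_of_le
    rw [hRs, hRR]; exact hV1
  -- the vectors
  let P : Fin β.N → A := fun l => star z1 * (1 - V) * (β.b l * u j)
  let Q : Fin β.N → A := fun l => G * z * (1 - V) * (β.b l * u i)
  have hsum : T.1.f (z1 * G * z * ((1 - V) * β.s0 u i j * (1 - V)))
      = ∑ l, T.1.f (star (P l) * Q l) := by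
    have e1 : z1 * G * z * ((1 - V) * β.s0 u i j * (1 - V))
        = ∑ l, (z1 * G * z * (1 - V) * (β.b l * u i)) * (star (β.b l * u j) * (1 - V)) := by
      show z1 * G * z * ((1 - V) * (∑ l, β.b l * (u i * star (u j)) * star (β.b l)) * (1 - V)) = _
      rw [Finset.mul_sum, Finset.sum_mul, Finset.mul_sum]
      apply Finset.sum_congr rfl
      intro l _
      rw [star_mul]
      noncomm_ring
    rw [e1, map_sum]
    apply Finset.sum_congr rfl
    intro l _
    rw [T.1.tr]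
    congr 1
    show star (β.b l * u j) * (1 - V) * (z1 * G * z * (1 - V) * (β.b l * u i)) =
      star (star z1 * (1 - V) * (β.b l * u j)) * (G * z * (1 - V) * (β.b l * u i))
    rw [star_mul (star z1 * (1 - V)), star_mul (star z1), star_star, hsa]
    noncomm_ring
  -- the first factor
  have hP : ∑ l, n2 T (P l) ≤ 2 * α := by
    refine le_trans (Finset.sum_le_sum fun l _ => ?_) (s6 T j).2.2
    have h1 := (b3 (star z1 * (1 - V)) (β.b l * u j)).1
    have h2 : ‖star z1 * (1 - V)‖ ≤ 1 := by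
      calc _ ≤ ‖star z1‖ * ‖1 - V‖ := norm_mul_le _ _
        _ ≤ 1 * 1 := by
          apply mul_le_mul _ hn1V (norm_nonneg _) zero_le_one
          rw [norm_star]; exact hz1
        _ = 1 := one_mul 1
    have h3 : ‖star z1 * (1 - V)‖ ^ 2 ≤ 1 := pow_le_one₀ (norm_nonneg _) h2
    have h4 := (b4 (β.b l * u j)).2.1
    calc n2 T (P l) ≤ ‖star z1 * (1 - V)‖ ^ 2 * n2 T (β.b l * u j) := h1
      _ ≤ 1 * n2 T (β.b l * u j) := mul_le_mul_of_nonneg_right h3 h4
      _ = _ := one_mul _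
  -- the penalty
  have hpenT : ∑ l, tr T (star (β.b l * u i) * V * (β.b l * u i)) ≤ lam * α := by
    rw [← tr_sum']
    refine le_trans (b1 _ _ (hpen i)) ?_
    rw [tr_smul', hα, mul_assoc]
  have hVB : ∑ l, n2 T (V * (β.b l * u i)) ≤ lam * α := by
    refine le_trans (Finset.sum_le_sum fun l _ => ?_) hpenT
    have h1 := b7 _ _ (β.b l * u i) (sq_le hV0 hV1)
    have h2 : n2 T (V * (β.b l * u i)) = tr T (star (β.b l * u i) * (V * V) * (β.b l * u i)) := by
      unfold n2 tr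
      rw [star_mul, hVs]
      congr 2
      noncomm_ring
    rw [h2]; exact h1
  have hRB : ∑ l, n2 T (R * (β.b l * u i)) ≤ lam * α := by
    refine le_trans (Finset.sum_le_sum fun l _ => ?_) hpenT
    have h2 : n2 T (R * (β.b l * u i)) = tr T (star (β.b l * u i) * V * (β.b l * u i)) := by
      unfold n2 tr
      rw [star_mul, hRs, ← hRR]
      congr 2
      noncomm_ring
    rw [h2]
  -- the errors
  have hEB : ∑ l, n2 T (R * (β.e z l * u i)) ≤ α / W := by
    have h1 : ∑ l, n2 T (β.e z l * u i) ≤ α / W := by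
      have h2 := b1 _ _ (s5 z hz i)
      rw [tr_sum', tr_smul'] at h2
      calc _ = ∑ l, tr T (star (β.e z l * u i) * (β.e z l * u i)) := rfl
        _ ≤ _ := h2
        _ = α / W := by rw [hα]; ring
    refine le_trans (Finset.sum_le_sum fun l _ => ?_) h1
    have h3 := (b3 R (β.e z l * u i)).1
    have h4 := (b4 (β.e z l * u i)).2.1
    have h5 : ‖R‖ ^ 2 ≤ 1 := pow_le_one₀ (norm_nonneg _) hRn
    calc _ ≤ ‖R‖ ^ 2 * n2 T (β.e z l * u i) := h3
      _ ≤ 1 * n2 T (β.e z l * u i) := mul_le_mul_of_nonneg_right h5 h4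
      _ = _ := one_mul _
  have hmain : ∑ l, n2 T (∑ k, β.y z k l • (R * (β.b k * u i))) ≤ lam * α :=
    le_trans (hL A T β.N (β.y z) (fun k => R * (β.b k * u i)) (hval.2 z hz).2) hRB
  have hQa : ∑ l, n2 T (G * z * (β.b l * u i)) ≤ 2 * (lam * α) + 2 * (α / W) := by
    have h1 : ∀ l, n2 T (G * z * (β.b l * u i)) ≤
        2 * n2 T (∑ k, β.y z k l • (R * (β.b k * u i))) + 2 * n2 T (R * (β.e z l * u i)) := by
      intro l
      have h2 : n2 T (G * z * (β.b l * u i)) ≤ n2 T (R * (z * (β.b l * u i))) := by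
        have h3 := b7 _ _ (z * (β.b l * u i)) hG
        have h4 : n2 T (G * z * (β.b l * u i)) =
            tr T (star (z * (β.b l * u i)) * (star G * G) * (z * (β.b l * u i))) := by
          unfold n2 tr
          rw [mul_assoc G, star_mul G]
          congr 2
          noncomm_ring
        have h5 : n2 T (R * (z * (β.b l * u i))) =
            tr T (star (z * (β.b l * u i)) * V * (z * (β.b l * u i))) := by
          unfold n2 tr
          rw [star_mul R, hRs, ← hRR]
          congr 2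
          noncomm_ring
        rw [h4, h5]; exact h3
      have h6 : R * (z * (β.b l * u i)) =
          ∑ k, β.y z k l • (R * (β.b k * u i)) + R * (β.e z l * u i) := by
        have h7 : z * β.b l = β.e z l + ∑ k, β.y z k l • β.b k := by
          unfold Blk.e
          rw [sub_add_cancel]
        rw [← mul_assoc z, h7, add_mul, mul_add, Finset.sum_mul, Finset.mul_sum, add_comm]
        congr 1
        apply Finset.sum_congr rfl
        intro k _
        rw [smul_mul_assoc, mul_smul_comm]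
      rw [h6] at h2
      exact h2.trans (n2_add_le hB _ _)
    refine le_trans (Finset.sum_le_sum fun l _ => h1 l) ?_
    rw [Finset.sum_add_distrib, ← Finset.mul_sum, ← Finset.mul_sum]
    linarith
  have hQb : ∑ l, n2 T (G * z * V * (β.b l * u i)) ≤ lam * α := by
    refine le_trans (Finset.sum_le_sum fun l _ => ?_) hVB
    have h1 := (b3 (G * z) (V * (β.b l * u i))).1
    have h2 : ‖G * z‖ ≤ 1 := by
      calc _ ≤ ‖G‖ * ‖z‖ := norm_mul_le _ _
        _ ≤ 1 * 1 := mul_le_mul hGn hzn (norm_nonneg _) zero_le_one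
        _ = 1 := one_mul 1
    have h3 : ‖G * z‖ ^ 2 ≤ 1 := pow_le_one₀ (norm_nonneg _) h2
    have h4 := (b4 (V * (β.b l * u i))).2.1
    calc n2 T (G * z * V * (β.b l * u i)) = n2 T (G * z * (V * (β.b l * u i))) := by
          rw [mul_assoc (G * z) V]
      _ ≤ ‖G * z‖ ^ 2 * n2 T (V * (β.b l * u i)) := h1
      _ ≤ 1 * n2 T (V * (β.b l * u i)) := mul_le_mul_of_nonneg_right h3 h4
      _ = _ := one_mul _
  have hQ : ∑ l, n2 T (Q l) ≤ (6 * lam + 4 / W) * α := by
    have h1 : ∀ l, n2 T (Q l) ≤ 2 * n2 T (G * z * (β.b l * u i))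
        + 2 * n2 T (G * z * V * (β.b l * u i)) := by
      intro l
      have h2 : Q l = G * z * (β.b l * u i) + -(G * z * V * (β.b l * u i)) := by
        show G * z * (1 - V) * (β.b l * u i) = _
        noncomm_ring
      rw [h2]
      refine (n2_add_le hB _ _).trans ?_
      rw [n2_neg]
    refine le_trans (Finset.sum_le_sum fun l _ => h1 l) ?_
    rw [Finset.sum_add_distrib, ← Finset.mul_sum, ← Finset.mul_sum]
    have h3 : (6 * lam + 4 / W) * α = 2 * (2 * (lam * α) + 2 * (α / W)) + 2 * (lam * α) := by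
      field_simp
      ring
    rw [h3]
    linarith
  -- Cauchy-Schwarz
  have hα0 : 0 ≤ α := by
    have h1 := Finset.sum_nonneg (fun l (_ : l ∈ Finset.univ) => (b4 (P l)).2.1)
    linarith
  rw [hsum]
  have hCS : ‖∑ l, T.1.f (star (P l) * Q l)‖ ≤ √(∑ l, n2 T (P l)) * √(∑ l, n2 T (Q l)) := by
    calc _ ≤ ∑ l, ‖T.1.f (star (P l) * Q l)‖ := norm_sum_le _ _
      _ ≤ ∑ l, √(n2 T (P l)) * √(n2 T (Q l)) := by
        apply Finset.sum_le_sum
        intro l _
        rw [← Real.sqrt_mul (b4 (P l)).2.1]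
        exact Real.le_sqrt_of_sq_le (b2 _ _)
      _ ≤ _ := Real.sum_sqrt_mul_sqrt_le _ (fun l => (b4 (P l)).2.1) (fun l => (b4 (Q l)).2.1)
  refine hCS.trans ?_
  have hst : √(2 * α) * √((6 * lam + 4 / W) * α) ≤ 4 * (√lam + 1 / √W) * α := by
    rw [← Real.sqrt_mul (by positivity)]
    apply Real.sqrt_le_iff.mpr
    have hsW : 0 < √W := Real.sqrt_pos.mpr hW0
    have hW2 : √W ^ 2 = W := Real.sq_sqrt hW0.le
    have hl2 : √lam ^ 2 = lam := Real.sq_sqrt hlam.le
    refine ⟨by positivity, ?_⟩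
    have h1 : (1 / √W) ^ 2 = 1 / W := by rw [div_pow, one_pow, hW2]
    have h2 : (4 * (√lam + 1 / √W) * α) ^ 2 =
        16 * (lam + 2 * (√lam * (1 / √W)) + 1 / W) * α ^ 2 := by
      rw [← h1]
      nth_rewrite 2 [← hl2]
      ring
    rw [h2]
    have h3 : 2 * α * ((6 * lam + 4 / W) * α) = (12 * lam + 8 * (1 / W)) * α ^ 2 := by ring
    rw [h3]
    apply mul_le_mul_of_nonneg_right _ (sq_nonneg α)
    have h4 : 0 ≤ √lam * (1 / √W) := by positivity
    have h5 : 0 ≤ 1 / W := by positivity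
    linarith
  refine le_trans ?_ hst
  exact mul_le_mul (Real.sqrt_le_sqrt hP) (Real.sqrt_le_sqrt hQ) (Real.sqrt_nonneg _)
    (Real.sqrt_nonneg _)

end Pool.Agent.H667R5.TW
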