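import Pool.Agent.H667R5.TW.Stubs

/-!
# Toms-Winter, S5: the amplification is almost multiplicative
-/

set_option autoImplicit false

namespace Pool.Agent.H667R5.TW

open Pool.Agent.H327R4.Pure
open scoped CStarAlgebra ComplexOrder Matrix

universe u

section

variable {A : Type u} [CStarAlgebra A] [PartialOrder A] [StarOrderedRing A]

omit [StarOrderedRing A] in
private theorem s5_ident {n : ℕ} (S : A) (β : Blk A) (u : Fin n → A) (e : A)
    (hloc : IsLoc S u e) (i j : Fin n) :
    star (β.s0 u i j) * β.s0 u i j =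
      ∑ l, (β.b l * u j) * (e * star (β.b l * u j)) +
        ∑ k, ∑ l, (β.b k * u j) * ((star (u i) * (β.g k l * u i)) * star (β.b l * u j)) := by
  have h1 : star (β.s0 u i j) = ∑ k, (β.b k * u j) * (star (u i) * star (β.b k)) := by
    unfold Blk.s0 Blk.amp
    rw [star_sum]
    refine Finset.sum_congr rfl fun k _ => ?_
    simp only [star_mul, star_star, mul_assoc]
  have h2 : β.s0 u i j = ∑ l, (β.b l * u i) * star (β.b l * u j) := by
    unfold Blk.s0 Blk.amp
    refine Finset.sum_congr rfl fun k _ => ?_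
    simp only [star_mul, mul_assoc]
  rw [h1, h2, Finset.sum_mul_sum]
  have h3 : ∀ k l, (β.b k * u j) * (star (u i) * star (β.b k)) *
      ((β.b l * u i) * star (β.b l * u j)) =
      (if k = l then (β.b l * u j) * (e * star (β.b l * u j)) else 0) +
      (β.b k * u j) * ((star (u i) * (β.g k l * u i)) * star (β.b l * u j)) := by
    intro k l
    have h4 : star (β.b k) * β.b l = (if k = l then 1 else 0) + β.g k l := by
      unfold Blk.g; abel
    have h5 : (star (u i) * star (β.b k)) * (β.b l * u i) =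
        (if k = l then e else 0) + star (u i) * (β.g k l * u i) := by
      calc (star (u i) * star (β.b k)) * (β.b l * u i)
          = star (u i) * ((star (β.b k) * β.b l) * u i) := by simp only [mul_assoc]
        _ = star (u i) * (((if k = l then 1 else 0) + β.g k l) * u i) := by rw [h4]
        _ = _ := by
          rw [add_mul, mul_add]
          congr 1
          split_ifs
          · rw [one_mul, hloc.orth i i, if_pos rfl]
          · rw [zero_mul, mul_zero]
    calc (β.b k * u j) * (star (u i) * star (β.b k)) * ((β.b l * u i) * star (β.b l * u j))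
        = (β.b k * u j) * (((star (u i) * star (β.b k)) * (β.b l * u i)) *
            star (β.b l * u j)) := by simp only [mul_assoc]
      _ = _ := by
        rw [h5, add_mul, mul_add]
        congr 1
        split_ifs with h
        · rw [h]
        · rw [zero_mul, mul_zero]
  simp only [h3, Finset.sum_add_distrib]
  congr 1
  simp

/-- S5: the amplification is almost multiplicative -/
theorem thm_S5 (h0 : StS0.{u}) (hB : StBAS.{u}) : StS5.{u} := by
  intro A _ _ _ n X W β u e hW hnW hN hloc T i j
  obtain ⟨-, -, hg, hgs, -, hT⟩ := h0 A n X W β u e hW hnW hN hloc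
  obtain ⟨hmono, hCS, hmul, hnn, -, hpos, hconj, hstar, hsa⟩ := hB A T
  obtain ⟨-, -, hT2⟩ := hT T j
  have hNr : (1 : ℝ) ≤ β.N := by exact_mod_cast hN
  have hW0 : 0 < W := by linarith
  have hsW : 0 < √W := Real.sqrt_pos.mpr hW0
  have hee : star e = e := (IsSelfAdjoint.of_nonneg hloc.e0)
  have hte : 0 ≤ tr T e := by
    have := hmono 0 e hloc.e0
    simpa [tr] using this
  -- `T(e e e) ≤ T(e)`
  have h3 : n2 T (u j * e) ≤ tr T e := by
    have h4 : star (u j * e) * (u j * e) = e * (e * e) := by
      rw [star_mul, hee]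
      calc e * star (u j) * (u j * e) = e * ((star (u j) * u j) * e) := by simp only [mul_assoc]
        _ = _ := by rw [hloc.orth j j, if_pos rfl]
    have h5 : n2 T (u j * e) = tr T (e * (e * e)) := by
      unfold n2 tr; rw [h4]
    rw [h5]
    have h6 : e * e ≤ e := by
      have h7 : 0 ≤ CFC.sqrt e := CFC.sqrt_nonneg e
      have h8 : CFC.sqrt e * CFC.sqrt e = e := CFC.sqrt_mul_sqrt_self e hloc.e0
      have h9 : star (CFC.sqrt e) = CFC.sqrt e := IsSelfAdjoint.of_nonneg h7
      have h10 := star_left_conjugate_le_conjugate hloc.e1 (CFC.sqrt e)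
      rw [h9, mul_one, h8] at h10
      calc e * e = (CFC.sqrt e * CFC.sqrt e) * (CFC.sqrt e * CFC.sqrt e) := by rw [h8]
        _ = CFC.sqrt e * (CFC.sqrt e * CFC.sqrt e) * CFC.sqrt e := by simp only [mul_assoc]
        _ = CFC.sqrt e * e * CFC.sqrt e := by rw [h8]
        _ ≤ e := h10
    have h7 : e * (e * e) ≤ e * e := by
      have h10 := star_left_conjugate_le_conjugate hloc.e1 e
      rw [hee, mul_one] at h10
      rw [← mul_assoc]; exact h10
    exact hmono _ _ (h7.trans h6)
  have hsum : ∀ l, n2 T (β.g l l * u j) ≤ 1 / (W * (β.N : ℝ) ^ 2) * tr T e := by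
    intro l
    have h1 : star (β.g l l * u j) * (β.g l l * u j) ≤
        ∑ k, ∑ l, star (β.g k l * u j) * (β.g k l * u j) := by
      refine le_trans ?_ (Finset.single_le_sum (f := fun k =>
        ∑ l, star (β.g k l * u j) * (β.g k l * u j)) (fun k _ =>
          Finset.sum_nonneg fun l _ => star_mul_self_nonneg _) (Finset.mem_univ l))
      exact Finset.single_le_sum (f := fun m => star (β.g l m * u j) * (β.g l m * u j))
        (fun m _ => star_mul_self_nonneg _) (Finset.mem_univ l)
    have h2 := hmono _ _ (h1.trans (hgs j))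
    have h3 : tr T ((1 / (W * (β.N : ℝ) ^ 2)) • e) = 1 / (W * (β.N : ℝ) ^ 2) * tr T e := by
      unfold tr
      have h4 : (1 / (W * (β.N : ℝ) ^ 2)) • e = ((1 / (W * (β.N : ℝ) ^ 2) : ℝ) : ℂ) • e := by
        rw [Complex.coe_smul]
      rw [h4, map_smul, smul_eq_mul, Complex.re_ofReal_mul]
    rw [h3] at h2
    exact h2
  -- the diagonal errors
  have hdiag : ∀ l, ‖T.1.f (star (u j * e) * (β.g l l * u j))‖ ≤ 1 / (√W * β.N) * tr T e := by
    intro l
    have h1 := hCS (u j * e) (β.g l l * u j)
    have h2 : n2 T (u j * e) * n2 T (β.g l l * u j) ≤ (1 / (√W * β.N) * tr T e) ^ 2 := by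
      calc n2 T (u j * e) * n2 T (β.g l l * u j)
          ≤ tr T e * (1 / (W * (β.N : ℝ) ^ 2) * tr T e) :=
            mul_le_mul h3 (hsum l) (hnn _).2.1 hte
        _ = (1 / (√W * β.N) * tr T e) ^ 2 := by
            rw [mul_pow, div_pow, mul_pow, Real.sq_sqrt hW0.le]; ring
    exact (sq_le_sq₀ (norm_nonneg _) (by positivity)).1 (h1.trans h2)
  -- the norm of `u i`
  have hui : ‖u i‖ ≤ 1 := by
    have h1 : ‖star (u i) * u i‖ ≤ 1 := by
      rw [hloc.orth i i, if_pos rfl]
      exact (CStarAlgebra.norm_le_one_iff_of_nonneg e hloc.e0).2 hloc.e1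
    rw [CStarRing.norm_star_mul_self] at h1
    nlinarith [norm_nonneg (u i)]
  have hX : ∀ k l, ‖star (u i) * (β.g k l * u i)‖ ≤ 1 / (√W * β.N) := by
    intro k l
    calc ‖star (u i) * (β.g k l * u i)‖ ≤ ‖star (u i)‖ * ‖β.g k l * u i‖ := norm_mul_le _ _
      _ ≤ 1 * (1 / (√W * β.N)) := by
          rw [norm_star]
          exact mul_le_mul hui (hg k l i) (norm_nonneg _) zero_le_one
      _ = _ := one_mul _
  have hoff : ∀ k l, ‖T.1.f ((β.b k * u j) * ((star (u i) * (β.g k l * u i)) *
      star (β.b l * u j)))‖ ≤ 1 / (√W * β.N) *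
        ((n2 T (β.b k * u j) + n2 T (β.b l * u j)) / 2) := by
    intro k l
    set X1 := star (u i) * (β.g k l * u i) with hX1
    have h1 := hCS (star (β.b k * u j)) (X1 * star (β.b l * u j))
    rw [star_star] at h1
    have h2 : n2 T (star (β.b k * u j)) = n2 T (β.b k * u j) := (hnn _).1
    have h4 : n2 T (X1 * star (β.b l * u j)) ≤ (1 / (√W * β.N)) ^ 2 * n2 T (β.b l * u j) := by
      have h5 := (hmul X1 (star (β.b l * u j))).1
      rw [(hnn (β.b l * u j)).1] at h5
      refine h5.trans (mul_le_mul_of_nonneg_right ?_ (hnn _).2.1)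
      exact pow_le_pow_left₀ (norm_nonneg _) (hX k l) 2
    rw [h2] at h1
    have h6 := (hnn (β.b k * u j)).2.1
    have h7 := (hnn (β.b l * u j)).2.1
    have h8 : n2 T (β.b k * u j) * n2 T (X1 * star (β.b l * u j)) ≤
        (1 / (√W * β.N) * ((n2 T (β.b k * u j) + n2 T (β.b l * u j)) / 2)) ^ 2 := by
      calc n2 T (β.b k * u j) * n2 T (X1 * star (β.b l * u j))
          ≤ n2 T (β.b k * u j) * ((1 / (√W * β.N)) ^ 2 * n2 T (β.b l * u j)) :=
            mul_le_mul_of_nonneg_left h4 h6
        _ = (1 / (√W * β.N)) ^ 2 * (n2 T (β.b k * u j) * n2 T (β.b l * u j)) := by ring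
        _ ≤ (1 / (√W * β.N)) ^ 2 * ((n2 T (β.b k * u j) + n2 T (β.b l * u j)) / 2) ^ 2 := by
            refine mul_le_mul_of_nonneg_left ?_ (sq_nonneg _)
            nlinarith [sq_nonneg (n2 T (β.b k * u j) - n2 T (β.b l * u j))]
        _ = _ := by ring
    exact (sq_le_sq₀ (norm_nonneg _) (by positivity)).1 (h1.trans h8)
  -- the trace of the product
  have hmain : T.1.f (star (β.s0 u i j) * β.s0 u i j) =
      (β.N : ℂ) * T.1.f (e * e) + ∑ l, T.1.f (star (u j * e) * (β.g l l * u j)) +
      ∑ k, ∑ l, T.1.f ((β.b k * u j) * ((star (u i) * (β.g k l * u i)) *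
        star (β.b l * u j))) := by
    rw [s5_ident (β.R W X) β u e hloc i j, map_add, map_sum, map_sum]
    congr 1
    · have h1 : ∀ l, T.1.f ((β.b l * u j) * (e * star (β.b l * u j))) =
          T.1.f (e * e) + T.1.f (star (u j * e) * (β.g l l * u j)) := by
        intro l
        rw [T.1.tr, ← map_add]
        congr 1
        rw [star_mul, star_mul, hee]
        have h4 : star (β.b l) * β.b l = 1 + β.g l l := by
          unfold Blk.g; rw [if_pos rfl]; abel
        calc e * (star (u j) * star (β.b l)) * (β.b l * u j)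
            = e * (star (u j) * ((star (β.b l) * β.b l) * u j)) := by simp only [mul_assoc]
          _ = e * (star (u j) * ((1 + β.g l l) * u j)) := by rw [h4]
          _ = e * (star (u j) * u j) + e * star (u j) * (β.g l l * u j) := by
              rw [add_mul, one_mul, mul_add, mul_add, mul_assoc e]
          _ = _ := by rw [hloc.orth j j, if_pos rfl]
      rw [Finset.sum_congr rfl fun l _ => h1 l, Finset.sum_add_distrib]
      simp
    · refine Finset.sum_congr rfl fun k _ => ?_
      rw [map_sum]
  have hE1 : |(∑ l, T.1.f (star (u j * e) * (β.g l l * u j))).re| ≤ 1 / √W * (β.N * tr T e) := by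
    refine (Complex.abs_re_le_norm _).trans ((norm_sum_le _ _).trans ?_)
    refine (Finset.sum_le_sum fun l _ => hdiag l).trans ?_
    rw [Finset.sum_const, Finset.card_univ, Fintype.card_fin, nsmul_eq_mul]
    have h1 : (β.N : ℝ) * (1 / (√W * β.N) * tr T e) = 1 / √W * tr T e := by
      field_simp
    rw [h1]
    have h2 : tr T e ≤ β.N * tr T e := by nlinarith
    exact mul_le_mul_of_nonneg_left h2 (by positivity)
  have hE2 : |(∑ k, ∑ l, T.1.f ((β.b k * u j) * ((star (u i) * (β.g k l * u i)) *
        star (β.b l * u j)))).re| ≤ 2 / √W * (β.N * tr T e) := by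
    refine (Complex.abs_re_le_norm _).trans ((norm_sum_le _ _).trans ?_)
    refine (Finset.sum_le_sum fun k _ => norm_sum_le _ _).trans ?_
    refine (Finset.sum_le_sum fun k _ => Finset.sum_le_sum fun l _ => hoff k l).trans ?_
    have h1 : ∑ k, ∑ l, 1 / (√W * β.N) * ((n2 T (β.b k * u j) + n2 T (β.b l * u j)) / 2) =
        1 / √W * ∑ l, n2 T (β.b l * u j) := by
      simp only [← Finset.mul_sum, ← Finset.sum_div, Finset.sum_add_distrib]
      rw [Finset.sum_const, Finset.card_univ, Fintype.card_fin]
      simp only [Finset.sum_const, Finset.card_univ, Fintype.card_fin, nsmul_eq_mul]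
      rw [← Finset.mul_sum]
      field_simp
      ring
    rw [h1]
    calc 1 / √W * ∑ l, n2 T (β.b l * u j) ≤ 1 / √W * (2 * (β.N * tr T e)) :=
          mul_le_mul_of_nonneg_left hT2 (by positivity)
      _ = _ := by ring
  have hfin : n2 T (β.s0 u i j) = β.N * tr T (e * e) +
      (∑ l, T.1.f (star (u j * e) * (β.g l l * u j))).re +
      (∑ k, ∑ l, T.1.f ((β.b k * u j) * ((star (u i) * (β.g k l * u i)) *
        star (β.b l * u j)))).re := by
    unfold n2
    rw [hmain, Complex.add_re, Complex.add_re]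
    unfold tr
    rw [← Complex.ofReal_natCast, Complex.re_ofReal_mul]
  have h1 := (abs_le.1 hE1).1
  have h2 := (abs_le.1 hE2).1
  rw [hfin]
  have h3 : 3 / √W * (β.N * tr T e) = 1 / √W * (β.N * tr T e) + 2 / √W * (β.N * tr T e) := by ring
  rw [h3]
  linarith

end

end Pool.Agent.H667R5.TW
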