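import Pool.Agent.H667R5.TW.Stubs

/-! Task UG of project TW: uniform McDuff implies uniform property Gamma. -/

set_option autoImplicit false

namespace Pool.Agent.H667R5.TW

open Pool.Agent.H327R4.Pure
open scoped CStarAlgebra ComplexOrder Matrix

universe u v

section ug

variable {A : Type u} [CStarAlgebra A] [PartialOrder A] [StarOrderedRing A]

omit [PartialOrder A] [StarOrderedRing A] in
theorem ug_n2_neg (T : TS A) (x : A) : n2 T (-x) = n2 T x := by
  unfold n2
  rw [star_neg, neg_mul_neg]

omit [PartialOrder A] [StarOrderedRing A] in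
theorem ug_tr_sub (T : TS A) (x y : A) : tr T (x - y) = tr T x - tr T y := by
  unfold tr
  rw [map_sub, Complex.sub_re]

omit [PartialOrder A] [StarOrderedRing A] in
theorem ug_tr_add (T : TS A) (x y : A) : tr T (x + y) = tr T x + tr T y := by
  unfold tr
  rw [map_add, Complex.add_re]

omit [PartialOrder A] [StarOrderedRing A] in
theorem ug_tr_zero (T : TS A) : tr T 0 = 0 := by
  unfold tr
  rw [map_zero, Complex.zero_re]

/-- `|T(x d)| ≤ ‖x‖ T(d)` for `d ≥ 0` -/
theorem ug_abs (hB : StBAS.{u}) (T : TS A) (x d : A) (hd : 0 ≤ d) :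
    ‖T.1.f (x * d)‖ ≤ ‖x‖ * tr T d := by
  obtain ⟨h1, h2, h3, h4, h5, h6, h7, h8, h9⟩ := hB A T
  have hs : CFC.sqrt d * CFC.sqrt d = d := CFC.sqrt_mul_sqrt_self d hd
  have hsa : star (CFC.sqrt d) = CFC.sqrt d := (CFC.sqrt_nonneg d).isSelfAdjoint
  have e0 : n2 T (CFC.sqrt d) = tr T d := by
    unfold n2 tr
    rw [hsa, hs]
  have hn : 0 ≤ tr T d := by
    rw [← e0]; exact (h4 _).2.1
  have e1 := h2 (star (x * CFC.sqrt d)) (CFC.sqrt d)
  rw [star_star, mul_assoc, hs, (h4 (x * CFC.sqrt d)).1, e0] at e1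
  have e2 := (h3 x (CFC.sqrt d)).1
  rw [e0] at e2
  have e3 : ‖T.1.f (x * d)‖ ^ 2 ≤ (‖x‖ * tr T d) ^ 2 := by
    calc ‖T.1.f (x * d)‖ ^ 2 ≤ n2 T (x * CFC.sqrt d) * tr T d := e1
      _ ≤ (‖x‖ ^ 2 * tr T d) * tr T d := mul_le_mul_of_nonneg_right e2 hn
      _ = (‖x‖ * tr T d) ^ 2 := by ring
  exact abs_le_of_sq_le_sq' e3 (mul_nonneg (norm_nonneg x) hn) |>.2

end ug

theorem thm_UG (hB : StBAS.{u}) (hC : StCPB.{u}) : StUG.{u} := by
  intro A _ _ _ hU n hn X ε hε
  set B : ℝ := ∑ x ∈ X, ‖x‖ with hBdef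
  have hB0 : 0 ≤ B := Finset.sum_nonneg (fun x _ => norm_nonneg x)
  have hBx : ∀ x ∈ X, ‖x‖ ≤ B := fun x hx =>
    Finset.single_le_sum (f := fun x : A => ‖x‖) (fun y _ => norm_nonneg y) hx
  set δ : ℝ := min ε (min (ε ^ 2 / 4) (ε / (6 * (B + 1)))) with hδdef
  have hδ : 0 < δ := by
    rw [hδdef]
    apply lt_min hε
    apply lt_min
    · positivity
    · positivity
  have hδ1 : δ ≤ ε := min_le_left _ _
  have hδ2 : δ ≤ ε ^ 2 / 4 := (min_le_right _ _).trans (min_le_left _ _)
  have hδ3 : δ ≤ ε / (6 * (B + 1)) := (min_le_right _ _).trans (min_le_right _ _)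
  obtain ⟨P, hP, hP1, hT⟩ := hU n hn X δ hδ
  obtain ⟨hstar, hpos, _, hle⟩ := (hC A n).2.2.2.2.2 P hP
  have hle := hle hP1
  refine ⟨fun i => P i i, hpos, hP1, ?_⟩
  intro T
  obtain ⟨h1, h2, h3, h4, h5, h6, h7, h8, h9⟩ := hB A T
  obtain ⟨t1, t2, t3⟩ := hT T
  -- each term of the defect is nonnegative and at most δ
  have hterm0 : ∀ i j, 0 ≤ tr T (P j j) - n2 T (P i j) := by
    intro i j
    have := h1 _ _ (hle i j)
    unfold n2
    unfold tr at this ⊢
    linarith
  have hdef : defect T P = ∑ i, ∑ j, (tr T (P j j) - n2 T (P i j)) := by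
    unfold defect dsum
    have : tr T (∑ i, P i i) = ∑ i, tr T (P i i) := by
      unfold tr
      rw [map_sum, Complex.re_sum]
    rw [this]
    simp only [Finset.sum_sub_distrib, Finset.sum_const, Finset.card_univ, Fintype.card_fin,
      nsmul_eq_mul]
  have hterm : ∀ i j, tr T (P j j) - n2 T (P i j) ≤ δ := by
    intro i j
    rw [hdef] at t2
    refine le_trans ?_ t2
    calc tr T (P j j) - n2 T (P i j) ≤ ∑ j', (tr T (P j' j') - n2 T (P i j')) :=
          Finset.single_le_sum (f := fun j' => tr T (P j' j') - n2 T (P i j'))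
            (fun j' _ => hterm0 i j') (Finset.mem_univ j)
      _ ≤ ∑ i', ∑ j', (tr T (P j' j') - n2 T (P i' j')) :=
          Finset.single_le_sum (f := fun i' => ∑ j', (tr T (P j' j') - n2 T (P i' j')))
            (fun i' _ => Finset.sum_nonneg (fun j' _ => hterm0 i' j')) (Finset.mem_univ i)
  have htr1 : tr T (1 : A) ≤ 1 := by
    have e1 := (h4 (1 : A)).2.2.2
    have e2 : ‖(1 : A)‖ ≤ 1 := by
      rcases subsingleton_or_nontrivial A with h | h
      · rw [Subsingleton.elim (1 : A) 0, norm_zero]; norm_num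
      · rw [CStarRing.norm_one]
    exact (Complex.re_le_norm _).trans (e1.trans e2)
  have hn2le : ∀ i j, n2 T (P i j) ≤ 1 := by
    intro i j
    have e1 : P j j ≤ dsum P := by
      unfold dsum
      exact Finset.single_le_sum (f := fun i => P i i) (fun i _ => hpos i) (Finset.mem_univ j)
    have := h1 _ _ (e1.trans hP1)
    linarith [hterm0 i j]
  refine ⟨t1.trans hδ1, ?_, ?_, ?_⟩
  · intro i
    have e1 := hterm i i
    unfold n2 at e1
    rw [hstar i i] at e1
    rw [ug_tr_sub]
    unfold tr at e1 ⊢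
    linarith
  · intro i j hij
    have q1 : P i i * P i i ≤ P i i := by
      have := hle i i
      rwa [hstar i i] at this
    have q2 : P i i ≤ 1 - P j j := by
      rw [le_sub_iff_add_le]
      refine le_trans ?_ hP1
      unfold dsum
      have : P i i + P j j = ∑ k ∈ ({i, j} : Finset (Fin n)), P k k := by
        rw [Finset.sum_pair hij]
      rw [this]
      exact Finset.sum_le_sum_of_subset_of_nonneg (Finset.subset_univ _) (fun k _ _ => hpos k)
    have e1 : n2 T (P i i * P j j) = tr T (star (P j j) * (P i i * P i i) * P j j) := by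
      unfold n2 tr
      rw [star_mul, hstar i i]
      simp only [mul_assoc]
    have e2 := h7 _ _ (P j j) (q1.trans q2)
    have e3 := h7 _ _ (1 - P j j) (hpos j)
    have e4 := hterm j j
    have e5 : tr T (star (P j j) * (1 - P j j) * P j j) =
        tr T (P j j * P j j) - tr T (P j j * P j j * P j j) := by
      rw [hstar j j, ← ug_tr_sub]
      congr 1
      noncomm_ring
    have e6 : tr T (star (1 - P j j) * P j j * (1 - P j j)) =
        tr T (P j j) - 2 * tr T (P j j * P j j) + tr T (P j j * P j j * P j j) := by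
      rw [star_sub, star_one, hstar j j]
      have : (1 - P j j) * P j j * (1 - P j j) =
          P j j - (P j j * P j j + P j j * P j j) + P j j * P j j * P j j := by
        noncomm_ring
      rw [this, ug_tr_add, ug_tr_sub, ug_tr_add]
      ring
    have e7 : n2 T (P j j) = tr T (P j j * P j j) := by
      unfold n2 tr
      rw [hstar j j]
    rw [mul_zero, zero_mul, ug_tr_zero] at e3
    show n2 T (P i i * P j j) ≤ ε
    rw [e1]
    linarith
  · intro x hx i
    refine ⟨(t3 x hx i i).trans hδ1, ?_⟩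
    -- the diagonal traces are close
    have hx0 := norm_nonneg x
    have hclose : ∀ j, ‖T.1.f (x * P i i) - T.1.f (x * P j j)‖ ≤ 2 * ‖x‖ * δ + √δ := by
      intro j
      have a1 : ‖T.1.f (x * (P i i - P i j * P j i))‖ ≤ ‖x‖ * δ := by
        have b1 : 0 ≤ P i i - P i j * P j i := by
          rw [sub_nonneg]
          have := hle j i
          rwa [hstar j i] at this
        refine (ug_abs hB T x _ b1).trans ?_
        apply mul_le_mul_of_nonneg_left _ hx0
        have := hterm j i
        unfold n2 at this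
        rw [hstar j i] at this
        rw [ug_tr_sub]
        unfold tr at this ⊢
        linarith
      have a2 : ‖T.1.f (x * (P j j - P j i * P i j))‖ ≤ ‖x‖ * δ := by
        have b1 : 0 ≤ P j j - P j i * P i j := by
          rw [sub_nonneg]
          have := hle i j
          rwa [hstar i j] at this
        refine (ug_abs hB T x _ b1).trans ?_
        apply mul_le_mul_of_nonneg_left _ hx0
        have := hterm i j
        unfold n2 at this
        rw [hstar i j] at this
        rw [ug_tr_sub]
        unfold tr at this ⊢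
        linarith
      have a3 : ‖T.1.f ((x * P j i - P j i * x) * P i j)‖ ≤ √δ := by
        have c1 := h2 (star (x * P j i - P j i * x)) (P i j)
        rw [star_star, (h4 _).1] at c1
        have c2 := t3 x hx j i
        have c3 := hn2le i j
        have c4 := (h4 (P i j)).2.1
        have c5 : ‖T.1.f ((x * P j i - P j i * x) * P i j)‖ ^ 2 ≤ δ := by
          refine c1.trans ?_
          calc n2 T (x * P j i - P j i * x) * n2 T (P i j) ≤ δ * 1 :=
                mul_le_mul c2 c3 c4 hδ.le
            _ = δ := mul_one δ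
        exact Real.le_sqrt_of_sq_le c5
      have a4 : T.1.f (x * P i i) - T.1.f (x * P j j) =
          T.1.f (x * (P i i - P i j * P j i)) - T.1.f ((x * P j i - P j i * x) * P i j)
            - T.1.f (x * (P j j - P j i * P i j)) := by
        have d1 : T.1.f (x * (P i j * P j i)) = T.1.f (P j i * x * P i j) := by
          rw [← mul_assoc, T.1.tr, mul_assoc]
        rw [mul_sub, mul_sub, sub_mul, map_sub, map_sub, map_sub, d1, mul_assoc x (P j i) (P i j)]
        ring
      rw [a4]
      calc ‖T.1.f (x * (P i i - P i j * P j i)) - T.1.f ((x * P j i - P j i * x) * P i j)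
            - T.1.f (x * (P j j - P j i * P i j))‖
          ≤ ‖T.1.f (x * (P i i - P i j * P j i)) - T.1.f ((x * P j i - P j i * x) * P i j)‖
            + ‖T.1.f (x * (P j j - P j i * P i j))‖ := norm_sub_le _ _
        _ ≤ (‖T.1.f (x * (P i i - P i j * P j i))‖ +
            ‖T.1.f ((x * P j i - P j i * x) * P i j)‖) +
            ‖T.1.f (x * (P j j - P j i * P i j))‖ := by gcongr; exact norm_sub_le _ _
        _ ≤ 2 * ‖x‖ * δ + √δ := by linarith
    have hrest : ‖T.1.f (x * (1 - dsum P))‖ ≤ ‖x‖ * δ := by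
      refine (ug_abs hB T x _ (sub_nonneg.mpr hP1)).trans ?_
      exact mul_le_mul_of_nonneg_left t1 hx0
    have hn0 : (0 : ℝ) < n := by exact_mod_cast hn
    have hnc : (n : ℂ) ≠ 0 := by exact_mod_cast hn0.ne'
    have hsum : (n : ℂ) * T.1.f (x * P i i) - T.1.f x =
        ∑ j, (T.1.f (x * P i i) - T.1.f (x * P j j)) - T.1.f (x * (1 - dsum P)) := by
      have : T.1.f (x * (1 - dsum P)) = T.1.f x - ∑ j, T.1.f (x * P j j) := by
        rw [mul_sub, mul_one, map_sub]
        unfold dsum
        rw [Finset.mul_sum, map_sum]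
      rw [this, Finset.sum_sub_distrib]
      simp only [Finset.sum_const, Finset.card_univ, Fintype.card_fin, nsmul_eq_mul]
      ring
    have hbig : ‖(n : ℂ) * T.1.f (x * P i i) - T.1.f x‖ ≤ n * (2 * ‖x‖ * δ + √δ) + ‖x‖ * δ := by
      rw [hsum]
      refine (norm_sub_le _ _).trans ?_
      refine add_le_add ?_ hrest
      refine (norm_sum_le _ _).trans ?_
      refine (Finset.sum_le_card_nsmul _ _ (2 * ‖x‖ * δ + √δ) (fun j _ => hclose j)).trans ?_
      rw [Finset.card_univ, Fintype.card_fin, nsmul_eq_mul]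
    have hfin : ‖T.1.f (x * P i i) - T.1.f x / n‖ * n ≤
        (3 * ‖x‖ * δ + √δ) * n := by
      have e1 : ‖T.1.f (x * P i i) - T.1.f x / n‖ * n =
          ‖(n : ℂ) * T.1.f (x * P i i) - T.1.f x‖ := by
        have : (n : ℂ) * T.1.f (x * P i i) - T.1.f x =
            (T.1.f (x * P i i) - T.1.f x / n) * n := by
          field_simp
        rw [this, norm_mul]
        congr 1
        simp
      rw [e1]
      refine hbig.trans ?_
      have hn1 : (1 : ℝ) ≤ n := by exact_mod_cast hn
      nlinarith [mul_nonneg hx0 hδ.le]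
    have hfin2 := le_of_mul_le_mul_right hfin hn0
    refine hfin2.trans ?_
    have hs : √δ ≤ ε / 2 := by
      rw [Real.sqrt_le_left (by positivity)]
      linarith [hδ2, sq_nonneg ε, (by ring : (ε / 2) ^ 2 = ε ^ 2 / 4)]
    have hb : 3 * ‖x‖ * δ ≤ ε / 2 := by
      have e1 : ‖x‖ * δ ≤ (B + 1) * (ε / (6 * (B + 1))) :=
        mul_le_mul (by linarith [hBx x hx]) hδ3 hδ.le (by linarith)
      have e2 : (B + 1) * (ε / (6 * (B + 1))) = ε / 6 := by
        field_simp
      nlinarith
    linarith

end Pool.Agent.H667R5.TW
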