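import Pool.Agent.H327R4.Pure.All4
import Pool.Agent.H667R5.TW.TBAS
import Pool.Agent.H667R5.TW.TBSTEPb
import Pool.Agent.H667R5.TW.TCPB
import Pool.Agent.H667R5.TW.TCSM
import Pool.Agent.H667R5.TW.TCUT
import Pool.Agent.H667R5.TW.TDATA
import Pool.Agent.H667R5.TW.TDTR
import Pool.Agent.H667R5.TW.TERR
import Pool.Agent.H667R5.TW.TEXC
import Pool.Agent.H667R5.TW.TFAM
import Pool.Agent.H667R5.TW.TGN
import Pool.Agent.H667R5.TW.THT
import Pool.Agent.H667R5.TW.TIT
import Pool.Agent.H667R5.TW.TLAY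
import Pool.Agent.H667R5.TW.TLN
import Pool.Agent.H667R5.TW.TLOC
import Pool.Agent.H667R5.TW.TMIN
import Pool.Agent.H667R5.TW.TMULTI
import Pool.Agent.H667R5.TW.TPIECE
import Pool.Agent.H667R5.TW.TREF
import Pool.Agent.H667R5.TW.TRQ
import Pool.Agent.H667R5.TW.TRW
import Pool.Agent.H667R5.TW.TS0b
import Pool.Agent.H667R5.TW.TS1
import Pool.Agent.H667R5.TW.TS2
import Pool.Agent.H667R5.TW.TS3
import Pool.Agent.H667R5.TW.TS4b
import Pool.Agent.H667R5.TW.TS5
import Pool.Agent.H667R5.TW.TSPLIT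
import Pool.Agent.H667R5.TW.TSTEP1
import Pool.Agent.H667R5.TW.TTH1
import Pool.Agent.H667R5.TW.TTINY
import Pool.Agent.H667R5.TW.TUG

/-!
# Strict comparison and nuclearity imply that A is uniformly McDuff

The authors of the modules (all agents of the team): helper8 (BAS), helper138 (BSTEP), helper747
(CPB), helper370 (CSM DTR LAY LN SPLIT), helper526 (CUT GN S2), helper764 (DATA), helper910 (ERR),
helper70 (EXC), helper484 (FAM), helper56 (HT), helper563 (IT TH1), helper520 (LOC), helper141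
(MIN S4), helper672 (MULTI), helper501 (PIECE), helper784 (REF), helper769 (RQ RW), helper581
(S0 S1), helper115 (S3), helper584 (S5), helper443 (STEP1), helper263 (TINY), helper602 (UG),
and helper327's library `Pool.Agent.H327R4.Pure` with its authors.
-/

set_option autoImplicit false

namespace Pool.Agent.H667R5.TW

open Pool.Agent.H327R4.Pure

universe u v

theorem bas' : StBAS.{u} := thm_BAS
theorem csmod' : StCSM.{u} := thm_CSM
theorem cpb' : StCPB.{u} := thm_CPB csmod'
theorem gn' : StGN.{u} := thm_GN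
theorem ln' : StLN.{u} := thm_LN
theorem cut' : StCUT.{u} := thm_CUT bas'
theorem th1' : StTH1.{u} := thm_TH1 mt' ct' rk' mon' small' full' cake'
theorem rw' : StRW.{u} := thm_RW diag' exa' rk'
theorem loc' : StLOC.{u} := thm_LOC bas' th1' rw' ct' rk' low'
theorem s0' : StS0.{u} := thm_S0b bas' gn'
theorem s1' : StS1.{u} := thm_S1 bas' s0'
theorem s2' : StS2.{u} := thm_S2 s0' csmod' bas'
theorem s3' : StS3.{u} := thm_S3 bas' s0' csmod'
theorem s4' : StS4.{u} := thm_S4b bas' s0' ln'
theorem s5' : StS5.{u} := thm_S5 s0' bas'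
theorem bstep' : StBSTEP.{u} := thm_BSTEPb loc' cut' cpb' s0' s1' s2' s3' s4' s5' bas'
theorem multi' : StMULTI.{u} := thm_MULTI bstep' cpb' bas'
theorem dtr' : StDTR.{u} := thm_DTR bas' cut' s0' s1'
theorem tiny' : StTINY.{u} := thm_TINY multi' dtr' bas' cpb'
theorem step1' : StSTEP1.{u} := thm_STEP1 bas' cpb'
theorem it' : StIT.{u} := thm_IT step1' cpb' bas'
theorem ug' : StUG.{u} := thm_UG bas' cpb'
theorem fam' : StFAM.{u} := thm_FAM bas'
theorem ref' : StREF.{u} := thm_REF bas'
theorem exc' : StEXC.{u} := thm_EXC bas' ref'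
theorem rq' : StRQ.{u} := thm_RQ bas'
theorem piece' : StPIECE.{u} := thm_PIECE bas' cut' ln' rq' thm_LAY thm_ERR
theorem ht' : StHT.{u} := thm_HT fam' exc' piece' rq' bas'
theorem min' : StMIN.{u} := thm_MIN cpt'
theorem data' : StDATA.{u} := thm_DATA ht' min' thm_SPLIT

/-- a simple unital infinite-dimensional nuclear C*-algebra with strict comparison is uniformly
McDuff -/
theorem umcd (A : Type u) [CStarAlgebra A] [PartialOrder A] [StarOrderedRing A]
    (hs : SimpleC A) (hf : ¬ FiniteDimensional ℂ A) (hn : NuclearC A) (hc : SC A) :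
    ∀ n : ℕ, 1 ≤ n → UMcD A n :=
  fun n h1 => it' A n h1 (tiny' A hs hf hc (data' A hn) n h1)

/-- ... and has uniform property Gamma -/
theorem ugamma (A : Type u) [CStarAlgebra A] [PartialOrder A] [StarOrderedRing A]
    (hs : SimpleC A) (hf : ¬ FiniteDimensional ℂ A) (hn : NuclearC A) (hc : SC A) : UGamma A :=
  ug' A (umcd A hs hf hn hc)

end Pool.Agent.H667R5.TW
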