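import Pool.Agent.H667R5.TW.Stubs
import Pool.Agent.H327R4.SI.Stubs

/-!
# Bridges to Part II
-/

set_option autoImplicit false

namespace Pool.Agent.H667R5.TW

open Pool.Agent.H327R4.Pure
open scoped CStarAlgebra ComplexOrder Matrix

universe u v

/-- BR: the two forms of nuclearity -/
def StBR : Prop := ∀ (A : Type u) [CStarAlgebra A] [PartialOrder A] [StarOrderedRing A],
  NuclearC A → Pool.Agent.H327R4.SI.CPAP A

/-- BU: the two forms of the uniform McDuff property -/
def StBU : Prop := ∀ (A : Type u) [CStarAlgebra A] [PartialOrder A] [StarOrderedRing A],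
  UMcD A 2 → Pool.Agent.H327R4.SI.UM A

end Pool.Agent.H667R5.TW
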