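import Pool.Agent.H667R5.TW.Stubs

set_option autoImplicit false

namespace Pool.Agent.H667R5.TW

open Pool.Agent.H327R4.Pure
open scoped CStarAlgebra ComplexOrder Matrix

universe u v

theorem lay_aux (p : ℕ) : ∀ (k : ℕ) (d : Fin p → ℝ), (∀ l, 0 ≤ d l) →
    (Finset.univ.filter (fun l => 0 < d l)).card ≤ k →
    ∃ (M : ℕ) (w : Fin M → ℝ) (E : Fin M → Finset (Fin p)),
      (∀ s, 0 ≤ w s ∧ (E s).Nonempty ∧ ∀ l ∈ E s, 0 < d l) ∧
      (∀ l, ∑ s, (if l ∈ E s then w s else 0) = d l) ∧
      ∀ l l', ∑ s, (if l ∈ E s ∧ l' ∉ E s then w s else 0) = max (d l - d l') 0 := by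
  intro k
  induction k with
  | zero =>
    intro d hd hc
    have h0 : ∀ l, d l = 0 := by
      intro l
      by_contra hne
      have hpos : 0 < d l := lt_of_le_of_ne (hd l) (Ne.symm hne)
      have hmem : l ∈ Finset.univ.filter (fun l => 0 < d l) := by simp [hpos]
      have hcard : (Finset.univ.filter (fun l => 0 < d l)).card = 0 := Nat.le_zero.1 hc
      rw [Finset.card_eq_zero] at hcard
      rw [hcard] at hmem
      simp at hmem
    refine ⟨0, fun _ => 0, fun _ => ∅, fun s => s.elim0, ?_, ?_⟩
    · intro l; simp [h0]
    · intro l l'; simp [h0]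
  | succ k ih =>
    intro d hd hc
    set P := Finset.univ.filter (fun l => 0 < d l) with hP
    have hPm : ∀ l, l ∈ P ↔ 0 < d l := by intro l; simp [hP]
    by_cases hne : P.Nonempty
    · obtain ⟨l0, hl0, hmin⟩ := Finset.exists_min_image P d hne
      set δ := d l0 with hδ
      have hδ0 : 0 < δ := (hPm l0).1 hl0
      let d' : Fin p → ℝ := fun l => if l ∈ P then d l - δ else 0
      have hd' : ∀ l, 0 ≤ d' l := by
        intro l
        simp only [d']
        split_ifs with h
        · have := hmin l h; linarith
        · exact le_rfl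
      have hcard : (Finset.univ.filter (fun l => 0 < d' l)).card ≤ k := by
        have hss : Finset.univ.filter (fun l => 0 < d' l) ⊆ P.erase l0 := by
          intro l hl
          rw [Finset.mem_filter] at hl
          have hl2 := hl.2
          simp only [d'] at hl2
          split_ifs at hl2 with h
          · rw [Finset.mem_erase]
            refine ⟨?_, h⟩
            rintro rfl
            simp [hδ] at hl2
          · exact absurd hl2 (lt_irrefl _)
        have h1 := Finset.card_le_card hss
        rw [Finset.card_erase_of_mem hl0] at h1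
        omega
      obtain ⟨M, w, E, h1, h2, h3⟩ := ih d' hd' hcard
      have hd0 : ∀ l, l ∉ P → d l = 0 := by
        intro l hl
        rw [hPm] at hl
        exact le_antisymm (not_lt.1 hl) (hd l)
      refine ⟨M + 1, Fin.cons δ w, Fin.cons P E, ?_, ?_, ?_⟩
      · intro s
        refine Fin.cases ?_ (fun s => ?_) s
        · simp only [Fin.cons_zero]
          exact ⟨hδ0.le, hne, fun l hl => (hPm l).1 hl⟩
        · simp only [Fin.cons_succ]
          obtain ⟨a1, a2, a3⟩ := h1 s
          refine ⟨a1, a2, fun l hl => ?_⟩
          have h4 := a3 l hl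
          simp only [d'] at h4
          split_ifs at h4 with h
          · exact (hPm l).1 h
          · exact absurd h4 (lt_irrefl _)
      · intro l
        rw [Fin.sum_univ_succ]
        simp only [Fin.cons_zero, Fin.cons_succ]
        rw [h2 l]
        simp only [d']
        by_cases h : l ∈ P
        · simp [h]
        · simp [h, hd0 l h]
      · intro l l'
        rw [Fin.sum_univ_succ]
        simp only [Fin.cons_zero, Fin.cons_succ]
        rw [h3 l l']
        simp only [d']
        by_cases h : l ∈ P
        · by_cases h' : l' ∈ P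
          · simp [h, h']
          · have hl := hmin l h
            rw [if_pos ⟨h, h'⟩, if_pos h, if_neg h', hd0 l' h', max_eq_left (by linarith),
              max_eq_left (by linarith)]
            ring
        · by_cases h' : l' ∈ P
          · have hl := hmin l' h'
            rw [if_neg (fun hh => h hh.1), if_neg h, if_pos h', hd0 l h, max_eq_right (by linarith),
              max_eq_right (by linarith)]
            ring
          · rw [if_neg (fun hh => h hh.1), if_neg h, if_neg h', hd0 l h, hd0 l' h']
            simp
    · rw [Finset.not_nonempty_iff_eq_empty] at hne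
      refine ih d hd ?_
      show P.card ≤ k
      rw [hne]
      simp

theorem thm_LAY : StLAY := by
  intro p c σ
  obtain ⟨M, w, E, h1, h2, h3⟩ := lay_aux p _ (fun l => max (c l - σ) 0)
    (fun l => le_max_right _ _) le_rfl
  refine ⟨M, w, E, fun s => ⟨(h1 s).1, (h1 s).2.1, fun l hl => ?_⟩, h2, h3⟩
  have h4 := (h1 s).2.2 l hl
  rcases lt_max_iff.1 h4 with h | h
  · linarith
  · exact absurd h (lt_irrefl _)

end Pool.Agent.H667R5.TW
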