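import Pool.Agent.H667R5.TW.Stubs

set_option autoImplicit false

namespace Pool.Agent.H667R5.TW

open Pool.Agent.H327R4.Pure
open scoped CStarAlgebra ComplexOrder Matrix

universe u v

theorem thm_SPLIT : StSPLIT.{u} := by
  intro M w hw
  let n : Fin M → ℕ := fun s => ⌈w s⌉₊ + 1
  have hn : ∀ s, w s ≤ (n s : ℝ) := by
    intro s
    have := Nat.le_ceil (w s)
    simp only [n]
    push_cast
    linarith
  have hn0 : ∀ s, (0 : ℝ) < (n s : ℝ) := by
    intro s
    simp only [n]
    positivity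
  refine ⟨∑ s, n s, fun t => (finSigmaFinEquiv.symm t).1,
    fun t => w (finSigmaFinEquiv.symm t).1 / n (finSigmaFinEquiv.symm t).1, ?_, ?_⟩
  · intro t
    refine ⟨div_nonneg (hw _) (hn0 _).le, ?_⟩
    exact (div_le_one (hn0 _)).2 (hn _)
  · intro E _ _ g
    have h1 : ∑ t : Fin (∑ s, n s), (w (finSigmaFinEquiv.symm t).1 / n (finSigmaFinEquiv.symm t).1) •
        g (finSigmaFinEquiv.symm t).1 =
        ∑ q : (i : Fin M) × Fin (n i), (w q.1 / n q.1) • g q.1 :=
      Equiv.sum_comp (finSigmaFinEquiv (n := n)).symm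
        (fun q : (i : Fin M) × Fin (n i) => (w q.1 / n q.1) • g q.1)
    rw [h1, Fintype.sum_sigma]
    refine Finset.sum_congr rfl (fun s _ => ?_)
    show ∑ _y : Fin (n s), (w s / n s) • g s = w s • g s
    rw [Finset.sum_const, Finset.card_univ, Fintype.card_fin, ← Nat.cast_smul_eq_nsmul ℝ, smul_smul]
    congr 1
    field_simp [(hn0 s).ne']

end Pool.Agent.H667R5.TW
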